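import Pool.Agent.IG19.Defs

/-!
# IG19-BasicB: loads and incidences

Elementary counting.
* `sum_ld_le`: double counting, each edge contains exactly two vertices (or: at most two); e.g.
  `∑ v ∈ J, ld X v = ∑ e ∈ X, (J.filter (fun v => v ∈ e)).card` and each term is at most `2`.
* `nbr_card_le`: the map `w ↦ s(u, w)` is injective and maps the set into `B.filter (u ∈ ·)`.
* `inc_le_sum`: `B.filter (∃ v ∈ J, v ∈ e)` is the union over `v ∈ J` of `B.filter (v ∈ e)`
  (`Finset.card_biUnion_le`).
* `inc_insert`: an edge of `B` at `u` that is not counted in `inc B J` contains no vertex of `J`; the edges of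
  `B` at `u` that touch `J` are the `s(u, w)` with `w ∈ J` (as `u ∉ J`), so they are at most `J.card`; the
  edges counted in `inc B (insert u J)` are those of `inc B J` together with the edges at `u` that do not
  touch `J`.
-/

namespace Pool.Agent.IG19

open Finset

variable {n : ℕ} {A B B' X : Finset (Sym2 (Fin n))} {e : Sym2 (Fin n)} {u v : Fin n}
  {J K : Finset (Fin n)}

theorem ld_mono (h : B ⊆ B') (v : Fin n) : ld B v ≤ ld B' v :=
  card_le_card (filter_subset_filter _ h)

theorem ld_empty (v : Fin n) : ld (∅ : Finset (Sym2 (Fin n))) v = 0 := by simp [ld]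

theorem ld_union_le (v : Fin n) : ld (B ∪ X) v ≤ ld B v + ld X v := by
  unfold ld
  rw [filter_union]
  exact card_union_le _ _

theorem ld_union_eq (h : Disjoint B X) (v : Fin n) : ld (B ∪ X) v = ld B v + ld X v := by
  unfold ld
  rw [filter_union, card_union_of_disjoint]
  exact disjoint_filter_filter h

theorem ld_le_card (v : Fin n) : ld X v ≤ X.card :=
  card_filter_le _ _

theorem sum_ld_le (J : Finset (Fin n)) : ∑ v ∈ J, ld X v ≤ 2 * X.card := by
  have h1 : ∑ v ∈ J, ld X v = ∑ e ∈ X, (J.filter (fun v => v ∈ e)).card := by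
    unfold ld
    simp only [card_filter]
    exact sum_comm
  rw [h1, mul_comm, ← smul_eq_mul, ← sum_const]
  refine sum_le_sum fun e _ => ?_
  induction e using Sym2.ind with
  | _ a c =>
    refine (card_le_card (t := {a, c}) fun v hv => ?_).trans card_le_two
    have h2 := (mem_filter.1 hv).2
    rw [Sym2.mem_iff] at h2
    simpa using h2

/-- The number of `B`-neighbours of `u` in `J` is at most the load of `u`. -/
theorem nbr_card_le (J : Finset (Fin n)) (u : Fin n) :
    (J.filter (fun w => s(u, w) ∈ B)).card ≤ ld B u := by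
  refine card_le_card_of_injOn (fun w => s(u, w)) ?_ ?_
  · intro w hw
    have h1 := (mem_filter.1 (mem_coe.1 hw)).2
    exact mem_coe.2 (mem_filter.2 ⟨h1, Sym2.mem_mk_left _ _⟩)
  · intro w _ w' _ h
    exact Sym2.congr_right.1 h

theorem inc_le_sum (J : Finset (Fin n)) : inc B J ≤ ∑ v ∈ J, ld B v := by
  refine (card_le_card (t := J.biUnion fun v => B.filter (fun e => v ∈ e)) fun e he => ?_).trans
    card_biUnion_le
  obtain ⟨h1, v, hv, h2⟩ := mem_filter.1 he
  exact mem_biUnion.2 ⟨v, hv, mem_filter.2 ⟨h1, h2⟩⟩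

theorem inc_le_card (J : Finset (Fin n)) : inc B J ≤ B.card :=
  card_filter_le _ _

theorem ld_le_inc (hv : v ∈ J) : ld B v ≤ inc B J := by
  refine card_le_card fun e he => ?_
  obtain ⟨h1, h2⟩ := mem_filter.1 he
  exact mem_filter.2 ⟨h1, v, hv, h2⟩

theorem inc_union_le (J : Finset (Fin n)) : inc (B ∪ X) J ≤ inc B J + X.card := by
  unfold inc
  rw [filter_union]
  exact (card_union_le _ _).trans (Nat.add_le_add_left (card_filter_le _ _) _)

/-- Removing `u` from `insert u J` removes at least `ld B u - J.card` edges. -/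
theorem inc_insert (hu : u ∉ J) : inc B J + ld B u ≤ inc B (insert u J) + J.card := by
  have h1 : B.filter (fun e => ∃ v ∈ J, v ∈ e) ∪ B.filter (fun e => u ∈ e) =
      B.filter (fun e => ∃ v ∈ insert u J, v ∈ e) := by
    ext e
    simp only [mem_union, mem_filter, mem_insert, exists_eq_or_imp]
    rw [← and_or_left, or_comm]
  have h2 : (B.filter (fun e => ∃ v ∈ J, v ∈ e) ∩ B.filter (fun e => u ∈ e)).card ≤ J.card := by
    refine (card_le_card (t := J.image fun w => s(u, w)) fun e he => ?_).trans card_image_le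
    obtain ⟨h3, h4⟩ := mem_inter.1 he
    obtain ⟨-, v, hv, h5⟩ := mem_filter.1 h3
    have h6 := (mem_filter.1 h4).2
    refine mem_image.2 ⟨v, hv, ?_⟩
    have huv : u ≠ v := fun h => hu (h ▸ hv)
    exact ((Sym2.mem_and_mem_iff huv).1 ⟨h6, h5⟩).symm
  have h3 := card_union_add_card_inter (B.filter (fun e => ∃ v ∈ J, v ∈ e))
    (B.filter (fun e => u ∈ e))
  rw [h1] at h3
  unfold inc ld
  omega

theorem inc_singleton (u : Fin n) : inc B {u} = ld B u := by
  simp [inc, ld]

end Pool.Agent.IG19
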