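import Pool.Agent.IG19.BasicA
import Pool.Agent.IG19.BasicB

/-!
# IG19-BalStep: balanced loads, one edge of S

`Bal B V m`: the loads on `V` are `m`, `m+1`, `m+2`, the value `m` is taken, and either no vertex has load
`m + 2` or at most `m + 1` vertices have load `m` or `m + 2`.

`bal_step`.  Let `x ∈ V` with load `m`; it has at most `m` neighbours in `B` inside `V` (`nbr_card_le`);
for `y ∈ V`, `y ≠ x`, `s(x,y)` is free or in `B` (`free_or_B`).
(1) If some `y ∈ V`, `y ≠ x`, has load `m` and `s(x,y)` is free, take `e = s(x,y)`.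
(2) Otherwise all the other vertices of load `m` are `B`-neighbours of `x`, so at most `m + 1` vertices have
load `m`.  As `|V| ≥ 2m + 3` and at most `m + 1` vertices have load `m + 2`, among the at least
`|V| - 1 - m ≥ m + 2` free neighbours of `x` in `V` there is one, `y`, with load `< m + 2`, so of load
`m + 1`; take `e = s(x,y)`.
The loads of `x` and `y` grow by one, the others do not change (`e ∉ B`), so the sum grows by `2`.
After the step let `a'` be the number of vertices of load `m`.  If `a' > 0` then `Bal (insert e B) V m`: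
in (1) the number of vertices of load `m + 2` is unchanged and `a' ≤ a`; in (2) `a' = a - 1` and
`c' = c + 1`, so `a' + c' = a + c`, which is `≤ m + 1` if `c > 0` (hypothesis `top`) and also if `c = 0`
as `a ≤ m + 1`.  If `a' = 0` then `Bal (insert e B) V (m + 1)`: `x` has load `m + 1`, no load is `m + 3`.

`bal_restrict`: for nonempty `V' ⊆ V` let `m'` be the minimum of the loads on `V'`
(`m ≤ m' ≤ m + 2`); if `m' = m` the numbers only decrease; if `m' > m` no load is `m' + 2`.
-/

namespace Pool.Agent.IG19

open Finset

variable {n : ℕ} {A B : Finset (Sym2 (Fin n))}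

structure Bal (B : Finset (Sym2 (Fin n))) (V : Finset (Fin n)) (m : ℕ) : Prop where
  lo : ∀ v ∈ V, m ≤ ld B v
  hi : ∀ v ∈ V, ld B v ≤ m + 2
  ex : ∃ v ∈ V, ld B v = m
  top : (V.filter (fun v => ld B v = m + 2)).card = 0 ∨
    (V.filter (fun v => ld B v = m)).card + (V.filter (fun v => ld B v = m + 2)).card ≤ m + 1

private theorem ld_insert_aux {e : Sym2 (Fin n)} (he : e ∉ B) (v : Fin n) :
    ld (insert e B) v = ld B v + if v ∈ e then 1 else 0 := by
  unfold ld
  rw [Finset.filter_insert]
  by_cases h : v ∈ e
  · rw [if_pos h, if_pos h, Finset.card_insert_of_notMem]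
    intro h'
    exact he (Finset.mem_filter.1 h').1
  · rw [if_neg h, if_neg h, Nat.add_zero]

/-- The choice of the edge. -/
private theorem bal_choice {m : ℕ} (h : Bal B (U A) m)
    (hc : 2 * m + 3 ≤ (U A).card) {x : Fin n} (hx : x ∈ U A) (hxm : ld B x = m) :
    ∃ y ∈ U A, y ≠ x ∧ s(x, y) ∈ free A B ∧
      (ld B y = m ∨ (ld B y = m + 1 ∧ ((U A).filter (fun v => ld B v = m)).card ≤ m + 1)) := by
  classical
  by_cases h1 : ∃ y ∈ U A, y ≠ x ∧ s(x, y) ∈ free A B ∧ ld B y = m
  · obtain ⟨y, hy, hyx, hf, hl⟩ := h1
    exact ⟨y, hy, hyx, hf, Or.inl hl⟩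
  · have hN : ((U A).filter (fun w => s(x, w) ∈ B)).card ≤ m := by
      have := nbr_card_le (B := B) (U A) x
      omega
    have hins : (insert x ((U A).filter (fun w => s(x, w) ∈ B))).card ≤ m + 1 :=
      (Finset.card_insert_le _ _).trans (by omega)
    have ha : ((U A).filter (fun v => ld B v = m)).card ≤ m + 1 := by
      refine (Finset.card_le_card ?_).trans hins
      intro v hv
      obtain ⟨hvU, hvl⟩ := Finset.mem_filter.1 hv
      rw [Finset.mem_insert, Finset.mem_filter]
      by_cases hvx : v = x
      · exact Or.inl hvx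
      · refine Or.inr ⟨hvU, ?_⟩
        rcases free_or_B (B := B) hx (Ne.symm hvx) with hf | hf
        · exact absurd ⟨v, hvU, hvx, hf, hvl⟩ h1
        · exact hf
    by_contra hcon
    have hsub : U A ⊆ insert x ((U A).filter (fun w => s(x, w) ∈ B)) ∪
        (U A).filter (fun v => ld B v = m + 2) := by
      intro v hvU
      rw [Finset.mem_union, Finset.mem_insert, Finset.mem_filter, Finset.mem_filter]
      by_cases hvx : v = x
      · exact Or.inl (Or.inl hvx)
      · rcases free_or_B (B := B) hx (Ne.symm hvx) with hf | hf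
        · refine Or.inr ⟨hvU, ?_⟩
          have hlo := h.lo v hvU
          have hhi := h.hi v hvU
          have hm : ld B v ≠ m := fun hm => h1 ⟨v, hvU, hvx, hf, hm⟩
          have hm1 : ld B v ≠ m + 1 := fun hm1 => hcon ⟨v, hvU, hvx, hf, Or.inr ⟨hm1, ha⟩⟩
          omega
        · exact Or.inl (Or.inr ⟨hvU, hf⟩)
    have hle := (Finset.card_le_card hsub).trans (Finset.card_union_le _ _)
    rcases h.top with ht | ht <;> omega

theorem bal_step {m : ℕ} (hV : Valid A B) (h : Bal B (U A) m) (hc : 2 * m + 3 ≤ (U A).card) :
    ∃ e ∈ free A B, (∃ m', m ≤ m' ∧ Bal (insert e B) (U A) m') ∧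
      ∑ v ∈ U A, ld (insert e B) v = ∑ v ∈ U A, ld B v + 2 := by
  classical
  obtain ⟨x, hx, hxm⟩ := h.ex
  obtain ⟨y, hy, hyx, hf, hcase⟩ := bal_choice h hc hx hxm
  have heB : s(x, y) ∉ B := (mem_free.1 hf).2.2
  have hld : ∀ v, ld (insert s(x, y) B) v = ld B v + if v ∈ s(x, y) then 1 else 0 :=
    fun v => ld_insert_aux heB v
  have hldx : ld (insert s(x, y) B) x = m + 1 := by
    rw [hld, if_pos (Sym2.mem_mk_left x y), hxm]
  have hldy : ld (insert s(x, y) B) y = ld B y + 1 := by
    rw [hld, if_pos (Sym2.mem_mk_right x y)]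
  have hldo : ∀ v, v ≠ x → v ≠ y → ld (insert s(x, y) B) v = ld B v := by
    intro v h1 h2
    rw [hld, if_neg, Nat.add_zero]
    intro h3
    rcases Sym2.mem_iff.1 h3 with h3 | h3
    · exact h1 h3
    · exact h2 h3
  refine ⟨s(x, y), hf, ?_, ?_⟩
  · -- the new position is balanced
    set B' := insert s(x, y) B with hB'
    have hlo' : ∀ v ∈ U A, m ≤ ld B' v := by
      intro v hv
      have := h.lo v hv
      rw [hld v]
      omega
    have hhi' : ∀ v ∈ U A, ld B' v ≤ m + 2 := by
      intro v hv
      by_cases h1 : v = x
      · rw [h1, hldx]; omega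
      · by_cases h2 : v = y
        · rw [h2, hldy]
          rcases hcase with hcase | ⟨hcase, -⟩ <;> omega
        · rw [hldo v h1 h2]
          exact h.hi v hv
    by_cases ha' : ∃ v ∈ U A, ld B' v = m
    · refine ⟨m, le_rfl, hlo', hhi', ha', ?_⟩
      have hxA : x ∈ (U A).filter (fun v => ld B v = m) := Finset.mem_filter.2 ⟨hx, hxm⟩
      have ha : ((U A).filter (fun v => ld B' v = m)).card + 1 ≤
          ((U A).filter (fun v => ld B v = m)).card := by
        have hss : (U A).filter (fun v => ld B' v = m) ⊆
            ((U A).filter (fun v => ld B v = m)).erase x := by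
          intro v hv
          obtain ⟨hvU, hvl⟩ := Finset.mem_filter.1 hv
          rw [Finset.mem_erase, Finset.mem_filter]
          refine ⟨?_, hvU, ?_⟩
          · rintro rfl
            omega
          · have h1 := h.lo v hvU
            have h2 := hld v
            omega
        have h1 := Finset.card_le_card hss
        have h2 := Finset.card_erase_add_one hxA
        omega
      rcases hcase with hcase | ⟨hcase, hm1⟩
      · have hcc : ((U A).filter (fun v => ld B' v = m + 2)).card ≤
            ((U A).filter (fun v => ld B v = m + 2)).card := by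
          refine Finset.card_le_card ?_
          intro v hv
          obtain ⟨hvU, hvl⟩ := Finset.mem_filter.1 hv
          rw [Finset.mem_filter]
          refine ⟨hvU, ?_⟩
          by_cases h1 : v = x
          · rw [h1, hldx] at hvl; omega
          · by_cases h2 : v = y
            · rw [h2, hldy, hcase] at hvl; omega
            · rw [hldo v h1 h2] at hvl
              exact hvl
        rcases h.top with ht | ht
        · left; omega
        · right; omega
      · have hcc : ((U A).filter (fun v => ld B' v = m + 2)).card ≤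
            ((U A).filter (fun v => ld B v = m + 2)).card + 1 := by
          refine le_trans (Finset.card_le_card (t := insert y
            ((U A).filter (fun v => ld B v = m + 2))) ?_) (Finset.card_insert_le _ _)
          intro v hv
          obtain ⟨hvU, hvl⟩ := Finset.mem_filter.1 hv
          rw [Finset.mem_insert, Finset.mem_filter]
          by_cases h2 : v = y
          · exact Or.inl h2
          · by_cases h1 : v = x
            · rw [h1, hldx] at hvl; omega
            · rw [hldo v h1 h2] at hvl
              exact Or.inr ⟨hvU, hvl⟩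
        right
        rcases h.top with ht | ht <;> omega
    · refine ⟨m + 1, by omega, ?_, ?_, ⟨x, hx, hldx⟩, ?_⟩
      · intro v hv
        have h1 := hlo' v hv
        have h2 : ld B' v ≠ m := fun h2 => ha' ⟨v, hv, h2⟩
        omega
      · intro v hv
        have := hhi' v hv
        omega
      · left
        rw [Finset.card_eq_zero, Finset.filter_eq_empty_iff]
        intro v hv h1
        have := hhi' v hv
        omega
  · -- the sum of the loads
    have h1 : ∑ v ∈ U A, ld (insert s(x, y) B) v =
        ∑ v ∈ U A, ld B v + ∑ v ∈ U A, (if v ∈ s(x, y) then 1 else 0) := by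
      rw [← Finset.sum_add_distrib]
      exact Finset.sum_congr rfl (fun v _ => hld v)
    have h2 : ∑ v ∈ U A, (if v ∈ s(x, y) then 1 else 0) = 2 := by
      rw [← Finset.card_filter]
      have h3 : (U A).filter (fun v => v ∈ s(x, y)) = {x, y} := by
        ext v
        rw [Finset.mem_filter, Sym2.mem_iff, Finset.mem_insert, Finset.mem_singleton]
        constructor
        · exact fun h4 => h4.2
        · rintro (rfl | rfl)
          · exact ⟨hx, Or.inl rfl⟩
          · exact ⟨hy, Or.inr rfl⟩
      rw [h3, Finset.card_pair (Ne.symm hyx)]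
    rw [h1, h2]

theorem bal_restrict {m : ℕ} {V V' : Finset (Fin n)} (h : Bal B V m) (hV' : V' ⊆ V)
    (hne : V'.Nonempty) : ∃ m', m ≤ m' ∧ Bal B V' m' := by
  classical
  obtain ⟨w, hw, hmin⟩ := Finset.exists_min_image V' (ld B) hne
  have hmw := h.lo w (hV' hw)
  refine ⟨ld B w, hmw, hmin, ?_, ⟨w, hw, rfl⟩, ?_⟩
  · intro v hv
    have := h.hi v (hV' hv)
    omega
  · rcases Nat.eq_or_lt_of_le hmw with heq | hlt
    · rw [← heq]
      have h1 := Finset.card_le_card (Finset.filter_subset_filter (fun v => ld B v = m) hV')
      have h2 := Finset.card_le_card (Finset.filter_subset_filter (fun v => ld B v = m + 2) hV')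
      rcases h.top with ht | ht
      · left; omega
      · right; omega
    · left
      rw [Finset.card_eq_zero, Finset.filter_eq_empty_iff]
      intro v hv h1
      have := h.hi v (hV' hv)
      omega

theorem bal_empty (hn : 1 ≤ n) : Bal (∅ : Finset (Sym2 (Fin n))) univ 0 := by
  refine ⟨fun v _ => Nat.zero_le _, fun v _ => ?_, ⟨⟨0, by omega⟩, mem_univ _, ld_empty _⟩, Or.inl ?_⟩
  · rw [ld_empty]; omega
  · rw [Finset.card_eq_zero, Finset.filter_eq_empty_iff]
    intro v _ h1
    rw [ld_empty] at h1
    omega

end Pool.Agent.IG19
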