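import Pool.Agent.IG19.BalStep

/-!
# IG19-BalTurn: balanced loads, one turn of S

`bal_many`: induction on `j`.  For `j = 0` take `X = ∅`.  Step: if the first alternative holds for `j` keep it
(`X.card ≤ j + 1`).  If the second holds with `X`, `m'`: if `M ≤ m'` then all loads are `≥ M`
(`Bal.lo`): first alternative.  Otherwise `2 m' + 3 ≤ 2 M + 2 + 1 ≤ |U A|` and `bal_step` for the position
`(A, B ∪ X)` (`Valid.unionB`) gives an edge `e ∈ free A (B ∪ X) = free A B \ X` (`free_union`); take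
`insert e X` (`B ∪ insert e X = insert e (B ∪ X)`).

`bal_turn`: apply `bal_many` with `j = b`.  In the first alternative enlarge `X` inside `free A B` to a set of
exactly `min b |free A B|` elements (`Finset.exists_subsuperset_card_eq`; `|X| ≤ b` and
`|X| ≤ |free A B|`); loads only grow (`ld_mono`).  In the second alternative `|X| = b ≤ |free A B|`.
-/

namespace Pool.Agent.IG19

open Finset

variable {n : ℕ} {A B : Finset (Sym2 (Fin n))}

theorem bal_many {m M : ℕ} (hV : Valid A B) (h : Bal B (U A) m) (hc : 2 * M + 3 ≤ (U A).card)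
    (j : ℕ) :
    (∃ X ⊆ free A B, X.card ≤ j ∧ ∀ v ∈ U A, M ≤ ld (B ∪ X) v) ∨
    (∃ X ⊆ free A B, X.card = j ∧ (∃ m', Bal (B ∪ X) (U A) m') ∧
      ∑ v ∈ U A, ld (B ∪ X) v = ∑ v ∈ U A, ld B v + 2 * j) := by
  induction j with
  | zero =>
    right
    exact ⟨∅, by simp, by simp, ⟨m, by simpa using h⟩, by simp⟩
  | succ j ih =>
    rcases ih with ⟨X, hX, hc1, hM⟩ | ⟨X, hX, hc1, ⟨m', hB⟩, hs⟩
    · left
      exact ⟨X, hX, by omega, hM⟩
    · by_cases hmm : M ≤ m'
      · left
        exact ⟨X, hX, by omega, fun v hv => le_trans hmm (hB.lo v hv)⟩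
      · right
        obtain ⟨e, he, ⟨m'', -, hB2⟩, hs2⟩ := bal_step (hV.unionB hX) hB (by omega)
        rw [free_union, Finset.mem_sdiff] at he
        refine ⟨insert e X, ?_, ?_, ⟨m'', ?_⟩, ?_⟩
        · intro x hx
          rcases Finset.mem_insert.1 hx with rfl | hx
          · exact he.1
          · exact hX hx
        · rw [Finset.card_insert_of_notMem he.2, hc1]
        · rw [Finset.union_insert]
          exact hB2
        · rw [Finset.union_insert, hs2, hs]
          ring

theorem bal_turn {m M b : ℕ} (hV : Valid A B) (h : Bal B (U A) m)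
    (hc : 2 * M + 3 ≤ (U A).card) :
    ∃ X ⊆ free A B, X.card = min b (free A B).card ∧
      ((∀ v ∈ U A, M ≤ ld (B ∪ X) v) ∨
        ((∃ m', Bal (B ∪ X) (U A) m') ∧
          ∑ v ∈ U A, ld (B ∪ X) v = ∑ v ∈ U A, ld B v + 2 * b)) := by
  rcases bal_many hV h hc b with ⟨X, hX, hc1, hM⟩ | ⟨X, hX, hc1, hB, hs⟩
  · obtain ⟨Y, hXY, hY, hYc⟩ := Finset.exists_subsuperset_card_eq hX
      (le_min hc1 (Finset.card_le_card hX)) (min_le_right b (free A B).card)
    exact ⟨Y, hY, hYc, Or.inl (fun v hv => le_trans (hM v hv)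
      (ld_mono (Finset.union_subset_union_right hXY) v))⟩
  · have hle : X.card ≤ (free A B).card := Finset.card_le_card hX
    exact ⟨X, hX, by rw [hc1] at hle ⊢; exact (min_eq_left hle).symm, Or.inr ⟨hB, hs⟩⟩

end Pool.Agent.IG19
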