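import Pool.Agent.IG19.Defs

/-!
# IG19-BasicA: elementary facts on positions

All statements are elementary finite set manipulations.
* `card_edges`: `edges n` is the complement of the diagonal: compare with
  `(⊤ : SimpleGraph (Fin n)).edgeFinset` (`SimpleGraph.card_edgeFinset_top_eq_card_choose_two`) or use
  `Sym2.card_subtype_not_diag`.
* `card_star`: the map `w ↦ s(v, w)` is a bijection from `univ.erase v` onto the star of `v`
  (`Finset.card_image_of_injOn`, `Sym2.congr_right`); an element of `e` with `v ∈ e` is `s(v, other)`.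
* `card_U_insert`: `U A ⊆ U (insert e A) ∪ {a, b}` where `e = s(a, b)`.
* `free_or_B`: as `u ∈ U A` the edge `s(u, v)` is not in `A`.
* `not_mem_of_ld_eq`: a free edge contains no finished vertex (a finished vertex has all its `n - 1` edges in
  `B`, i.e. the star of `v` is contained in `B`).
-/

namespace Pool.Agent.IG19

open Finset

variable {n : ℕ} {A B X : Finset (Sym2 (Fin n))} {e : Sym2 (Fin n)} {u v : Fin n}

theorem mem_edges : e ∈ edges n ↔ ¬ e.IsDiag := by simp [edges]

theorem mk_mem_edges : s(u, v) ∈ edges n ↔ u ≠ v := by simp [edges]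

theorem card_edges : (edges n).card = n.choose 2 := by
  have h := Sym2.card_subtype_not_diag (α := Fin n)
  rw [Fintype.card_fin, Fintype.card_subtype] at h
  exact h

private theorem star_eq (v : Fin n) :
    (edges n).filter (fun e => v ∈ e) = (univ.erase v).image (fun w => s(v, w)) := by
  ext e
  simp only [mem_filter, mem_image, mem_erase, mem_univ, and_true]
  constructor
  · rintro ⟨he, hv⟩
    obtain ⟨w, rfl⟩ := Sym2.mem_iff_exists.1 hv
    exact ⟨w, fun hw => mk_mem_edges.1 he hw.symm, rfl⟩
  · rintro ⟨w, hw, rfl⟩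
    exact ⟨mk_mem_edges.2 (fun h => hw h.symm), Sym2.mem_mk_left v w⟩

theorem card_star (v : Fin n) : ((edges n).filter (fun e => v ∈ e)).card = n - 1 := by
  rw [star_eq, card_image_of_injOn, card_erase_of_mem (mem_univ v), card_univ, Fintype.card_fin]
  intro a _ b _ hab
  exact Sym2.congr_right.1 hab

theorem mem_U : v ∈ U A ↔ ∀ e ∈ A, v ∉ e := by simp [U]

theorem mem_free : e ∈ free A B ↔ e ∈ edges n ∧ e ∉ A ∧ e ∉ B := by simp [free]

theorem U_empty : U (∅ : Finset (Sym2 (Fin n))) = univ := by simp [U]

theorem mem_U_insert : v ∈ U (insert e A) ↔ v ∉ e ∧ v ∈ U A := by simp [U]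

theorem U_insert_subset : U (insert e A) ⊆ U A := by
  intro v hv
  exact (mem_U_insert.1 hv).2

theorem card_U_insert : (U A).card ≤ (U (insert e A)).card + 2 := by
  induction e using Sym2.ind with
  | _ a b =>
    have hsub : U A ⊆ U (insert s(a, b) A) ∪ {a, b} := by
      intro v hv
      rw [mem_union, mem_U_insert]
      by_cases h : v ∈ s(a, b)
      · right
        rw [Sym2.mem_iff] at h
        simpa using h
      · exact Or.inl ⟨h, hv⟩
    refine (card_le_card hsub).trans ((card_union_le _ _).trans ?_)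
    exact Nat.add_le_add_left card_le_two _

theorem valid_empty : Valid (∅ : Finset (Sym2 (Fin n))) ∅ := ⟨by simp, by simp, by simp⟩

theorem Valid.insertA (h : Valid A B) (he : e ∈ free A B) : Valid (insert e A) B := by
  rw [mem_free] at he
  refine ⟨?_, h.hB, ?_⟩
  · intro x hx
    rcases mem_insert.1 hx with rfl | hx
    · exact he.1
    · exact h.hA hx
  · rw [disjoint_insert_left]
    exact ⟨he.2.2, h.hd⟩

theorem Valid.unionB (h : Valid A B) (hX : X ⊆ free A B) : Valid A (B ∪ X) := by
  refine ⟨h.hA, ?_, ?_⟩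
  · intro x hx
    rcases mem_union.1 hx with hx | hx
    · exact h.hB hx
    · exact (mem_free.1 (hX hx)).1
  · rw [disjoint_union_right]
    refine ⟨h.hd, ?_⟩
    rw [disjoint_left]
    intro x hxA hxX
    exact (mem_free.1 (hX hxX)).2.1 hxA

theorem free_insert (he : e ∈ free A B) : free (insert e A) B = (free A B).erase e := by
  have _ := he
  ext x
  simp only [mem_free, mem_insert, mem_erase, not_or]
  tauto

theorem free_union : free A (B ∪ X) = free A B \ X := by
  ext x
  simp only [mem_free, mem_union, mem_sdiff, not_or]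
  tauto

theorem card_free_insert (he : e ∈ free A B) :
    (free (insert e A) B).card + 1 = (free A B).card := by
  rw [free_insert he, card_erase_add_one he]

theorem card_free_union (hX : X ⊆ free A B) :
    (free A (B ∪ X)).card + X.card = (free A B).card := by
  rw [free_union, card_sdiff_add_card_eq_card hX]

theorem free_or_B (hu : u ∈ U A) (huv : u ≠ v) : s(u, v) ∈ free A B ∨ s(u, v) ∈ B := by
  by_cases h : s(u, v) ∈ B
  · exact Or.inr h
  · refine Or.inl (mem_free.2 ⟨mk_mem_edges.2 huv, ?_, h⟩)
    intro hA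
    exact mem_U.1 hu _ hA (Sym2.mem_mk_left u v)

/-- An untouched vertex has `n - 1 - ld B v` free edges. -/
theorem freedeg_add_ld (h : Valid A B) (hv : v ∈ U A) :
    ((free A B).filter (fun e => v ∈ e)).card + ld B v = n - 1 := by
  rw [ld, ← card_star v, ← card_union_of_disjoint]
  · congr 1
    ext x
    simp only [mem_union, mem_filter, mem_free]
    constructor
    · rintro (⟨⟨h1, _, _⟩, h4⟩ | ⟨h1, h2⟩)
      · exact ⟨h1, h4⟩
      · exact ⟨h.hB h1, h2⟩
    · rintro ⟨h1, h2⟩
      by_cases hB : x ∈ B
      · exact Or.inr ⟨hB, h2⟩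
      · exact Or.inl ⟨⟨h1, fun hA => mem_U.1 hv _ hA h2, hB⟩, h2⟩
  · rw [disjoint_left]
    intro x hx hx'
    exact (mem_free.1 (mem_filter.1 hx).1).2.2 (mem_filter.1 hx').1

theorem ld_le (hB : B ⊆ edges n) (v : Fin n) : ld B v ≤ n - 1 := by
  rw [ld, ← card_star v]
  exact card_le_card (filter_subset_filter _ hB)

theorem ld_eq_of_free_empty (h : Valid A B) (hf : free A B = ∅) (hv : v ∈ U A) :
    ld B v = n - 1 := by
  have := freedeg_add_ld h hv
  rw [hf] at this
  simpa using this

/-- A free edge contains no finished vertex. -/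
theorem not_mem_of_ld_eq (h : Valid A B) (he : e ∈ free A B) (hv : ld B v = n - 1) : v ∉ e := by
  intro hve
  have hsub : B.filter (fun e => v ∈ e) ⊆ (edges n).filter (fun e => v ∈ e) :=
    filter_subset_filter _ h.hB
  have heq : B.filter (fun e => v ∈ e) = (edges n).filter (fun e => v ∈ e) := by
    apply eq_of_subset_of_card_le hsub
    rw [card_star v]
    exact hv.symm.le
  have hmem : e ∈ (edges n).filter (fun e => v ∈ e) := mem_filter.2 ⟨(mem_free.1 he).1, hve⟩
  rw [← heq] at hmem
  exact (mem_free.1 he).2.2 (mem_filter.1 hmem).1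

theorem exists_good (h : Valid A B) (hu : u ∈ U A) (hld : ld B u ≠ n - 1) :
    ∃ e, Good A B u e := by
  by_cases hne : ((U A).filter (fun w => s(u, w) ∈ free A B)).Nonempty
  · obtain ⟨v, hv, hmax⟩ := exists_max_image _ (fun w => ld B w) hne
    rw [mem_filter] at hv
    refine ⟨s(u, v), hv.2, Sym2.mem_mk_left u v, hu, Or.inl ⟨v, hv.1, ?_, rfl, ?_⟩⟩
    · rintro rfl
      exact mk_mem_edges.1 (mem_free.1 hv.2).1 rfl
    · intro w hw hfw
      exact hmax w (mem_filter.2 ⟨hw, hfw⟩)
  · have hpos : 0 < ((free A B).filter (fun e => u ∈ e)).card := by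
      have h1 := freedeg_add_ld h hu
      omega
    obtain ⟨e, he⟩ := card_pos.1 hpos
    rw [mem_filter] at he
    refine ⟨e, he.1, he.2, hu, Or.inr ?_⟩
    intro w hw hfw
    exact hne ⟨w, mem_filter.2 ⟨hw, hfw⟩⟩

end Pool.Agent.IG19
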