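import Pool.Agent.IG19.GameB

/-!
# IG19-GameC: forcing by the second player

* `ForceN.now`: cases on `T`.
* `ForceN.mono`, `ForceN.imp`: induction on the number of rounds, generalizing `A B`.
* `ForceN.trans`: induction on `T` generalizing `A B`; if `P A B` holds use `hPQ` and `ForceN.mono`.
* `ForceN.frame`: within `T` rounds at most `2 T` vertices are touched, `A`, `B` only grow and the position
  stays legal, finished vertices stay finished: induction on `T` generalizing `A B`
  (`card_U_insert`, `Valid.insertA`, `Valid.unionB`, `fsh_insert`, `fsh_union`).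
* `guar_of_force`: induction on `T` generalizing `A B`: if `P A B` holds use the hypothesis; otherwise use
  `moveF` and for each `e`: if `free (insert e A) B = ∅` then `X = ∅`, and
  `Guar n b k true (insert e A) (B ∪ ∅)` holds by induction; by inversion it comes from `over` (no edge is
  free), hence `Guar n b k false (insert e A) B` by `over`; else use `moveS`.
-/

namespace Pool.Agent.IG19

open Finset

variable {n : ℕ} {b k : ℕ} {A B X : Finset (Sym2 (Fin n))}

theorem ForceN.now {P : Finset (Sym2 (Fin n)) → Finset (Sym2 (Fin n)) → Prop} (T : ℕ)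
    (h : P A B) : ForceN b P T A B := by
  cases T with
  | zero => exact h
  | succ T => exact Or.inl h

theorem ForceN.mono {P : Finset (Sym2 (Fin n)) → Finset (Sym2 (Fin n)) → Prop} {T T' : ℕ}
    (hT : T ≤ T') (h : ForceN b P T A B) : ForceN b P T' A B := by
  induction T generalizing T' A B with
  | zero => exact ForceN.now T' h
  | succ T ih =>
    obtain ⟨S, rfl⟩ : ∃ S, T' = S + 1 := ⟨T' - 1, by omega⟩
    rcases h with h | ⟨h1, h2⟩
    · exact Or.inl h
    · refine Or.inr ⟨h1, fun e he => ?_⟩
      obtain ⟨X, hX1, hX2, hX3⟩ := h2 e he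
      exact ⟨X, hX1, hX2, ih (by omega) hX3⟩

theorem ForceN.imp {P Q : Finset (Sym2 (Fin n)) → Finset (Sym2 (Fin n)) → Prop} {T : ℕ}
    (hPQ : ∀ A B, P A B → Q A B) (h : ForceN b P T A B) : ForceN b Q T A B := by
  induction T generalizing A B with
  | zero => exact hPQ A B h
  | succ T ih =>
    rcases h with h | ⟨h1, h2⟩
    · exact Or.inl (hPQ A B h)
    · refine Or.inr ⟨h1, fun e he => ?_⟩
      obtain ⟨X, hX1, hX2, hX3⟩ := h2 e he
      exact ⟨X, hX1, hX2, ih hX3⟩

theorem ForceN.trans {P Q : Finset (Sym2 (Fin n)) → Finset (Sym2 (Fin n)) → Prop} {T T' : ℕ}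
    (hPQ : ∀ A B, P A B → ForceN b Q T' A B) (h : ForceN b P T A B) :
    ForceN b Q (T + T') A B := by
  induction T generalizing A B with
  | zero => rw [Nat.zero_add]; exact hPQ A B h
  | succ T ih =>
    rcases h with h | ⟨h1, h2⟩
    · exact ForceN.mono (by omega) (hPQ A B h)
    · have hT : T + 1 + T' = (T + T') + 1 := by omega
      rw [hT]
      refine Or.inr ⟨h1, fun e he => ?_⟩
      obtain ⟨X, hX1, hX2, hX3⟩ := h2 e he
      exact ⟨X, hX1, hX2, ih hX3⟩

/-- What never changes during `T` rounds. -/
theorem ForceN.frame {P : Finset (Sym2 (Fin n)) → Finset (Sym2 (Fin n)) → Prop} {T : ℕ}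
    (hV : Valid A B) (h : ForceN b P T A B) :
    ForceN b (fun A' B' => P A' B' ∧ Valid A' B' ∧ A ⊆ A' ∧ B ⊆ B' ∧
      (U A).card ≤ (U A').card + 2 * T ∧ Fsh A B ⊆ Fsh A' B') T A B := by
  induction T generalizing A B with
  | zero => exact ⟨h, hV, subset_rfl, subset_rfl, by omega, subset_rfl⟩
  | succ T ih =>
    rcases h with h | ⟨h1, h2⟩
    · exact Or.inl ⟨h, hV, subset_rfl, subset_rfl, by omega, subset_rfl⟩
    · refine Or.inr ⟨h1, fun e he => ?_⟩
      obtain ⟨X, hX1, hX2, hX3⟩ := h2 e he
      refine ⟨X, hX1, hX2, ?_⟩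
      have hV1 : Valid (insert e A) B := hV.insertA he
      have hV2 : Valid (insert e A) (B ∪ X) := hV1.unionB hX1
      refine ForceN.imp ?_ (ih hV2 hX3)
      rintro A' B' ⟨k1, k2, k3, k4, k5, k6⟩
      refine ⟨k1, k2, (subset_insert e A).trans k3, subset_union_left.trans k4, ?_,
        ((fsh_insert hV he).trans (fsh_union hV1 hX1)).trans k6⟩
      have h3 : (U A).card ≤ (U (insert e A)).card + 2 := card_U_insert
      omega

theorem guar_of_force {P : Finset (Sym2 (Fin n)) → Finset (Sym2 (Fin n)) → Prop} {T : ℕ}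
    (hP : ∀ A B, P A B → Guar n b k true A B) (h : ForceN b P T A B) :
    Guar n b k true A B := by
  induction T generalizing A B with
  | zero => exact hP A B h
  | succ T ih =>
    rcases h with h | ⟨h1, h2⟩
    · exact hP A B h
    · refine Guar.moveF h1 fun e he => ?_
      obtain ⟨X, hX1, hX2, hX3⟩ := h2 e he
      have h3 := ih hX3
      by_cases hf : free (insert e A) B = ∅
      · rw [hf] at hX1
        have hX : X = ∅ := subset_empty.mp hX1
        rw [hX, union_empty] at h3
        rcases h3 with ⟨h4, h5⟩ | ⟨h4, h5⟩ | _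
        · exact Guar.over h4 h5
        · exact absurd hf h4
      · exact Guar.moveS X hf hX1 hX2 h3

end Pool.Agent.IG19
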