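import Pool.Agent.IG19.BalTurn
import Pool.Agent.IG19.GameC

/-!
# IG19-PhaseOne: S raises all loads in a balanced way

Goal `P A B`: legal, `|U A| ≥ N + 1`, all untouched loads are `≥ M`.

`avg_step`.  Let `j = |U A|`, `V' = U (insert e A)`, `j - d = |V'|`, `d ∈ {0,1,2}` (`card_U_insert`,
`U_insert_subset`), `s = ∑_{U A} ld B`, `a = s/j ≥ (b-2) log (n/j)`.  All loads are at most `m + 2` and
`a ≥ m`, so the `d` killed vertices have total load at most `d (a + 2)`, and
`∑_{V'} ld B ≥ s - d (a + 2) = (j - d) a - 2 d`.  Adding `2 b` we get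
`s' ≥ (j - d) a + 2b - 2d`, and it is enough that
`(j - d)(b - 2)(log (n/(j-d)) - log (n/j)) ≤ 2b - 2d`, which follows from
`log (j/(j-d)) ≤ j/(j-d) - 1 = d/(j-d)` and `(b - 2) d ≤ 2 b - 2 d` for `d ∈ {0,1,2}`.

`phase_one_aux`: strong induction on `(free A B).card`.  Let `m` be such that `Bal B (U A) m`.
If `M ≤ m` then `P A B` holds now.  Otherwise `m < M`.  If `|U A| ≤ N + 2` then
`m + 2 ≥ s/j ≥ (b-2) log (n/j) ≥ (b-2) log (n/(N+2)) ≥ M + 2`: contradiction; so `|U A| ≥ N + 3`.
The set `free A B` is not empty (`bal_step`).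
For `e ∈ free A B` the set `V' = U (insert e A)` has at least `N + 1 ≥ 2M + 3` elements;
`bal_restrict` and `bal_turn` (for the position `(insert e A, B)`) give `X`.  In the first alternative
`P (insert e A) (B ∪ X)` holds and `ForceN.now` applies.  In the second alternative use the induction
hypothesis (`card_free_insert`, `card_free_union`) with `avg_step`; it gives a number of rounds for each `e`:
to have a uniform `T` prove the statement with `T = (free A B).card` (`ForceN.mono`).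

`phase_one`: the initial position: `U ∅ = univ` has `n ≥ N + 1` elements, `bal_empty`, the sum is
`0 ≥ n (b-2) log 1`.
-/

namespace Pool.Agent.IG19

open Finset

variable {n b : ℕ} {A B X : Finset (Sym2 (Fin n))}

theorem avg_step {m : ℕ} {e : Sym2 (Fin n)} (hb : 2 ≤ b) (hn : 1 ≤ n)
    (hbal : Bal B (U A) m) (hcard : 3 ≤ (U A).card)
    (havg : ((U A).card : ℝ) * (((b : ℝ) - 2) * Real.log ((n : ℝ) / (U A).card)) ≤
      ∑ v ∈ U A, (ld B v : ℝ))
    (hsum : ∑ v ∈ U (insert e A), ld (B ∪ X) v = ∑ v ∈ U (insert e A), ld B v + 2 * b) :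
    ((U (insert e A)).card : ℝ) *
        (((b : ℝ) - 2) * Real.log ((n : ℝ) / (U (insert e A)).card)) ≤
      ∑ v ∈ U (insert e A), (ld (B ∪ X) v : ℝ) := by
  have hsub : U (insert e A) ⊆ U A := U_insert_subset
  have hc1 : (U A).card ≤ (U (insert e A)).card + 2 := card_U_insert
  have hc2 : (U (insert e A)).card ≤ (U A).card := card_le_card hsub
  obtain ⟨J, hJ⟩ : ∃ J : ℝ, J = (U A).card := ⟨_, rfl⟩
  obtain ⟨J', hJ'⟩ : ∃ J' : ℝ, J' = (U (insert e A)).card := ⟨_, rfl⟩
  obtain ⟨s, hs⟩ : ∃ s : ℝ, s = ∑ v ∈ U A, (ld B v : ℝ) := ⟨_, rfl⟩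
  obtain ⟨s', hs'⟩ : ∃ s' : ℝ, s' = ∑ v ∈ U (insert e A), (ld B v : ℝ) := ⟨_, rfl⟩
  have hsum' : ∑ v ∈ U (insert e A), (ld (B ∪ X) v : ℝ) = s' + 2 * b := by
    rw [hs']
    exact_mod_cast hsum
  have hd2 : J ≤ J' + 2 := by
    rw [hJ, hJ']
    exact_mod_cast hc1
  have hd0 : J' ≤ J := by
    rw [hJ, hJ']
    exact_mod_cast hc2
  have hJ3 : (3 : ℝ) ≤ J := by
    rw [hJ]
    exact_mod_cast hcard
  have hJ1 : (1 : ℝ) ≤ J' := by linarith
  have hb' : (0 : ℝ) ≤ (b : ℝ) - 2 := by
    have : (2 : ℝ) ≤ b := by exact_mod_cast hb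
    linarith
  have hn' : (0 : ℝ) < n := by
    have : (1 : ℝ) ≤ n := by exact_mod_cast hn
    linarith
  -- the total load of the killed vertices
  have h1 : s ≤ s' + (J - J') * (m + 2) := by
    have h2 : s = s' + ∑ v ∈ U A \ U (insert e A), (ld B v : ℝ) := by
      rw [hs, hs', add_comm]
      exact (sum_sdiff hsub).symm
    have h3 : ∑ v ∈ U A \ U (insert e A), (ld B v : ℝ) ≤
        ∑ _v ∈ U A \ U (insert e A), ((m : ℝ) + 2) := by
      refine sum_le_sum fun v hv => ?_
      have := hbal.hi v (mem_sdiff.1 hv).1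
      exact_mod_cast this
    rw [sum_const, nsmul_eq_mul, cast_card_sdiff hsub, ← hJ, ← hJ'] at h3
    linarith
  have h2 : J * m ≤ s := by
    have h3 : ∑ _v ∈ U A, (m : ℝ) ≤ ∑ v ∈ U A, (ld B v : ℝ) := by
      refine sum_le_sum fun v hv => ?_
      have := hbal.lo v hv
      exact_mod_cast this
    rw [sum_const, nsmul_eq_mul, ← hJ, ← hs] at h3
    exact h3
  rw [← hJ, ← hs] at havg
  rw [hsum', ← hJ']
  have hJ0 : 0 < J := by linarith
  have hJ'0 : 0 < J' := by linarith
  obtain ⟨a, ha⟩ : ∃ a, a = s / J := ⟨_, rfl⟩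
  have hsa : s = J * a := by
    rw [ha]
    field_simp
  rw [hsa] at h1 h2 havg
  have hma : (m : ℝ) ≤ a := le_of_mul_le_mul_left h2 hJ0
  have hla : ((b : ℝ) - 2) * Real.log (n / J) ≤ a := le_of_mul_le_mul_left havg hJ0
  have hlog : Real.log (n / J') = Real.log (n / J) + Real.log (J / J') := by
    rw [← Real.log_mul (by positivity) (by positivity)]
    congr 1
    field_simp
  have hlog2 : J' * Real.log (J / J') ≤ J - J' := by
    have h3 := Real.log_le_sub_one_of_pos (show 0 < J / J' by positivity)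
    have h4 := mul_le_mul_of_nonneg_left h3 hJ'0.le
    have h5 : J' * (J / J' - 1) = J - J' := by
      field_simp
    rw [h5] at h4
    exact h4
  rw [hlog]
  have h3 : (J - J') * ((m : ℝ) + 2) ≤ (J - J') * (a + 2) :=
    mul_le_mul_of_nonneg_left (by linarith) (by linarith)
  have h4 : J' * (((b : ℝ) - 2) * Real.log (n / J)) ≤ J' * a :=
    mul_le_mul_of_nonneg_left hla hJ'0.le
  have h5 : ((b : ℝ) - 2) * (J' * Real.log (J / J')) ≤ ((b : ℝ) - 2) * (J - J') :=
    mul_le_mul_of_nonneg_left hlog2 hb'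
  have h6 : (b : ℝ) * (J - J') ≤ b * 2 :=
    mul_le_mul_of_nonneg_left (by linarith) (by linarith)
  nlinarith [h1, h3, h4, h5, h6]

theorem phase_one_aux {M N : ℕ} (hb : 2 ≤ b) (hn : 1 ≤ n) (hMN : 2 * M + 2 ≤ N)
    (hlog : (M : ℝ) + 2 ≤ ((b : ℝ) - 2) * Real.log ((n : ℝ) / ((N : ℝ) + 2)))
    (hV : Valid A B) (hbal : ∃ m, Bal B (U A) m) (hU : N + 1 ≤ (U A).card)
    (havg : ((U A).card : ℝ) * (((b : ℝ) - 2) * Real.log ((n : ℝ) / (U A).card)) ≤
      ∑ v ∈ U A, (ld B v : ℝ)) :
    ForceN b (fun A' B' => Valid A' B' ∧ N + 1 ≤ (U A').card ∧ ∀ v ∈ U A', M ≤ ld B' v)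
      (free A B).card A B := by
  have hb' : (0 : ℝ) ≤ (b : ℝ) - 2 := by
    have : (2 : ℝ) ≤ b := by exact_mod_cast hb
    linarith
  have hn' : (0 : ℝ) < n := by
    have : (1 : ℝ) ≤ n := by exact_mod_cast hn
    linarith
  have key : ∀ (c : ℕ) (A B : Finset (Sym2 (Fin n))), (free A B).card ≤ c → Valid A B →
      (∃ m, Bal B (U A) m) → N + 1 ≤ (U A).card →
      (((U A).card : ℝ) * (((b : ℝ) - 2) * Real.log ((n : ℝ) / (U A).card)) ≤
        ∑ v ∈ U A, (ld B v : ℝ)) →
      ForceN b (fun A' B' => Valid A' B' ∧ N + 1 ≤ (U A').card ∧ ∀ v ∈ U A', M ≤ ld B' v)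
        c A B := by
    intro c
    induction c with
    | zero =>
      intro A B hc hV hbal hU havg
      obtain ⟨m, hm⟩ := hbal
      by_cases hMm : M ≤ m
      · exact ForceN.now _ ⟨hV, hU, fun v hv => hMm.trans (hm.lo v hv)⟩
      · exfalso
        obtain ⟨e, he, -⟩ := bal_step hV hm (by omega)
        exact absurd (card_pos.2 ⟨e, he⟩) (by omega)
    | succ c ih =>
      intro A B hc hV hbal hU havg
      obtain ⟨m, hm⟩ := hbal
      by_cases hMm : M ≤ m
      · exact ForceN.now _ ⟨hV, hU, fun v hv => hMm.trans (hm.lo v hv)⟩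
      have hN3 : N + 3 ≤ (U A).card := by
        by_contra hcon
        have h1 : (U A).card ≤ N + 2 := by omega
        have hJ : (0 : ℝ) < (U A).card := by
          have : 0 < (U A).card := by omega
          exact_mod_cast this
        have h2 : ∑ v ∈ U A, (ld B v : ℝ) ≤ (U A).card * ((m : ℝ) + 2) := by
          rw [← nsmul_eq_mul, ← sum_const]
          refine sum_le_sum fun v hv => ?_
          have := hm.hi v hv
          exact_mod_cast this
        have h3 := le_of_mul_le_mul_left (havg.trans h2) hJ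
        have h4 : Real.log ((n : ℝ) / ((N : ℝ) + 2)) ≤ Real.log ((n : ℝ) / (U A).card) := by
          refine Real.log_le_log (by positivity) ?_
          refine div_le_div_of_nonneg_left hn'.le hJ ?_
          exact_mod_cast h1
        have h5 := mul_le_mul_of_nonneg_left h4 hb'
        have h6 : (M : ℝ) ≤ m := by linarith
        exact hMm (by exact_mod_cast h6)
      obtain ⟨e0, he0, -⟩ := bal_step hV hm (by omega)
      refine Or.inr ⟨fun h => ?_, fun e he => ?_⟩
      · rw [h] at he0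
        exact absurd he0 (notMem_empty _)
      have hc1 : (U A).card ≤ (U (insert e A)).card + 2 := card_U_insert
      have hU' : N + 1 ≤ (U (insert e A)).card := by omega
      have hV' := hV.insertA he
      obtain ⟨m', -, hm'⟩ := bal_restrict hm (U_insert_subset (e := e))
        (card_pos.1 (show 0 < (U (insert e A)).card by omega))
      obtain ⟨X, hX, hXc, hX2⟩ := bal_turn (M := M) (b := b) hV' hm' (by omega)
      refine ⟨X, hX, hXc, ?_⟩
      have hV'' := hV'.unionB hX
      rcases hX2 with hX2 | ⟨hX2, hX3⟩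
      · exact ForceN.now _ ⟨hV'', hU', hX2⟩
      · refine ih _ _ ?_ hV'' hX2 hU' (avg_step hb hn hm (by omega) havg hX3)
        have h1 := card_free_union hX
        have h2 := card_free_insert he
        have h3 : 0 < (free A B).card := card_pos.2 ⟨e, he⟩
        omega
  exact key _ A B le_rfl hV hbal hU havg

theorem phase_one {M N : ℕ} (hb : 2 ≤ b) (hMN : 2 * M + 2 ≤ N) (hNn : N + 1 ≤ n)
    (hlog : (M : ℝ) + 2 ≤ ((b : ℝ) - 2) * Real.log ((n : ℝ) / ((N : ℝ) + 2))) :
    ∃ T, ForceN b (fun A' B' => Valid A' B' ∧ N + 1 ≤ (U A').card ∧ ∀ v ∈ U A', M ≤ ld B' v)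
      T (∅ : Finset (Sym2 (Fin n))) ∅ := by
  have hn : 1 ≤ n := by omega
  have hn' : (n : ℝ) ≠ 0 := by
    have : n ≠ 0 := by omega
    exact_mod_cast this
  refine ⟨_, phase_one_aux hb hn hMN hlog valid_empty ⟨0, ?_⟩ ?_ ?_⟩
  · rw [U_empty]
    exact bal_empty hn
  · rw [U_empty, card_univ, Fintype.card_fin]
    exact hNn
  · rw [U_empty, card_univ, Fintype.card_fin, div_self hn', Real.log_one, mul_zero, mul_zero]
    exact sum_nonneg fun v _ => Nat.cast_nonneg _

end Pool.Agent.IG19
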