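import Pool.Agent.IG19.GameC

/-!
# IG19-PhaseThree: the box game

`Q ⊆ U A` has `j` vertices, every two joined by an edge of `S`; every `v ∈ Q` has at most `σ` free edges
(`n - 1 ≤ ld B v + σ`), and `σ ≤ ∑_{i=k}^{j-1} ⌊b/i⌋`.  Then within `j - k` rounds `S` finishes at least `k`
vertices of `Q`.

`turn`: one turn of `S`.  For `Q'` untouched, with no free edge inside `Q'`, `|Q'| = i ≥ 1`: `S` can claim
`min b |free A B|` edges such that each `v ∈ Q'` has at most `σ - ⌊b/i⌋` free edges afterwards.  For each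
`v ∈ Q'` choose a set `X_v` of `min (b/i) (number of free edges at v)` free edges at `v`
(`Finset.exists_subset_card_eq`); the union has at most `i (b/i) ≤ b` elements; enlarge it to `X`
(`Finset.exists_subsuperset_card_eq`).  The number of free edges at `v ∈ U A` is `n - 1 - ld B v`
(`freedeg_add_ld`) and `ld (B ∪ X) v = ld B v + ld X v` (`ld_union_eq`), `ld X v ≥ |X_v|`.

`phase_three`: induction on `j - k`, generalizing `A B Q j σ`.  If `j = k` then `σ = 0`, all vertices of `Q` are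
finished: `ForceN.now`.  Let `j > k`.  If `free A B = ∅` then all vertices of `Q` are finished
(`ld_eq_of_free_empty`): `ForceN.now`.  Otherwise let `e` be the move of `F`; `e` contains at most one
vertex of `Q` (two distinct vertices `u, v` of `Q` on `e` give `e = s(u,v) ∈ B`).  So there is
`Q' ⊆ Q ∩ U (insert e A)` with `j - 1 ≥ k ≥ 1` elements.  Use `turn` for `(insert e A, B)` and `Q'`, and
the induction hypothesis with `Q'`, `σ - b/(j-1)`:
`∑_{i=k}^{j-2} ⌊b/i⌋ = ∑_{i=k}^{j-1} ⌊b/i⌋ - ⌊b/(j-1)⌋`.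
-/

namespace Pool.Agent.IG19

open Finset

variable {n b : ℕ} {A B X : Finset (Sym2 (Fin n))}

theorem turn {Q : Finset (Fin n)} {i σ : ℕ} (hV : Valid A B) (hQ : Q ⊆ U A)
    (hi : Q.card = i) (hi1 : 1 ≤ i) (hσ : ∀ v ∈ Q, n - 1 ≤ ld B v + σ) :
    ∃ X ⊆ free A B, X.card = min b (free A B).card ∧
      ∀ v ∈ Q, n - 1 ≤ ld (B ∪ X) v + (σ - b / i) := by
  classical
  have hch : ∀ v : Fin n, ∃ Xv : Finset (Sym2 (Fin n)),
      Xv ⊆ (free A B).filter (fun e => v ∈ e) ∧
      Xv.card = min (b / i) ((free A B).filter (fun e => v ∈ e)).card := fun v =>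
    exists_subset_card_eq (min_le_right _ _)
  choose Xv hXv1 hXv2 using hch
  have hYfree : Q.biUnion Xv ⊆ free A B := by
    intro e he
    obtain ⟨v, _, hev⟩ := mem_biUnion.1 he
    exact (mem_filter.1 (hXv1 v hev)).1
  have hYcard : (Q.biUnion Xv).card ≤ b := by
    calc (Q.biUnion Xv).card ≤ ∑ v ∈ Q, (Xv v).card := card_biUnion_le
      _ ≤ ∑ _v ∈ Q, b / i := sum_le_sum fun v _ => by
          rw [hXv2 v]
          exact min_le_left _ _
      _ = i * (b / i) := by rw [sum_const, hi, smul_eq_mul]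
      _ ≤ b := Nat.mul_div_le b i
  have hYle : (Q.biUnion Xv).card ≤ min b (free A B).card :=
    le_min hYcard (card_le_card hYfree)
  obtain ⟨X, hYX, hXf, hXc⟩ := exists_subsuperset_card_eq hYfree hYle (min_le_right _ _)
  refine ⟨X, hXf, hXc, ?_⟩
  intro v hv
  have hdisj : Disjoint B X := by
    rw [disjoint_left]
    intro e heB heX
    exact (mem_free.1 (hXf heX)).2.2 heB
  have hld : ld (B ∪ X) v = ld B v + ld X v := ld_union_eq hdisj v
  have hge : (Xv v).card ≤ ld X v := by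
    apply card_le_card
    intro e he
    rw [mem_filter]
    exact ⟨hYX (mem_biUnion.2 ⟨v, hv, he⟩), (mem_filter.1 (hXv1 v he)).2⟩
  have hfd := freedeg_add_ld hV (hQ hv)
  have hs := hσ v hv
  have hc := hXv2 v
  rw [hld]
  rcases le_total (b / i) ((free A B).filter (fun e => v ∈ e)).card with h | h
  · rw [min_eq_left h] at hc
    omega
  · rw [min_eq_right h] at hc
    omega

private theorem phase_aux {k : ℕ} (hk : 1 ≤ k) : ∀ (d : ℕ) (A B : Finset (Sym2 (Fin n)))
    (Q : Finset (Fin n)) (σ : ℕ), Valid A B → Q ⊆ U A → Q.card = k + d →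
    (∀ u ∈ Q, ∀ v ∈ Q, u ≠ v → s(u, v) ∈ B) →
    (∀ v ∈ Q, n - 1 ≤ ld B v + σ) → σ ≤ ∑ i ∈ Ico k (k + d), b / i →
    ForceN b (fun A' B' => k ≤ (Q ∩ Fsh A' B').card) d A B := by
  intro d
  induction d with
  | zero =>
    intro A B Q σ hV hQ hj hcl hσ hsum
    have hσ0 : σ = 0 := by simpa using hsum
    have hsub : Q ⊆ Q ∩ Fsh A B := by
      intro v hv
      rw [mem_inter, Fsh, mem_filter]
      refine ⟨hv, hQ hv, le_antisymm (ld_le hV.hB v) ?_⟩
      have := hσ v hv
      omega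
    change k ≤ (Q ∩ Fsh A B).card
    have := card_le_card hsub
    omega
  | succ d ih =>
    intro A B Q σ hV hQ hj hcl hσ hsum
    by_cases hf : free A B = ∅
    · apply ForceN.now
      have hsub : Q ⊆ Q ∩ Fsh A B := by
        intro v hv
        rw [mem_inter, Fsh, mem_filter]
        exact ⟨hv, hQ hv, ld_eq_of_free_empty hV hf (hQ hv)⟩
      have := card_le_card hsub
      omega
    refine Or.inr ⟨hf, fun e he => ?_⟩
    have he' := mem_free.1 he
    -- at most one vertex of Q lies on e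
    have hone : (Q.filter (fun v => v ∈ e)).card ≤ 1 := by
      rw [card_le_one]
      intro u hu v hv
      rw [mem_filter] at hu hv
      by_contra huv
      have heq : e = s(u, v) := (Sym2.mem_and_mem_iff huv).1 ⟨hu.2, hv.2⟩
      exact he'.2.2 (heq ▸ hcl u hu.1 v hv.1 huv)
    have hsplit : (Q.filter (fun v => v ∈ e)).card + (Q.filter (fun v => ¬ v ∈ e)).card
        = Q.card := card_filter_add_card_filter_not (fun v => v ∈ e)
    obtain ⟨Q', hQ'1, hQ'2⟩ := exists_subset_card_eq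
      (show k + d ≤ (Q.filter (fun v => ¬ v ∈ e)).card by omega)
    have hQ'Q : Q' ⊆ Q := hQ'1.trans (filter_subset _ _)
    have hQ'U : Q' ⊆ U (insert e A) := by
      intro v hv
      exact mem_U_insert.2 ⟨(mem_filter.1 (hQ'1 hv)).2, hQ (hQ'Q hv)⟩
    have hV1 : Valid (insert e A) B := hV.insertA he
    obtain ⟨X, hX1, hX2, hX3⟩ := turn (b := b) (σ := σ) hV1 hQ'U hQ'2 (by omega)
      (fun v hv => hσ v (hQ'Q hv))
    refine ⟨X, hX1, hX2, ?_⟩
    have hV2 : Valid (insert e A) (B ∪ X) := hV1.unionB hX1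
    have hsum' : σ - b / (k + d) ≤ ∑ i ∈ Ico k (k + d), b / i := by
      have h1 : ∑ i ∈ Ico k (k + (d + 1)), b / i
          = (∑ i ∈ Ico k (k + d), b / i) + b / (k + d) := by
        rw [← add_assoc]
        exact sum_Ico_succ_top (Nat.le_add_right k d) _
      omega
    have key := ih (insert e A) (B ∪ X) Q' (σ - b / (k + d)) hV2 hQ'U hQ'2
      (fun u hu v hv huv => mem_union_left _ (hcl u (hQ'Q hu) v (hQ'Q hv) huv)) hX3 hsum'
    refine ForceN.imp ?_ key
    intro A' B' h
    exact h.trans (card_le_card (inter_subset_inter_right hQ'Q))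

theorem phase_three {Q : Finset (Fin n)} {j k σ : ℕ} (hV : Valid A B) (hQ : Q ⊆ U A)
    (hj : Q.card = j) (hk : 1 ≤ k) (hkj : k ≤ j)
    (hcl : ∀ u ∈ Q, ∀ v ∈ Q, u ≠ v → s(u, v) ∈ B)
    (hσ : ∀ v ∈ Q, n - 1 ≤ ld B v + σ) (hsum : σ ≤ ∑ i ∈ Ico k j, b / i) :
    ForceN b (fun A' B' => k ≤ (Q ∩ Fsh A' B').card) (j - k) A B := by
  obtain ⟨d, rfl⟩ := Nat.exists_eq_add_of_le hkj
  rw [Nat.add_sub_cancel_left]
  exact phase_aux hk d A B Q σ hV hQ hj hcl hσ hsum

end Pool.Agent.IG19
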