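import Pool.Agent.IG19.GameC

/-!
# IG19-PhaseTwo: S claims all pairs inside a set

Let `q A B` be the number of free edges with both end vertices in `A0 ∩ U A`.
`phase_two_aux`: if `q A B ≤ b * T` then within `T` rounds `S` reaches a position in which every two distinct
vertices of `A0` that are still untouched are joined by an edge of `S`.
Induction on `T` generalizing `A B`.  If `q A B = 0` the goal holds now: `u ≠ v` in `A0 ∩ U A` have
`s(u,v)` free or in `B` (`free_or_B`), and it is not free; use `ForceN.now`.  In particular this settles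
`T = 0`.  Otherwise `free A B ≠ ∅`.  After the move `e` of `F` let `Y` be the set of free edges with both
ends in `A0 ∩ U (insert e A)`; `|Y| ≤ q A B` (it is a subset).  If `|Y| ≤ b`, `S` claims a set `X`
with `Y ⊆ X ⊆ free (insert e A) B` of `min b _` elements (`Finset.exists_subsuperset_card_eq`) and then
`q = 0`.  If `|Y| > b`, `S` claims `b` edges of `Y` and then `q` is at most `b (T+1) - b = b T`.
`phase_two`: `q A B ≤ A0.card.choose 2` (the non diagonal elements of `A0.sym2`; or a subset of the image of
`A0.offDiag`, two preimages each; `Finset.card_sym2`), as free edges are not diagonal.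
-/

namespace Pool.Agent.IG19

open Finset

variable {n b : ℕ} {A B X : Finset (Sym2 (Fin n))}

private theorem done_of_empty {A0 : Finset (Fin n)}
    (h : (free A B).filter (fun e => ∀ v ∈ e, v ∈ A0 ∧ v ∈ U A) = ∅) :
    ∀ u ∈ A0, ∀ v ∈ A0, u ≠ v → u ∈ U A → v ∈ U A → s(u, v) ∈ B := by
  intro u hu v hv huv hu' hv'
  rcases free_or_B (B := B) hu' huv with h1 | h1
  · exfalso
    have h2 : s(u, v) ∈ (free A B).filter (fun e => ∀ v ∈ e, v ∈ A0 ∧ v ∈ U A) := by
      rw [mem_filter]
      refine ⟨h1, fun w hw => ?_⟩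
      rcases Sym2.mem_iff.1 hw with rfl | rfl
      · exact ⟨hu, hu'⟩
      · exact ⟨hv, hv'⟩
    rw [h] at h2
    exact notMem_empty _ h2
  · exact h1

theorem phase_two_aux {A0 : Finset (Fin n)} {T : ℕ} (hV : Valid A B)
    (hq : ((free A B).filter (fun e => ∀ v ∈ e, v ∈ A0 ∧ v ∈ U A)).card ≤ b * T) :
    ForceN b (fun A' B' => ∀ u ∈ A0, ∀ v ∈ A0, u ≠ v → u ∈ U A' → v ∈ U A' → s(u, v) ∈ B')
      T A B := by
  induction T generalizing A B with
  | zero =>
    apply ForceN.now
    apply done_of_empty
    rw [← card_eq_zero]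
    simpa using hq
  | succ T ih =>
    by_cases h0 : (free A B).filter (fun e => ∀ v ∈ e, v ∈ A0 ∧ v ∈ U A) = ∅
    · exact ForceN.now _ (done_of_empty h0)
    · have hf : free A B ≠ ∅ := by
        intro h
        apply h0
        rw [h, filter_empty]
      refine Or.inr ⟨hf, fun e he => ?_⟩
      have hV1 : Valid (insert e A) B := hV.insertA he
      set Y := (free (insert e A) B).filter
        (fun e' => ∀ v ∈ e', v ∈ A0 ∧ v ∈ U (insert e A)) with hY
      have hYF : Y ⊆ free (insert e A) B := filter_subset _ _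
      have hYq : Y ⊆ (free A B).filter (fun e => ∀ v ∈ e, v ∈ A0 ∧ v ∈ U A) := by
        intro x hx
        rw [hY, mem_filter] at hx
        rw [mem_filter]
        refine ⟨?_, fun w hw => ⟨(hx.2 w hw).1, U_insert_subset (hx.2 w hw).2⟩⟩
        have h1 := hx.1
        rw [free_insert he] at h1
        exact mem_of_mem_erase h1
      have hYc : Y.card ≤ b * (T + 1) := (card_le_card hYq).trans hq
      have key : ∀ X : Finset (Sym2 (Fin n)),
          (free (insert e A) (B ∪ X)).filter
            (fun e' => ∀ v ∈ e', v ∈ A0 ∧ v ∈ U (insert e A)) ⊆ Y \ X := by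
        intro X x hx
        rw [mem_filter, free_union, mem_sdiff] at hx
        rw [mem_sdiff, hY, mem_filter]
        exact ⟨⟨hx.1.1, hx.2⟩, hx.1.2⟩
      by_cases hb : Y.card ≤ b
      · obtain ⟨X, hX1, hX2, hX3⟩ := exists_subsuperset_card_eq hYF
          (le_min hb (card_le_card hYF)) (min_le_right b _)
        refine ⟨X, hX2, hX3, ih (hV1.unionB hX2) ?_⟩
        have h1 := card_le_card (key X)
        rw [sdiff_eq_empty_iff_subset.2 hX1, card_empty] at h1
        exact h1.trans (Nat.zero_le _)
      · push Not at hb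
        obtain ⟨X, hX1, hX2⟩ := exists_subset_card_eq hb.le
        have hF : b ≤ (free (insert e A) B).card := hb.le.trans (card_le_card hYF)
        refine ⟨X, hX1.trans hYF, ?_, ih (hV1.unionB (hX1.trans hYF)) ?_⟩
        · rw [hX2, min_eq_left hF]
        · refine (card_le_card (key X)).trans ?_
          rw [card_sdiff_of_subset hX1, hX2]
          rw [Nat.mul_succ] at hYc
          omega

theorem phase_two {A0 : Finset (Fin n)} {T : ℕ} (hV : Valid A B)
    (hq : A0.card.choose 2 ≤ b * T) :
    ForceN b (fun A' B' => ∀ u ∈ A0, ∀ v ∈ A0, u ≠ v → u ∈ U A' → v ∈ U A' → s(u, v) ∈ B')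
      T A B := by
  refine phase_two_aux hV (le_trans ?_ hq)
  rw [← Sym2.card_image_offDiag A0]
  apply card_le_card
  intro x hx
  rw [mem_filter] at hx
  obtain ⟨h1, h2⟩ := hx
  induction x using Sym2.ind with
  | _ u v =>
    have h3 : u ≠ v := mk_mem_edges.1 (mem_free.1 h1).1
    rw [mem_image]
    exact ⟨(u, v), mem_offDiag.2 ⟨(h2 u (Sym2.mem_mk_left u v)).1,
      (h2 v (Sym2.mem_mk_right u v)).1, h3⟩, rfl⟩

end Pool.Agent.IG19
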