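import Pool.Agent.IG19.GameA
import Pool.Agent.IG19.PhaseOne
import Pool.Agent.IG19.PhaseTwo
import Pool.Agent.IG19.PhaseThree

/-!
# IG19-Batch: batches, and the lower bound with free parameters

`St k M N c r A B`: legal, untouched loads at least `M`, and there are disjoint sets `Res ⊆ U A`,
`Fs ⊆ Fsh A B` with `|Fs| ≥ r k` and `N ≤ |Res| + r c`.

`one_batch`, with `c = 3 a + 2 T`.  Choose `A0 ⊆ Res` with `|A0| = a` (`a ≤ |Res|` as
`a + r c ≤ N`; `Finset.exists_subset_card_eq`).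
`phase_two` and `ForceN.frame`: within `T` rounds we reach `(A', B')` in which `Q = A0 ∩ U A'` is joined
completely and `|U A| ≤ |U A'| + 2 T`; as `U A' ⊆ U A` (because `A ⊆ A'`), at most `2 T` vertices of `U A` are not in
`U A'`, so `|Q| ≥ a - 2T`; let `Q' ⊆ Q` have `a - 2T` elements.  Loads are still `≥ M` (`ld_mono`),
so `n - 1 ≤ ld B' v + (n - 1 - M)`.
`phase_three` with `j = a - 2T`, `σ = n - 1 - M` and `ForceN.frame`: within `j - k ≤ a` rounds we reach
`(A'', B'')` with at least `k` vertices of `Q'` in `Fsh A'' B''`.  Take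
`Fs' = Fs ∪ (Q' ∩ Fsh A'' B'')` (disjoint, as `Q' ⊆ A0 ⊆ Res`; `Fs ⊆ Fsh A B ⊆ Fsh A'' B''`),
`Res' = (Res \ A0) ∩ U A''`, `|Res'| ≥ |Res| - a - 2 (T + a)`.
Rounds: `T + (j - k) ≤ T + a` (`ForceN.trans`, `ForceN.mono`).

`batches`: induction on `r'` with `one_batch` and `ForceN.trans`.

`low_main`: if `M = 0`, `N ≤ n`: the start position satisfies `St k 0 N c 0` with `Res = univ`, `Fs = ∅`.
Otherwise `phase_one` leads to `St k M N c 0` with `Res = U A`, `Fs = ∅`.  Then `batches` with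
`r' = R`; for the last batch the condition `a + (R-1) c ≤ N` follows from `R c ≤ N`, `a ≤ c`.  At the end
`R k ≤ |Fs| ≤ |Fsh A B|`: `guar_of_fsh`, `guar_of_force`, `le_f`.
-/

namespace Pool.Agent.IG19

open Finset

variable {n b : ℕ} {A B X : Finset (Sym2 (Fin n))}

def St (k M N c r : ℕ) (A B : Finset (Sym2 (Fin n))) : Prop :=
  Valid A B ∧ (∀ v ∈ U A, M ≤ ld B v) ∧ ∃ Res Fs : Finset (Fin n), Res ⊆ U A ∧ Fs ⊆ Fsh A B ∧
    Disjoint Res Fs ∧ r * k ≤ Fs.card ∧ N ≤ Res.card + r * c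

theorem one_batch {M N T a k r : ℕ} (hk : 1 ≤ k) (hkj : k ≤ a - 2 * T)
    (hT : a.choose 2 ≤ b * T) (hsum : n - 1 - M ≤ ∑ i ∈ Ico k (a - 2 * T), b / i)
    (hr : a + r * (3 * a + 2 * T) ≤ N) (h : St k M N (3 * a + 2 * T) r A B) :
    ForceN b (St k M N (3 * a + 2 * T) (r + 1)) (T + a) A B := by
  classical
  obtain ⟨hV, hM, Res, Fs, hRU, hFs, hdis, hrk, hN⟩ := h
  have haR : a ≤ Res.card := by omega
  obtain ⟨A0, hA0, hA0c⟩ := Finset.exists_subset_card_eq haR
  have h2 := (phase_two (b := b) (A0 := A0) (T := T) hV (by rw [hA0c]; exact hT)).frame hV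
  refine ForceN.trans ?_ h2
  rintro A' B' ⟨hcl, hV', hAA', hBB', hUc, hFF⟩
  have hUU : U A' ⊆ U A := by
    intro v hv
    rw [mem_U] at hv ⊢
    exact fun e he => hv e (hAA' he)
  have hdiff : (U A \ U A').card ≤ 2 * T := by
    have := Finset.card_sdiff_add_card_eq_card hUU
    omega
  have hQc : a - 2 * T ≤ (A0 ∩ U A').card := by
    have h1 : (A0 \ U A').card ≤ (U A \ U A').card :=
      Finset.card_le_card (Finset.sdiff_subset_sdiff (hA0.trans hRU) (le_refl _))
    have h3 := Finset.card_sdiff_add_card_inter A0 (U A')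
    omega
  obtain ⟨Q, hQ, hQcard⟩ := Finset.exists_subset_card_eq hQc
  have hQU : Q ⊆ U A' := hQ.trans Finset.inter_subset_right
  have hQA : Q ⊆ A0 := hQ.trans Finset.inter_subset_left
  have hM' : ∀ v ∈ U A', M ≤ ld B' v := fun v hv =>
    le_trans (hM v (hUU hv)) (ld_mono hBB' v)
  have h3 := (phase_three (b := b) (Q := Q) (j := a - 2 * T) (k := k) (σ := n - 1 - M) hV' hQU
    hQcard hk hkj (fun u hu v hv huv => hcl u (hQA hu) v (hQA hv) huv (hQU hu) (hQU hv))
    (fun v hv => by have := hM' v (hQU hv); omega) hsum).frame hV'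
  have hle : a - 2 * T - k ≤ a := by omega
  refine (h3.imp ?_).mono hle
  rintro A2 B2 ⟨hkQ, hV2, hAA2, hBB2, hUc2, hFF2⟩
  have hUU2 : U A2 ⊆ U A' := by
    intro v hv
    rw [mem_U] at hv ⊢
    exact fun e he => hv e (hAA2 he)
  have hdiff2 : (U A \ U A2).card ≤ 2 * T + 2 * (a - 2 * T - k) := by
    have := Finset.card_sdiff_add_card_eq_card (hUU2.trans hUU)
    omega
  refine ⟨hV2, fun v hv => le_trans (hM' v (hUU2 hv)) (ld_mono hBB2 v), (Res \ A0) ∩ U A2,
    Fs ∪ (Q ∩ Fsh A2 B2), Finset.inter_subset_right, ?_, ?_, ?_, ?_⟩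
  · refine Finset.union_subset ?_ Finset.inter_subset_right
    exact (hFs.trans hFF).trans hFF2
  · rw [Finset.disjoint_union_right]
    refine ⟨?_, ?_⟩
    · exact Finset.disjoint_of_subset_left
        (Finset.inter_subset_left.trans Finset.sdiff_subset) hdis
    · rw [Finset.disjoint_left]
      intro v hv hv2
      have h4 := (Finset.mem_sdiff.1 (Finset.mem_inter.1 hv).1).2
      exact h4 (hQA (Finset.mem_inter.1 hv2).1)
  · have hd : Disjoint Fs (Q ∩ Fsh A2 B2) := by
      rw [Finset.disjoint_left]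
      intro v hv hv2
      exact (Finset.disjoint_left.1 hdis) (hA0 (hQA (Finset.mem_inter.1 hv2).1)) hv
    rw [Finset.card_union_of_disjoint hd]
    have : (r + 1) * k = r * k + k := by ring
    omega
  · have h4 : (Res \ A0).card + A0.card = Res.card := Finset.card_sdiff_add_card_eq_card hA0
    have h5 : ((Res \ A0) \ U A2).card ≤ (U A \ U A2).card :=
      Finset.card_le_card (Finset.sdiff_subset_sdiff (Finset.sdiff_subset.trans hRU) (le_refl _))
    have h6 := Finset.card_sdiff_add_card_inter (Res \ A0) (U A2)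
    have h7 : (r + 1) * (3 * a + 2 * T) = r * (3 * a + 2 * T) + (3 * a + 2 * T) := by ring
    omega

theorem batches {M N T a k : ℕ} (hk : 1 ≤ k) (hkj : k ≤ a - 2 * T)
    (hT : a.choose 2 ≤ b * T) (hsum : n - 1 - M ≤ ∑ i ∈ Ico k (a - 2 * T), b / i) (R : ℕ)
    (hR : R * (3 * a + 2 * T) ≤ N) (h : St k M N (3 * a + 2 * T) 0 A B) :
    ForceN b (St k M N (3 * a + 2 * T) R) (R * (T + a)) A B := by
  have key : ∀ r, r ≤ R → ForceN b (St k M N (3 * a + 2 * T) r) (r * (T + a)) A B := by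
    intro r
    induction r with
    | zero =>
      intro _
      rw [Nat.zero_mul]
      exact ForceN.now 0 h
    | succ r ih =>
      intro hr
      have h1 := ih (by omega)
      have hrR : (r + 1) * (3 * a + 2 * T) ≤ R * (3 * a + 2 * T) := Nat.mul_le_mul_right _ hr
      have h7 : (r + 1) * (3 * a + 2 * T) = r * (3 * a + 2 * T) + (3 * a + 2 * T) := by ring
      have h8 : (r + 1) * (T + a) = r * (T + a) + (T + a) := by ring
      rw [h8]
      exact ForceN.trans (fun A' B' h' => one_batch hk hkj hT hsum (by omega) h') h1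
  exact key R (le_refl _)

theorem low_main {M N T a k R : ℕ} (hk : 1 ≤ k) (hkj : k ≤ a - 2 * T)
    (hT : a.choose 2 ≤ b * T) (hsum : n - 1 - M ≤ ∑ i ∈ Ico k (a - 2 * T), b / i)
    (hR : R * (3 * a + 2 * T) ≤ N)
    (h1 : (M = 0 ∧ N ≤ n) ∨ (2 ≤ b ∧ 2 * M + 2 ≤ N ∧ N + 1 ≤ n ∧
      (M : ℝ) + 2 ≤ ((b : ℝ) - 2) * Real.log ((n : ℝ) / ((N : ℝ) + 2)))) :
    R * k ≤ f n b := by
  classical
  have hfin : ∀ A B : Finset (Sym2 (Fin n)), St k M N (3 * a + 2 * T) R A B →
      Guar n b (R * k) true A B := by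
    rintro A B ⟨hV, -, Res, Fs, -, hFs, -, hrk, -⟩
    exact guar_of_fsh hV (le_trans hrk (Finset.card_le_card hFs))
  have hb : ∀ A B : Finset (Sym2 (Fin n)), St k M N (3 * a + 2 * T) 0 A B →
      ForceN b (St k M N (3 * a + 2 * T) R) (R * (T + a)) A B :=
    fun A B h => batches hk hkj hT hsum R hR h
  rcases h1 with ⟨hM0, hNn⟩ | ⟨hb2, hMN, hNn, hlog⟩
  · have h0 : St k M N (3 * a + 2 * T) 0 (∅ : Finset (Sym2 (Fin n))) ∅ := by
      refine ⟨valid_empty, fun v _ => by rw [hM0]; exact Nat.zero_le _, univ, ∅, ?_, ?_, ?_, ?_, ?_⟩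
      · rw [U_empty]
      · exact Finset.empty_subset _
      · exact Finset.disjoint_empty_right _
      · simp
      · simp only [Finset.card_univ, Fintype.card_fin]
        omega
    exact le_f (guar_of_force hfin (hb _ _ h0))
  · obtain ⟨T0, hT0⟩ := phase_one (n := n) hb2 hMN hNn hlog
    have h0 : ForceN b (St k M N (3 * a + 2 * T) 0) T0 (∅ : Finset (Sym2 (Fin n))) ∅ := by
      refine hT0.imp ?_
      rintro A B ⟨hV, hU, hM⟩
      exact ⟨hV, hM, U A, ∅, le_refl _, Finset.empty_subset _, Finset.disjoint_empty_right _,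
        by simp, by omega⟩
    exact le_f (guar_of_force hfin (ForceN.trans hb h0))

end Pool.Agent.IG19
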