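import Pool.Agent.IG19.BetaDef

/-!
# IG19-BetaLow: L and the lower bound of beta at b

Put `L = LL n b = log (e n/b) = 1 + log (n/b) ≥ 1` (as `b ≤ n`), `N = N1 n b`, `m = N - 2 = ⌈4 b L⌉ ≥ 4 b L ≥ 4 b`.
`beta_b_ge`: `b < N`, so `β b = b log (n/m) + 2 b ∑_{j=b}^{N-1} 1/j ≥ b (log n - log m + 2 (log N - log b))`, by
`∑_{j=b}^{N-1} 1/j ≥ log (N/b)` (`1/j ≥ log (j+1) - log j`), and `N ≥ m`, so this is at least
`b (log (n/b) + log (N/b)) ≥ b (log (n/b) + log 4) ≥ b (log (n/b) + 1) = b L`.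
-/

namespace Pool.Agent.IG19

open Finset

variable {n b : ℕ}

theorem LL_eq (hb : 1 ≤ b) (hbn : b ≤ n) : LL n b = 1 + Real.log ((n : ℝ) / b) := by
  have hb' : (0 : ℝ) < b := by exact_mod_cast hb
  have hn' : (0 : ℝ) < n := by exact_mod_cast (lt_of_lt_of_le hb hbn)
  unfold LL
  rw [mul_div_assoc, Real.log_mul (Real.exp_pos 1).ne' (by positivity), Real.log_exp]

theorem one_le_LL (hb : 1 ≤ b) (hbn : b ≤ n) : 1 ≤ LL n b := by
  rw [LL_eq hb hbn]
  have hb' : (0 : ℝ) < b := by exact_mod_cast hb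
  have h : (1 : ℝ) ≤ (n : ℝ) / b := by
    rw [le_div_iff₀ hb', one_mul]
    exact_mod_cast hbn
  have := Real.log_nonneg h
  linarith

/-- `∑_{j=i}^{N-1} 1/j ≥ log (N/i)`. -/
theorem sum_inv_ge {i N : ℕ} (hi : 1 ≤ i) (hiN : i ≤ N) :
    Real.log ((N : ℝ) / i) ≤ ∑ j ∈ Ico i N, (1 : ℝ) / j := by
  induction N, hiN using Nat.le_induction with
  | base =>
    have hi' : (i : ℝ) ≠ 0 := by exact_mod_cast (by omega : i ≠ 0)
    simp [div_self hi']
  | succ N hN ih =>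
    rw [Finset.sum_Ico_succ_top hN]
    have hi' : (0 : ℝ) < i := by exact_mod_cast hi
    have hN' : (0 : ℝ) < N := by exact_mod_cast (lt_of_lt_of_le hi hN)
    have e : ((N + 1 : ℕ) : ℝ) / i = ((N : ℝ) / i) * (1 + 1 / N) := by
      push_cast
      field_simp
    rw [e, Real.log_mul (by positivity) (by positivity)]
    have h := Real.log_le_sub_one_of_pos (x := 1 + 1 / (N : ℝ)) (by positivity)
    linarith

theorem beta_b_ge (hb : 1 ≤ b) (hbn : b ≤ n) : (b : ℝ) * LL n b ≤ beta n b b := by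
  have hb' : (1 : ℝ) ≤ b := by exact_mod_cast hb
  have hb0 : (0 : ℝ) < b := by linarith
  have hn' : (0 : ℝ) < n := by exact_mod_cast (lt_of_lt_of_le hb hbn)
  have hL := one_le_LL hb hbn
  have hN4 : 4 * (b : ℝ) + 2 ≤ (N1 n b : ℝ) := by
    unfold N1
    push_cast
    have := Nat.le_ceil (4 * (b : ℝ) * LL n b)
    nlinarith
  have hbN : b < N1 n b := by
    have : (b : ℝ) < (N1 n b : ℝ) := by linarith
    exact_mod_cast this
  have hN0 : (0 : ℝ) < (N1 n b : ℝ) := by linarith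
  have hm0 : (0 : ℝ) < (N1 n b : ℝ) - 2 := by linarith
  have hs := sum_inv_ge hb hbN.le
  unfold beta
  rw [if_neg (not_le.mpr hbN), if_pos le_rfl, LL_eq hb hbn]
  rw [Real.log_div hn'.ne' hb0.ne', Real.log_div hn'.ne' hm0.ne']
  rw [Real.log_div hN0.ne' hb0.ne'] at hs
  have h1 : Real.log ((N1 n b : ℝ) - 2) ≤ Real.log (N1 n b : ℝ) :=
    Real.log_le_log hm0 (by linarith)
  have h2 : 1 + Real.log b ≤ Real.log (N1 n b : ℝ) := by
    have e : 1 + Real.log b = Real.log (Real.exp 1 * b) := by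
      rw [Real.log_mul (Real.exp_pos 1).ne' hb0.ne', Real.log_exp]
    rw [e]
    apply Real.log_le_log (by positivity)
    have := Real.exp_one_lt_d9
    nlinarith
  have h3 : (b : ℝ) * (Real.log (N1 n b : ℝ) - Real.log b)
      ≤ b * ∑ j ∈ Ico b (N1 n b), (1 : ℝ) / j := mul_le_mul_of_nonneg_left hs hb0.le
  have h4 : 0 ≤ (b : ℝ) * (Real.log (N1 n b : ℝ) - Real.log ((N1 n b : ℝ) - 2)) :=
    mul_nonneg hb0.le (by linarith)
  have h5 : 0 ≤ (b : ℝ) * (Real.log (N1 n b : ℝ) - (1 + Real.log b)) :=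
    mul_nonneg hb0.le (by linarith)
  nlinarith

end Pool.Agent.IG19
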