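import Pool.Agent.IG19.BetaDef
import Pool.Agent.IG19.BetaLow

/-!
# IG19-BetaBound: upper bounds for beta

Put `L = LL n b = 1 + log (n/b) ≥ 1`, `N = N1 n b`, `m = N - 2 = ⌈4 b L⌉`, so `4 b L ≤ m ≤ 4 b L + 1`.

* `beta_b_le`: `∑_{j=b}^{N-1} 1/j ≤ 1/b + log ((N-1)/b)` (`1/(j+1) ≤ log (j+1) - log j`), so
  `β b ≤ b (log n - log m + 2 log (m+1) - 2 log b) + 2`, and
  `(m+1)²/m = m + 2 + 1/m ≤ 4 b L + 1 + 2 + 1/4 ≤ 8 b L` because `b L ≥ 1`.
  Hence `β b ≤ b (log n - 2 log b + log (8 b L)) + 2 = b (log (n/b) + log L + log 8) + 2`.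
* `beta_one_le`: if `b = 1` it is `beta_b_le` (`log 8 ≤ 2.1`).  If `b ≥ 2`:
  `β 1 = β b + ∑_{j=1}^{b-1} (1 + b/j) ≤ β b + (b - 1) + b (1 + log b)`, so
  `β 1 ≤ b (log n + log L + log 8 + 2) + 1 ≤ b (log n + log L + 6)`.
-/

namespace Pool.Agent.IG19

open Finset

variable {n b : ℕ}

/-- `∑_{j=i}^{M} 1/j ≤ 1/i + log (M/i)`. -/
private lemma bb_sum_inv_le {i M : ℕ} (hi : 1 ≤ i) (hiM : i ≤ M) :
    ∑ j ∈ Ico i (M + 1), (1 : ℝ) / j ≤ 1 / i + Real.log ((M : ℝ) / i) := by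
  induction M, hiM using Nat.le_induction with
  | base =>
    have hi' : (i : ℝ) ≠ 0 := by exact_mod_cast (by omega : i ≠ 0)
    simp [div_self hi']
  | succ M hM ih =>
    rw [Finset.sum_Ico_succ_top (by omega : i ≤ M + 1)]
    have hi' : (0 : ℝ) < i := by exact_mod_cast hi
    have hM' : (0 : ℝ) < M := by exact_mod_cast (lt_of_lt_of_le hi hM)
    have hM1 : (0 : ℝ) < (M : ℝ) + 1 := by linarith
    have e : (M : ℝ) / i = (((M + 1 : ℕ) : ℝ) / i) * ((M : ℝ) / (M + 1)) := by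
      push_cast
      field_simp
    have h := Real.log_le_sub_one_of_pos (x := (M : ℝ) / (M + 1)) (by positivity)
    have e2 : (M : ℝ) / (M + 1) - 1 = - (1 / ((M + 1 : ℕ) : ℝ)) := by
      push_cast
      field_simp
      ring
    have e3 : Real.log ((M : ℝ) / i) =
        Real.log (((M + 1 : ℕ) : ℝ) / i) + Real.log ((M : ℝ) / (M + 1)) := by
      rw [e, Real.log_mul (by positivity) (by positivity)]
    rw [e2] at h
    rw [e3] at ih
    linarith

theorem beta_b_le (hb : 1 ≤ b) (hbn : b ≤ n) :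
    beta n b b ≤ (b : ℝ) * (Real.log ((n : ℝ) / b) + Real.log (LL n b) + Real.log 8) + 2 := by
  have hb1 : (1 : ℝ) ≤ b := by exact_mod_cast hb
  have hb0 : (0 : ℝ) < b := by linarith
  have hn0 : (0 : ℝ) < n := by exact_mod_cast (lt_of_lt_of_le hb hbn)
  have hL := one_le_LL hb hbn
  have hL0 : 0 < LL n b := by linarith
  have hbL : 1 ≤ (b : ℝ) * LL n b := by nlinarith
  obtain ⟨m, hm⟩ : ∃ m : ℕ, m = ⌈4 * (b : ℝ) * LL n b⌉₊ := ⟨_, rfl⟩
  have hN : N1 n b = m + 2 := by rw [hm]; rfl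
  have hm1 : 4 * (b : ℝ) * LL n b ≤ m := by rw [hm]; exact Nat.le_ceil _
  have hm2 : (m : ℝ) ≤ 4 * (b : ℝ) * LL n b + 1 := by
    rw [hm]; exact (Nat.ceil_lt_add_one (by positivity)).le
  have hm4 : (4 : ℝ) ≤ m := by nlinarith
  have hm0 : (0 : ℝ) < m := by linarith
  have hbm : b ≤ m + 1 := by
    have : (b : ℝ) ≤ m := by nlinarith
    have : b ≤ m := by exact_mod_cast this
    omega
  have hs := bb_sum_inv_le hb hbm
  have hm1' : (0 : ℝ) < (m : ℝ) + 1 := by linarith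
  have hneg : ¬ N1 n b ≤ b := by rw [hN]; omega
  have key : beta n b b = (b : ℝ) * Real.log ((n : ℝ) / m) +
      2 * (b : ℝ) * ∑ j ∈ Ico b (m + 1 + 1), (1 : ℝ) / j := by
    unfold beta
    rw [if_neg hneg, if_pos le_rfl, hN]
    push_cast
    rw [add_sub_cancel_right]
  rw [key]
  push_cast at hs
  have l1 : Real.log ((n : ℝ) / m) = Real.log n - Real.log m := Real.log_div hn0.ne' hm0.ne'
  have l2 : Real.log (((m : ℝ) + 1) / b) = Real.log ((m : ℝ) + 1) - Real.log b :=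
    Real.log_div hm1'.ne' hb0.ne'
  have l3 : Real.log ((n : ℝ) / b) = Real.log n - Real.log b := Real.log_div hn0.ne' hb0.ne'
  have l4 : 2 * Real.log ((m : ℝ) + 1) - Real.log m ≤
      Real.log 8 + Real.log b + Real.log (LL n b) := by
    have e1 : 2 * Real.log ((m : ℝ) + 1) - Real.log m = Real.log (((m : ℝ) + 1) ^ 2 / m) := by
      rw [Real.log_div (by positivity) hm0.ne', Real.log_pow]
      push_cast
      ring
    have e2 : Real.log 8 + Real.log b + Real.log (LL n b) = Real.log (8 * b * LL n b) := by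
      rw [Real.log_mul (by positivity) hL0.ne', Real.log_mul (by norm_num) hb0.ne']
    rw [e1, e2]
    apply Real.log_le_log (by positivity)
    rw [div_le_iff₀ hm0]
    nlinarith
  have h2b : 2 * (b : ℝ) * (1 / b) = 2 := by field_simp
  have hs2 : 2 * (b : ℝ) * ∑ j ∈ Ico b (m + 1 + 1), (1 : ℝ) / j ≤
      2 * (b : ℝ) * (1 / b + Real.log (((m : ℝ) + 1) / b)) :=
    mul_le_mul_of_nonneg_left hs (by positivity)
  have h5 := mul_le_mul_of_nonneg_left l4 hb0.le
  rw [l1, l3]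
  rw [mul_add, h2b, l2] at hs2
  nlinarith

theorem beta_one_le (hb : 1 ≤ b) (hbn : b ≤ n) :
    beta n b 1 ≤ (b : ℝ) * (Real.log n + Real.log (LL n b) + 6) := by
  have hb1 : (1 : ℝ) ≤ b := by exact_mod_cast hb
  have hb0 : (0 : ℝ) < b := by linarith
  have hn0 : (0 : ℝ) < n := by exact_mod_cast (lt_of_lt_of_le hb hbn)
  have hB := beta_b_le hb hbn
  have l3 : Real.log ((n : ℝ) / b) = Real.log n - Real.log b := Real.log_div hn0.ne' hb0.ne'
  have l8 : Real.log 8 ≤ 2.1 := by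
    have e : (8 : ℝ) = 2 ^ 3 := by norm_num
    rw [e, Real.log_pow]
    have := Real.log_two_lt_d9
    push_cast
    linarith
  rw [l3] at hB
  rcases Nat.lt_or_ge 1 b with h1 | h1
  · -- `b ≥ 2`
    have hneg : ¬ N1 n b ≤ 1 := by unfold N1; omega
    have hNb : ¬ N1 n b ≤ b := by
      have hL := one_le_LL hb hbn
      have h4 := Nat.le_ceil (4 * (b : ℝ) * LL n b)
      have h5 : (b : ℝ) < ((⌈4 * (b : ℝ) * LL n b⌉₊ : ℕ) : ℝ) := by nlinarith
      have h6 : b < ⌈4 * (b : ℝ) * LL n b⌉₊ := by exact_mod_cast h5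
      unfold N1
      omega
    have key : beta n b 1 = beta n b b + ∑ j ∈ Ico 1 b, (1 + (b : ℝ) / j) := by
      unfold beta
      rw [if_neg hneg, if_neg (by omega : ¬ b ≤ 1), if_neg hNb, if_pos le_rfl]
      ring
    obtain ⟨c, rfl⟩ : ∃ c, b = c + 1 := ⟨b - 1, by omega⟩
    have hs := bb_sum_inv_le (i := 1) (M := c) le_rfl (by omega)
    have hc0 : (0 : ℝ) < c := by
      have : 0 < c := by omega
      exact_mod_cast this
    have hsum : ∑ j ∈ Ico 1 (c + 1), (1 + ((c + 1 : ℕ) : ℝ) / j) =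
        c + ((c + 1 : ℕ) : ℝ) * ∑ j ∈ Ico 1 (c + 1), (1 : ℝ) / j := by
      rw [Finset.sum_add_distrib, Finset.mul_sum]
      congr 1
      · simp
      · apply Finset.sum_congr rfl
        intro j _
        rw [mul_one_div]
    rw [key, hsum]
    have hlog : Real.log ((c : ℝ) / ((1 : ℕ) : ℝ)) ≤ Real.log ((c + 1 : ℕ) : ℝ) := by
      apply Real.log_le_log (by simpa using hc0)
      push_cast
      linarith
    have hs2 : ∑ j ∈ Ico 1 (c + 1), (1 : ℝ) / j ≤ 1 + Real.log ((c + 1 : ℕ) : ℝ) := by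
      have : (1 : ℝ) / ((1 : ℕ) : ℝ) = 1 := by norm_num
      rw [this] at hs
      linarith
    have hs3 := mul_le_mul_of_nonneg_left hs2 hb0.le
    have h8 := mul_le_mul_of_nonneg_left l8 hb0.le
    have hcb : (c : ℝ) = ((c + 1 : ℕ) : ℝ) - 1 := by push_cast; ring
    rw [hcb]
    nlinarith
  · have hb' : b = 1 := by omega
    subst hb'
    have h0 : Real.log (((1 : ℕ) : ℝ)) = 0 := by simp
    rw [h0] at hB
    push_cast at hB ⊢
    linarith

end Pool.Agent.IG19
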