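import Mathlib

/-!
# IG19-BetaDef: the function beta
-/

namespace Pool.Agent.IG19

open Finset

/-- `L = log (e n / b)`. -/
noncomputable def LL (n b : ℕ) : ℝ := Real.log (Real.exp 1 * n / b)

/-- The threshold above which pairs can be killed. -/
noncomputable def N1 (n b : ℕ) : ℕ := ⌈4 * (b : ℝ) * LL n b⌉₊ + 2

/-- The bound for the average load of a set of `i` untouched vertices. -/
noncomputable def beta (n b i : ℕ) : ℝ :=
  if N1 n b ≤ i then (b : ℝ) * Real.log ((n : ℝ) / ((i : ℝ) - 2))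
  else (b : ℝ) * Real.log ((n : ℝ) / ((N1 n b : ℝ) - 2)) +
    (if b ≤ i then 2 * (b : ℝ) * ∑ j ∈ Ico i (N1 n b), (1 : ℝ) / j
      else 2 * (b : ℝ) * ∑ j ∈ Ico b (N1 n b), (1 : ℝ) / j + ∑ j ∈ Ico i b, (1 + (b : ℝ) / j))

/-- The properties of `beta` used by the strategies of the first player. -/
structure BetaProp (n b : ℕ) (β : ℕ → ℝ) (N : ℕ) : Prop where
  anti : ∀ i j, 1 ≤ i → i ≤ j → β j ≤ β i
  small : ∀ i : ℕ, 1 ≤ i → i < b → (i : ℝ) * β (i + 1) + i + b ≤ i * β i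
  mid : ∀ i : ℕ, b ≤ i → 1 ≤ i → i < N → (i : ℝ) * β (i + 1) + 2 * b ≤ i * β i
  big : ∀ i : ℕ, N ≤ i → (i : ℝ) * β (i + 2) + 2 * b ≤ i * β i
  quarter : ∀ i : ℕ, N ≤ i → β (i + 2) ≤ i / 4
  big1 : ∀ i : ℕ, N ≤ i → β (i + 1) + 2 * b ≤ i
  base : (b : ℝ) ≤ β b
  nonneg : ∀ i, 1 ≤ i → i ≤ n → 0 ≤ β i
  strict : β (b + 1) < β b
  lt : b < N

end Pool.Agent.IG19
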