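import Pool.Agent.IG19.BetaLow

/-!
# IG19-BetaProp: the properties of beta

Put `L = LL n b = 1 + log (n/b) ≥ 1` (as `b ≤ n`), `N = N1 n b`, `m = N - 2 = ⌈4 b L⌉ ≥ 4 b L ≥ 4 b ≥ 4`.
So `N ≥ 4 b + 2 > b` (`lt`).

* `small`: for `1 ≤ i < b` both `i` and `i + 1 ≤ b < N` are in the range given by the second formula, and
  `β i - β (i+1) = 1 + b/i` (also when `i + 1 = b`: `Ico b b = ∅`, `Finset.sum_Ioc`-type splitting
  `Finset.sum_eq_sum_Ico_succ_bot`).
* `mid`: for `b ≤ i < N`: `β i - β (i+1) = 2b/i` (also when `i + 1 = N`, where the first formula for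
  `β N` equals the common constant).
* `big`: for `i ≥ N`: `β i - β (i+2) = b (log (n/(i-2)) - log (n/i)) = b log (i/(i-2)) ≥ 2b/i`, as
  `log (i/(i-2)) = - log (1 - 2/i) ≥ 2/i` (`Real.log_le_sub_one_of_pos`).
* `quarter`: `β (i+2) = b log (n/i)` and `i ≥ 4 b L ≥ b`, so `b log (n/i) ≤ b log (n/b) ≤ b L ≤ i/4`.
* `big1`: `β (i+1) = b log (n/(i-1))` with `i - 1 ≥ 4 b L + 1 ≥ b`, so it is at most
  `b log (n/b) ≤ b L - b`, and `b L - b + 2 b = b L + b ≤ 2 b L ≤ i`.
* `anti`: it suffices to see `β (i+1) ≤ β i` for `i ≥ 1` (`antitone_nat_of_succ_le` or an induction from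
  `i`): from `small`, `mid` (differences are nonnegative) and for `i ≥ N` monotonicity of `log`
  (`i - 2 > 0`, `n > 0`).
* `base`: `beta_b_ge` and `L ≥ 1`.
* `nonneg`: for `i ≥ N`, `i ≤ n`: `n/(i-2) ≥ 1`.  By `anti` it is enough to show `β n ≥ 0`; if `n ≥ N` done; if
  `b ≤ n < N`: `β n = b log (n/m) + 2b ∑_{j=n}^{N-1} 1/j ≥ b (log n - log m + 2 (log N - log n)) =
  b (2 log N - log m - log n) ≥ 0`, as `N ≥ m` and `N ≥ n` (`sum_inv_ge`).
* `strict`: `mid` for `i = b` and `b > 0`.
-/

namespace Pool.Agent.IG19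

open Finset

variable {n b : ℕ}

private lemma log_ratio {x : ℝ} (hx : 2 < x) : 2 / x ≤ Real.log (x / (x - 2)) := by
  have h0 : 0 < x := by linarith
  have h1 : 0 < x - 2 := by linarith
  have h := Real.log_le_sub_one_of_pos (x := (x - 2) / x) (by positivity)
  have e1 : Real.log (x / (x - 2)) = - Real.log ((x - 2) / x) := by
    rw [← Real.log_inv, inv_div]
  rw [e1]
  have e2 : (x - 2) / x - 1 = - (2 / x) := by field_simp; ring
  rw [e2] at h
  linarith

private lemma m_facts :
    4 * (b : ℝ) * LL n b + 2 ≤ (N1 n b : ℝ) := by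
  unfold N1
  push_cast
  have := Nat.le_ceil (4 * (b : ℝ) * LL n b)
  linarith

private lemma b4_le (hb : 1 ≤ b) (hbn : b ≤ n) : 4 * (b : ℝ) + 2 ≤ (N1 n b : ℝ) := by
  have h1 := m_facts (n := n) (b := b)
  have h2 := one_le_LL hb hbn
  have h3 : (1 : ℝ) ≤ b := by exact_mod_cast hb
  nlinarith

private lemma b_lt (hb : 1 ≤ b) (hbn : b ≤ n) : b < N1 n b := by
  have h1 := b4_le hb hbn
  have h3 : (1 : ℝ) ≤ b := by exact_mod_cast hb
  have : (b : ℝ) < (N1 n b : ℝ) := by linarith
  exact_mod_cast this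

private lemma blog_eq (hb : 1 ≤ b) (hbn : b ≤ n) :
    (b : ℝ) * Real.log ((n : ℝ) / b) = b * LL n b - b := by
  rw [LL_eq hb hbn]; ring

private lemma small_eq (hb : 1 ≤ b) (hbn : b ≤ n) {i : ℕ} (hib : i < b) :
    beta n b i = beta n b (i + 1) + (1 + (b : ℝ) / i) := by
  have hbN := b_lt hb hbn
  have h1 : ¬ N1 n b ≤ i := by omega
  have h2 : ¬ N1 n b ≤ i + 1 := by omega
  have h3 : ¬ b ≤ i := by omega
  unfold beta
  rw [if_neg h1, if_neg h2, if_neg h3]
  rw [Finset.sum_eq_sum_Ico_succ_bot hib]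
  by_cases h4 : b ≤ i + 1
  · have h5 : b = i + 1 := by omega
    rw [if_pos h4]
    subst h5
    simp
    ring
  · rw [if_neg h4]; ring

private lemma mid_eq {i : ℕ} (hib : b ≤ i)
    (hiN : i < N1 n b) : beta n b i = beta n b (i + 1) + 2 * (b : ℝ) / i := by
  have h1 : ¬ N1 n b ≤ i := by omega
  unfold beta
  rw [if_neg h1, if_pos hib]
  rw [Finset.sum_eq_sum_Ico_succ_bot hiN]
  by_cases h4 : N1 n b ≤ i + 1
  · have h5 : N1 n b = i + 1 := by omega
    rw [if_pos h4, ← h5]
    simp
    ring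
  · rw [if_neg h4, if_pos (by omega : b ≤ i + 1)]; ring

private lemma anti_step (hb : 1 ≤ b) (hbn : b ≤ n) {i : ℕ} (hi : 1 ≤ i) :
    beta n b (i + 1) ≤ beta n b i := by
  have hb0 : (0 : ℝ) < b := by exact_mod_cast hb
  have hi0 : (0 : ℝ) < i := by exact_mod_cast hi
  by_cases h1 : i < b
  · rw [small_eq hb hbn h1]
    have : 0 ≤ (b : ℝ) / i := by positivity
    linarith
  · by_cases h2 : i < N1 n b
    · rw [mid_eq (by omega) h2]
      have : 0 ≤ 2 * (b : ℝ) / i := by positivity
      linarith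
    · have h3 : N1 n b ≤ i := by omega
      have h4 : N1 n b ≤ i + 1 := by omega
      unfold beta
      rw [if_pos h3, if_pos h4]
      have h5 := b4_le hb hbn
      have h6 : (N1 n b : ℝ) ≤ i := by exact_mod_cast h3
      have hb1 : (1 : ℝ) ≤ b := by exact_mod_cast hb
      have hn0 : (0 : ℝ) < n := by
        have : 0 < n := by omega
        exact_mod_cast this
      apply mul_le_mul_of_nonneg_left _ hb0.le
      apply Real.log_le_log
      · push_cast
        apply div_pos hn0; linarith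
      · push_cast
        apply div_le_div_of_nonneg_left hn0.le (by linarith) (by linarith)

private lemma anti' (hb : 1 ≤ b) (hbn : b ≤ n) : ∀ i j, 1 ≤ i → i ≤ j → beta n b j ≤ beta n b i := by
  intro i j hi hij
  induction j, hij using Nat.le_induction with
  | base => exact le_rfl
  | succ k hk ih => exact (anti_step hb hbn (by omega)).trans ih

theorem betaProp (hb : 1 ≤ b) (hbn : b ≤ n) : BetaProp n b (beta n b) (N1 n b) := by
  have hb0 : (0 : ℝ) < b := by exact_mod_cast hb
  have hb1 : (1 : ℝ) ≤ b := by exact_mod_cast hb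
  have hn0 : (0 : ℝ) < n := by
    have : 0 < n := by omega
    exact_mod_cast this
  have hbn' : (b : ℝ) ≤ n := by exact_mod_cast hbn
  have hL := one_le_LL hb hbn
  have hm := m_facts (n := n) (b := b)
  have h4 := b4_le hb hbn
  refine ⟨anti' hb hbn, ?_, ?_, ?_, ?_, ?_, ?_, ?_, ?_, b_lt hb hbn⟩
  · intro i hi hib
    have hi0 : (0 : ℝ) < i := by exact_mod_cast hi
    rw [small_eq hb hbn hib]
    have : (i : ℝ) * (beta n b (i + 1) + (1 + (b : ℝ) / i)) = i * beta n b (i + 1) + i + b := by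
      field_simp; ring
    linarith
  · intro i hib hi hiN
    have hi0 : (0 : ℝ) < i := by exact_mod_cast hi
    rw [mid_eq hib hiN]
    have : (i : ℝ) * (beta n b (i + 1) + 2 * (b : ℝ) / i) = i * beta n b (i + 1) + 2 * b := by
      field_simp
    linarith
  · intro i hi
    have h6 : (N1 n b : ℝ) ≤ i := by exact_mod_cast hi
    have hi0 : (0 : ℝ) < i := by linarith
    have h7 : (0 : ℝ) < (i : ℝ) - 2 := by linarith
    have e0 : beta n b i = (b : ℝ) * Real.log ((n : ℝ) / ((i : ℝ) - 2)) := by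
      unfold beta
      rw [if_pos hi]
    have e1 : beta n b (i + 2) = (b : ℝ) * Real.log ((n : ℝ) / (i : ℝ)) := by
      unfold beta
      rw [if_pos (by omega : N1 n b ≤ i + 2)]
      push_cast
      rw [show (i : ℝ) + 2 - 2 = i by ring]
    have e : Real.log ((n : ℝ) / ((i : ℝ) - 2)) =
        Real.log ((n : ℝ) / (i : ℝ)) + Real.log ((i : ℝ) / (i - 2)) := by
      rw [← Real.log_mul (by positivity) (by positivity)]
      congr 1
      field_simp
    have h8 := log_ratio (x := (i : ℝ)) (by linarith)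
    have h9 : 2 ≤ (i : ℝ) * Real.log ((i : ℝ) / (i - 2)) := by
      have := mul_le_mul_of_nonneg_left h8 hi0.le
      rwa [mul_div_cancel₀ _ hi0.ne'] at this
    rw [e0, e1, e]
    nlinarith
  · intro i hi
    have h6 : (N1 n b : ℝ) ≤ i := by exact_mod_cast hi
    have e1 : beta n b (i + 2) = (b : ℝ) * Real.log ((n : ℝ) / (i : ℝ)) := by
      unfold beta
      rw [if_pos (by omega : N1 n b ≤ i + 2)]
      push_cast
      rw [show (i : ℝ) + 2 - 2 = i by ring]
    have h7 : Real.log ((n : ℝ) / (i : ℝ)) ≤ Real.log ((n : ℝ) / b) := by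
      apply Real.log_le_log
      · apply div_pos hn0; linarith
      · apply div_le_div_of_nonneg_left hn0.le hb0; linarith
    have h8 := mul_le_mul_of_nonneg_left h7 hb0.le
    rw [blog_eq hb hbn] at h8
    rw [e1]
    linarith
  · intro i hi
    have h6 : (N1 n b : ℝ) ≤ i := by exact_mod_cast hi
    have e1 : beta n b (i + 1) = (b : ℝ) * Real.log ((n : ℝ) / ((i : ℝ) - 1)) := by
      unfold beta
      rw [if_pos (by omega : N1 n b ≤ i + 1)]
      push_cast
      rw [show (i : ℝ) + 1 - 2 = i - 1 by ring]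
    have h7 : Real.log ((n : ℝ) / ((i : ℝ) - 1)) ≤ Real.log ((n : ℝ) / b) := by
      apply Real.log_le_log
      · apply div_pos hn0; linarith
      · apply div_le_div_of_nonneg_left hn0.le hb0; linarith
    have h8 := mul_le_mul_of_nonneg_left h7 hb0.le
    rw [blog_eq hb hbn] at h8
    rw [e1]
    nlinarith
  · have := beta_b_ge hb hbn
    nlinarith
  · intro i hi hin
    refine le_trans ?_ (anti' hb hbn i n hi hin)
    by_cases h : N1 n b ≤ n
    · have h6 : (N1 n b : ℝ) ≤ n := by exact_mod_cast h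
      unfold beta
      rw [if_pos h]
      apply mul_nonneg hb0.le
      apply Real.log_nonneg
      rw [le_div_iff₀ (by linarith)]
      linarith
    · push Not at h
      unfold beta
      rw [if_neg (by omega), if_pos hbn]
      have hs := sum_inv_ge (i := n) (N := N1 n b) (by omega) h.le
      have h6 : (n : ℝ) ≤ N1 n b := by exact_mod_cast h.le
      have h7 : (0 : ℝ) < (N1 n b : ℝ) - 2 := by linarith
      have h8 : (0 : ℝ) < (N1 n b : ℝ) := by linarith
      rw [Real.log_div h8.ne' hn0.ne'] at hs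
      rw [Real.log_div hn0.ne' h7.ne']
      have h9 : Real.log ((N1 n b : ℝ) - 2) ≤ Real.log (N1 n b : ℝ) :=
        Real.log_le_log h7 (by linarith)
      have h10 : Real.log (n : ℝ) ≤ Real.log (N1 n b : ℝ) := Real.log_le_log hn0 h6
      have h11 : 0 ≤ (b : ℝ) * (Real.log (n : ℝ) - Real.log ((N1 n b : ℝ) - 2) +
          2 * ∑ j ∈ Ico n (N1 n b), (1 : ℝ) / j) := by
        apply mul_nonneg hb0.le
        linarith
      linarith
  · rw [mid_eq (n := n) (le_refl b) (b_lt hb hbn)]
    have : 0 < 2 * (b : ℝ) / b := by positivity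
    linarith

end Pool.Agent.IG19
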