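import Pool.Agent.IG19.BasicA
import Pool.Agent.IG19.BasicB

/-!
# IG19-GameB: finished vertices are isolated at the end

`guar_of_fsh`: strong induction on `(free A B).card`.  If no edge is free: `over`, as `Fsh A B ⊆ U A`.
Otherwise `moveF`: let `e` be free; it contains no finished vertex (`not_mem_of_ld_eq`), so
`Fsh A B ⊆ Fsh (insert e A) B` (`mem_U_insert`).  If `free (insert e A) B = ∅` use `over`.  Otherwise
`moveS` with any `X ⊆ free (insert e A) B` of the right size (`Finset.exists_subset_card_eq`);
`Fsh (insert e A) B ⊆ Fsh (insert e A) (B ∪ X)` because `ld` is monotone and at most `n - 1`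
(`ld_mono`, `ld_le`, `Valid.unionB`).
-/

namespace Pool.Agent.IG19

open Finset

variable {n : ℕ} {b k : ℕ} {A B X : Finset (Sym2 (Fin n))}

theorem fsh_insert {e : Sym2 (Fin n)} (h : Valid A B) (he : e ∈ free A B) :
    Fsh A B ⊆ Fsh (insert e A) B := by
  intro v hv
  rw [Fsh, mem_filter] at hv ⊢
  exact ⟨mem_U_insert.2 ⟨not_mem_of_ld_eq h he hv.2, hv.1⟩, hv.2⟩

theorem fsh_union (h : Valid A B) (hX : X ⊆ free A B) : Fsh A B ⊆ Fsh A (B ∪ X) := by
  intro v hv
  rw [Fsh, mem_filter] at hv ⊢
  refine ⟨hv.1, le_antisymm (ld_le (h.unionB hX).hB v) ?_⟩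
  rw [← hv.2]
  exact ld_mono subset_union_left v

private theorem guar_over {t : Bool} (hf : free A B = ∅) (hk : k ≤ (Fsh A B).card) :
    Guar n b k t A B :=
  Guar.over hf (hk.trans (card_le_card (filter_subset _ _)))

private theorem guar_aux (b k : ℕ) : ∀ (m : ℕ) (A B : Finset (Sym2 (Fin n))), Valid A B →
    k ≤ (Fsh A B).card → (free A B).card ≤ m → Guar n b k true A B := by
  intro m
  induction m with
  | zero =>
    intro A B _ hk hm
    exact guar_over (card_eq_zero.1 (Nat.le_zero.1 hm)) hk
  | succ m ih =>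
    intro A B h hk hm
    by_cases hf : free A B = ∅
    · exact guar_over hf hk
    refine Guar.moveF hf ?_
    intro e he
    have h1 : Valid (insert e A) B := h.insertA he
    have hk1 : k ≤ (Fsh (insert e A) B).card := hk.trans (card_le_card (fsh_insert h he))
    by_cases hf1 : free (insert e A) B = ∅
    · exact guar_over hf1 hk1
    obtain ⟨X, hX, hc⟩ := exists_subset_card_eq
      (min_le_right b (free (insert e A) B).card)
    refine Guar.moveS X hf1 hX hc ?_
    refine ih _ _ (h1.unionB hX) (hk1.trans (card_le_card (fsh_union h1 hX))) ?_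
    have h2 := card_free_insert he
    have h3 := card_free_union hX
    omega

/-- Finished vertices are isolated at the end. -/
theorem guar_of_fsh (h : Valid A B) (hk : k ≤ (Fsh A B).card) : Guar n b k true A B :=
  guar_aux b k _ A B h hk le_rfl

end Pool.Agent.IG19
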