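import Pool.Agent.IG19.UOneLin
import Pool.Agent.IG19.GameB

/-!
# IG19-Budget: the light vertices in one round

Write `A' = insert e A`, `B' = B ∪ X`.

* `fsh_card`: `v ∈ Fsh A' B'` lies in `U A` and is either in `Fsh A B` or in `Unf A B`, which is the
  disjoint union of `Hv c A B` and `Lg c A B`; conversely `Fsh A B ⊆ Fsh A' B'` (`fsh_insert`,
  `fsh_union`).
* `budget`: the sets `Lg c A' B'`, `Hv c A' B' \ Hv c A B` and `Fsh A' B' ∩ Lg c A B` are pairwise disjoint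
  subsets of `Lg c A B` (`unf_step`, loads only grow).  On the last two sets `ld B' v ≥ c` (on the last
  one `ld B' v = n - 1 ≥ c`).  So
  `∑_{Lg'} ld B' + c (|Hv' \ Hv| + |Fsh' ∩ Lg|) ≤ ∑ ld B' over the union of the three sets`
  `≤ ∑_{Lg} ld B + ∑_{Lg} ld X ≤ ∑_{Lg} ld B + 2 |X|` (`ld_union_le`, `sum_ld_le`), and `|X| ≤ b`.
  Moreover `Unf A' B' ⊆ Unf A B \ {u}` for the vertex `u ∈ e` of `hu`, so
  `2 b |Unf'| + 2 b ≤ 2 b |Unf|`.
-/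

namespace Pool.Agent.IG19

open Finset

variable {n b : ℕ} {A B X : Finset (Sym2 (Fin n))}

private theorem mem_Hv {c : ℝ} {v : Fin n} : v ∈ Hv c A B ↔ v ∈ Unf A B ∧ c ≤ (ld B v : ℝ) := by
  unfold Hv
  exact mem_filter

private theorem mem_Lg {c : ℝ} {v : Fin n} : v ∈ Lg c A B ↔ v ∈ Unf A B ∧ ¬ c ≤ (ld B v : ℝ) := by
  unfold Lg
  exact mem_filter

private theorem mem_Unf {v : Fin n} : v ∈ Unf A B ↔ v ∈ U A ∧ ld B v ≠ n - 1 := by
  unfold Unf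
  exact mem_filter

private theorem mem_Fsh {v : Fin n} : v ∈ Fsh A B ↔ v ∈ U A ∧ ld B v = n - 1 := by
  unfold Fsh
  exact mem_filter

theorem fsh_card (c : ℝ) {e : Sym2 (Fin n)} (hV : Valid A B) (he : e ∈ free A B)
    (hX : X ⊆ free (insert e A) B) :
    (Fsh (insert e A) (B ∪ X)).card = (Fsh A B).card +
      (Fsh (insert e A) (B ∪ X) ∩ Hv c A B).card + (Fsh (insert e A) (B ∪ X) ∩ Lg c A B).card := by
  have h1 : Fsh A B ⊆ Fsh (insert e A) (B ∪ X) :=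
    (fsh_insert hV he).trans (fsh_union (hV.insertA he) hX)
  have h2 : Fsh (insert e A) (B ∪ X) \ Fsh A B =
      (Fsh (insert e A) (B ∪ X) ∩ Hv c A B) ∪ (Fsh (insert e A) (B ∪ X) ∩ Lg c A B) := by
    ext v
    rw [mem_sdiff, mem_union, mem_inter, mem_inter]
    constructor
    · rintro ⟨h3, h4⟩
      have h5 : v ∈ U A := U_insert_subset (mem_Fsh.1 h3).1
      have h6 : v ∈ Unf A B := mem_Unf.2 ⟨h5, fun h7 => h4 (mem_Fsh.2 ⟨h5, h7⟩)⟩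
      by_cases h8 : c ≤ (ld B v : ℝ)
      · exact Or.inl ⟨h3, mem_Hv.2 ⟨h6, h8⟩⟩
      · exact Or.inr ⟨h3, mem_Lg.2 ⟨h6, h8⟩⟩
    · rintro (⟨h3, h4⟩ | ⟨h3, h4⟩)
      · exact ⟨h3, fun h5 => (mem_Unf.1 (mem_Hv.1 h4).1).2 (mem_Fsh.1 h5).2⟩
      · exact ⟨h3, fun h5 => (mem_Unf.1 (mem_Lg.1 h4).1).2 (mem_Fsh.1 h5).2⟩
  have h3 : Disjoint (Fsh (insert e A) (B ∪ X) ∩ Hv c A B)
      (Fsh (insert e A) (B ∪ X) ∩ Lg c A B) := by
    rw [disjoint_left]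
    intro v hv hv'
    exact (mem_Lg.1 (mem_inter.1 hv').2).2 (mem_Hv.1 (mem_inter.1 hv).2).2
  have h4 := card_sdiff_add_card_eq_card h1
  rw [h2, card_union_of_disjoint h3] at h4
  omega

theorem budget {c : ℝ} (hc : 0 ≤ c) (hcn : c ≤ (n : ℝ) - 1) {e : Sym2 (Fin n)}
    (hV : Valid A B) (he : e ∈ free A B) (hX : X ⊆ free (insert e A) B) (hXc : X.card ≤ b)
    (hu : ∃ u ∈ Unf A B, u ∈ e) :
    ∑ v ∈ Lg c (insert e A) (B ∪ X), (ld (B ∪ X) v : ℝ) +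
        2 * b * ((Unf (insert e A) (B ∪ X)).card : ℝ) +
        c * (((Hv c (insert e A) (B ∪ X) \ Hv c A B).card : ℝ) +
          ((Fsh (insert e A) (B ∪ X) ∩ Lg c A B).card : ℝ)) ≤
      ∑ v ∈ Lg c A B, (ld B v : ℝ) + 2 * b * ((Unf A B).card : ℝ) := by
  have hstep : ∀ v, v ∈ Unf (insert e A) (B ∪ X) → v ∈ Unf A B ∧ v ∉ e := fun v hv =>
    unf_step hV he hX hv
  have hmono : ∀ v, (ld B v : ℝ) ≤ (ld (B ∪ X) v : ℝ) := fun v =>
    Nat.cast_le.2 (ld_mono subset_union_left v)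
  -- the three subsets
  have hL' : Lg c (insert e A) (B ∪ X) ⊆ Lg c A B := by
    intro v hv
    obtain ⟨h1, h2⟩ := mem_Lg.1 hv
    exact mem_Lg.2 ⟨(hstep v h1).1, fun h3 => h2 (h3.trans (hmono v))⟩
  have hH' : Hv c (insert e A) (B ∪ X) \ Hv c A B ⊆ Lg c A B := by
    intro v hv
    obtain ⟨h1, h2⟩ := mem_sdiff.1 hv
    have h3 := (hstep v (mem_Hv.1 h1).1).1
    exact mem_Lg.2 ⟨h3, fun h4 => h2 (mem_Hv.2 ⟨h3, h4⟩)⟩
  have hF' : Fsh (insert e A) (B ∪ X) ∩ Lg c A B ⊆ Lg c A B := inter_subset_right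
  have d1 : Disjoint (Lg c (insert e A) (B ∪ X)) (Hv c (insert e A) (B ∪ X) \ Hv c A B) := by
    rw [disjoint_left]
    intro v hv hv'
    exact (mem_Lg.1 hv).2 (mem_Hv.1 (mem_sdiff.1 hv').1).2
  have d2 : Disjoint (Lg c (insert e A) (B ∪ X) ∪ (Hv c (insert e A) (B ∪ X) \ Hv c A B))
      (Fsh (insert e A) (B ∪ X) ∩ Lg c A B) := by
    rw [disjoint_left]
    intro v hv hv'
    have h1 := (mem_Fsh.1 (mem_inter.1 hv').1).2
    rcases mem_union.1 hv with h2 | h2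
    · exact (mem_Unf.1 (mem_Lg.1 h2).1).2 h1
    · exact (mem_Unf.1 (mem_Hv.1 (mem_sdiff.1 h2).1).1).2 h1
  have hsum : ∑ v ∈ Lg c (insert e A) (B ∪ X), (ld (B ∪ X) v : ℝ) +
      ∑ v ∈ Hv c (insert e A) (B ∪ X) \ Hv c A B, (ld (B ∪ X) v : ℝ) +
      ∑ v ∈ Fsh (insert e A) (B ∪ X) ∩ Lg c A B, (ld (B ∪ X) v : ℝ) ≤
      ∑ v ∈ Lg c A B, (ld (B ∪ X) v : ℝ) := by
    rw [← sum_union d1, ← sum_union d2]
    refine sum_le_sum_of_subset_of_nonneg (union_subset (union_subset hL' hH') hF') ?_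
    intro v _ _
    exact Nat.cast_nonneg _
  have hH : c * ((Hv c (insert e A) (B ∪ X) \ Hv c A B).card : ℝ) ≤
      ∑ v ∈ Hv c (insert e A) (B ∪ X) \ Hv c A B, (ld (B ∪ X) v : ℝ) := by
    have := card_nsmul_le_sum (Hv c (insert e A) (B ∪ X) \ Hv c A B)
      (fun v => (ld (B ∪ X) v : ℝ)) c (fun v hv => (mem_Hv.1 (mem_sdiff.1 hv).1).2)
    rw [nsmul_eq_mul] at this
    linarith
  have hF : c * ((Fsh (insert e A) (B ∪ X) ∩ Lg c A B).card : ℝ) ≤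
      ∑ v ∈ Fsh (insert e A) (B ∪ X) ∩ Lg c A B, (ld (B ∪ X) v : ℝ) := by
    have := card_nsmul_le_sum (Fsh (insert e A) (B ∪ X) ∩ Lg c A B)
      (fun v => (ld (B ∪ X) v : ℝ)) c (fun v hv => by
        have h1 := (mem_Fsh.1 (mem_inter.1 hv).1).2
        have h2 : n ≤ ld (B ∪ X) v + 1 := by omega
        have h3 : (n : ℝ) ≤ (ld (B ∪ X) v : ℝ) + 1 := by exact_mod_cast h2
        linarith)
    rw [nsmul_eq_mul] at this
    linarith
  have hLX : ∑ v ∈ Lg c A B, (ld (B ∪ X) v : ℝ) ≤ ∑ v ∈ Lg c A B, (ld B v : ℝ) + 2 * b := by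
    have h1 : ∑ v ∈ Lg c A B, ld (B ∪ X) v ≤ ∑ v ∈ Lg c A B, ld B v + 2 * b := by
      calc ∑ v ∈ Lg c A B, ld (B ∪ X) v ≤ ∑ v ∈ Lg c A B, (ld B v + ld X v) :=
            sum_le_sum (fun v _ => ld_union_le v)
        _ = ∑ v ∈ Lg c A B, ld B v + ∑ v ∈ Lg c A B, ld X v := sum_add_distrib
        _ ≤ ∑ v ∈ Lg c A B, ld B v + 2 * X.card := Nat.add_le_add_left (sum_ld_le _) _
        _ ≤ ∑ v ∈ Lg c A B, ld B v + 2 * b := Nat.add_le_add_left (Nat.mul_le_mul_left 2 hXc) _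
    exact_mod_cast h1
  have hU : (Unf (insert e A) (B ∪ X)).card + 1 ≤ (Unf A B).card := by
    obtain ⟨u, hu1, hu2⟩ := hu
    have h1 : Unf (insert e A) (B ∪ X) ⊆ (Unf A B).erase u := by
      intro v hv
      obtain ⟨h2, h3⟩ := hstep v hv
      exact mem_erase.2 ⟨fun h4 => h3 (h4 ▸ hu2), h2⟩
    have h2 := card_le_card h1
    have h3 := card_erase_add_one hu1
    omega
  have hU' : 2 * (b : ℝ) * ((Unf (insert e A) (B ∪ X)).card : ℝ) + 2 * b ≤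
      2 * b * ((Unf A B).card : ℝ) := by
    have h1 : ((Unf (insert e A) (B ∪ X)).card : ℝ) + 1 ≤ ((Unf A B).card : ℝ) := by
      exact_mod_cast hU
    have h2 : (0 : ℝ) ≤ 2 * b := by positivity
    have h3 := mul_le_mul_of_nonneg_left h1 h2
    linarith
  rw [mul_add]
  linarith

end Pool.Agent.IG19
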