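import Mathlib

/-!
# IG19-CorePure: two inequalities for finite sums

`pure_max`: let `i = J.card`, `W = {w ∈ J : y < ℓ w}`.
If `x ≤ β` then every `ℓ w ≤ x ≤ β` and we are done.  Otherwise `β < x`, `y < 2β - x`, and
`x < 2β - y ≤ 2β ≤ i/2`.
The sum is at most `|W| x + (i - |W|) y ≤ x * x + (i - x) y` (as `|W| ≤ x ≤ i`, `y ≤ x`)
`≤ x² + (i - x)(2β - x)`, and `i β - x² - (i - x)(2β - x) = (x - β)(i - 2x) ≥ 0`.

`pure_heavy`: choose `W ⊆ K ⊆ J` with `K.card = D` (`Finset.exists_subsuperset_card_eq`, as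
`D ≤ J.card`).  The sum over `K` is at most `D M` (hypothesis `hJ`, `b ≤ D`); outside `K` each term is
at most `y ≤ 2β - M`.  So the sum is at most
`D M + (i - D)(2β - M) = i β + (i - 2D)(β - M) ≤ i β`.
-/

namespace Pool.Agent.IG19

open Finset

theorem pure_max {α : Type*} [DecidableEq α] (J : Finset α) (ℓ : α → ℝ) (x y β : ℝ)
    (hx : ∀ w ∈ J, ℓ w ≤ x) (hyx : y ≤ x) (hy : 0 ≤ y) (hxy : x + y < 2 * β)
    (hβ : β ≤ (J.card : ℝ) / 4)
    (hW : ((J.filter (fun w => y < ℓ w)).card : ℝ) ≤ x) :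
    ∑ w ∈ J, ℓ w ≤ (J.card : ℝ) * β := by
  by_cases hxb : x ≤ β
  · calc ∑ w ∈ J, ℓ w ≤ ∑ _w ∈ J, β := Finset.sum_le_sum fun w hw => (hx w hw).trans hxb
      _ = (J.card : ℝ) * β := by simp
  · have hxb' : β < x := not_le.mp hxb
    have h1 : ∑ w ∈ J.filter (fun w => y < ℓ w), ℓ w
        ≤ ((J.filter (fun w => y < ℓ w)).card : ℝ) * x := by
      calc ∑ w ∈ J.filter (fun w => y < ℓ w), ℓ w
          ≤ ∑ _w ∈ J.filter (fun w => y < ℓ w), x :=
            Finset.sum_le_sum fun w hw => hx w (Finset.mem_filter.mp hw).1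
        _ = _ := by simp
    have h2 : ∑ w ∈ J.filter (fun w => ¬ y < ℓ w), ℓ w
        ≤ ((J.filter (fun w => ¬ y < ℓ w)).card : ℝ) * y := by
      calc ∑ w ∈ J.filter (fun w => ¬ y < ℓ w), ℓ w
          ≤ ∑ _w ∈ J.filter (fun w => ¬ y < ℓ w), y :=
            Finset.sum_le_sum fun w hw => not_lt.mp (Finset.mem_filter.mp hw).2
        _ = _ := by simp
    have h3 : ((J.filter (fun w => y < ℓ w)).card : ℝ)
        + ((J.filter (fun w => ¬ y < ℓ w)).card : ℝ) = (J.card : ℝ) := by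
      exact_mod_cast Finset.card_filter_add_card_filter_not (s := J) (fun w => y < ℓ w)
    have h4 := Finset.sum_filter_add_sum_filter_not J (fun w => y < ℓ w) ℓ
    set a : ℝ := ((J.filter (fun w => y < ℓ w)).card : ℝ)
    set c : ℝ := ((J.filter (fun w => ¬ y < ℓ w)).card : ℝ)
    set i : ℝ := (J.card : ℝ)
    have hc : c = i - a := by linarith
    rw [hc] at h2
    have h5 : 0 ≤ (x - a) * (x - y) := mul_nonneg (by linarith) (by linarith)
    have h6 : 0 ≤ (i - x) * (2 * β - x - y) := mul_nonneg (by linarith) (by linarith)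
    have h7 : 0 ≤ (x - β) * (i - 2 * x) := mul_nonneg (by linarith) (by linarith)
    nlinarith [h1, h2, h4, h5, h6, h7]

theorem pure_heavy {α : Type*} [DecidableEq α] (J : Finset α) (ℓ : α → ℝ) (D b : ℕ)
    (y β M : ℝ) (hD : 2 * D ≤ J.card) (hbD : b ≤ D)
    (hW : (J.filter (fun w => y < ℓ w)).card ≤ D)
    (hJ : ∀ K ⊆ J, b ≤ K.card → ∑ w ∈ K, ℓ w ≤ (K.card : ℝ) * M)
    (hy : y ≤ 2 * β - M) (hβM : β ≤ M) :
    ∑ w ∈ J, ℓ w ≤ (J.card : ℝ) * β := by
  obtain ⟨K, hWK, hKJ, hKc⟩ := Finset.exists_subsuperset_card_eq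
    (Finset.filter_subset (fun w => y < ℓ w) J) hW (by omega : D ≤ J.card)
  have h1 : ∑ w ∈ K, ℓ w ≤ (D : ℝ) * M := by
    have := hJ K hKJ (by omega)
    rwa [hKc] at this
  have h2 : ∑ w ∈ J \ K, ℓ w ≤ ((J \ K).card : ℝ) * y := by
    calc ∑ w ∈ J \ K, ℓ w ≤ ∑ _w ∈ J \ K, y := by
          refine Finset.sum_le_sum fun w hw => ?_
          have hw' := Finset.mem_sdiff.mp hw
          by_contra h
          exact hw'.2 (hWK (Finset.mem_filter.mpr ⟨hw'.1, not_le.mp h⟩))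
      _ = _ := by simp
  have h3 : ((J \ K).card : ℝ) = (J.card : ℝ) - D := by
    rw [Finset.card_sdiff_of_subset hKJ, hKc, Nat.cast_sub (by omega)]
  have h4 := Finset.sum_sdiff hKJ (f := ℓ)
  rw [h3] at h2
  have h5 : (0 : ℝ) ≤ (J.card : ℝ) - 2 * D := by
    have : ((2 * D : ℕ) : ℝ) ≤ (J.card : ℝ) := by exact_mod_cast hD
    push_cast at this
    linarith
  have h6 : (0 : ℝ) ≤ D := Nat.cast_nonneg D
  have h7 : 0 ≤ ((J.card : ℝ) - D) * (2 * β - M - y) := mul_nonneg (by linarith) (by linarith)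
  have h8 : 0 ≤ ((J.card : ℝ) - 2 * D) * (M - β) := mul_nonneg h5 (by linarith)
  nlinarith [h1, h2, h4, h7, h8]

end Pool.Agent.IG19
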