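import Pool.Agent.IG19.BasicA
import Pool.Agent.IG19.BasicB
import Pool.Agent.IG19.BetaDef
import Pool.Agent.IG19.CorePure

/-!
# IG19-Core: one round of the linear invariant

`S` is a set of untouched vertices (all of them, or the unfinished ones) closed under free untouched
neighbours, every `J ⊆ S` with `|J| = i ≥ b` has load sum at most `i β(i)`.  `F` kills `u ∈ S` by the rule
`Good`, where `u` has maximal load in `S` or load at least `β(b)`.  Claim: every `J ⊆ S` avoiding the killed
vertices, `|J| = i ≥ b`, has load sum at most `i β(i) - 2b`.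

Proof.  `u ∉ J` as `u ∈ e`.  Write `ℓ` for `ld B`.

Case `i < N`.  Let `J⁺ = insert u J`.  `∑_{J⁺} ℓ ≤ (i+1) β(i+1)`.  If `u` has maximal load then
`(i+1) ℓ_u ≥ ∑_{J⁺} ℓ`, so `∑_J ℓ ≤ i/(i+1) ∑_{J⁺} ℓ ≤ i β(i+1)`.  If `ℓ_u ≥ β(b) ≥ β(i+1)` (`anti`), then
`∑_J ℓ ≤ (i+1) β(i+1) - β(i+1)`.  Conclude by `mid`.

Case `i ≥ N`, first alternative of `Good`: `e = s(u,v)`, `v ∈ U A`, `v ≠ u`, so `v ∈ S` by `hSf`, `v ∉ J`.
`∑_J ℓ + ℓ_u + ℓ_v ≤ (i+2) β(i+2)`.
If `ℓ_u + ℓ_v ≥ 2 β(i+2)` then `∑_J ℓ ≤ i β(i+2)`, conclude by `big`.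
Otherwise every `w ∈ J` with `ℓ_w > ℓ_v` has `s(u,w) ∉ free A B` (by the choice of `v`), so
`s(u,w) ∈ B` (`free_or_B`), hence there are at most `ℓ_u` of them (`nbr_card_le`).
If `u` has maximal load apply `pure_max` with `x = ℓ_u`, `y = ℓ_v`, `β = β(i+2) ≤ i/4` (`quarter`).
If `ℓ_u ≥ M = β(b)`: `D = ld B u` satisfies `D ≤ ℓ_u + ℓ_v < 2 β(i+2) ≤ i/2`, `D ≥ β(b) ≥ b` (`base`),
`ℓ_v < 2 β(i+2) - ℓ_u ≤ 2 β(i+2) - M`, `β(i+2) ≤ M` (`anti`) and for `K ⊆ J`, `b ≤ |K|`:
`∑_K ℓ ≤ |K| β(|K|) ≤ |K| M` (`anti`): apply `pure_heavy`.  In both cases `∑_J ℓ ≤ i β(i+2)`; use `big`.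

Case `i ≥ N`, second alternative of `Good`: `u` has no free neighbour in `U A`, so `s(u,w) ∈ B` for all
`w ∈ J` (`free_or_B`) and `ℓ_u ≥ i` (`nbr_card_le`).  `∑_J ℓ ≤ (i+1) β(i+1) - i`, and
`(i+1) β(i+1) - i + 2b ≤ i β(i+1) ≤ i β(i)` by `big1` and `anti`.
-/

namespace Pool.Agent.IG19

open Finset

variable {n b : ℕ} {A B : Finset (Sym2 (Fin n))}

theorem core {β : ℕ → ℝ} {N : ℕ} (hb : 1 ≤ b) (hβ : BetaProp n b β N) (hV : Valid A B)
    {S : Finset (Fin n)} (hSU : S ⊆ U A)
    (hSf : ∀ u ∈ S, ∀ v ∈ U A, s(u, v) ∈ free A B → v ∈ S)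
    (hlin : ∀ J ⊆ S, b ≤ J.card → ∑ v ∈ J, (ld B v : ℝ) ≤ (J.card : ℝ) * β J.card)
    {u : Fin n} (hu : u ∈ S)
    (hmax : (∀ w ∈ S, ld B w ≤ ld B u) ∨ β b ≤ (ld B u : ℝ))
    {e : Sym2 (Fin n)} (hg : Good A B u e) {J : Finset (Fin n)} (hJS : J ⊆ S)
    (hJe : ∀ v ∈ J, v ∉ e) (hJb : b ≤ J.card) :
    ∑ v ∈ J, (ld B v : ℝ) + 2 * b ≤ (J.card : ℝ) * β J.card := by
  classical
  obtain ⟨hef, hue, huU, hcase⟩ := hg
  have huJ : u ∉ J := fun h => hJe u h hue
  have hi1 : 1 ≤ J.card := le_trans hb hJb
  have hi1' : (1 : ℝ) ≤ (J.card : ℝ) := by exact_mod_cast hi1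
  have hsub : insert u J ⊆ S := by
    intro w hw
    rcases Finset.mem_insert.1 hw with h | h
    · rw [h]; exact hu
    · exact hJS h
  have hcard : (insert u J).card = J.card + 1 := Finset.card_insert_of_notMem huJ
  have hplus := hlin (insert u J) hsub (by rw [hcard]; omega)
  rw [Finset.sum_insert huJ, hcard] at hplus
  push_cast at hplus
  rcases lt_or_ge J.card N with hN | hN
  · -- case `i < N`
    have hkey : ∑ v ∈ J, (ld B v : ℝ) ≤ (J.card : ℝ) * β (J.card + 1) := by
      rcases hmax with hm | hm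
      · have hs : ∑ v ∈ J, (ld B v : ℝ) ≤ (J.card : ℝ) * (ld B u : ℝ) := by
          have : ∑ v ∈ J, (ld B v : ℝ) ≤ ∑ _v ∈ J, (ld B u : ℝ) :=
            Finset.sum_le_sum fun w hw => by exact_mod_cast hm w (hJS hw)
          rwa [Finset.sum_const, nsmul_eq_mul] at this
        have hpos : (0 : ℝ) < (J.card : ℝ) + 1 := by linarith
        have h2 : ((J.card : ℝ) + 1) * (∑ v ∈ J, (ld B v : ℝ))
            ≤ ((J.card : ℝ) + 1) * ((J.card : ℝ) * β (J.card + 1)) := by
          have h3 : (J.card : ℝ) * ((ld B u : ℝ) + ∑ v ∈ J, (ld B v : ℝ))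
              ≤ (J.card : ℝ) * (((J.card : ℝ) + 1) * β (J.card + 1)) :=
            mul_le_mul_of_nonneg_left hplus (by linarith)
          nlinarith [hs, h3]
        exact le_of_mul_le_mul_left h2 hpos
      · have ha := hβ.anti b (J.card + 1) hb (by omega)
        nlinarith [hplus, hm, ha]
    have hmid := hβ.mid J.card hJb hi1 hN
    linarith
  · -- case `N ≤ i`
    have hbig := hβ.big J.card hN
    have hbig1 := hβ.big1 J.card hN
    have hq := hβ.quarter J.card hN
    rcases hcase with ⟨v, hvU, hvu, hev, hvmax⟩ | hnone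
    · have hfv : s(u, v) ∈ free A B := by rw [← hev]; exact hef
      have hvS : v ∈ S := hSf u hu v hvU hfv
      have hvJ : v ∉ J := fun h => hJe v h (by rw [hev]; exact Sym2.mem_mk_right u v)
      have hv2 : u ∉ insert v J := by
        intro h
        rcases Finset.mem_insert.1 h with h | h
        · exact hvu h.symm
        · exact huJ h
      have hsub2 : insert u (insert v J) ⊆ S := by
        intro w hw
        rcases Finset.mem_insert.1 hw with h | h
        · rw [h]; exact hu
        rcases Finset.mem_insert.1 h with h | h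
        · rw [h]; exact hvS
        · exact hJS h
      have hcard2 : (insert u (insert v J)).card = J.card + 2 := by
        rw [Finset.card_insert_of_notMem hv2, Finset.card_insert_of_notMem hvJ]
      have hplus2 := hlin (insert u (insert v J)) hsub2 (by rw [hcard2]; omega)
      rw [Finset.sum_insert hv2, Finset.sum_insert hvJ, hcard2] at hplus2
      push_cast at hplus2
      have hgoal : ∑ v ∈ J, (ld B v : ℝ) ≤ (J.card : ℝ) * β (J.card + 2) := by
        rcases le_or_gt (2 * β (J.card + 2)) ((ld B u : ℝ) + ld B v) with hge | hlt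
        · nlinarith [hplus2, hge]
        · -- neighbours with larger load are `B`-neighbours of `u`
          have hWsub : J.filter (fun w => ld B v < ld B w)
              ⊆ J.filter (fun w => s(u, w) ∈ B) := by
            intro w hw
            rw [Finset.mem_filter] at hw ⊢
            refine ⟨hw.1, ?_⟩
            have hwu : u ≠ w := fun h => huJ (h ▸ hw.1)
            rcases free_or_B (A := A) (B := B) huU hwu with h | h
            · have := hvmax w (hSU (hJS hw.1)) h
              omega
            · exact h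
          have hWcard : (J.filter (fun w => ld B v < ld B w)).card ≤ ld B u :=
            le_trans (Finset.card_le_card hWsub) (nbr_card_le J u)
          have hWcard' : (J.filter (fun w => (ld B v : ℝ) < (ld B w : ℝ))).card ≤ ld B u := by
            have : J.filter (fun w => (ld B v : ℝ) < (ld B w : ℝ))
                = J.filter (fun w => ld B v < ld B w) := by
              apply Finset.filter_congr
              intro w _
              exact Nat.cast_lt
            rw [this]; exact hWcard
          rcases hmax with hm | hm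
          · exact pure_max J (fun w => (ld B w : ℝ)) (ld B u) (ld B v) (β (J.card + 2))
              (fun w hw => by exact_mod_cast hm w (hJS hw)) (by exact_mod_cast hm v hvS)
              (Nat.cast_nonneg _) hlt hq (by exact_mod_cast hWcard')
          · have hvnn : (0 : ℝ) ≤ (ld B v : ℝ) := Nat.cast_nonneg _
            have hbase := hβ.base
            refine pure_heavy J (fun w => (ld B w : ℝ)) (ld B u) b (ld B v) (β (J.card + 2))
              (β b) ?_ ?_ hWcard' ?_ ?_ ?_
            · have : (2 : ℝ) * (ld B u : ℝ) ≤ (J.card : ℝ) := by linarith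
              exact_mod_cast this
            · have : (b : ℝ) ≤ (ld B u : ℝ) := le_trans hbase hm
              exact_mod_cast this
            · intro K hK hKb
              have h1 := hlin K (hK.trans hJS) hKb
              have h2 := hβ.anti b K.card hb hKb
              have h3 : (0 : ℝ) ≤ (K.card : ℝ) := Nat.cast_nonneg _
              exact le_trans h1 (mul_le_mul_of_nonneg_left h2 h3)
            · linarith
            · exact hβ.anti b (J.card + 2) hb (by omega)
      linarith
    · -- no free neighbour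
      have hall : J.filter (fun w => s(u, w) ∈ B) = J := by
        apply Finset.filter_true_of_mem
        intro w hw
        have hwu : u ≠ w := fun h => huJ (h ▸ hw)
        rcases free_or_B (A := A) (B := B) huU hwu with h | h
        · exact absurd h (hnone w (hSU (hJS hw)))
        · exact h
      have hlu : J.card ≤ ld B u := by
        have := nbr_card_le (B := B) J u
        rwa [hall] at this
      have hlu' : (J.card : ℝ) ≤ (ld B u : ℝ) := by exact_mod_cast hlu
      have ha := hβ.anti J.card (J.card + 1) hi1 (by omega)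
      have hmul : (J.card : ℝ) * β (J.card + 1) ≤ (J.card : ℝ) * β J.card :=
        mul_le_mul_of_nonneg_left ha (by linarith)
      nlinarith [hplus, hlu', hbig1, hmul]

end Pool.Agent.IG19
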