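import Mathlib

/-!
# IG19-Defs: the strict (1:b) game on the edges of the complete graph (MP_d9027c_co)

The board is the set `edges n` of the edges of the complete graph on `Fin n`.
A position is a pair `(A, B)`: `A` is the set of edges claimed by the first player `F`,
`B` the set of edges claimed by the second player `S`.
-/

namespace Pool.Agent.IG19

open Finset

/-- The board: the edges of the complete graph on `Fin n`. -/
def edges (n : ℕ) : Finset (Sym2 (Fin n)) := univ.filter (fun e => ¬ e.IsDiag)

/-- The unclaimed edges of the position `(A, B)`. -/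
def free {n : ℕ} (A B : Finset (Sym2 (Fin n))) : Finset (Sym2 (Fin n)) := edges n \ (A ∪ B)

/-- The vertices that lie on no edge of `A`. -/
def U {n : ℕ} (A : Finset (Sym2 (Fin n))) : Finset (Fin n) :=
  univ.filter (fun v => ∀ e ∈ A, v ∉ e)

/-- `Guar n b k t A B`: from the position `(A, B)`, with `F` to move if `t = true` and `S` to move
if `t = false`, the second player `S` can guarantee that at the end of the game at least `k`
vertices lie on no edge claimed by `F`. -/
inductive Guar (n b k : ℕ) : Bool → Finset (Sym2 (Fin n)) → Finset (Sym2 (Fin n)) → Prop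
  | over {t : Bool} {A B : Finset (Sym2 (Fin n))} (h : free A B = ∅) (hk : k ≤ (U A).card) :
      Guar n b k t A B
  | moveF {A B : Finset (Sym2 (Fin n))} (h : free A B ≠ ∅)
      (hF : ∀ e ∈ free A B, Guar n b k false (insert e A) B) : Guar n b k true A B
  | moveS {A B : Finset (Sym2 (Fin n))} (X : Finset (Sym2 (Fin n))) (h : free A B ≠ ∅)
      (hX : X ⊆ free A B) (hc : X.card = min b (free A B).card)
      (hS : Guar n b k true A (B ∪ X)) : Guar n b k false A B

/-- The value `f(n, b)` of the game: the largest `k` that `S` can guarantee. -/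
noncomputable def f (n b : ℕ) : ℕ := sSup {k : ℕ | Guar n b k true ∅ ∅}

/-! ## Auxiliary notions used in the proofs -/

/-- The number of `B`-edges at `v`. -/
def ld {n : ℕ} (B : Finset (Sym2 (Fin n))) (v : Fin n) : ℕ := (B.filter (fun e => v ∈ e)).card

/-- The number of `B`-edges that touch the set `J`. -/
def inc {n : ℕ} (B : Finset (Sym2 (Fin n))) (J : Finset (Fin n)) : ℕ :=
  (B.filter (fun e => ∃ v ∈ J, v ∈ e)).card

/-- A legal position. -/
structure Valid {n : ℕ} (A B : Finset (Sym2 (Fin n))) : Prop where
  hA : A ⊆ edges n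
  hB : B ⊆ edges n
  hd : Disjoint A B

/-- The finished vertices: untouched by `F`, and all their edges belong to `S`. -/
def Fsh {n : ℕ} (A B : Finset (Sym2 (Fin n))) : Finset (Fin n) :=
  (U A).filter (fun v => ld B v = n - 1)

/-- The unfinished untouched vertices. -/
def Unf {n : ℕ} (A B : Finset (Sym2 (Fin n))) : Finset (Fin n) :=
  (U A).filter (fun v => ld B v ≠ n - 1)

/-- `ForceN b P T A B`: from the position `(A, B)` with `F` to move, `S` can force that within at
most `T` rounds a position (with `F` to move) satisfying `P` is reached. -/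
def ForceN {n : ℕ} (b : ℕ) (P : Finset (Sym2 (Fin n)) → Finset (Sym2 (Fin n)) → Prop) :
    ℕ → Finset (Sym2 (Fin n)) → Finset (Sym2 (Fin n)) → Prop
  | 0, A, B => P A B
  | T + 1, A, B => P A B ∨ (free A B ≠ ∅ ∧ ∀ e ∈ free A B,
      ∃ X, X ⊆ free (insert e A) B ∧ X.card = min b (free (insert e A) B).card ∧
        ForceN b P T (insert e A) (B ∪ X))

/-- The killing rule of `F` at the vertex `u`: the edge `e` is free and contains `u`; it joins `u` to a
free neighbour `v` in `U A` of largest load if there is one, and if there is none it is any free edge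
at `u`. -/
def Good {n : ℕ} (A B : Finset (Sym2 (Fin n))) (u : Fin n) (e : Sym2 (Fin n)) : Prop :=
  e ∈ free A B ∧ u ∈ e ∧ u ∈ U A ∧
    ((∃ v ∈ U A, v ≠ u ∧ e = s(u, v) ∧
        ∀ w ∈ U A, s(u, w) ∈ free A B → ld B w ≤ ld B v) ∨
      (∀ w ∈ U A, s(u, w) ∉ free A B))

end Pool.Agent.IG19
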