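import Pool.Agent.IG19.BasicA

/-!
# IG19-GameA: the value, and the principle for the first player

* `guar_le`: by induction on the derivation, `Guar n b k t A B` gives `k ≤ n` (at the end
  `(U A).card ≤ n`; in the case `moveF` use the induction hypothesis for one edge of the
  nonempty set `free A B`).
* `guar_zero`: strong induction, for both values of `t`, on
  `2 * (free A B).card + (if t then 0 else 1)`: from `(true, A, B)` one goes to
  `(false, insert e A, B)` with one free edge less (`card_free_insert`); from `(false, A, B)` to
  `(true, A, B ∪ X)` with at most as many free edges (`card_free_union`, any `X` of the right size,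
  `Finset.exists_subset_card_eq`).
* `isGreatest_f`: the set `{k | Guar n b k true ∅ ∅}` contains `0` and is bounded by `n`; `Nat.sSup_mem`.
* `not_guar`: strong induction on `(free A B).card` shows `Inv A B → ¬ Guar n b k true A B`: invert the
  derivation: `over` contradicts `h0`; `moveF` gives a derivation of
  `Guar n b k false (insert e A) B` for the edge `e` of `h1`; invert it: in the case `over` the set
  `free (insert e A) B` is empty, take `X = ∅` in `h1` to get `Inv (insert e A) (B ∪ ∅)`, contradicting
  `h0`; in the case `moveS` use the induction hypothesis.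
-/

namespace Pool.Agent.IG19

open Finset

variable {n : ℕ} {b k : ℕ} {A B X : Finset (Sym2 (Fin n))}

/-- induction on a derivation -/
private theorem guar_ind {motive : Bool → Finset (Sym2 (Fin n)) → Finset (Sym2 (Fin n)) → Prop}
    (c1 : ∀ (t : Bool) (A B : Finset (Sym2 (Fin n))), free A B = ∅ → k ≤ (U A).card → motive t A B)
    (c2 : ∀ (A B : Finset (Sym2 (Fin n))), free A B ≠ ∅ →
      (∀ e ∈ free A B, motive false (insert e A) B) → motive true A B)
    (c3 : ∀ (A B X : Finset (Sym2 (Fin n))), free A B ≠ ∅ → X ⊆ free A B → X.card = min b (free A B).card →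
      motive true A (B ∪ X) → motive false A B) {t : Bool} (h : Guar n b k t A B) : motive t A B := by
  induction h
  · rename_i h hk
    exact c1 _ _ _ h hk
  · rename_i h hF ih
    exact c2 _ _ h ih
  · rename_i X h hX hc hS ih
    exact c3 _ _ X h hX hc ih

private theorem guar_true (h : Guar n b k true A B) : (free A B = ∅ ∧ k ≤ (U A).card) ∨
    (free A B ≠ ∅ ∧ ∀ e ∈ free A B, Guar n b k false (insert e A) B) := by
  cases h
  · exact Or.inl ⟨by assumption, by assumption⟩
  · rename_i h hF
    exact Or.inr ⟨h, hF⟩

private theorem guar_false (h : Guar n b k false A B) : (free A B = ∅ ∧ k ≤ (U A).card) ∨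
    (∃ X, X ⊆ free A B ∧ X.card = min b (free A B).card ∧ Guar n b k true A (B ∪ X)) := by
  cases h
  · exact Or.inl ⟨by assumption, by assumption⟩
  · rename_i X h hX hc hS
    exact Or.inr ⟨X, hX, hc, hS⟩

theorem guar_le {t : Bool} (h : Guar n b k t A B) : k ≤ n := by
  refine guar_ind (motive := fun _ _ _ => k ≤ n) ?_ ?_ ?_ h
  · intro t A B _ hk
    refine hk.trans ((Finset.card_le_univ _).trans ?_)
    simp
  · intro A B h ih
    obtain ⟨e, he⟩ := Finset.nonempty_iff_ne_empty.2 h
    exact ih e he
  · intro A B X _ _ _ ih
    exact ih

theorem guar_mono {k' : ℕ} (hk : k' ≤ k) {t : Bool} (h : Guar n b k t A B) :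
    Guar n b k' t A B := by
  refine guar_ind (motive := fun t A B => Guar n b k' t A B) ?_ ?_ ?_ h
  · intro t A B h hk1
    exact Guar.over h (hk.trans hk1)
  · intro A B h ih
    exact Guar.moveF h ih
  · intro A B X h hX hc ih
    exact Guar.moveS X h hX hc ih

theorem guar_zero (n b : ℕ) (t : Bool) (A B : Finset (Sym2 (Fin n))) : Guar n b 0 t A B := by
  have key : ∀ N : ℕ, ∀ (t : Bool) (A B : Finset (Sym2 (Fin n))),
      2 * (free A B).card + (if t then 0 else 1) ≤ N → Guar n b 0 t A B := by
    intro N
    induction N with
    | zero =>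
      intro t A B hN
      refine Guar.over ?_ (Nat.zero_le _)
      rw [← Finset.card_eq_zero]
      omega
    | succ N ih =>
      intro t A B hN
      by_cases hf : free A B = ∅
      · exact Guar.over hf (Nat.zero_le _)
      · cases t with
        | true =>
          refine Guar.moveF hf fun e he => ih false (insert e A) B ?_
          have h1 := card_free_insert he
          simp only [if_true, Bool.false_eq_true, if_false] at hN ⊢
          omega
        | false =>
          obtain ⟨X, hX, hc⟩ := Finset.exists_subset_card_eq
            (show min b (free A B).card ≤ (free A B).card from min_le_right _ _)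
          refine Guar.moveS X hf hX hc (ih true A (B ∪ X) ?_)
          have h1 := card_free_union hX
          simp only [if_true, Bool.false_eq_true, if_false] at hN ⊢
          omega
  exact key _ t A B le_rfl

theorem isGreatest_f (n b : ℕ) : IsGreatest {k : ℕ | Guar n b k true ∅ ∅} (f n b) := by
  have hb : BddAbove {k : ℕ | Guar n b k true ∅ ∅} := ⟨n, fun k hk => guar_le hk⟩
  exact ⟨Nat.sSup_mem ⟨0, guar_zero n b true ∅ ∅⟩ hb, fun k hk => le_csSup hb hk⟩

theorem le_f (h : Guar n b k true ∅ ∅) : k ≤ f n b := (isGreatest_f n b).2 h

theorem f_le : f n b ≤ n := guar_le (isGreatest_f n b).1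

theorem f_lt (h : ¬ Guar n b k true ∅ ∅) : f n b < k := by
  by_contra hc
  exact h (guar_mono (not_lt.1 hc) (isGreatest_f n b).1)

/-- The principle for the first player. -/
theorem not_guar (Inv : Finset (Sym2 (Fin n)) → Finset (Sym2 (Fin n)) → Prop)
    (h0 : ∀ A B, Inv A B → free A B = ∅ → (U A).card < k)
    (h1 : ∀ A B, Inv A B → free A B ≠ ∅ → ∃ e ∈ free A B, ∀ X, X ⊆ free (insert e A) B →
      X.card = min b (free (insert e A) B).card → Inv (insert e A) (B ∪ X))
    {A B : Finset (Sym2 (Fin n))} (h : Inv A B) : ¬ Guar n b k true A B := by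
  have key : ∀ N : ℕ, ∀ A B : Finset (Sym2 (Fin n)), (free A B).card ≤ N → Inv A B →
      ¬ Guar n b k true A B := by
    intro N
    induction N with
    | zero =>
      intro A B hN hInv hG
      have hf : free A B = ∅ := by
        rw [← Finset.card_eq_zero]
        omega
      rcases guar_true hG with ⟨_, hk⟩ | ⟨h, _⟩
      · exact absurd hk (not_le.2 (h0 A B hInv hf))
      · exact h hf
    | succ N ih =>
      intro A B hN hInv hG
      rcases guar_true hG with ⟨h, hk⟩ | ⟨h, hF⟩
      · exact absurd hk (not_le.2 (h0 A B hInv h))
      · obtain ⟨e, he, hX⟩ := h1 A B hInv h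
        have hc := card_free_insert he
        rcases guar_false (hF e he) with ⟨h', hk⟩ | ⟨X, hXs, hXc, hS⟩
        · have h2 := hX ∅ (Finset.empty_subset _) (by rw [h']; simp)
          rw [Finset.union_empty] at h2
          exact absurd hk (not_le.2 (h0 _ _ h2 h'))
        · have h2 := hX X hXs hXc
          have h3 := card_free_union hXs
          exact ih _ _ (by omega) h2 hS
  exact key _ A B le_rfl h

end Pool.Agent.IG19
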