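import Pool.Agent.IG19.LowSum

/-!
# IG19-LowLarge: the choice of the parameters for n/b larger than 20

Write `x = n/b > 20`, `L = LL n b = 1 + log x ≥ 1`, `K = n exp (-x)`; hypothesis `K ≥ 1000 L ≥ 1000`, and
`b ≥ 2700 L ≥ 2700` (`b_ge`, `one_le_LL`), `n ≥ 20 b`.

Put `a = b/4`, `T = b/32 + 1` (floors).  Then `a.choose 2 ≤ a²/2 ≤ b²/32 ≤ b T`;
`m = a - 2T ≥ b/4 - 3/4 - b/16 - 2 ≥ b/8` (as `b ≥ 48`), `m ≤ b/4`;
`3 a + 2 T ≤ 3b/4 + b/16 + 2 ≤ b`.

`N = ⌈2 b L⌉₊`, `M = ⌊(b-2) log (n/(N+2)) - 2⌋₊`, `2 b L ≤ N ≤ 2 b L + 1`.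
`N + 2 ≤ 2 b L + 3 ≤ 3 b L`, so `n/(N+2) ≥ x/(3 L) ≥ 1.6` (`L ≤ 1 + log 20 + (x-20)/20 = log 20 + x/20`,
`log 20 ≤ 3`, so `3 L ≤ 9 + 3x/20 ≤ x (9/20 + 3/20) = 0.6 x`) and the number inside the floor is `≥ 0`.
`N + 1 ≤ n`, as `N + 1 ≤ 3 b L ≤ 0.6 n`.  `n/(N+2) ≤ n/b = x`.
`2 M + 2 ≤ 2 (b-2) log (n/(N+2)) - 2 ≤ 2 b log x ≤ N`.
`(n-1-M)/b ≤ x - (1 - 2/b) log (n/(N+2)) + 2/b` (as `M ≥ (b-2) log (n/(N+2)) - 3`).
With `k = ⌊m exp (-((n-1-M)/b + 1/4))⌋`:
`exp (-(n-1-M)/b - 1/4) ≥ exp (-x) (n/(N+2)) exp (- (2/b) log x) exp (-2/b - 1/4)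
 ≥ exp (-x) (n/(3 b L)) exp (-1)` (as `b ≥ 2700 L`: `(2/b) log x ≤ 1/4`, `2/b ≤ 1/4`), so
`m exp (...) ≥ (b/8) exp (-x) n/(3 b L) exp (-1) ≥ K/(66 L) ≥ 2`; so `k ≥ 1`, `k ≥ K/(132 L)`, `k ≤ m`
(`n - 1 - M ≥ 0`) and `hsum`: `b log (m/k) - m ≥ (n-1-M) + b/4 - b/4` (`sum_div_ge`).
`R = N/b` (floor) `≥ 2 L - 1 ≥ L`; `R (3a + 2T) ≤ R b ≤ N`.  `low_main`: `R k ≥ K/132 ≥ K/1000`.
-/

namespace Pool.Agent.IG19

open Finset

variable {n b : ℕ}

set_option maxHeartbeats 2000000 in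
theorem low_num_large (hn : 2 ≤ n) (hb : 1 ≤ b) (hbn : b ≤ n) (hx : 20 < (n : ℝ) / b)
    (h : 1000 * LL n b ≤ (n : ℝ) * Real.exp (-((n : ℝ) / b))) :
    (n : ℝ) * Real.exp (-((n : ℝ) / b)) / 1000 ≤ f n b := by
  have hbL : 2700 * LL n b ≤ b := b_ge hb hbn h
  have hL1 : 1 ≤ LL n b := one_le_LL hb hbn
  have hLeq : LL n b = 1 + Real.log ((n : ℝ) / b) := LL_eq hb hbn
  set L : ℝ := LL n b with hLdef
  set x : ℝ := (n : ℝ) / b with hxdef
  set K : ℝ := (n : ℝ) * Real.exp (-x) with hKdef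
  have hbpos : (0 : ℝ) < b := by exact_mod_cast hb
  have hnx : (n : ℝ) = x * b := by rw [hxdef]; field_simp
  have hb2700 : (2700 : ℝ) ≤ b := by linarith
  have hbN : 2700 ≤ b := by exact_mod_cast hb2700
  have hbLge : (2700 : ℝ) ≤ b * L := by nlinarith
  have hxpos : 0 < x := by linarith
  -- log x ≤ 2 + x / 20
  have hlog20 : Real.log 20 ≤ 3 := by
    have h3 : (20 : ℝ) ≤ Real.exp 3 := by
      have h1 : (2.7182818283 : ℝ) < Real.exp 1 := Real.exp_one_gt_d9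
      have : Real.exp 3 = Real.exp 1 * Real.exp 1 * Real.exp 1 := by
        rw [← Real.exp_add, ← Real.exp_add]; norm_num
      rw [this]
      have h2 : (2.7182818283 : ℝ) * 2.7182818283 < Real.exp 1 * Real.exp 1 := by
        nlinarith
      nlinarith
    calc Real.log 20 ≤ Real.log (Real.exp 3) := Real.log_le_log (by norm_num) h3
      _ = 3 := Real.log_exp 3
  have hlogx : Real.log x ≤ 2 + x / 20 := by
    have h1 : Real.log x = Real.log 20 + Real.log (x / 20) := by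
      rw [← Real.log_mul (by norm_num) (by positivity)]
      congr 1; ring
    have h2 : Real.log (x / 20) ≤ x / 20 - 1 := Real.log_le_sub_one_of_pos (by positivity)
    linarith
  have hL3 : 3 * L ≤ 0.6 * x := by rw [hLeq]; linarith
  -- N
  obtain ⟨N, hNdef⟩ : ∃ N : ℕ, N = ⌈2 * (b : ℝ) * L⌉₊ := ⟨_, rfl⟩
  have hN1 : 2 * (b : ℝ) * L ≤ N := by rw [hNdef]; exact Nat.le_ceil _
  have hN2 : (N : ℝ) < 2 * (b : ℝ) * L + 1 := by
    rw [hNdef]; exact Nat.ceil_lt_add_one (by positivity)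
  have hN3 : (N : ℝ) + 2 ≤ 3 * (b * L) := by nlinarith
  have hN2pos : (0 : ℝ) < (N : ℝ) + 2 := by positivity
  have hNn : (N : ℝ) + 2 ≤ 0.6 * n := by
    rw [hnx]
    have : 3 * (b * L) = (3 * L) * b := by ring
    have h2 : (3 * L) * b ≤ (0.6 * x) * b := mul_le_mul_of_nonneg_right hL3 hbpos.le
    linarith
  have hnpos : (0 : ℝ) < n := by linarith
  -- ell
  set ell : ℝ := Real.log ((n : ℝ) / ((N : ℝ) + 2)) with helldef
  have hratio : (1.6 : ℝ) ≤ (n : ℝ) / ((N : ℝ) + 2) := by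
    rw [le_div_iff₀ hN2pos]; linarith
  have hratpos : (0 : ℝ) < (n : ℝ) / ((N : ℝ) + 2) := by positivity
  have hell1 : (0.375 : ℝ) ≤ ell := by
    have h1 : Real.log 1.6 ≤ ell := Real.log_le_log (by norm_num) hratio
    have h2 : 1 - (1.6 : ℝ)⁻¹ ≤ Real.log 1.6 := Real.one_sub_inv_le_log_of_pos (by norm_num)
    have h3 : (0.375 : ℝ) = 1 - (1.6 : ℝ)⁻¹ := by norm_num
    linarith
  have hell2 : ell ≤ Real.log x := by
    refine Real.log_le_log hratpos ?_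
    rw [hxdef]
    refine div_le_div_of_nonneg_left hnpos.le hbpos ?_
    nlinarith
  have hellL : ell ≤ L := by rw [hLeq]; linarith
  set q : ℝ := ((b : ℝ) - 2) * ell - 2 with hqdef
  have hq0 : 0 ≤ q := by
    rw [hqdef]
    nlinarith
  obtain ⟨M, hMdef⟩ : ∃ M : ℕ, M = ⌊q⌋₊ := ⟨_, rfl⟩
  have hM1 : (M : ℝ) ≤ q := by rw [hMdef]; exact Nat.floor_le hq0
  have hM2 : q < (M : ℝ) + 1 := by rw [hMdef]; exact Nat.lt_floor_add_one q
  have hMN : 2 * M + 2 ≤ N := by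
    have : (2 : ℝ) * M + 2 ≤ N := by
      have h1 : ((b : ℝ) - 2) * ell ≤ b * L := by nlinarith
      have h2 : 2 * (b : ℝ) * L = 2 * (b * L) := by ring
      rw [hqdef] at hM1
      linarith
    exact_mod_cast this
  have hNn' : N + 1 ≤ n := by
    have : (N : ℝ) + 1 ≤ n := by linarith
    exact_mod_cast this
  have hMn : M + 1 ≤ n := by omega
  obtain ⟨σ, hσdef⟩ : ∃ σ : ℕ, σ = n - 1 - M := ⟨_, rfl⟩
  have hσ : (σ : ℝ) = (n : ℝ) - 1 - M := by
    have h1 : σ + 1 + M = n := by omega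
    have h2 : ((σ + 1 + M : ℕ) : ℝ) = n := by rw [h1]
    push_cast at h2
    linarith
  -- a, T, m
  obtain ⟨a, hadef⟩ : ∃ a : ℕ, a = b / 4 := ⟨_, rfl⟩
  obtain ⟨T, hTdef⟩ : ∃ T : ℕ, T = b / 32 + 1 := ⟨_, rfl⟩
  obtain ⟨m, hmdef⟩ : ∃ m : ℕ, m = a - 2 * T := ⟨_, rfl⟩
  have hT : a.choose 2 ≤ b * T := by
    rw [Nat.choose_two_right]
    have h4 : 4 * a ≤ b := by omega
    have h32 : b + 1 ≤ 32 * T := by omega
    have h5 : a * (a - 1) ≤ a * a := Nat.mul_le_mul_left a (Nat.sub_le a 1)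
    have h6 : a * a ≤ b * T * 2 := by nlinarith
    exact Nat.div_le_of_le_mul (by linarith)
  have hm8 : b ≤ 8 * m := by omega
  have hm4 : 4 * m ≤ b := by omega
  have hc : 3 * a + 2 * T ≤ b := by omega
  have hm8' : (b : ℝ) ≤ 8 * m := by exact_mod_cast hm8
  have hm4' : 4 * (m : ℝ) ≤ b := by exact_mod_cast hm4
  have hmpos : (0 : ℝ) < m := by linarith
  set E : ℝ := (σ : ℝ) / b + 1 / 4 with hEdef
  have hE0 : 0 ≤ E := by positivity
  have hE1 : E ≤ x - ell + 1 := by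
    have h1 : (σ : ℝ) ≤ n - ((b : ℝ) - 2) * ell + 2 := by
      rw [hσ]
      rw [hqdef] at hM2
      linarith
    have h2 : (σ : ℝ) / b ≤ (n - ((b : ℝ) - 2) * ell + 2) / b :=
      div_le_div_of_nonneg_right h1 hbpos.le
    have h3 : (n - ((b : ℝ) - 2) * ell + 2) / b = x - ell + (2 * ell + 2) / b := by
      rw [hxdef]; field_simp; ring
    have h4 : (2 * ell + 2) / b ≤ 1 / 2 := by
      rw [div_le_iff₀ hbpos]
      linarith
    rw [hEdef]
    linarith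
  have hexpE : Real.exp (-x) * ((n : ℝ) / (3 * (b * L))) * Real.exp (-1) ≤ Real.exp (-E) := by
    have h1 : Real.exp (-(x - ell + 1)) ≤ Real.exp (-E) := Real.exp_le_exp.mpr (by linarith)
    have hel : Real.exp ell = (n : ℝ) / ((N : ℝ) + 2) := Real.exp_log hratpos
    have h2 : Real.exp (-(x - ell + 1)) = Real.exp (-x) * ((n : ℝ) / ((N : ℝ) + 2)) * Real.exp (-1) := by
      have h3 : -(x - ell + 1) = -x + ell + -1 := by ring
      rw [h3, Real.exp_add, Real.exp_add, hel]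
    have h4 : (n : ℝ) / (3 * (b * L)) ≤ (n : ℝ) / ((N : ℝ) + 2) :=
      div_le_div_of_nonneg_left hnpos.le hN2pos hN3
    have h5 : Real.exp (-x) * ((n : ℝ) / (3 * (b * L))) * Real.exp (-1)
        ≤ Real.exp (-x) * ((n : ℝ) / ((N : ℝ) + 2)) * Real.exp (-1) :=
      mul_le_mul_of_nonneg_right (mul_le_mul_of_nonneg_left h4 (Real.exp_pos _).le)
        (Real.exp_pos _).le
    calc Real.exp (-x) * ((n : ℝ) / (3 * (b * L))) * Real.exp (-1)
        ≤ Real.exp (-x) * ((n : ℝ) / ((N : ℝ) + 2)) * Real.exp (-1) := h5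
      _ = Real.exp (-(x - ell + 1)) := h2.symm
      _ ≤ Real.exp (-E) := h1
  have hLpos : 0 < L := by linarith
  have hK0 : 0 < K := by rw [hKdef]; positivity
  have hmE : K / (66 * L) ≤ (m : ℝ) * Real.exp (-E) := by
    have h1 : (b : ℝ) / 8 * (Real.exp (-x) * ((n : ℝ) / (3 * (b * L))) * Real.exp (-1))
        ≤ (m : ℝ) * Real.exp (-E) := by
      have : (b : ℝ) / 8 ≤ m := by linarith
      gcongr
    have h2 : (b : ℝ) / 8 * (Real.exp (-x) * ((n : ℝ) / (3 * (b * L))) * Real.exp (-1))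
        = K * Real.exp (-1) / (24 * L) := by
      rw [hKdef]; field_simp; ring
    have h3 : (24 : ℝ) / 66 ≤ Real.exp (-1) := by
      rw [Real.exp_neg, ← one_div, le_div_iff₀ (Real.exp_pos 1)]
      have := Real.exp_one_lt_d9
      linarith
    have h4 : K / (66 * L) ≤ K * Real.exp (-1) / (24 * L) := by
      rw [div_le_div_iff₀ (by positivity) (by positivity)]
      have h5 : K * (24 * L) = K * L * 66 * (24 / 66) := by ring
      have h6 : K * Real.exp (-1) * (66 * L) = K * L * 66 * Real.exp (-1) := by ring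
      rw [h5, h6]
      gcongr
    linarith
  have hK15 : 2 ≤ K / (66 * L) := by
    rw [le_div_iff₀ (by positivity)]
    linarith
  obtain ⟨k, hkdef⟩ : ∃ k : ℕ, k = ⌊(m : ℝ) * Real.exp (-E)⌋₊ := ⟨_, rfl⟩
  have hmE0 : 0 ≤ (m : ℝ) * Real.exp (-E) := by positivity
  have hk1 : (k : ℝ) ≤ (m : ℝ) * Real.exp (-E) := by rw [hkdef]; exact Nat.floor_le hmE0
  have hk2 : (m : ℝ) * Real.exp (-E) < (k : ℝ) + 1 := by
    rw [hkdef]; exact Nat.lt_floor_add_one _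
  have hkge : K / (132 * L) ≤ k := by
    have h1 : K / (132 * L) = K / (66 * L) / 2 := by field_simp; norm_num
    linarith
  have hk : 1 ≤ k := by
    have : (0 : ℝ) < k := by linarith
    exact_mod_cast this
  have hkpos : (0 : ℝ) < k := by exact_mod_cast hk
  have hexpE1 : Real.exp (-E) ≤ 1 := Real.exp_le_one_iff.mpr (by linarith)
  have hkm : k ≤ m := by
    have : (k : ℝ) ≤ m := by nlinarith
    exact_mod_cast this
  have hsum : n - 1 - M ≤ ∑ i ∈ Ico k (a - 2 * T), b / i := by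
    rw [← hσdef, ← hmdef]
    have h1 := sum_div_ge (b := b) hk hkm
    have h2 : E ≤ Real.log ((m : ℝ) / k) := by
      rw [Real.le_log_iff_exp_le (by positivity), le_div_iff₀ hkpos]
      have h3 : Real.exp E * Real.exp (-E) = 1 := by rw [← Real.exp_add]; simp
      calc Real.exp E * k ≤ Real.exp E * ((m : ℝ) * Real.exp (-E)) := by gcongr
        _ = m * (Real.exp E * Real.exp (-E)) := by ring
        _ = m := by rw [h3, mul_one]
    have h4 : (b : ℝ) * E = σ + b / 4 := by rw [hEdef]; field_simp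
    have h5 : (b : ℝ) * E ≤ b * Real.log ((m : ℝ) / k) := mul_le_mul_of_nonneg_left h2 hbpos.le
    have h6 : (σ : ℝ) ≤ ((∑ i ∈ Ico k m, b / i : ℕ) : ℝ) := by linarith
    exact_mod_cast h6
  have hR : N / b * (3 * a + 2 * T) ≤ N :=
    (Nat.mul_le_mul_left _ hc).trans (Nat.div_mul_le_self N b)
  have hRL : L ≤ ((N / b : ℕ) : ℝ) := by
    have h1 : N < b * (N / b + 1) := by
      have := Nat.lt_mul_div_succ N hb
      linarith
    have h2 : (N : ℝ) < b * (((N / b : ℕ) : ℝ) + 1) := by exact_mod_cast h1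
    have h3 : (b : ℝ) * (2 * L) < b * (((N / b : ℕ) : ℝ) + 1) := by linarith
    have h4 := lt_of_mul_lt_mul_left h3 hbpos.le
    linarith
  have key := low_main (n := n) (b := b) (M := M) (N := N) (T := T) (a := a) (k := k)
    (R := N / b) hk (by rw [← hmdef]; exact hkm) hT hsum hR
    (Or.inr ⟨by omega, hMN, hNn', by rw [hqdef] at hM1; linarith⟩)
  have key' : ((N / b : ℕ) : ℝ) * k ≤ f n b := by exact_mod_cast key
  have h1 : L * (K / (132 * L)) ≤ ((N / b : ℕ) : ℝ) * k := by gcongr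
  have h2 : L * (K / (132 * L)) = K / 132 := by field_simp
  have h3 : K / 1000 ≤ K / 132 := by
    apply div_le_div_of_nonneg_left hK0.le (by norm_num) (by norm_num)
  linarith

end Pool.Agent.IG19
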