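import Pool.Agent.IG19.LowSum

/-!
# IG19-LowSmall: the choice of the parameters for n/b at most 20

Write `x = n/b ≥ 1`, `L = LL n b = 1 + log x ≥ 1`, `K = n exp (-x)`; hypothesis `K ≥ 1000 L ≥ 1000`, and
`b ≥ 2700 L ≥ 2700` (`b_ge`, `one_le_LL`).

Put `a = b/4`, `T = b/32 + 1` (floors).  Then `a.choose 2 ≤ a²/2 ≤ b²/32 ≤ b T`;
`m = a - 2T ≥ b/4 - 3/4 - b/16 - 2 ≥ b/8` (as `b ≥ 48`), `m ≤ b/4`;
`3 a + 2 T ≤ 3b/4 + b/16 + 2 ≤ b`.

Apply `low_main` with `M = 0`, `N = n`, `R = n/b ≥ x/2` (floor, `x ≥ 1`), `R (3a+2T) ≤ R b ≤ n`,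
`k = ⌊m exp (-x - 1/4)⌋`.  `m exp (-x-1/4) ≥ (b/8) exp (-x) exp (-1/4) = K/(8 x) exp (-1/4) ≥ K/206 ≥ 2`,
so `k ≥ 1` and `k ≥ (b/16) exp (-x-1/4)`; `k ≤ m`.  `hsum`: `log (m/k) ≥ x + 1/4`, so
`b log (m/k) - m ≥ n + b/4 - b/4 = n` (`sum_div_ge`).  Result:
`R k ≥ (x/2)(b/16) exp (-x) exp (-1/4) ≥ K/42 ≥ K/1000`.
-/

namespace Pool.Agent.IG19

open Finset

variable {n b : ℕ}

theorem low_num_small (hn : 2 ≤ n) (hb : 1 ≤ b) (hbn : b ≤ n) (hx : (n : ℝ) / b ≤ 20)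
    (h : 1000 * LL n b ≤ (n : ℝ) * Real.exp (-((n : ℝ) / b))) :
    (n : ℝ) * Real.exp (-((n : ℝ) / b)) / 1000 ≤ f n b := by
  have hL := one_le_LL hb hbn
  have hb27 := b_ge hb hbn h
  have hb0 : (0 : ℝ) < b := by exact_mod_cast hb
  have hbR : (2700 : ℝ) ≤ b := by linarith
  have hbN : 2700 ≤ b := by exact_mod_cast hbR
  obtain ⟨x, hxd⟩ : ∃ x, x = (n : ℝ) / b := ⟨_, rfl⟩
  rw [← hxd] at h hx ⊢
  have hnx : (n : ℝ) = x * b := by rw [hxd]; field_simp
  have hx1 : 1 ≤ x := by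
    rw [hxd, le_div_iff₀ hb0, one_mul]
    exact_mod_cast hbn
  obtain ⟨a, ha⟩ : ∃ a, a = b / 4 := ⟨_, rfl⟩
  obtain ⟨T, hT⟩ : ∃ T, T = b / 32 + 1 := ⟨_, rfl⟩
  obtain ⟨m, hm⟩ : ∃ m, m = a - 2 * T := ⟨_, rfl⟩
  obtain ⟨R, hR⟩ : ∃ R, R = n / b := ⟨_, rfl⟩
  have hm8 : b ≤ 8 * m := by omega
  have hm4 : 4 * m ≤ b := by omega
  have hc : 3 * a + 2 * T ≤ b := by omega
  have hm8R : (b : ℝ) / 8 ≤ m := by
    have : (b : ℝ) ≤ 8 * m := by exact_mod_cast hm8
    linarith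
  have hm4R : (m : ℝ) ≤ b / 4 := by
    have : (4 : ℝ) * m ≤ b := by exact_mod_cast hm4
    linarith
  have hchoose : a.choose 2 ≤ b * T := by
    have h1 : a * a ≤ 2 * (b * T) := by
      have h2 : 4 * a ≤ b := by omega
      have h3 : b ≤ 32 * T := by omega
      have h5 : 4 * a * (4 * a) ≤ b * b := Nat.mul_le_mul h2 h2
      have h6 : b * b ≤ b * (32 * T) := Nat.mul_le_mul_left b h3
      have h7 : 16 * (a * a) ≤ 32 * (b * T) := by
        calc 16 * (a * a) = 4 * a * (4 * a) := by ring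
          _ ≤ b * (32 * T) := h5.trans h6
          _ = 32 * (b * T) := by ring
      omega
    have h4 : a * (a - 1) ≤ a * a := Nat.mul_le_mul_left _ (Nat.sub_le _ _)
    rw [Nat.choose_two_right]
    omega
  obtain ⟨y, hy⟩ : ∃ y : ℝ, y = m * Real.exp (-(x + 1 / 4)) := ⟨_, rfl⟩
  obtain ⟨k, hk⟩ : ∃ k, k = ⌊y⌋₊ := ⟨_, rfl⟩
  have hE : 3 / 4 ≤ Real.exp (-(1 / 4 : ℝ)) := by
    have := Real.add_one_le_exp (-(1 / 4 : ℝ))
    linarith
  have hex : Real.exp (-(x + 1 / 4)) = Real.exp (-x) * Real.exp (-(1 / 4 : ℝ)) := by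
    rw [← Real.exp_add]
    congr 1
    ring
  have hbx : 50 ≤ b * Real.exp (-x) := by
    have h1 : 1000 ≤ x * (b * Real.exp (-x)) := by
      have : x * (b * Real.exp (-x)) = (n : ℝ) * Real.exp (-x) := by rw [hnx]; ring
      rw [this]
      linarith
    have h2 : 0 ≤ b * Real.exp (-x) := by positivity
    have h3 : x * (b * Real.exp (-x)) ≤ 20 * (b * Real.exp (-x)) :=
      mul_le_mul_of_nonneg_right hx h2
    linarith
  have hylow : b * Real.exp (-x) * (3 / 32) ≤ y := by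
    rw [hy, hex]
    have h1 : (b : ℝ) / 8 * (Real.exp (-x) * (3 / 4)) ≤
        m * (Real.exp (-x) * Real.exp (-(1 / 4 : ℝ))) := by
      apply mul_le_mul hm8R _ (by positivity) (by positivity)
      exact mul_le_mul_of_nonneg_left hE (Real.exp_pos _).le
    linarith
  have hy4 : 4 ≤ y := by linarith
  have hy0 : 0 ≤ y := by linarith
  have hky : (k : ℝ) ≤ y := by rw [hk]; exact Nat.floor_le hy0
  have hky1 : y < k + 1 := by rw [hk]; exact Nat.lt_floor_add_one y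
  have hk1 : 1 ≤ k := by
    have : (1 : ℝ) ≤ k := by linarith
    exact_mod_cast this
  have hk0 : (0 : ℝ) < k := by exact_mod_cast hk1
  have hym : y ≤ m := by
    rw [hy]
    refine mul_le_of_le_one_right (Nat.cast_nonneg m) ?_
    rw [Real.exp_le_one_iff]
    linarith
  have hkm : k ≤ m := by
    have : (k : ℝ) ≤ m := hky.trans hym
    exact_mod_cast this
  have hlog : x + 1 / 4 ≤ Real.log ((m : ℝ) / k) := by
    have hm0 : (0 : ℝ) < m := lt_of_lt_of_le hk0 (by exact_mod_cast hkm)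
    rw [Real.le_log_iff_exp_le (by positivity), le_div_iff₀ hk0]
    have h1 : Real.exp (x + 1 / 4) * k ≤ Real.exp (x + 1 / 4) * y :=
      mul_le_mul_of_nonneg_left hky (Real.exp_pos _).le
    have h2 : Real.exp (x + 1 / 4) * y = m := by
      rw [hy]
      have h3 : Real.exp (x + 1 / 4) * Real.exp (-(x + 1 / 4)) = 1 := by
        rw [← Real.exp_add]; simp
      calc Real.exp (x + 1 / 4) * (m * Real.exp (-(x + 1 / 4)))
          = m * (Real.exp (x + 1 / 4) * Real.exp (-(x + 1 / 4))) := by ring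
        _ = m := by rw [h3, mul_one]
    linarith
  have hsum : n - 1 - 0 ≤ ∑ i ∈ Ico k (a - 2 * T), b / i := by
    rw [← hm]
    have h1 := sum_div_ge (b := b) hk1 hkm
    have h2 : (b : ℝ) * (x + 1 / 4) ≤ b * Real.log ((m : ℝ) / k) :=
      mul_le_mul_of_nonneg_left hlog hb0.le
    have h3 : (n : ℝ) ≤ ((∑ i ∈ Ico k m, b / i : ℕ) : ℝ) := by
      rw [hnx]
      linarith
    have h4 : n ≤ ∑ i ∈ Ico k m, b / i := by exact_mod_cast h3
    omega
  have hRb : R * (3 * a + 2 * T) ≤ n := by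
    calc R * (3 * a + 2 * T) ≤ R * b := Nat.mul_le_mul_left _ hc
      _ ≤ n := by rw [hR]; exact Nat.div_mul_le_self n b
  have key := low_main (n := n) (b := b) (M := 0) (N := n) hk1 (hm ▸ hkm) hchoose hsum hRb
    (Or.inl ⟨rfl, le_rfl⟩)
  have keyR : (R : ℝ) * k ≤ f n b := by exact_mod_cast key
  have hR2 : x ≤ 2 * R := by
    have h1 : n < b * (n / b + 1) := Nat.lt_mul_div_succ n hb
    have h2 : 1 ≤ n / b := (Nat.one_le_div_iff hb).2 hbn
    have h3 : n ≤ 2 * R * b := by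
      rw [hR]
      have h5 : b * (n / b + 1) ≤ b * (n / b + n / b) := Nat.mul_le_mul_left b (by omega)
      have h6 : b * (n / b + n / b) = 2 * (n / b) * b := by ring
      omega
    have h4 : (n : ℝ) ≤ 2 * R * b := by exact_mod_cast h3
    rw [hxd, div_le_iff₀ hb0]
    exact h4
  have hk2 : b * Real.exp (-x) * (3 / 64) ≤ k := by linarith
  have hfin : x * (b * Real.exp (-x) * (3 / 64)) ≤ 2 * R * k :=
    mul_le_mul hR2 hk2 (by positivity) (by positivity)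
  have hpos : 0 ≤ x * (b * Real.exp (-x)) := by positivity
  calc (n : ℝ) * Real.exp (-x) / 1000 = x * (b * Real.exp (-x)) / 1000 := by rw [hnx]; ring
    _ ≤ R * k := by linarith
    _ ≤ f n b := keyR

end Pool.Agent.IG19
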