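import Pool.Agent.IG19.Batch
import Pool.Agent.IG19.BetaLow

/-!
# IG19-LowSum: two numeric facts

* `sum_div_ge`: `⌊b/i⌋ ≥ b/i - 1` and `1/i ≥ log (i+1) - log i` (`sum_inv_ge`):
  `∑_{i=k}^{m-1} ⌊b/i⌋ ≥ b log (m/k) - (m - k)`.
* `b_ge`: put `x = n/b`; `x exp (-x) ≤ exp (-1)`, so `n exp (-x) = b x exp (-x) ≤ b exp (-1)`, hence
  `b ≥ exp 1 * 1000 L ≥ 2700 L` (`Real.exp_one_gt_d9`).
-/

namespace Pool.Agent.IG19

open Finset

variable {n b : ℕ}

theorem sum_div_ge {k m : ℕ} (hk : 1 ≤ k) (hkm : k ≤ m) :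
    (b : ℝ) * Real.log ((m : ℝ) / k) - m ≤ ((∑ i ∈ Ico k m, b / i : ℕ) : ℝ) := by
  have h1 := sum_inv_ge hk hkm
  have hb : (0 : ℝ) ≤ b := Nat.cast_nonneg b
  have h2 : (b : ℝ) * Real.log ((m : ℝ) / k) ≤ ∑ j ∈ Ico k m, (b : ℝ) * (1 / j) := by
    rw [← Finset.mul_sum]
    exact mul_le_mul_of_nonneg_left h1 hb
  have h3 : ∑ j ∈ Ico k m, (b : ℝ) * (1 / j) ≤ ∑ j ∈ Ico k m, (((b / j : ℕ) : ℝ) + 1) := by
    apply Finset.sum_le_sum
    intro j hj
    rw [Finset.mem_Ico] at hj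
    have hj0 : 0 < j := by omega
    have hj1 : (0 : ℝ) < j := by exact_mod_cast hj0
    have h4 : b < j * (b / j + 1) := Nat.lt_mul_div_succ b hj0
    have h5 : (b : ℝ) < j * (((b / j : ℕ) : ℝ) + 1) := by exact_mod_cast h4
    rw [mul_one_div, div_le_iff₀ hj1]
    nlinarith
  have h6 : ∑ j ∈ Ico k m, (((b / j : ℕ) : ℝ) + 1) =
      ((∑ i ∈ Ico k m, b / i : ℕ) : ℝ) + ((m - k : ℕ) : ℝ) := by
    rw [Finset.sum_add_distrib]
    simp
  have h7 : ((m - k : ℕ) : ℝ) ≤ m := by exact_mod_cast Nat.sub_le m k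
  linarith

theorem b_ge (hb : 1 ≤ b) (hbn : b ≤ n)
    (h : 1000 * LL n b ≤ (n : ℝ) * Real.exp (-((n : ℝ) / b))) : 2700 * LL n b ≤ b := by
  have hb0 : (0 : ℝ) < b := by exact_mod_cast hb
  have hL := one_le_LL hb hbn
  have h1 : (n : ℝ) / b ≤ Real.exp ((n : ℝ) / b - 1) := by
    have := Real.add_one_le_exp ((n : ℝ) / b - 1)
    linarith
  have h2 : (n : ℝ) ≤ Real.exp ((n : ℝ) / b - 1) * b := by
    rw [div_le_iff₀ hb0] at h1
    exact h1
  have h3 : (n : ℝ) * Real.exp (-((n : ℝ) / b)) ≤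
      Real.exp ((n : ℝ) / b - 1) * b * Real.exp (-((n : ℝ) / b)) :=
    mul_le_mul_of_nonneg_right h2 (Real.exp_pos _).le
  have h4 : Real.exp ((n : ℝ) / b - 1) * b * Real.exp (-((n : ℝ) / b)) = b * Real.exp (-1) := by
    have : Real.exp ((n : ℝ) / b - 1) * Real.exp (-((n : ℝ) / b)) = Real.exp (-1) := by
      rw [← Real.exp_add]
      congr 1
      ring
    calc Real.exp ((n : ℝ) / b - 1) * b * Real.exp (-((n : ℝ) / b))
        = b * (Real.exp ((n : ℝ) / b - 1) * Real.exp (-((n : ℝ) / b))) := by ring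
      _ = b * Real.exp (-1) := by rw [this]
  have h5 : 1000 * LL n b ≤ b * Real.exp (-1) := by linarith
  have h6 : Real.exp 1 * Real.exp (-1) = 1 := by
    rw [← Real.exp_add]
    simp
  have h7 : Real.exp 1 * (1000 * LL n b) ≤ Real.exp 1 * (b * Real.exp (-1)) :=
    mul_le_mul_of_nonneg_left h5 (Real.exp_pos _).le
  have h8 : Real.exp 1 * (b * Real.exp (-1)) = b := by
    calc Real.exp 1 * (b * Real.exp (-1)) = b * (Real.exp 1 * Real.exp (-1)) := by ring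
      _ = b := by rw [h6, mul_one]
  have h9 := Real.exp_one_gt_d9
  rw [h8] at h7
  nlinarith

end Pool.Agent.IG19
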