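import Pool.Agent.IG19.GameA
import Pool.Agent.IG19.BasicB

/-!
# IG19-SupUp: upper bound for the value, large bias

`F` claims edges with two untouched end vertices as long as there is one.
Let `r = ⌈C(n,2)/(b+2n)⌉`.

`exists_free_pair`: if `(B.card) < (U A).card.choose 2` and the position is legal then some free edge has both
end vertices in `U A`: the pairs inside `U A` are not in `A`, and there are `(U A).card.choose 2` of them
(e.g. `Finset.card_sym2`-type count of non diagonal elements, or the image of `(U A).powersetCard 2`, or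
`SimpleGraph` count), more than `B.card`.

`sup_up`: apply `not_guar` with `k = n - 2 r + 1` and the invariant
`Inv A B := Valid A B ∧ ((∃ i < r, (U A).card + 2 * i = n ∧ B.card ≤ i * b) ∨ (U A).card + 2 * r ≤ n)`.
The key inequality: for `i < r` one has `i * (b + 2 n) < C(n,2)` hence
`(n - 2 i) (n - 2 i - 1) = n² - n - 4 i n + 4 i² + 2 i ≥ n² - n - 4 i n > 2 i b`, so
`i * b < (n - 2 i).choose 2` and `exists_free_pair` applies (in particular the position is not over);
after the move `U` loses exactly two vertices and `B` gains at most `b` edges.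
In the second case of the invariant any move keeps it (`U_insert_subset`).
Initially `i = 0` (if `r > 0`) (`U_empty`).
-/

namespace Pool.Agent.IG19

open Finset

variable {n : ℕ} {b k : ℕ} {A B X : Finset (Sym2 (Fin n))}

theorem exists_free_pair (h : Valid A B) (hc : B.card < (U A).card.choose 2) :
    ∃ u ∈ U A, ∃ v ∈ U A, u ≠ v ∧ s(u, v) ∈ free A B := by
  have _ := h
  by_contra hcon
  push Not at hcon
  have hsub : (U A).offDiag.image (fun p : Fin n × Fin n => s(p.1, p.2)) ⊆ B := by
    intro e he
    rw [mem_image] at he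
    obtain ⟨⟨u, v⟩, hp, rfl⟩ := he
    rw [mem_offDiag] at hp
    rcases free_or_B (A := A) (B := B) hp.1 hp.2.2 with hf | hB
    · exact absurd hf (hcon u hp.1 v hp.2.1 hp.2.2)
    · exact hB
  have h1 := card_le_card hsub
  have h2 : ((U A).offDiag.image (fun p : Fin n × Fin n => s(p.1, p.2))).card = (U A).card.choose 2 :=
    Sym2.card_image_offDiag (U A)
  omega

/-- The key inequality. -/
private theorem SupUp.key {n b i m : ℕ} (hi : (i : ℚ) < (n.choose 2 : ℚ) / (b + 2 * n)) (hn : 2 ≤ n)
    (hm : m + 2 * i = n) : i * b < m.choose 2 := by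
  have hn' : (2 : ℚ) ≤ n := by exact_mod_cast hn
  have hb' : (0 : ℚ) ≤ b := Nat.cast_nonneg b
  have hi' : (0 : ℚ) ≤ i := Nat.cast_nonneg i
  rw [lt_div_iff₀ (by linarith), Nat.cast_choose_two] at hi
  have hm' : (m : ℚ) = n - 2 * i := by
    rw [eq_sub_iff_add_eq]
    exact_mod_cast hm
  have hgoal : ((i * b : ℕ) : ℚ) < ((m.choose 2 : ℕ) : ℚ) := by
    rw [Nat.cast_choose_two, hm']
    push_cast
    nlinarith [mul_nonneg hi' hi']
  exact_mod_cast hgoal

theorem sup_up (n b : ℕ) (hn : 2 ≤ n) (hb : 1 ≤ b) :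
    (f n b : ℤ) ≤ (n : ℤ) - 2 * ⌈(n.choose 2 : ℚ) / (b + 2 * n)⌉ := by
  have _ := hb
  have hn' : (2 : ℚ) ≤ n := by exact_mod_cast hn
  have hb' : (0 : ℚ) ≤ b := Nat.cast_nonneg b
  have hx0 : (0 : ℚ) ≤ (n.choose 2 : ℚ) / (b + 2 * n) := by positivity
  obtain ⟨r, hr⟩ : ∃ r : ℕ, r = ⌈(n.choose 2 : ℚ) / (b + 2 * n)⌉₊ := ⟨_, rfl⟩
  have hrz : ⌈(n.choose 2 : ℚ) / (b + 2 * n)⌉ = (r : ℤ) := by
    rw [hr]
    exact (Int.natCast_ceil_eq_ceil hx0).symm
  have hlt : ∀ i : ℕ, i < r → (i : ℚ) < (n.choose 2 : ℚ) / (b + 2 * n) := by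
    intro i hi
    rw [hr] at hi
    exact Nat.lt_ceil.1 hi
  have hr2 : 2 * r ≤ n := by
    rcases Nat.eq_zero_or_pos r with h0 | h0
    · omega
    · have h1 := hlt (r - 1) (by omega)
      rw [lt_div_iff₀ (by linarith), Nat.cast_choose_two] at h1
      have h2 : (0 : ℚ) ≤ ((r - 1 : ℕ) : ℚ) := Nat.cast_nonneg _
      have h3 : (4 : ℚ) * ((r - 1 : ℕ) : ℚ) < n - 1 := by
        by_contra hcon
        push Not at hcon
        nlinarith [mul_nonneg h2 hb', mul_le_mul_of_nonneg_right hcon (by linarith : (0 : ℚ) ≤ n)]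
      have h4 : 4 * (r - 1) + 1 < n := by
        have : ((4 * (r - 1) + 1 : ℕ) : ℚ) < (n : ℚ) := by
          push_cast
          linarith
        exact_mod_cast this
      omega
  rw [hrz]
  have hmain : ¬ Guar n b (n - 2 * r + 1) true ∅ ∅ := by
    refine not_guar (fun A B => Valid A B ∧
      ((∃ i < r, (U A).card + 2 * i = n ∧ B.card ≤ i * b) ∨ (U A).card + 2 * r ≤ n)) ?_ ?_ ?_
    · rintro A B ⟨hv, ⟨i, hi, hU, hB⟩ | hU⟩ hf
      · exfalso
        obtain ⟨u, _, v, _, _, he⟩ := exists_free_pair hv (hB.trans_lt (SupUp.key (hlt i hi) hn hU))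
        rw [hf] at he
        exact absurd he (notMem_empty _)
      · omega
    · rintro A B ⟨hv, ⟨i, hi, hU, hB⟩ | hU⟩ hf
      · obtain ⟨u, hu, v, hvU, huv, he⟩ :=
          exists_free_pair hv (hB.trans_lt (SupUp.key (hlt i hi) hn hU))
        refine ⟨s(u, v), he, ?_⟩
        intro X hX hXc
        have hcard : (U (insert s(u, v) A)).card + 2 = (U A).card := by
          have h1 : U (insert s(u, v) A) = (U A) \ {u, v} := by
            ext x
            rw [mem_U_insert, mem_sdiff, Sym2.mem_iff, mem_insert, mem_singleton]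
            tauto
          have h2 : ({u, v} : Finset (Fin n)) ⊆ U A := by
            intro x hx
            rw [mem_insert, mem_singleton] at hx
            rcases hx with rfl | rfl
            · exact hu
            · exact hvU
          rw [h1, ← card_pair huv, card_sdiff_add_card_eq_card h2]
        have hBX : (B ∪ X).card ≤ (i + 1) * b := by
          refine (card_union_le _ _).trans ?_
          have h3 : X.card ≤ b := hXc ▸ min_le_left _ _
          rw [add_mul, one_mul]
          omega
        refine ⟨(hv.insertA he).unionB hX, ?_⟩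
        by_cases hir : i + 1 < r
        · exact Or.inl ⟨i + 1, hir, by omega, hBX⟩
        · exact Or.inr (by omega)
      · obtain ⟨e, he⟩ := nonempty_iff_ne_empty.2 hf
        refine ⟨e, he, ?_⟩
        intro X hX _
        refine ⟨(hv.insertA he).unionB hX, Or.inr ?_⟩
        have := card_le_card (U_insert_subset (A := A) (e := e))
        omega
    · refine ⟨valid_empty, ?_⟩
      have hU : (U (∅ : Finset (Sym2 (Fin n)))).card = n := by
        rw [U_empty, card_univ, Fintype.card_fin]
      rcases Nat.eq_zero_or_pos r with h0 | h0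
      · exact Or.inr (by omega)
      · exact Or.inl ⟨0, h0, by omega, by simp⟩
  have h1 := f_lt hmain
  omega

end Pool.Agent.IG19
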