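import Pool.Agent.IG19.ThreeMain
import Pool.Agent.IG19.BetaLow

/-!
# IG19-ThreeNum: the sharper upper bound

Write `x = n/b ≥ 1`, `L = LL n b = 1 + log x ≥ 1` (`LL_eq`, `one_le_LL`).

If `x ≤ 70`: `f n b ≤ n` (`f_le`) and `exp 70 * exp (-x) ≥ 1`, `L^5 ≥ 1`.

If `x > 70`: `R = ⌈32 b L⌉₊`, so `32 b L ≤ R ≤ 32 b L + 1 ≤ 33 b L`.
Condition `hbig` of `three_main`: `2 + 4 log (5R/b) + 5 L ≤ (n-1)/b`: as `5R/b ≤ 165 L` and `1/b ≤ 1` it is enough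
that `3 + 4 log (165 L) + 5 L ≤ x`.  We have `log x ≤ log 70 + (x - 70)/70 = log 70 - 1 + x/70`,
`log 70 ≤ 4.25` (`exp 4.25 ≥ 70`), so `L ≤ 4.25 + x/70`, and
`log (165 L) = log (165 * 5.25) + log (L/5.25) ≤ 6.77 + L/5.25 - 1` (`165 * 5.25 ≤ 867 ≤ exp 6.77`).
So the left-hand side is at most `3 + 4 (5.77 + L/5.25) + 5 L ≤ 26.1 + 5.77 L ≤ 26.1 + 24.6 + 0.083 x ≤ x`
for `x ≥ 70`.
Bound: `three_main` and `kap n b = 2 exp 3 exp (-x)`; `R ≤ 33 b L ≤ 33 n L`, `R/b ≤ 33 L`, `5R/b ≤ 165 L`,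
`exp (5/4) ≤ 3.5`, `exp 1 ≤ 2.72`:
`15 R exp 1 (R/b)^4 ≤ 15 * 33 * 2.72 * 33^4 n L^5 ≤ 1.6e9 n L^5`,
`5 exp 1 (5R/b)^4 (1 + 4 L exp (5/4) n) ≤ 13.6 * 165^4 L^4 * 15 L n ≤ 1.6e11 n L^5`,
so `f n b ≤ 2 exp 3 * 2e11 * n exp (-x) L^5 ≤ exp 70 * ...`.
-/

namespace Pool.Agent.IG19

open Finset

variable {n b : ℕ}

private theorem e_le : Real.exp 1 ≤ 3 := by
  have := Real.exp_one_lt_d9
  linarith

private theorem e_ge : 2 ≤ Real.exp 1 := by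
  have := Real.add_one_le_exp (1 : ℝ)
  linarith

private theorem exp_eq_pow (k : ℕ) : Real.exp (k : ℝ) = Real.exp 1 ^ k := by
  rw [← Real.exp_nat_mul, mul_one]

private theorem exp3_le : Real.exp 3 ≤ 27 := by
  have h1 : Real.exp 3 = Real.exp 1 ^ 3 := by exact_mod_cast exp_eq_pow 3
  rw [h1]
  calc Real.exp 1 ^ 3 ≤ 3 ^ 3 := pow_le_pow_left₀ (Real.exp_pos _).le e_le 3
    _ = 27 := by norm_num

private theorem exp54_le : Real.exp (5 / 4) ≤ 9 := by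
  have h1 : Real.exp 2 = Real.exp 1 ^ 2 := by exact_mod_cast exp_eq_pow 2
  calc Real.exp (5 / 4) ≤ Real.exp 2 := Real.exp_le_exp.2 (by norm_num)
    _ = Real.exp 1 ^ 2 := h1
    _ ≤ 3 ^ 2 := pow_le_pow_left₀ (Real.exp_pos _).le e_le 2
    _ = 9 := by norm_num

private theorem exp7_ge : 825 ≤ Real.exp 7 := by
  have h1 : Real.exp 7 = Real.exp 1 ^ 7 := by exact_mod_cast exp_eq_pow 7
  have h2 : (2.7 : ℝ) ≤ Real.exp 1 := by
    have := Real.exp_one_gt_d9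
    linarith
  rw [h1]
  calc (825 : ℝ) ≤ 2.7 ^ 7 := by norm_num
    _ ≤ Real.exp 1 ^ 7 := pow_le_pow_left₀ (by norm_num) h2 7

private theorem exp5_ge : 70 ≤ Real.exp 5 := by
  have h1 : Real.exp 5 = Real.exp 1 ^ 5 := by exact_mod_cast exp_eq_pow 5
  have h2 : (2.7 : ℝ) ≤ Real.exp 1 := by
    have := Real.exp_one_gt_d9
    linarith
  rw [h1]
  calc (70 : ℝ) ≤ 2.7 ^ 5 := by norm_num
    _ ≤ Real.exp 1 ^ 5 := pow_le_pow_left₀ (by norm_num) h2 5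

private theorem exp70_ge : 2 * 27 * (15 * 33 ^ 5 * 3 + 5 * 3 * 165 ^ 4 * 37) ≤ Real.exp 70 := by
  have h1 : Real.exp 70 = Real.exp 1 ^ 70 := by exact_mod_cast exp_eq_pow 70
  rw [h1]
  calc (2 * 27 * (15 * 33 ^ 5 * 3 + 5 * 3 * 165 ^ 4 * 37) : ℝ) ≤ 2 ^ 70 := by norm_num
    _ ≤ Real.exp 1 ^ 70 := pow_le_pow_left₀ (by norm_num) e_ge 70

theorem three_num (hn : 2 ≤ n) (hb : 1 ≤ b) (hbn : b ≤ n) :
    (f n b : ℝ) ≤ Real.exp 70 * ((n : ℝ) * Real.exp (-((n : ℝ) / b))) * LL n b ^ 5 := by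
  have hb0 : (0 : ℝ) < b := by exact_mod_cast hb
  have hb1 : (1 : ℝ) ≤ b := by exact_mod_cast hb
  have hn1 : (1 : ℝ) ≤ n := by exact_mod_cast (by omega : 1 ≤ n)
  have hbn' : (b : ℝ) ≤ n := by exact_mod_cast hbn
  have hL := LL_eq hb hbn
  have hL1 := one_le_LL hb hbn
  obtain ⟨L, hLdef⟩ : ∃ L, L = LL n b := ⟨_, rfl⟩
  obtain ⟨x, hx⟩ : ∃ x : ℝ, x = (n : ℝ) / b := ⟨_, rfl⟩
  rw [← hLdef] at hL hL1 ⊢
  have hx1 : 1 ≤ x := by
    rw [hx]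
    exact (one_le_div hb0).2 hbn'
  have hx0 : 0 < x := by linarith
  have hL0 : 0 < L := by linarith
  by_cases hx70 : x ≤ 70
  · have h1 : (f n b : ℝ) ≤ n := by exact_mod_cast f_le
    have h2 : 1 ≤ Real.exp 70 * Real.exp (-x) := by
      rw [← Real.exp_add]
      exact Real.one_le_exp (by linarith)
    have h3 : 1 ≤ L ^ 5 := one_le_pow₀ hL1
    rw [← hx]
    calc (f n b : ℝ) ≤ n := h1
      _ = 1 * n * 1 := by ring
      _ ≤ (Real.exp 70 * Real.exp (-x)) * n * L ^ 5 := by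
          refine mul_le_mul (mul_le_mul_of_nonneg_right h2 (by linarith)) h3 zero_le_one ?_
          positivity
      _ = Real.exp 70 * ((n : ℝ) * Real.exp (-x)) * L ^ 5 := by ring
  push Not at hx70
  obtain ⟨R, hR⟩ : ∃ R : ℕ, R = ⌈32 * (b : ℝ) * L⌉₊ := ⟨_, rfl⟩
  have hR1 : 32 * (b : ℝ) * L ≤ R := by
    rw [hR]
    exact Nat.le_ceil _
  have hbL : 1 ≤ (b : ℝ) * L := by nlinarith
  have hR2 : (R : ℝ) ≤ 33 * b * L := by
    have h1 : (R : ℝ) < 32 * (b : ℝ) * L + 1 := by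
      rw [hR]
      exact Nat.ceil_lt_add_one (by positivity)
    nlinarith
  have hRb : (R : ℝ) / b ≤ 33 * L := by
    rw [div_le_iff₀ hb0]
    linarith
  have hRb5 : 5 * (R : ℝ) / b ≤ 165 * L := by
    rw [div_le_iff₀ hb0]
    linarith
  have hRb0 : 0 ≤ (R : ℝ) / b := by positivity
  have hRb50 : 0 ≤ 5 * (R : ℝ) / b := by positivity
  -- the logarithm
  have hLx : L ≤ 5 + x / 70 := by
    have h1 : x ≤ Real.exp (5 + (x / 70 - 1)) := by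
      rw [Real.exp_add]
      have h2 := Real.add_one_le_exp (x / 70 - 1)
      have h3 := exp5_ge
      have h4 : x = 70 * (x / 70) := by ring
      calc x = 70 * (x / 70) := h4
        _ ≤ Real.exp 5 * Real.exp (x / 70 - 1) :=
          mul_le_mul h3 (by linarith) (by positivity) (Real.exp_pos _).le
    have h5 : Real.log x ≤ 5 + (x / 70 - 1) := (Real.log_le_iff_le_exp hx0).2 h1
    rw [hL, ← hx]
    linarith
  have h165 : 165 * L ≤ Real.exp (6 + L / 5) := by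
    have h1 : (6 : ℝ) + L / 5 = 7 + (L / 5 - 1) := by ring
    rw [h1, Real.exp_add]
    have h2 := Real.add_one_le_exp (L / 5 - 1)
    calc 165 * L = 825 * (L / 5) := by ring
      _ ≤ Real.exp 7 * Real.exp (L / 5 - 1) :=
        mul_le_mul exp7_ge (by linarith) (by positivity) (Real.exp_pos _).le
  have hbig : Real.exp 1 * (Real.exp 1 * (5 * (R : ℝ) / b) ^ 4 * Real.exp (5 * L)) ≤
      Real.exp (((n : ℝ) - 1) / b) := by
    have h1 : (5 * (R : ℝ) / b) ^ 4 ≤ Real.exp (4 * (6 + L / 5)) := by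
      have h2 : Real.exp (4 * (6 + L / 5)) = Real.exp (6 + L / 5) ^ 4 := by
        rw [← Real.exp_nat_mul]
        norm_num
      rw [h2]
      exact pow_le_pow_left₀ hRb50 (hRb5.trans h165) 4
    have h3 : Real.exp 1 * (Real.exp 1 * (5 * (R : ℝ) / b) ^ 4 * Real.exp (5 * L)) ≤
        Real.exp 1 * (Real.exp 1 * Real.exp (4 * (6 + L / 5)) * Real.exp (5 * L)) := by
      have he : 0 ≤ Real.exp 1 := (Real.exp_pos _).le
      exact mul_le_mul_of_nonneg_left (mul_le_mul_of_nonneg_right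
        (mul_le_mul_of_nonneg_left h1 he) (Real.exp_pos _).le) he
    refine h3.trans ?_
    rw [← Real.exp_add, ← Real.exp_add, ← Real.exp_add]
    refine Real.exp_le_exp.2 ?_
    have h4 : ((n : ℝ) - 1) / b = x - 1 / b := by
      rw [hx, sub_div]
    have h5 : 1 / (b : ℝ) ≤ 1 := by
      rw [div_le_one hb0]
      exact hb1
    rw [h4]
    linarith
  have hmain := three_main hn hb hbn hL hR1 hbig
  refine hmain.trans ?_
  unfold kap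
  have hT1 : 15 * (R : ℝ) * (Real.exp 1 * ((R : ℝ) / b) ^ 4) ≤
      15 * 33 ^ 5 * 3 * ((n : ℝ) * L ^ 5) := by
    have h1 : ((R : ℝ) / b) ^ 4 ≤ (33 * L) ^ 4 := pow_le_pow_left₀ hRb0 hRb 4
    have h2 : Real.exp 1 * ((R : ℝ) / b) ^ 4 ≤ 3 * (33 * L) ^ 4 :=
      mul_le_mul e_le h1 (by positivity) (by norm_num)
    have h3 : 15 * (R : ℝ) ≤ 15 * (33 * n * L) := by
      have : (b : ℝ) * L ≤ n * L := mul_le_mul_of_nonneg_right hbn' hL0.le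
      nlinarith
    calc 15 * (R : ℝ) * (Real.exp 1 * ((R : ℝ) / b) ^ 4)
        ≤ 15 * (33 * n * L) * (3 * (33 * L) ^ 4) :=
          mul_le_mul h3 h2 (by positivity) (by positivity)
      _ = 15 * 33 ^ 5 * 3 * ((n : ℝ) * L ^ 5) := by ring
  have hT2 : 5 * Real.exp 1 * (5 * (R : ℝ) / b) ^ 4 * (1 + 4 * L * Real.exp (5 / 4) * n) ≤
      5 * 3 * 165 ^ 4 * 37 * ((n : ℝ) * L ^ 5) := by
    have h1 : (5 * (R : ℝ) / b) ^ 4 ≤ (165 * L) ^ 4 := pow_le_pow_left₀ hRb50 hRb5 4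
    have h2 : 1 + 4 * L * Real.exp (5 / 4) * n ≤ 37 * (L * n) := by
      have h3 : 1 ≤ L * n := by nlinarith
      have h4 : Real.exp (5 / 4) * (L * n) ≤ 9 * (L * n) :=
        mul_le_mul_of_nonneg_right exp54_le (by positivity)
      nlinarith
    have h5 : 5 * Real.exp 1 * (5 * (R : ℝ) / b) ^ 4 ≤ 5 * 3 * (165 * L) ^ 4 :=
      mul_le_mul (mul_le_mul_of_nonneg_left e_le (by norm_num)) h1 (by positivity) (by norm_num)
    calc 5 * Real.exp 1 * (5 * (R : ℝ) / b) ^ 4 * (1 + 4 * L * Real.exp (5 / 4) * n)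
        ≤ 5 * 3 * (165 * L) ^ 4 * (37 * (L * n)) :=
          mul_le_mul h5 h2 (by positivity) (by positivity)
      _ = 5 * 3 * 165 ^ 4 * 37 * ((n : ℝ) * L ^ 5) := by ring
  have hpos : 0 ≤ (n : ℝ) * L ^ 5 := by positivity
  have hx' : -(n : ℝ) / b = -x := by rw [hx, neg_div]
  rw [← hx, hx']
  have hexp := Real.exp_pos (-x)
  have h6 : 2 * Real.exp 3 * (15 * 33 ^ 5 * 3 * ((n : ℝ) * L ^ 5) +
      5 * 3 * 165 ^ 4 * 37 * ((n : ℝ) * L ^ 5)) ≤ Real.exp 70 * ((n : ℝ) * L ^ 5) := by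
    have h7 : 2 * Real.exp 3 * (15 * 33 ^ 5 * 3 + 5 * 3 * 165 ^ 4 * 37) ≤ Real.exp 70 := by
      refine le_trans ?_ exp70_ge
      exact mul_le_mul_of_nonneg_right (mul_le_mul_of_nonneg_left exp3_le (by norm_num))
        (by norm_num)
    calc 2 * Real.exp 3 * (15 * 33 ^ 5 * 3 * ((n : ℝ) * L ^ 5) +
        5 * 3 * 165 ^ 4 * 37 * ((n : ℝ) * L ^ 5))
        = 2 * Real.exp 3 * (15 * 33 ^ 5 * 3 + 5 * 3 * 165 ^ 4 * 37) * ((n : ℝ) * L ^ 5) := by ring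
      _ ≤ Real.exp 70 * ((n : ℝ) * L ^ 5) := mul_le_mul_of_nonneg_right h7 hpos
  calc 2 * Real.exp 3 * Real.exp (-x) * (15 * (R : ℝ) * (Real.exp 1 * ((R : ℝ) / b) ^ 4) +
        5 * Real.exp 1 * (5 * (R : ℝ) / b) ^ 4 * (1 + 4 * L * Real.exp (5 / 4) * n))
      ≤ 2 * Real.exp 3 * Real.exp (-x) * (15 * 33 ^ 5 * 3 * ((n : ℝ) * L ^ 5) +
        5 * 3 * 165 ^ 4 * 37 * ((n : ℝ) * L ^ 5)) :=
        mul_le_mul_of_nonneg_left (add_le_add hT1 hT2) (by positivity)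
    _ = Real.exp (-x) * (2 * Real.exp 3 * (15 * 33 ^ 5 * 3 * ((n : ℝ) * L ^ 5) +
        5 * 3 * 165 ^ 4 * 37 * ((n : ℝ) * L ^ 5))) := by ring
    _ ≤ Real.exp (-x) * (Real.exp 70 * ((n : ℝ) * L ^ 5)) :=
        mul_le_mul_of_nonneg_left h6 hexp.le
    _ = Real.exp 70 * ((n : ℝ) * Real.exp (-x)) * L ^ 5 := by ring

end Pool.Agent.IG19
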