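import Pool.Agent.IG19.UOne
import Pool.Agent.IG19.BetaProp
import Pool.Agent.IG19.BetaBound

/-!
# IG19-UpMain: the upper bound theorem

Write `x = n/b ≥ 1`, `L = LL n b = 1 + log x ≥ 1`, `β = beta n b`, `N = N1 n b`.

Case `β b ≤ n - 1`: `f_le_of_beta` with `betaProp`.  `β b ≥ b L` (`beta_b_ge`) and
`exp (β b / b) ≤ exp (log x + log L + log 8 + 2/b) ≤ 8 exp 2 * x L` (`beta_b_le`), so
`2 b n price/β b ≤ (2 n/L) exp 3 exp (1/b) exp (-x) * 8 exp 2 * x L ≤ 16 exp 6 * (n²/b) exp (-x)`, and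
`16 ≤ exp 3`.

Case `β b > n - 1`: `n - 1 < b (log x + log L + log 8) + 2` so
`x < log x + log (1 + log x) + log 8 + 3/b ≤ 2 log x + 5.1` (`log (1 + log x) ≤ log x`,
`log 8 = 3 log 2 ≤ 2.1`), and `log x ≤ x/4 + log 4 - 1 ≤ x/4 + 0.39`
so `x ≤ 12`; hence `f n b ≤ n ≤ n²/b` (`f_le`) and `exp 12 * exp (-x) ≥ 1`.
-/

namespace Pool.Agent.IG19

open Finset

variable {n b : ℕ}

private theorem upmain_case2_x {x : ℝ} (hx1 : 1 ≤ x)
    (h : x < Real.log x + Real.log (1 + Real.log x) + Real.log 8 + 3) : x ≤ 12 := by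
  have hx0 : 0 < x := by linarith
  have hlx : 0 ≤ Real.log x := Real.log_nonneg hx1
  have h1 : Real.log (1 + Real.log x) ≤ Real.log x := by
    have := Real.log_le_sub_one_of_pos (x := 1 + Real.log x) (by linarith)
    linarith
  have h8 : Real.log 8 = 3 * Real.log 2 := by
    rw [show (8 : ℝ) = 2 ^ (3 : ℕ) by norm_num, Real.log_pow]
    norm_num
  have h2 := Real.log_two_lt_d9
  have h4 : Real.log x ≤ x / 4 - 1 + 2 * Real.log 2 := by
    have ha := Real.log_le_sub_one_of_pos (x := x / 4) (by positivity)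
    rw [Real.log_div hx0.ne' (by norm_num), show (4 : ℝ) = 2 ^ (2 : ℕ) by norm_num, Real.log_pow] at ha
    norm_num at ha
    linarith
  linarith

theorem up_main (hn : 2 ≤ n) (hb : 1 ≤ b) (hbn : b ≤ n) :
    (f n b : ℝ) ≤ Real.exp 12 * ((n : ℝ) ^ 2 / b) * Real.exp (-((n : ℝ) / b)) := by
  have hbR : (1 : ℝ) ≤ b := by exact_mod_cast hb
  have hb0 : (0 : ℝ) < b := by linarith
  have hbnR : (b : ℝ) ≤ n := by exact_mod_cast hbn
  have hn0 : (0 : ℝ) < n := by linarith
  have hx1 : (1 : ℝ) ≤ (n : ℝ) / b := by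
    rw [le_div_iff₀ hb0]; linarith
  have hx0 : (0 : ℝ) < (n : ℝ) / b := by linarith
  have hL1 : 1 ≤ LL n b := one_le_LL hb hbn
  have hL0 : 0 < LL n b := by linarith
  have hge := beta_b_ge hb hbn
  have hle := beta_b_le hb hbn
  have hbeta0 : 0 < beta n b b := lt_of_lt_of_le (by positivity) hge
  have hinv : (1 : ℝ) / b ≤ 1 := by
    rw [div_le_one hb0]; exact hbR
  by_cases hc : beta n b b ≤ (n : ℝ) - 1
  · refine (f_le_of_beta hn hb hbn (betaProp hb hbn) hc).trans ?_
    -- bound for exp (beta/b)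
    have hE : Real.exp (beta n b b / b) ≤ 8 * Real.exp 2 * ((n : ℝ) / b * LL n b) := by
      have h1 : beta n b b / b ≤
          Real.log ((n : ℝ) / b) + Real.log (LL n b) + Real.log 8 + 2 := by
        rw [div_le_iff₀ hb0]
        nlinarith [hle]
      calc Real.exp (beta n b b / b)
          ≤ Real.exp (Real.log ((n : ℝ) / b) + Real.log (LL n b) + Real.log 8 + 2) :=
            Real.exp_le_exp.2 h1
        _ = 8 * Real.exp 2 * ((n : ℝ) / b * LL n b) := by
            rw [Real.exp_add, Real.exp_add, Real.exp_add, Real.exp_log hx0, Real.exp_log hL0,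
              Real.exp_log (by norm_num : (0 : ℝ) < 8)]
            ring
    have hprice : price n b (beta n b b) ≤
        Real.exp 3 * (Real.exp 1 * Real.exp (-((n : ℝ) / b)) *
          (8 * Real.exp 2 * ((n : ℝ) / b * LL n b))) := by
      unfold price
      have h2 : -(((n : ℝ) - 1) - beta n b b) / b =
          1 / b + -((n : ℝ) / b) + beta n b b / b := by
        field_simp
        ring
      rw [h2, Real.exp_add, Real.exp_add]
      have h3 : Real.exp (1 / (b : ℝ)) ≤ Real.exp 1 := Real.exp_le_exp.2 hinv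
      gcongr
    have h16 : (16 : ℝ) ≤ Real.exp 3 := by
      have := Real.exp_one_gt_d9
      have h3 : Real.exp 3 = Real.exp 1 ^ 3 := by
        rw [← Real.exp_nat_mul]
        norm_num
      rw [h3]
      have h27 : (2.7 : ℝ) ≤ Real.exp 1 := by linarith
      have : (2.7 : ℝ) ^ 3 ≤ Real.exp 1 ^ 3 := by gcongr
      norm_num at this ⊢
      linarith
    have hp0 : 0 ≤ price n b (beta n b b) := by
      unfold price
      positivity
    have hstep : price n b (beta n b b) / beta n b b ≤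
        Real.exp 3 * (Real.exp 1 * Real.exp (-((n : ℝ) / b)) *
          (8 * Real.exp 2 * ((n : ℝ) / b * LL n b))) / ((b : ℝ) * LL n b) := by
      apply div_le_div₀ (by positivity) hprice (by positivity) hge
    have hfin : 2 * (b : ℝ) * n * (Real.exp 3 * (Real.exp 1 * Real.exp (-((n : ℝ) / b)) *
          (8 * Real.exp 2 * ((n : ℝ) / b * LL n b))) / ((b : ℝ) * LL n b)) =
        16 * (Real.exp 3 * Real.exp 1 * Real.exp 2) * ((n : ℝ) ^ 2 / b) * Real.exp (-((n : ℝ) / b)) := by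
      field_simp
      ring
    have hexp : 16 * (Real.exp 3 * Real.exp 1 * Real.exp 2) ≤ Real.exp 12 := by
      have h6 : Real.exp 3 * Real.exp 1 * Real.exp 2 = Real.exp 6 := by
        rw [← Real.exp_add, ← Real.exp_add]; norm_num
      rw [h6]
      calc 16 * Real.exp 6 ≤ Real.exp 3 * Real.exp 6 := by gcongr
        _ = Real.exp 9 := by rw [← Real.exp_add]; norm_num
        _ ≤ Real.exp 12 := Real.exp_le_exp.2 (by norm_num)
    calc 2 * (b : ℝ) * n * (price n b (beta n b b) / beta n b b)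
        ≤ 2 * (b : ℝ) * n * (Real.exp 3 * (Real.exp 1 * Real.exp (-((n : ℝ) / b)) *
          (8 * Real.exp 2 * ((n : ℝ) / b * LL n b))) / ((b : ℝ) * LL n b)) := by
          gcongr
      _ = 16 * (Real.exp 3 * Real.exp 1 * Real.exp 2) * ((n : ℝ) ^ 2 / b) *
            Real.exp (-((n : ℝ) / b)) := hfin
      _ ≤ Real.exp 12 * ((n : ℝ) ^ 2 / b) * Real.exp (-((n : ℝ) / b)) := by
          gcongr
  · have hc' : (n : ℝ) - 1 < beta n b b := not_le.1 hc
    have hx12 : (n : ℝ) / b ≤ 12 := by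
      apply upmain_case2_x hx1
      rw [← LL_eq hb hbn]
      rw [div_lt_iff₀ hb0]
      nlinarith [hle, hc']
    have hfn : (f n b : ℝ) ≤ n := by exact_mod_cast f_le
    have h1 : (n : ℝ) ≤ (n : ℝ) ^ 2 / b := by
      rw [le_div_iff₀ hb0]
      nlinarith
    have h2 : (1 : ℝ) ≤ Real.exp 12 * Real.exp (-((n : ℝ) / b)) := by
      rw [← Real.exp_add]
      exact Real.one_le_exp (by linarith)
    calc (f n b : ℝ) ≤ n := hfn
      _ ≤ (n : ℝ) ^ 2 / b := h1
      _ = 1 * ((n : ℝ) ^ 2 / b) := by ring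
      _ ≤ (Real.exp 12 * Real.exp (-((n : ℝ) / b))) * ((n : ℝ) ^ 2 / b) := by
          gcongr
      _ = Real.exp 12 * ((n : ℝ) ^ 2 / b) * Real.exp (-((n : ℝ) / b)) := by ring

end Pool.Agent.IG19
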