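import Pool.Agent.IG19.UTwo
import Pool.Agent.IG19.BetaProp
import Pool.Agent.IG19.BetaBound

/-!
# IG19-ZeroMain: no isolated vertex below the threshold

Write `x = n/b ≥ 1`, `L = LL n b ≥ 1`.  Taking logarithms in the hypothesis:
`log n - x + log L ≤ -8`, so `b (log n + log L) ≤ n - 8 b` and
`beta n b 1 ≤ n - 8 b + 6 b ≤ n - 2 < n - 1` (`beta_one_le`); `zero_of_beta` with `betaProp`.
-/

namespace Pool.Agent.IG19

open Finset

variable {n b : ℕ}

theorem zero_main (hn : 2 ≤ n) (hb : 1 ≤ b) (hbn : b ≤ n)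
    (h : (n : ℝ) * Real.exp (-((n : ℝ) / b)) * LL n b ≤ Real.exp (-8)) : f n b = 0 := by
  have hb0 : (0 : ℝ) < b := by exact_mod_cast hb
  have hn0 : (0 : ℝ) < n := by exact_mod_cast (by omega : 0 < n)
  have hb1 : (1 : ℝ) ≤ b := by exact_mod_cast hb
  have hx : (1 : ℝ) ≤ (n : ℝ) / b := by
    rw [le_div_iff₀ hb0, one_mul]
    exact_mod_cast hbn
  have hL : LL n b = 1 + Real.log ((n : ℝ) / b) := by
    unfold LL
    rw [mul_div_assoc, Real.log_mul (Real.exp_pos 1).ne' (by positivity), Real.log_exp]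
  have hL1 : 1 ≤ LL n b := by
    rw [hL]
    linarith [Real.log_nonneg hx]
  have hLpos : 0 < LL n b := by linarith
  have hlog := Real.log_le_log (by positivity) h
  rw [Real.log_exp, Real.log_mul (by positivity) hLpos.ne',
    Real.log_mul hn0.ne' (Real.exp_pos _).ne', Real.log_exp] at hlog
  refine zero_of_beta hn hb hbn (betaProp hb hbn) ?_
  have h1 := beta_one_le hb hbn
  have h2 : (b : ℝ) * (Real.log n + Real.log (LL n b) + 6) ≤ (b : ℝ) * ((n : ℝ) / b - 2) := by
    apply mul_le_mul_of_nonneg_left _ hb0.le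
    linarith
  have h3 : (b : ℝ) * ((n : ℝ) / b - 2) = n - 2 * b := by
    field_simp
  linarith

end Pool.Agent.IG19
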