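import Pool.Agent.IG19.SupLow
import Pool.Agent.IG19.SupUp
import Pool.Agent.IG19.UpMain
import Pool.Agent.IG19.ZeroMain
import Pool.Agent.IG19.ThreeNum
import Pool.Agent.IG19.LowSmall
import Pool.Agent.IG19.LowLarge

/-!
# IG19-Main: assembly
-/

namespace Pool.Agent.IG19

open Finset

theorem low_num {n b : ℕ} (hn : 2 ≤ n) (hb : 1 ≤ b) (hbn : b ≤ n)
    (h : 1000 * LL n b ≤ (n : ℝ) * Real.exp (-((n : ℝ) / b))) :
    (n : ℝ) * Real.exp (-((n : ℝ) / b)) / 1000 ≤ f n b := by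
  rcases le_or_gt ((n : ℝ) / b) 20 with hx | hx
  · exact low_num_small hn hb hbn hx h
  · exact low_num_large hn hb hbn hx h

/-- The three bounds for `b ≤ n`. -/
theorem small_bias (n b : ℕ) (hn : 2 ≤ n) (hb : 1 ≤ b) (hbn : b ≤ n) :
    (f n b : ℝ) ≤ Real.exp 12 * ((n : ℝ) / b) * (n * Real.exp (-((n : ℝ) / b))) ∧
    (f n b : ℝ) ≤ Real.exp 70 * Real.log (Real.exp 1 * n / b) ^ 5 *
      (n * Real.exp (-((n : ℝ) / b))) ∧
    (1000 * Real.log (Real.exp 1 * n / b) ≤ n * Real.exp (-((n : ℝ) / b)) →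
      1 / 1000 * (n * Real.exp (-((n : ℝ) / b))) ≤ (f n b : ℝ)) := by
  refine ⟨?_, ?_, ?_⟩
  · have h := up_main hn hb hbn
    refine h.trans (le_of_eq ?_)
    ring
  · have h := three_num hn hb hbn
    unfold LL at h
    refine h.trans (le_of_eq ?_)
    ring
  · intro h
    have h1 := low_num hn hb hbn h
    linarith

/-- The threshold. -/
theorem threshold (n b : ℕ) (hn : 2 ≤ n) (hb : 1 ≤ b) (hbn : b ≤ n) :
    (Real.log n + Real.log (Real.log (Real.exp 1 * n / b)) + 8 ≤ (n : ℝ) / b → f n b = 0) ∧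
    ((n : ℝ) / b + Real.log (Real.log (Real.exp 1 * n / b)) + Real.log 1000 ≤ Real.log n →
      1 ≤ f n b) := by
  have hn0 : (0 : ℝ) < n := by exact_mod_cast (by omega : 0 < n)
  have hL : 1 ≤ LL n b := one_le_LL hb hbn
  have hL0 : 0 < LL n b := by linarith
  constructor
  · intro h
    apply zero_main hn hb hbn
    have h1 : (n : ℝ) * Real.exp (-((n : ℝ) / b)) * LL n b =
        Real.exp (Real.log n + Real.log (LL n b) - (n : ℝ) / b) := by
      rw [Real.exp_sub, Real.exp_add, Real.exp_log hn0, Real.exp_log hL0, Real.exp_neg]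
      field_simp
    rw [h1]
    apply Real.exp_le_exp.2
    unfold LL
    linarith
  · intro h
    have h1 : 1000 * LL n b ≤ (n : ℝ) * Real.exp (-((n : ℝ) / b)) := by
      have h2 : 1000 * LL n b = Real.exp (Real.log 1000 + Real.log (LL n b)) := by
        rw [Real.exp_add, Real.exp_log (by norm_num), Real.exp_log hL0]
      have h3 : (n : ℝ) * Real.exp (-((n : ℝ) / b)) = Real.exp (Real.log n - (n : ℝ) / b) := by
        rw [Real.exp_sub, Real.exp_log hn0, Real.exp_neg]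
        field_simp
      rw [h2, h3]
      apply Real.exp_le_exp.2
      unfold LL
      linarith
    have h4 := low_num hn hb hbn h1
    have h5 : (0 : ℝ) < f n b := lt_of_lt_of_le (by positivity) h4
    have h6 : 0 < f n b := by exact_mod_cast h5
    omega

theorem large_bias (n b : ℕ) (hn : 2 ≤ n) (hb : 1 ≤ b) :
    (n : ℤ) - 2 * ⌈(n.choose 2 : ℚ) / (b + 1)⌉ ≤ (f n b : ℤ) ∧
    (f n b : ℤ) ≤ (n : ℤ) - 2 * ⌈(n.choose 2 : ℚ) / (b + 2 * n)⌉ :=
  ⟨sup_low n b, sup_up n b hn hb⟩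

theorem large_bias_asymptotic (ε : ℝ) (hε : 0 < ε) :
    ∃ C : ℝ, 0 < C ∧ ∀ n b : ℕ, 2 ≤ n → C * n ≤ b → C * b ≤ (n : ℝ) ^ 2 →
      |((n : ℝ) - f n b) / ((n : ℝ) ^ 2 / b) - 1| ≤ ε := by
  refine ⟨8 / ε + 8, by positivity, ?_⟩
  intro n b hn h1 h2
  have hn' : (2 : ℝ) ≤ n := by exact_mod_cast hn
  have hC : (0 : ℝ) < 8 / ε + 8 := by positivity
  have hb0 : (0 : ℝ) < b := lt_of_lt_of_le (by positivity) h1
  have hb : 1 ≤ b := by
    have : (0 : ℝ) < (b : ℝ) := hb0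
    exact_mod_cast Nat.one_le_iff_ne_zero.2 (by rintro rfl; simp at this)
  obtain ⟨hlow, hup⟩ := large_bias n b hn hb
  have hch : ((n.choose 2 : ℕ) : ℝ) = (n : ℝ) * ((n : ℝ) - 1) / 2 := by
    rw [Nat.cast_choose_two]
  -- real versions of the two bounds
  have hlow' : (n : ℝ) - f n b ≤ 2 * ((n : ℝ) * ((n : ℝ) - 1) / 2 / (b + 1) + 1) := by
    have h3 : ((⌈(n.choose 2 : ℚ) / (b + 1)⌉ : ℤ) : ℝ) < (n.choose 2 : ℝ) / (b + 1) + 1 := by
      have := Int.ceil_lt_add_one ((n.choose 2 : ℚ) / (b + 1))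
      have h4 : (((⌈(n.choose 2 : ℚ) / (b + 1)⌉ : ℤ) : ℚ) : ℝ) <
          (((n.choose 2 : ℚ) / (b + 1) + 1 : ℚ) : ℝ) := by exact_mod_cast this
      push_cast at h4
      exact_mod_cast h4
    have h5 : ((n : ℝ)) - 2 * ((⌈(n.choose 2 : ℚ) / (b + 1)⌉ : ℤ) : ℝ) ≤ (f n b : ℝ) := by
      exact_mod_cast hlow
    rw [hch] at h3
    linarith
  have hup' : 2 * ((n : ℝ) * ((n : ℝ) - 1) / 2 / (b + 2 * n)) ≤ (n : ℝ) - f n b := by
    have h3 : (n.choose 2 : ℝ) / (b + 2 * n) ≤ ((⌈(n.choose 2 : ℚ) / (b + 2 * n)⌉ : ℤ) : ℝ) := by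
      have := Int.le_ceil ((n.choose 2 : ℚ) / (b + 2 * n))
      have h4 : (((n.choose 2 : ℚ) / (b + 2 * n) : ℚ) : ℝ) ≤
          (((⌈(n.choose 2 : ℚ) / (b + 2 * n)⌉ : ℤ) : ℚ) : ℝ) := by exact_mod_cast this
      push_cast at h4
      exact_mod_cast h4
    have h5 : (f n b : ℝ) ≤ (n : ℝ) - 2 * ((⌈(n.choose 2 : ℚ) / (b + 2 * n)⌉ : ℤ) : ℝ) := by
      exact_mod_cast hup
    rw [hch] at h3
    linarith
  set C := 8 / ε + 8 with hCdef
  have hCε : 8 ≤ C * ε := by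
    rw [hCdef, add_mul, div_mul_cancel₀ _ hε.ne']
    nlinarith
  have hC8 : 8 ≤ C := by
    rw [hCdef]
    have : 0 < 8 / ε := by positivity
    linarith
  have hq : (0 : ℝ) < (n : ℝ) ^ 2 / b := by positivity
  rw [abs_le]
  constructor
  · -- lower bound
    have : (1 - ε) * ((n : ℝ) ^ 2 / b) ≤ (n : ℝ) - f n b := by
      refine le_trans ?_ hup'
      have e1 : 2 * ((n : ℝ) * ((n : ℝ) - 1) / 2 / (b + 2 * n)) =
          (n : ℝ) * ((n : ℝ) - 1) / (b + 2 * n) := by ring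
      rw [e1, ← mul_div_assoc, div_le_div_iff₀ hb0 (by positivity)]
      -- (1-ε) n² (b+2n) ≤ n (n-1) b
      have k1 : (n : ℝ) * C ≤ b := by linarith
      have k2 : C * b ≤ (n : ℝ) ^ 2 := h2
      have k3 : (n : ℝ) * b * 8 ≤ (n : ℝ) ^ 2 * b * ε := by
        have : C * (C * n) ≤ (n : ℝ) ^ 2 := le_trans (mul_le_mul_of_nonneg_left h1 hC.le) k2
        have hCn : C * C ≤ n := by nlinarith
        have : C ≤ n := by nlinarith
        have : 8 ≤ n * ε := le_trans hCε (mul_le_mul_of_nonneg_right this hε.le)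
        have hpos : (0 : ℝ) ≤ n * b := by positivity
        nlinarith
      have k4 : (n : ℝ) ^ 2 * (2 * n) * 4 ≤ (n : ℝ) ^ 2 * b * ε := by
        have : (n : ℝ) * 8 ≤ b * ε := by
          calc (n : ℝ) * 8 ≤ n * (C * ε) := mul_le_mul_of_nonneg_left hCε (by positivity)
            _ = (n * C) * ε := by ring
            _ ≤ b * ε := mul_le_mul_of_nonneg_right k1 hε.le
        have hpos : (0 : ℝ) ≤ (n : ℝ) ^ 2 := by positivity
        nlinarith
      rcases le_or_gt ε 1 with h1e | h1e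
      · have : 0 ≤ ε * ((n : ℝ) ^ 2 * (2 * n)) := by positivity
        nlinarith
      · have h6 : (1 - ε) * (n : ℝ) ^ 2 * (b + 2 * n) ≤ 0 := by
          have : 0 ≤ (n : ℝ) ^ 2 * (b + 2 * n) := by positivity
          nlinarith
        have h7 : 0 ≤ (n : ℝ) * ((n : ℝ) - 1) * b := by
          apply mul_nonneg (mul_nonneg (by positivity) (by linarith)) hb0.le
        linarith
    have h8 : (1 - ε) ≤ ((n : ℝ) - f n b) / ((n : ℝ) ^ 2 / b) := by
      rw [le_div_iff₀ hq]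
      exact this
    linarith
  · have : (n : ℝ) - f n b ≤ (1 + ε) * ((n : ℝ) ^ 2 / b) := by
      refine le_trans hlow' ?_
      have e1 : (n : ℝ) * ((n : ℝ) - 1) / 2 / (b + 1) ≤ (n : ℝ) ^ 2 / b / 2 := by
        rw [div_div, div_div, div_le_div_iff₀ (by positivity) (by positivity)]
        nlinarith [mul_pos hb0 (by linarith : (0 : ℝ) < n)]
      have e2 : 2 ≤ ε * ((n : ℝ) ^ 2 / b) := by
        rw [← mul_div_assoc, le_div_iff₀ hb0]
        have : 8 * (b : ℝ) ≤ ε * (n : ℝ) ^ 2 := by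
          calc 8 * (b : ℝ) ≤ C * ε * b := mul_le_mul_of_nonneg_right hCε hb0.le
            _ = ε * (C * b) := by ring
            _ ≤ ε * (n : ℝ) ^ 2 := mul_le_mul_of_nonneg_left h2 hε.le
        linarith
      linarith
    have h8 : ((n : ℝ) - f n b) / ((n : ℝ) ^ 2 / b) ≤ 1 + ε := by
      rw [div_le_iff₀ hq]
      exact this
    linarith

end Pool.Agent.IG19
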