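import Pool.Agent.IG19.UOneDef

/-!
# IG19-PotPure: the weights of the heavy vertices in one round (real numbers only)

`mx` facts: `Finset.le_fold_max`, `Finset.fold_max_le`.

`pot_pure`: let `m = mx (Hs ∪ Hn) w' ≥ 0`.  For `v ∈ Hs`: `w' v ≤ m` and
`w v ≥ w' v * exp (-(y v)/b) ≥ w' v * (1 - y v / b)` (`Real.add_one_le_exp`), so
`w' v - w v ≤ w' v * y v / b ≤ m * y v / b`.  Summing over `Hs`: `∑_{Hs} w' ≤ ∑_{Hs} w + m` because
`∑ y ≤ b`.  Hence `∑_{Hs ∪ Hn} w' - m ≤ ∑_{Hs} w + |Hn| q`.  Finally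
`|Hf| ≤ exp 1 * ∑_{Hf} w` by `hf`.
-/

namespace Pool.Agent.IG19

open Finset

theorem le_mx {α : Type*} {H : Finset α} {g : α → ℝ} {v : α} (hv : v ∈ H) : g v ≤ mx H g := by
  unfold mx
  rw [Finset.le_fold_max]
  exact Or.inr ⟨v, hv, le_rfl⟩

theorem mx_nonneg {α : Type*} (H : Finset α) (g : α → ℝ) : 0 ≤ mx H g := by
  unfold mx
  rw [Finset.le_fold_max]
  exact Or.inl le_rfl

theorem mx_le {α : Type*} {H : Finset α} {g : α → ℝ} {c : ℝ} (hc : 0 ≤ c)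
    (h : ∀ v ∈ H, g v ≤ c) : mx H g ≤ c := by
  unfold mx
  rw [Finset.fold_max_le]
  exact ⟨hc, h⟩

theorem mx_empty {α : Type*} (g : α → ℝ) : mx (∅ : Finset α) g = 0 := by
  unfold mx
  exact Finset.fold_empty

theorem mx_le_sum {α : Type*} {H : Finset α} {g : α → ℝ} (h : ∀ v ∈ H, 0 ≤ g v) :
    mx H g ≤ ∑ v ∈ H, g v := by
  refine mx_le (Finset.sum_nonneg h) ?_
  intro v hv
  exact Finset.single_le_sum (f := g) (fun u hu => h u hu) hv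

theorem pot_pure {α : Type*} [DecidableEq α] {b : ℕ} (hb : 1 ≤ b) (Hs Hf Hn : Finset α)
    (hsf : Disjoint Hs Hf) (hsn : Disjoint Hs Hn) (w w' : α → ℝ) (y : α → ℕ)
    (hy : ∑ v ∈ Hs ∪ Hf, y v ≤ b) (hw0 : ∀ v, 0 ≤ w v) (hw0' : ∀ v, 0 ≤ w' v)
    (hw : ∀ v ∈ Hs, w' v ≤ w v * Real.exp ((y v : ℝ) / b))
    (hf : ∀ v ∈ Hf, 1 ≤ Real.exp 1 * w v) (q : ℝ) (hn : ∀ v ∈ Hn, w' v ≤ q) :
    (Hf.card : ℝ) + Real.exp 1 * (∑ v ∈ Hs ∪ Hn, w' v - mx (Hs ∪ Hn) w') ≤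
      Real.exp 1 * ∑ v ∈ Hs ∪ Hf, w v + (Hn.card : ℝ) * (Real.exp 1 * q) := by
  have hb0 : (0 : ℝ) < b := by exact_mod_cast (by omega : 0 < b)
  have hE : (0 : ℝ) < Real.exp 1 := Real.exp_pos 1
  set m : ℝ := mx (Hs ∪ Hn) w' with hm
  have hm0 : 0 ≤ m := mx_nonneg _ _
  have h1 : ∀ v ∈ Hs, w' v - w v ≤ m * ((y v : ℝ) / b) := by
    intro v hv
    have hvm : w' v ≤ m := le_mx (Finset.mem_union_left _ hv)
    have hy0 : 0 ≤ (y v : ℝ) / b := by positivity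
    have h2 : w' v * Real.exp (-((y v : ℝ) / b)) ≤ w v := by
      have h3 := mul_le_mul_of_nonneg_right (hw v hv) (Real.exp_pos (-((y v : ℝ) / b))).le
      rw [mul_assoc, ← Real.exp_add, add_neg_cancel, Real.exp_zero, mul_one] at h3
      exact h3
    have h4 : 1 - (y v : ℝ) / b ≤ Real.exp (-((y v : ℝ) / b)) := by
      have h5 := Real.add_one_le_exp (-((y v : ℝ) / b))
      linarith
    have h6 : w' v * (1 - (y v : ℝ) / b) ≤ w v :=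
      le_trans (mul_le_mul_of_nonneg_left h4 (hw0' v)) h2
    have h7 : w' v * ((y v : ℝ) / b) ≤ m * ((y v : ℝ) / b) :=
      mul_le_mul_of_nonneg_right hvm hy0
    nlinarith
  have h8 : ∑ v ∈ Hs, (w' v - w v) ≤ m := by
    calc ∑ v ∈ Hs, (w' v - w v) ≤ ∑ v ∈ Hs, m * ((y v : ℝ) / b) := Finset.sum_le_sum h1
      _ = m * ((∑ v ∈ Hs, (y v : ℝ)) / b) := by
          rw [← Finset.mul_sum, Finset.sum_div]
      _ ≤ m * 1 := by
          refine mul_le_mul_of_nonneg_left ?_ hm0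
          rw [div_le_one hb0]
          have h9 : ∑ v ∈ Hs, y v ≤ b :=
            le_trans (Finset.sum_le_sum_of_subset Finset.subset_union_left) hy
          exact_mod_cast h9
      _ = m := mul_one m
  rw [Finset.sum_sub_distrib] at h8
  have h10 : ∑ v ∈ Hs ∪ Hn, w' v = ∑ v ∈ Hs, w' v + ∑ v ∈ Hn, w' v := Finset.sum_union hsn
  have h11 : ∑ v ∈ Hs ∪ Hf, w v = ∑ v ∈ Hs, w v + ∑ v ∈ Hf, w v := Finset.sum_union hsf
  have h12 : ∑ v ∈ Hn, w' v ≤ (Hn.card : ℝ) * q := by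
    have h13 := Finset.sum_le_card_nsmul Hn w' q hn
    rwa [nsmul_eq_mul] at h13
  have h14 : (Hf.card : ℝ) ≤ Real.exp 1 * ∑ v ∈ Hf, w v := by
    rw [Finset.mul_sum]
    have h15 := Finset.card_nsmul_le_sum Hf (fun v => Real.exp 1 * w v) 1 hf
    simpa [nsmul_eq_mul] using h15
  rw [h10, h11]
  have h16 : Real.exp 1 * (∑ v ∈ Hs, w' v + ∑ v ∈ Hn, w' v - m) ≤
      Real.exp 1 * (∑ v ∈ Hs, w v + (Hn.card : ℝ) * q) := by
    refine mul_le_mul_of_nonneg_left ?_ hE.le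
    linarith
  linarith

end Pool.Agent.IG19
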