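import Pool.Agent.IG19.UOneDef

/-!
# IG19-UOneOwn: own edges of the heavy vertices

* `sum_own_le`: each edge `e ∈ X` is counted for at most one `v ∈ H`: if it is counted for `v` and `v'`
  then `ord v ≤ ord v'` and `ord v' ≤ ord v`, so `v = v'` by injectivity.  (The sets
  `X.filter (...)`, `v ∈ H`, are pairwise disjoint subsets of `X`: `Finset.card_biUnion`.)
* `own_step`: for `v` not on `e₀` the edges of `free A B` at `v` are those of
  `free (insert e₀ A) (B ∪ X)` and those of `X` (`free_insert`, `free_union`); an own edge of `v` in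
  `free (insert e₀ A) (B ∪ X)` with respect to `H` is an own edge with respect to `H'`: for `u ∈ H'` on it:
  if `u ∈ H` then `ord' v = ord v ≤ ord u = ord' u`, otherwise `ord' v ≤ ord' u` by `hnew`.
* `own_fin`: if all edges at `v` are claimed after the round then the own edges of `v` in `free A B` are
  all in `X` (as `v` is not on `e₀`).
* `own_new`: the edges of `free A B` at `v` that are not own edges of `v` contain some `u ∈ H`, `u ≠ v`
  (as `ord u < ord v`), and such an edge is `s(u, v)`: there are at most `H.card - 1` of them.  The number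
  of edges of `free A B` at `v` is `n - 1 - ld B v` (`freedeg_add_ld`).
-/

namespace Pool.Agent.IG19

open Finset

variable {n : ℕ} {A B X : Finset (Sym2 (Fin n))}

theorem sum_own_le (ord : Fin n → ℕ) (H : Finset (Fin n)) (hinj : Set.InjOn ord H)
    (X : Finset (Sym2 (Fin n))) : ∑ v ∈ H, own ord H X v ≤ X.card := by
  classical
  unfold own
  rw [← Finset.card_biUnion]
  · apply card_le_card
    intro e he
    rw [mem_biUnion] at he
    obtain ⟨v, _, he⟩ := he
    exact (mem_filter.1 he).1
  · intro v hv v' hv' hne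
    refine disjoint_left.2 ?_
    intro e he he'
    rw [mem_filter] at he he'
    exact hne (hinj hv hv' (le_antisymm (he.2.2 v' hv' he'.2.1) (he'.2.2 v hv he.2.1)))

private theorem free_step {e₀ : Sym2 (Fin n)} (he₀ : e₀ ∈ free A B) : free A B ⊆
    (free (insert e₀ A) (B ∪ X)) ∪ X ∪ {e₀} := by
  intro e he
  rw [free_union, free_insert he₀, mem_union, mem_union, mem_sdiff, mem_erase, mem_singleton]
  by_cases h1 : e = e₀
  · exact Or.inr h1
  · left
    by_cases h2 : e ∈ X
    · exact Or.inr h2
    · exact Or.inl ⟨⟨h1, he⟩, h2⟩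

theorem own_step {ord ord' : Fin n → ℕ} {H H' : Finset (Fin n)} {e₀ : Sym2 (Fin n)}
    (he₀ : e₀ ∈ free A B) (hX : X ⊆ free (insert e₀ A) B)
    (hord : ∀ v ∈ H, ord' v = ord v) (hnew : ∀ v ∈ H, ∀ u ∈ H', u ∉ H → ord' v ≤ ord' u)
    {v : Fin n} (hv : v ∈ H) (hve : v ∉ e₀) :
    own ord H (free A B) v ≤
      own ord' H' (free (insert e₀ A) (B ∪ X)) v + own ord H X v := by
  have _ := hX
  unfold own
  refine le_trans (card_le_card ?_) (card_union_le _ _)
  intro e he
  rw [mem_filter] at he
  have h := free_step (X := X) he₀ he.1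
  rw [mem_union, mem_union, mem_singleton] at h
  rw [mem_union, mem_filter, mem_filter]
  rcases h with (h | h) | h
  · left
    refine ⟨h, he.2.1, ?_⟩
    intro u hu hue
    by_cases huH : u ∈ H
    · rw [hord v hv, hord u huH]
      exact he.2.2 u huH hue
    · exact hnew v hv u hu huH
  · exact Or.inr ⟨h, he.2⟩
  · exact absurd (h ▸ he.2.1) hve

theorem own_fin {ord : Fin n → ℕ} {H : Finset (Fin n)} {e₀ : Sym2 (Fin n)}
    (he₀ : e₀ ∈ free A B) (hX : X ⊆ free (insert e₀ A) B)
    {v : Fin n} (hve : v ∉ e₀) (hfin : ∀ e ∈ free (insert e₀ A) (B ∪ X), v ∉ e) :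
    own ord H (free A B) v ≤ own ord H X v := by
  have _ := hX
  unfold own
  apply card_le_card
  intro e he
  rw [mem_filter] at he
  have h := free_step (X := X) he₀ he.1
  rw [mem_union, mem_union, mem_singleton] at h
  rw [mem_filter]
  rcases h with (h | h) | h
  · exact absurd he.2.1 (hfin e h)
  · exact ⟨h, he.2⟩
  · exact absurd (h ▸ he.2.1) hve

theorem own_new {ord : Fin n → ℕ} {H : Finset (Fin n)} (hV : Valid A B) {v : Fin n}
    (hv : v ∈ H) (hvU : v ∈ U A) :
    n ≤ own ord H (free A B) v + ld B v + H.card := by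
  have h1 := freedeg_add_ld hV hvU
  have h2 : ((free A B).filter (fun e => v ∈ e)).card ≤
      own ord H (free A B) v + (H.erase v).card := by
    unfold own
    have h3 : (free A B).filter (fun e => v ∈ e) ⊆
        (free A B).filter (fun e => v ∈ e ∧ ∀ u ∈ H, u ∈ e → ord v ≤ ord u) ∪
          (H.erase v).image (fun u => s(v, u)) := by
      intro e he
      rw [mem_filter] at he
      rw [mem_union, mem_filter, mem_image]
      by_cases hall : ∀ u ∈ H, u ∈ e → ord v ≤ ord u
      · exact Or.inl ⟨he.1, he.2, hall⟩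
      · right
        push Not at hall
        obtain ⟨u, hu, hue, hlt⟩ := hall
        have huv : u ≠ v := by
          rintro rfl
          exact lt_irrefl _ hlt
        refine ⟨u, mem_erase.2 ⟨huv, hu⟩, ?_⟩
        exact ((Sym2.mem_and_mem_iff huv.symm).1 ⟨he.2, hue⟩).symm
    refine (card_le_card h3).trans ((card_union_le _ _).trans ?_)
    exact Nat.add_le_add_left card_image_le _
  rw [card_erase_of_mem hv] at h2
  have h4 : 0 < H.card := card_pos.2 ⟨v, hv⟩
  omega

theorem own_le_of_subset {ord : Fin n → ℕ} {H : Finset (Fin n)} {Y Y' : Finset (Sym2 (Fin n))}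
    (h : Y ⊆ Y') (v : Fin n) : own ord H Y v ≤ own ord H Y' v := by
  unfold own
  exact card_le_card (filter_subset_filter _ h)

end Pool.Agent.IG19
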