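import Pool.Agent.IG19.PotPure
import Pool.Agent.IG19.Budget
import Pool.Agent.IG19.UOneOwn

/-!
# IG19-PotStep: the potential does not increase

Write `A' = insert e A`, `B' = B ∪ X`, `H = Hv c A B`, `H' = Hv c A' B'`, `w v = wt b ord H (free A B) v`.

If `Unf A B = ∅` then `Unf A' B' = ∅` (`unf_step`), all sums are empty, and `Fsh A' B'` has as many elements
as `Fsh A B` (`fsh_card`): both potentials are equal.

Otherwise let `u` be as in `hu`.
`ord' v = ord v` for `v ∈ H` and `ord' v = (sup of ord on H) + 1 + v` for `v ∉ H`: injective on `H'`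
(on `H` by hypothesis; the values on the two parts are disjoint), `ord' v ≤ ord' u'` for `v ∈ H`, `u' ∉ H`.
`w' v = wt b ord' H' (free A' B') v`, `y v = own ord H X v`, `Hs = H' ∩ H`, `Hf = Fsh A' B' ∩ H`,
`Hn = H' \ H`.  Vertices of `Hs ∪ Hf` are not on `e`, and `Hs ∪ Hf ⊆ H`.
* `∑_{Hs ∪ Hf} y ≤ ∑_H y ≤ |X| ≤ b` (`sum_own_le`).
* `v ∈ Hs`: `own ord H (free A B) v ≤ own ord' H' (free A' B') v + y v` (`own_step`), so
  `w' v ≤ w v exp (y v/b)`.
* `v ∈ Hf`: no free edge at `v` remains (`not_mem_of_ld_eq`), so `own ord H (free A B) v ≤ y v ≤ b`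
  (`own_fin`) and `exp 1 * w v ≥ 1`.
* `v ∈ Hn`: `v ∈ Unf A B` (`unf_step`) and `ld B v < c`, so `ld B' v ≤ ld B v + |X| < c + b`; with
  `own_new` (for `H'`, `A'`, `B'`) and `|H'| ≤ b`: `own ord' H' (free A' B') v ≥ n - c - 2 b`, so
  `w' v ≤ exp (-(n - c - 2b)/b) ≤ exp 2 * exp (-((n-1) - c)/b) =: q` and `exp 1 * q = price n b c`.
So `pot_pure` gives
`|Hf| + exp 1 (∑_{H'} w' - mx H' w') ≤ exp 1 ∑_{Hs ∪ Hf} w + |Hn| price`.
If `H = ∅` the sum on the right is empty and `mx H w = 0`; otherwise `u ∈ H` is on `e`, so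
`Hs ∪ Hf ⊆ H.erase u` and `mx H w ≤ w u`, so `∑_{Hs ∪ Hf} w ≤ ∑_H w - mx H w`.
If `Ff = Fsh A' B' ∩ Lg c A B` is nonempty, then `n - 1 = ld B' v ≤ ld B v + b < c + b`, so
`price ≥ exp 3 exp (-1) ≥ 1`; hence `|Ff| ≤ |Ff| price` in any case.
Add up, using `fsh_card` and `budget` multiplied by `price/c`
(`price/c * (c * (|Hn| + |Ff|)) = price (|Hn| + |Ff|)`).
-/

namespace Pool.Agent.IG19

open Finset

variable {n b : ℕ} {A B X : Finset (Sym2 (Fin n))}

private theorem mem_Hv {c : ℝ} {v : Fin n} :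
    v ∈ Hv c A B ↔ v ∈ Unf A B ∧ c ≤ (ld B v : ℝ) := by
  simp [Hv]

private theorem mem_Lg {c : ℝ} {v : Fin n} :
    v ∈ Lg c A B ↔ v ∈ Unf A B ∧ ¬ c ≤ (ld B v : ℝ) := by
  simp [Lg]

private theorem mem_Unf {v : Fin n} : v ∈ Unf A B ↔ v ∈ U A ∧ ld B v ≠ n - 1 := by
  simp [Unf]

private theorem mem_Fsh {v : Fin n} : v ∈ Fsh A B ↔ v ∈ U A ∧ ld B v = n - 1 := by
  simp [Fsh]

private theorem price_pos (n b : ℕ) (c : ℝ) : 0 < price n b c := by
  unfold price
  positivity

private theorem wt_nonneg (b : ℕ) (ord : Fin n → ℕ) (H : Finset (Fin n))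
    (Fr : Finset (Sym2 (Fin n))) (v : Fin n) : 0 ≤ wt b ord H Fr v := (Real.exp_pos _).le

private theorem pot_step_empty {c : ℝ} {ord : Fin n → ℕ} {e : Sym2 (Fin n)}
    (hV : Valid A B) (he : e ∈ free A B) (hX : X ⊆ free (insert e A) B)
    (hu : Unf A B = ∅) :
    Hv c (insert e A) (B ∪ X) = ∅ ∧ Pot b c ord (insert e A) (B ∪ X) = Pot b c ord A B := by
  have hU' : Unf (insert e A) (B ∪ X) = ∅ := by
    rw [Finset.eq_empty_iff_forall_notMem]
    intro v hv
    have := (unf_step hV he hX hv).1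
    rw [hu] at this
    simp at this
  have h1 : Hv c (insert e A) (B ∪ X) = ∅ := by
    rw [Finset.eq_empty_iff_forall_notMem]
    intro v hv
    have := (mem_Hv.1 hv).1
    rw [hU'] at this
    simp at this
  have h2 : Lg c (insert e A) (B ∪ X) = ∅ := by
    rw [Finset.eq_empty_iff_forall_notMem]
    intro v hv
    have := (mem_Lg.1 hv).1
    rw [hU'] at this
    simp at this
  have h3 : Hv c A B = ∅ := by
    rw [Finset.eq_empty_iff_forall_notMem]
    intro v hv
    have := (mem_Hv.1 hv).1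
    rw [hu] at this
    simp at this
  have h4 : Lg c A B = ∅ := by
    rw [Finset.eq_empty_iff_forall_notMem]
    intro v hv
    have := (mem_Lg.1 hv).1
    rw [hu] at this
    simp at this
  refine ⟨h1, ?_⟩
  have h5 := fsh_card c hV he hX
  rw [h3, h4] at h5
  simp only [Finset.inter_empty, Finset.card_empty, add_zero] at h5
  unfold Pot
  rw [h1, h2, h3, h4, hU', hu, h5]
  simp [mx_empty]

theorem pot_step {c : ℝ} (hb : 1 ≤ b) (hc : 0 < c) (hcn : c ≤ (n : ℝ) - 1)
    {ord : Fin n → ℕ} (hord : Set.InjOn ord (Hv c A B)) {e : Sym2 (Fin n)}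
    (hV : Valid A B) (he : e ∈ free A B) (hX : X ⊆ free (insert e A) B) (hXc : X.card ≤ b)
    (hH' : (Hv c (insert e A) (B ∪ X)).card ≤ b)
    (hu : Unf A B = ∅ ∨ ∃ u ∈ Unf A B, u ∈ e ∧ (Hv c A B = ∅ ∨ (u ∈ Hv c A B ∧
      ∀ v ∈ Hv c A B, wt b ord (Hv c A B) (free A B) v ≤ wt b ord (Hv c A B) (free A B) u))) :
    ∃ ord' : Fin n → ℕ, Set.InjOn ord' (Hv c (insert e A) (B ∪ X)) ∧
      Pot b c ord' (insert e A) (B ∪ X) ≤ Pot b c ord A B := by
  classical
  rcases hu with hu | ⟨u, huU, hue, huH⟩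
  · obtain ⟨h1, h2⟩ := pot_step_empty (b := b) (c := c) (ord := ord) hV he hX hu
    refine ⟨ord, ?_, h2.le⟩
    rw [h1]
    simp
  have hV1 : Valid (insert e A) B := hV.insertA he
  have hV2 : Valid (insert e A) (B ∪ X) := hV1.unionB hX
  have hb0 : (0 : ℝ) < b := by exact_mod_cast hb
  set A' := insert e A with hA'
  set B' := B ∪ X with hB'
  set H := Hv c A B with hH
  set H1 := Hv c A' B' with hH1
  set w : Fin n → ℝ := fun v => wt b ord H (free A B) v with hw
  -- the new order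
  set ord' : Fin n → ℕ := fun v => if v ∈ H then ord v else H.sup ord + 1 + (v : ℕ) with hord'
  have ord'_H : ∀ v ∈ H, ord' v = ord v := by
    intro v hv
    simp [hord', hv]
  have ord'_nH : ∀ v, v ∉ H → ord' v = H.sup ord + 1 + (v : ℕ) := by
    intro v hv
    simp [hord', hv]
  have hlt : ∀ v ∈ H, ∀ v' ∉ H, ord' v < ord' v' := by
    intro v hv v' hv'
    rw [ord'_H v hv, ord'_nH v' hv']
    have := Finset.le_sup (f := ord) hv
    omega
  have hinj : Set.InjOn ord' H1 := by
    intro v _ v' _ hvv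
    by_cases h1 : v ∈ H
    · by_cases h2 : v' ∈ H
      · rw [ord'_H v h1, ord'_H v' h2] at hvv
        exact hord h1 h2 hvv
      · exact absurd hvv (hlt v h1 v' h2).ne
    · by_cases h2 : v' ∈ H
      · exact absurd hvv (hlt v' h2 v h1).ne'
      · rw [ord'_nH v h1, ord'_nH v' h2] at hvv
        exact Fin.ext (by omega)
  refine ⟨ord', hinj, ?_⟩
  set w' : Fin n → ℝ := fun v => wt b ord' H1 (free A' B') v with hw'
  set y : Fin n → ℕ := fun v => own ord H X v with hy
  set Hs := H1 ∩ H with hHs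
  set Hf := Fsh A' B' ∩ H with hHf
  set Hn := H1 \ H with hHn
  set Ff := Fsh A' B' ∩ Lg c A B with hFf
  have hunion : Hs ∪ Hn = H1 := by
    ext v
    simp only [hHs, hHn, Finset.mem_union, Finset.mem_inter, Finset.mem_sdiff]
    tauto
  have hsf : Disjoint Hs Hf := by
    rw [Finset.disjoint_left]
    intro v hv hv'
    have h1 := (mem_Unf.1 (mem_Hv.1 (Finset.mem_inter.1 hv).1).1).2
    have h2 := (mem_Fsh.1 (Finset.mem_inter.1 hv').1).2
    exact h1 h2
  have hsn : Disjoint Hs Hn := by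
    rw [Finset.disjoint_left]
    intro v hv hv'
    exact (Finset.mem_sdiff.1 hv').2 (Finset.mem_inter.1 hv).2
  have hsub : ∀ v ∈ Hs ∪ Hf, v ∈ H ∧ v ∉ e := by
    intro v hv
    rcases Finset.mem_union.1 hv with h | h
    · have h1 := Finset.mem_inter.1 h
      exact ⟨h1.2, (unf_step hV he hX (mem_Hv.1 h1.1).1).2⟩
    · have h1 := Finset.mem_inter.1 h
      exact ⟨h1.2, (mem_U_insert.1 (mem_Fsh.1 h1.1).1).1⟩
  have hsumy : ∑ v ∈ Hs ∪ Hf, y v ≤ b := by
    refine le_trans ?_ ((sum_own_le ord H hord X).trans hXc)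
    exact Finset.sum_le_sum_of_subset (fun v hv => (hsub v hv).1)
  have hyb : ∀ v ∈ Hs ∪ Hf, y v ≤ b := fun v hv =>
    (Finset.single_le_sum (f := y) (fun _ _ => Nat.zero_le _) hv).trans hsumy
  have hwle : ∀ v ∈ Hs, w' v ≤ w v * Real.exp ((y v : ℝ) / b) := by
    intro v hv
    have h1 := hsub v (Finset.mem_union_left _ hv)
    have h2 := own_step (ord := ord) (ord' := ord') (H := H) (H' := H1) he hX ord'_H
      (fun v hv u _ hu => (hlt v hv u hu).le) h1.1 h1.2
    simp only [hw', hw, hy, wt]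
    rw [← Real.exp_add]
    apply Real.exp_le_exp.2
    have h3 : (own ord H (free A B) v : ℝ) ≤ own ord' H1 (free A' B') v + own ord H X v := by
      exact_mod_cast h2
    rw [← add_div]
    apply div_le_div_of_nonneg_right _ hb0.le
    linarith
  have hfle : ∀ v ∈ Hf, 1 ≤ Real.exp 1 * w v := by
    intro v hv
    have h1 := hsub v (Finset.mem_union_right _ hv)
    have hfin : ∀ e' ∈ free A' B', v ∉ e' := fun e' he' =>
      not_mem_of_ld_eq hV2 he' (mem_Fsh.1 (Finset.mem_inter.1 hv).1).2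
    have h2 := own_fin (ord := ord) (H := H) he hX h1.2 hfin
    have h3 : own ord H (free A B) v ≤ b := h2.trans (hyb v (Finset.mem_union_right _ hv))
    have h4 : (own ord H (free A B) v : ℝ) / b ≤ 1 := by
      rw [div_le_one hb0]
      exact_mod_cast h3
    simp only [hw, wt]
    rw [← Real.exp_add]
    apply Real.one_le_exp
    rw [neg_div]
    linarith
  set q : ℝ := Real.exp 2 * Real.exp (-(((n : ℝ) - 1) - c) / b) with hq
  have hqp : Real.exp 1 * q = price n b c := by
    rw [hq, price, ← mul_assoc, ← Real.exp_add]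
    norm_num
  have hnle : ∀ v ∈ Hn, w' v ≤ q := by
    intro v hv
    obtain ⟨hv1, hv2⟩ := Finset.mem_sdiff.1 hv
    have h1 := mem_Hv.1 hv1
    have h2 := unf_step hV he hX h1.1
    have h3 : (ld B v : ℝ) < c := by
      by_contra hcon
      exact hv2 (mem_Hv.2 ⟨h2.1, not_lt.1 hcon⟩)
    have h4 : ld B' v ≤ ld B v + b :=
      (ld_union_le v).trans (Nat.add_le_add_left ((ld_le_card v).trans hXc) _)
    have h5 := own_new (ord := ord') (H := H1) hV2 hv1 (mem_Unf.1 h1.1).1
    have h6 : (n : ℝ) ≤ own ord' H1 (free A' B') v + ld B' v + H1.card := by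
      exact_mod_cast h5
    have h7 : (ld B' v : ℝ) ≤ ld B v + b := by exact_mod_cast h4
    have h8 : (H1.card : ℝ) ≤ b := by exact_mod_cast hH'
    simp only [hw', wt, hq]
    rw [← Real.exp_add]
    apply Real.exp_le_exp.2
    have h9 : (2 : ℝ) = 2 * b / b := by field_simp
    rw [h9, ← add_div]
    apply div_le_div_of_nonneg_right _ hb0.le
    linarith
  have hpure := pot_pure hb Hs Hf Hn hsf hsn w w' y hsumy
    (fun v => wt_nonneg _ _ _ _ _) (fun v => wt_nonneg _ _ _ _ _) hwle hfle q hnle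
  rw [hunion, hqp] at hpure
  -- the sum over the surviving and finished heavy vertices
  have hsumw : ∑ v ∈ Hs ∪ Hf, w v ≤ ∑ v ∈ H, w v - mx H w := by
    rcases huH with hemp | ⟨huH, humax⟩
    · have : Hs ∪ Hf = ∅ := by
        rw [Finset.eq_empty_iff_forall_notMem]
        intro v hv
        have := (hsub v hv).1
        rw [hemp] at this
        simp at this
      rw [this, hemp]
      simp [mx_empty]
    · have h1 : Hs ∪ Hf ⊆ H.erase u := by
        intro v hv
        rw [Finset.mem_erase]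
        refine ⟨?_, (hsub v hv).1⟩
        rintro rfl
        exact (hsub v hv).2 hue
      have h2 : ∑ v ∈ Hs ∪ Hf, w v ≤ ∑ v ∈ H.erase u, w v :=
        Finset.sum_le_sum_of_subset_of_nonneg h1 (fun v _ _ => wt_nonneg _ _ _ _ _)
      have h3 : mx H w ≤ w u := mx_le (wt_nonneg _ _ _ _ _) (fun v hv => humax v hv)
      have h4 := Finset.sum_erase_add H w huH
      linarith
  have hbud := budget (b := b) hc.le hcn hV he hX hXc ⟨u, huU, hue⟩
  have hcard := fsh_card c hV he hX
  have hFprice : (Ff.card : ℝ) ≤ (Ff.card : ℝ) * price n b c := by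
    rcases Finset.eq_empty_or_nonempty Ff with hF | ⟨v, hv⟩
    · rw [hF]
      simp
    · have h1 := Finset.mem_inter.1 hv
      have h2 := (mem_Fsh.1 h1.1).2
      have h3 := (mem_Lg.1 h1.2).2
      have h4 : ld B' v ≤ ld B v + b :=
        (ld_union_le v).trans (Nat.add_le_add_left ((ld_le_card v).trans hXc) _)
      have h5 : (n : ℝ) - 1 ≤ ld B v + b := by
        have h6 : n ≤ ld B' v + 1 := by omega
        have h7 : n ≤ ld B v + b + 1 := by omega
        have : (n : ℝ) ≤ ld B v + b + 1 := by exact_mod_cast h7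
        linarith
      have h8 : 1 ≤ price n b c := by
        rw [price, ← Real.exp_add]
        apply Real.one_le_exp
        have h9 : -1 ≤ -(((n : ℝ) - 1) - c) / b := by
          rw [le_div_iff₀ hb0]
          push Not at h3
          linarith
        linarith
      have : (0 : ℝ) ≤ Ff.card := by positivity
      nlinarith
  have hpc : 0 ≤ price n b c / c := by
    have := price_pos n b c
    positivity
  have hmul := mul_le_mul_of_nonneg_left hbud hpc
  have hexp : price n b c / c *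
      (∑ v ∈ Lg c A' B', (ld B' v : ℝ) + 2 * b * ((Unf A' B').card : ℝ) +
        c * (((H1 \ H).card : ℝ) + ((Fsh A' B' ∩ Lg c A B).card : ℝ))) =
      price n b c / c * (∑ v ∈ Lg c A' B', (ld B' v : ℝ) + 2 * b * ((Unf A' B').card : ℝ)) +
        price n b c * ((Hn.card : ℝ) + (Ff.card : ℝ)) := by
    rw [← hHn, ← hFf]
    field_simp
  have hmul' : price n b c / c *
        (∑ v ∈ Lg c A' B', (ld B' v : ℝ) + 2 * b * ((Unf A' B').card : ℝ)) +
        price n b c * ((Hn.card : ℝ) + (Ff.card : ℝ)) ≤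
      price n b c / c * (∑ v ∈ Lg c A B, (ld B v : ℝ) + 2 * b * ((Unf A B).card : ℝ)) := by
    rw [← hexp]
    exact hmul
  have hcard' : ((Fsh A' B').card : ℝ) = (Fsh A B).card + Hf.card + Ff.card := by
    exact_mod_cast hcard
  have he1 : 0 < Real.exp 1 := Real.exp_pos 1
  have hmulw := mul_le_mul_of_nonneg_left hsumw he1.le
  unfold Pot
  rw [← hH, ← hH1]
  change ((Fsh A' B').card : ℝ) + Real.exp 1 * (∑ v ∈ H1, w' v - mx H1 w') + _ ≤
    ((Fsh A B).card : ℝ) + Real.exp 1 * (∑ v ∈ H, w v - mx H w) + _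
  rw [hcard']
  linarith

end Pool.Agent.IG19
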