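import Pool.Agent.IG19.GameA
import Pool.Agent.IG19.GameB

/-!
# IG19-SupLow: lower bound for the value, large bias

`S` plays arbitrarily: the game lasts `r = ⌈C(n,2)/(b+1)⌉` rounds and in each round `F` touches at most two
new vertices.

`guar_count`: strong induction on `(free A B).card`: if `(free A B).card ≤ r * (b + 1)` and
`k + 2 * r ≤ (U A).card` then `Guar n b k true A B`.  If no edge is free: `over`.  Otherwise `r ≥ 1` and for
each free `e`, `(U (insert e A)).card + 2 ≥ (U A).card` (`card_U_insert`); if `free (insert e A) B = ∅` use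
`over`; otherwise `S` claims any set `X` of `min b _` free edges; then
`(free (insert e A) (B ∪ X)).card = (free A B).card - 1 - X.card` is either `0` or
`(free A B).card - (b + 1) ≤ (r - 1) * (b + 1)`; use the induction hypothesis with `r - 1`.

`sup_low`: take `r = ⌈C(n,2)/(b+1)⌉₊`, `k = n - 2 r` (if `2 r ≤ n`, else the claim is trivial), `card_edges`,
`free ∅ ∅ = edges n`, `U ∅ = univ`.
-/

namespace Pool.Agent.IG19

open Finset

variable {n : ℕ} {b k : ℕ} {A B X : Finset (Sym2 (Fin n))}

theorem guar_count {r : ℕ} (h : Valid A B) (h1 : (free A B).card ≤ r * (b + 1))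
    (h2 : k + 2 * r ≤ (U A).card) : Guar n b k true A B := by
  have key : ∀ (m r : ℕ) (A B : Finset (Sym2 (Fin n))), Valid A B → (free A B).card ≤ m →
      (free A B).card ≤ r * (b + 1) → k + 2 * r ≤ (U A).card → Guar n b k true A B := by
    intro m
    induction m with
    | zero =>
      intro r A B _ hm _ h2
      exact Guar.over (card_eq_zero.1 (Nat.le_zero.1 hm)) (by omega)
    | succ m ih =>
      intro r A B hV hm h1 h2
      by_cases h0 : free A B = ∅
      · exact Guar.over h0 (by omega)
      refine Guar.moveF h0 fun e he => ?_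
      have hc : 0 < (free A B).card := card_pos.2 (nonempty_iff_ne_empty.2 h0)
      obtain ⟨r', rfl⟩ : ∃ r', r = r' + 1 := by
        rcases r with _ | r'
        · rw [zero_mul] at h1
          omega
        · exact ⟨r', rfl⟩
      have hU : (U A).card ≤ (U (insert e A)).card + 2 := card_U_insert
      have hV' := hV.insertA he
      have hfree := card_free_insert he
      by_cases h3 : free (insert e A) B = ∅
      · exact Guar.over h3 (by omega)
      obtain ⟨X, hX, hXc⟩ := exists_subset_card_eq
        (Nat.min_le_right b (free (insert e A) B).card)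
      refine Guar.moveS X h3 hX hXc ?_
      have h4 := card_free_union hX
      have h5 : (r' + 1) * (b + 1) = r' * (b + 1) + (b + 1) := by ring
      rw [h5] at h1
      refine ih r' _ _ (hV'.unionB hX) ?_ ?_ (by omega)
      · rcases Nat.le_total b (free (insert e A) B).card with h6 | h6
        · rw [min_eq_left h6] at hXc
          omega
        · rw [min_eq_right h6] at hXc
          omega
      · rcases Nat.le_total b (free (insert e A) B).card with h6 | h6
        · rw [min_eq_left h6] at hXc
          omega
        · rw [min_eq_right h6] at hXc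
          omega
  exact key _ r A B h le_rfl h1 h2

theorem sup_low (n b : ℕ) :
    (n : ℤ) - 2 * ⌈(n.choose 2 : ℚ) / (b + 1)⌉ ≤ (f n b : ℤ) := by
  have hb : (0 : ℚ) < (b : ℚ) + 1 := by positivity
  have h0 : (0 : ℚ) ≤ (n.choose 2 : ℚ) / (b + 1) := by positivity
  obtain ⟨r, hr⟩ : ∃ r, r = ⌈(n.choose 2 : ℚ) / (b + 1)⌉₊ := ⟨_, rfl⟩
  have h1 : ⌈(n.choose 2 : ℚ) / (b + 1)⌉ = (r : ℤ) := by
    rw [hr]
    exact (Int.natCast_ceil_eq_ceil h0).symm
  rw [h1]
  by_cases h2 : 2 * r ≤ n
  · have h3 : (n.choose 2 : ℚ) ≤ (r : ℚ) * (b + 1) := by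
      rw [← div_le_iff₀ hb, hr]
      exact Nat.le_ceil _
    have h4 : n.choose 2 ≤ r * (b + 1) := by exact_mod_cast h3
    have h5 : free (∅ : Finset (Sym2 (Fin n))) ∅ = edges n := by simp [free]
    have h6 : n - 2 * r ≤ f n b := by
      refine le_f (guar_count (r := r) valid_empty ?_ ?_)
      · rw [h5, card_edges]
        exact h4
      · rw [U_empty, card_univ, Fintype.card_fin]
        omega
    omega
  · omega

end Pool.Agent.IG19
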