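import Pool.Agent.IG19.UOneDef
import Pool.Agent.IG19.Core

/-!
# IG19-UOneLin: the linear invariant for the unfinished vertices

* `unf_step`: a vertex of `Unf (insert e A) (B ∪ X)` is in `U A`, not on `e`, and its load in `B` is not
  `n - 1` (else its load in `B ∪ X ⊆ edges n` would be `n - 1` too: `ld_mono`, `ld_le`).
* `lin_step`: `core` with `S = Unf A B` (closed under free untouched neighbours by `not_mem_of_ld_eq`), and
  `∑_J ld (B ∪ X) ≤ ∑_J ld B + 2 |X|` (`ld_union_le`, `sum_ld_le`), `|X| ≤ b`.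
* `heavy_card`: if there were `b + 1` heavy vertices, let `J` be a set of `b + 1` of them
  (`Finset.exists_subset_card_eq`): `(b+1) β(b) ≤ ∑_J ld B ≤ (b+1) β(b+1)`, contradicting `strict`.
-/

namespace Pool.Agent.IG19

open Finset

variable {n b : ℕ} {A B X : Finset (Sym2 (Fin n))}

theorem unf_step {e : Sym2 (Fin n)} (hV : Valid A B) (he : e ∈ free A B)
    (hX : X ⊆ free (insert e A) B) {v : Fin n} (hv : v ∈ Unf (insert e A) (B ∪ X)) :
    v ∈ Unf A B ∧ v ∉ e := by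
  unfold Unf at hv ⊢
  rw [mem_filter] at hv
  obtain ⟨h1, h2⟩ := hv
  obtain ⟨h3, h4⟩ := mem_U_insert.1 h1
  refine ⟨mem_filter.2 ⟨h4, ?_⟩, h3⟩
  intro h5
  apply h2
  have hV' : Valid (insert e A) (B ∪ X) := (hV.insertA he).unionB hX
  have h6 : ld (B ∪ X) v ≤ n - 1 := ld_le hV'.hB v
  have h7 : ld B v ≤ ld (B ∪ X) v := ld_mono subset_union_left v
  omega

theorem lin_step {β : ℕ → ℝ} {N : ℕ} (hb : 1 ≤ b) (hβ : BetaProp n b β N) (hV : Valid A B)
    (hlin : Lin b β A B) {u : Fin n} (hu : u ∈ Unf A B)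
    (hmax : (∀ w ∈ Unf A B, ld B w ≤ ld B u) ∨ β b ≤ (ld B u : ℝ))
    {e : Sym2 (Fin n)} (hg : Good A B u e) (hX : X ⊆ free (insert e A) B) (hXc : X.card ≤ b) :
    Lin b β (insert e A) (B ∪ X) := by
  intro J hJ hJb
  have he : e ∈ free A B := hg.1
  have hSU : Unf A B ⊆ U A := by
    unfold Unf
    exact filter_subset _ _
  have hSf : ∀ u ∈ Unf A B, ∀ v ∈ U A, s(u, v) ∈ free A B → v ∈ Unf A B := by
    intro x _ v hv hxv
    unfold Unf
    refine mem_filter.2 ⟨hv, ?_⟩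
    intro hl
    exact not_mem_of_ld_eq hV hxv hl (Sym2.mem_mk_right x v)
  have hJS : J ⊆ Unf A B := fun v hv => (unf_step hV he hX (hJ hv)).1
  have hJe : ∀ v ∈ J, v ∉ e := fun v hv => (unf_step hV he hX (hJ hv)).2
  have hc := core hb hβ hV hSU hSf hlin hu hmax hg hJS hJe hJb
  have h1 : ∑ v ∈ J, ld (B ∪ X) v ≤ ∑ v ∈ J, ld B v + 2 * X.card := by
    calc ∑ v ∈ J, ld (B ∪ X) v ≤ ∑ v ∈ J, (ld B v + ld X v) :=
          sum_le_sum (fun v _ => ld_union_le v)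
      _ = ∑ v ∈ J, ld B v + ∑ v ∈ J, ld X v := sum_add_distrib
      _ ≤ ∑ v ∈ J, ld B v + 2 * X.card := Nat.add_le_add_left (sum_ld_le J) _
  have h2 : ((∑ v ∈ J, ld (B ∪ X) v : ℕ) : ℝ) ≤ ((∑ v ∈ J, ld B v + 2 * X.card : ℕ) : ℝ) :=
    Nat.cast_le.2 h1
  push_cast at h2
  have h3 : (X.card : ℝ) ≤ b := Nat.cast_le.2 hXc
  linarith

theorem heavy_card {β : ℕ → ℝ} {N : ℕ} (hβ : BetaProp n b β N) (hlin : Lin b β A B) :
    (Hv (β b) A B).card ≤ b := by
  by_contra hcon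
  have hlt : b + 1 ≤ (Hv (β b) A B).card := by omega
  obtain ⟨J, hJ, hJc⟩ := exists_subset_card_eq hlt
  have hJU : J ⊆ Unf A B := by
    intro v hv
    have := hJ hv
    unfold Hv at this
    exact (mem_filter.1 this).1
  have hJl : ∀ v ∈ J, β b ≤ (ld B v : ℝ) := by
    intro v hv
    have := hJ hv
    unfold Hv at this
    exact (mem_filter.1 this).2
  have h1 := hlin J hJU (by omega)
  have h2 : (J.card : ℝ) * β b ≤ ∑ v ∈ J, (ld B v : ℝ) := by
    have := card_nsmul_le_sum J (fun v => (ld B v : ℝ)) (β b) hJl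
    simpa [nsmul_eq_mul] using this
  rw [hJc] at h1 h2
  have h3 : (0 : ℝ) < ((b + 1 : ℕ) : ℝ) := by positivity
  have h4 : ((b + 1 : ℕ) : ℝ) * β b ≤ ((b + 1 : ℕ) : ℝ) * β (b + 1) := h2.trans h1
  have h5 := le_of_mul_le_mul_left h4 h3
  have := hβ.strict
  linarith

end Pool.Agent.IG19
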