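import Pool.Agent.IG19.ThreeDef
import Pool.Agent.IG19.UOneLin

/-!
# IG19-ThreeA: the rank potential, one level, one round

`PA_good`.  Write `h = ph α b j`, `A' = insert e A`, `B' = B ∪ X`, `c = cnt A B j`.
* Each edge of `X` raises the load of at most two vertices, so at most `2 b` vertices pass from load `< j` to
  load `≥ j` (`∑ ld X v ≤ 2 |X|`, `sum_ld_le`, over the vertices of `Unf A' B' ⊆ Unf A B`):
  `cnt A' B' j ≤ c + 2 b`, so `c ≥ R - 3 b ≥ 29 b > b` and `j ≤ ld B u` by `hK2`.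
* The decrease by the move of `F` is at least `2 h`: `u` is removed, its term is at least `h`
  (`min (ph (ld u)) h = h`, as `ph` is monotone).  By `Good` either `e = s(u,v)` with `v ∈ U A` of maximal load
  among the free neighbours of `u` in `U A`, and `v ∈ Unf A B` (`not_mem_of_ld_eq`); if `j ≤ ld B v` then the
  term of `v`, which is removed too (`v ∈ e`, so `v ∉ U A'`), is at least `h`.  In the other cases
  (`ld B v < j` or no free neighbour in `U A`) every `w ∈ Unf A B`, `w ≠ u`, with `j ≤ ld B w` has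
  `s(u,w) ∈ B` (`free_or_B`), so `ld B u ≥ c - 1 ≥ R - 3b - 1` (`nbr_card_le`), and the linear part of the
  term of `u` is at least `h (4/R)(R - 3b - 1 - R/4) = h (3 - 12 b/R - 4/R) ≥ h` (as `R ≥ 32 b`).
* The vertices `v` of `Unf A' B'` are in `Unf A B`, not on `e` (`unf_step`), `ld B' v ≤ ld B v + ld X v`
  (`ld_union_le`), `psi` is monotone in the load, and
  `psi (l + x) - psi l ≤ h α x/b + h (4/R) x`:
  `min (p exp t) h - min p h ≤ h t` for `t = α x/b ≥ 0`, `p, h > 0`
  (if `p ≥ h` it is `0`; if `p < h` then `min (p exp t) h - p ≤ h - p` and, as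
  `min (p exp t) h =: q ≤ p exp t`, `q - p ≤ q (1 - exp (-t)) ≤ h t`).
  The sum over `v` is at most `h (α/b + 4/R) 2b = 2 α h + 8 b h/R`.
Altogether `PA' ≤ PA - 2 h + 2 α h + 8 b h/R`.
-/

namespace Pool.Agent.IG19

open Finset

variable {n b : ℕ} {A B X : Finset (Sym2 (Fin n))}

private theorem threeA_min {p h t : ℝ} (hp : 0 < p) (hh : 0 < h) (ht : 0 ≤ t) :
    min (p * Real.exp t) h ≤ min p h + h * t := by
  have hht : 0 ≤ h * t := mul_nonneg hh.le ht
  rcases le_total h p with h1 | h1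
  · rw [min_eq_right h1]
    exact (min_le_right _ _).trans (by linarith)
  · rw [min_eq_left h1]
    have h2 : min (p * Real.exp t) h * Real.exp (-t) ≤ p := by
      calc min (p * Real.exp t) h * Real.exp (-t) ≤ (p * Real.exp t) * Real.exp (-t) :=
            mul_le_mul_of_nonneg_right (min_le_left _ _) (Real.exp_pos _).le
        _ = p := by rw [mul_assoc, ← Real.exp_add, add_neg_cancel, Real.exp_zero, mul_one]
    have h3 : 1 - Real.exp (-t) ≤ t := by
      have := Real.add_one_le_exp (-t)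
      linarith
    have hq0 : 0 ≤ min (p * Real.exp t) h := le_min (by positivity) hh.le
    have h4 : min (p * Real.exp t) h * (1 - Real.exp (-t)) ≤ h * t :=
      (mul_le_mul_of_nonneg_left h3 hq0).trans (mul_le_mul_of_nonneg_right (min_le_right _ _) ht)
    linarith

private theorem ph_pos (α : ℝ) (b j : ℕ) : 0 < ph α b j := Real.exp_pos _

private theorem ph_le {α : ℝ} (hb : 1 ≤ b) (hα : 0 ≤ α) {l l' : ℕ} (h : l ≤ l') :
    ph α b l ≤ ph α b l' := by
  unfold ph
  have hbR : (0 : ℝ) < b := by exact_mod_cast hb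
  have hl : (l : ℝ) ≤ l' := by exact_mod_cast h
  exact Real.exp_le_exp.2 (div_le_div_of_nonneg_right (mul_le_mul_of_nonneg_left hl hα) hbR.le)

theorem psi_add_le {α : ℝ} {R j : ℕ} (hb : 1 ≤ b) (hR : 1 ≤ R) (hα : 0 ≤ α) (l x : ℕ) :
    psi α b R j (l + x) ≤ psi α b R j l + ph α b j * (α / b + 4 / R) * x := by
  unfold psi
  have hbR : (0 : ℝ) < b := by exact_mod_cast hb
  have hRR : (0 : ℝ) < R := by exact_mod_cast hR
  have h1 : ph α b (l + x) = ph α b l * Real.exp (α / b * x) := by
    unfold ph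
    rw [← Real.exp_add]
    congr 1
    push_cast
    field_simp
  have h2 := threeA_min (ph_pos α b l) (ph_pos α b j) (t := α / b * x) (by positivity)
  have h3 : max (((l + x : ℕ) : ℝ) - R / 4) 0 ≤ max ((l : ℝ) - R / 4) 0 + x := by
    push_cast
    have hx : (0 : ℝ) ≤ x := Nat.cast_nonneg x
    refine max_le ?_ ?_
    · have := le_max_left ((l : ℝ) - R / 4) 0
      linarith
    · have := le_max_right ((l : ℝ) - R / 4) 0
      linarith
  have h4 : ph α b j * (4 / R * max (((l + x : ℕ) : ℝ) - R / 4) 0) ≤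
      ph α b j * (4 / R * (max ((l : ℝ) - R / 4) 0 + x)) :=
    mul_le_mul_of_nonneg_left (mul_le_mul_of_nonneg_left h3 (by positivity)) (ph_pos α b j).le
  rw [h1]
  have h5 : ph α b j * (α / b + 4 / R) * x = ph α b j * (α / b * x) + ph α b j * (4 / R * x) := by ring
  have h6 : ph α b j * (4 / R * (max ((l : ℝ) - R / 4) 0 + x)) =
      ph α b j * (4 / R * max ((l : ℝ) - R / 4) 0) + ph α b j * (4 / R * x) := by ring
  linarith

theorem psi_mono {α : ℝ} {R j : ℕ} (hb : 1 ≤ b) (hR : 1 ≤ R) (hα : 0 ≤ α) {l l' : ℕ}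
    (h : l ≤ l') : psi α b R j l ≤ psi α b R j l' := by
  unfold psi
  have hRR : (0 : ℝ) < R := by exact_mod_cast hR
  have hl : (l : ℝ) ≤ l' := by exact_mod_cast h
  have h1 : max ((l : ℝ) - R / 4) 0 ≤ max ((l' : ℝ) - R / 4) 0 := max_le_max (by linarith) le_rfl
  exact add_le_add (min_le_min (ph_le hb hα h) le_rfl)
    (mul_le_mul_of_nonneg_left (mul_le_mul_of_nonneg_left h1 (by positivity)) (ph_pos α b j).le)

theorem cnt_step {e : Sym2 (Fin n)} (hV : Valid A B) (he : e ∈ free A B)
    (hX : X ⊆ free (insert e A) B) (hXc : X.card ≤ b) (j : ℕ) :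
    cnt (insert e A) (B ∪ X) j ≤ cnt A B j + 2 * b := by
  classical
  unfold cnt
  set S' := (Unf (insert e A) (B ∪ X)).filter (fun v => j ≤ ld (B ∪ X) v) with hS'
  set S := (Unf A B).filter (fun v => j ≤ ld B v) with hS
  have h1 : ∀ v ∈ S' \ S, 1 ≤ ld X v := by
    intro v hv
    rw [mem_sdiff] at hv
    obtain ⟨h2, h3⟩ := hv
    rw [hS', mem_filter] at h2
    have h4 := (unf_step hV he hX h2.1).1
    have h5 : ¬ j ≤ ld B v := fun h => h3 (mem_filter.2 ⟨h4, h⟩)
    have h6 := ld_union_le (B := B) (X := X) v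
    have h7 := h2.2
    omega
  have h2 : (S' \ S).card ≤ ∑ v ∈ S' \ S, ld X v := by
    have := card_nsmul_le_sum (S' \ S) (fun v => ld X v) 1 h1
    simpa using this
  have h3 := sum_ld_le (X := X) (S' \ S)
  have h4 : S'.card ≤ S.card + (S' \ S).card := by
    have h5 : S' ⊆ S ∪ (S' \ S) := by
      intro v hv
      by_cases hs : v ∈ S
      · exact mem_union_left _ hs
      · exact mem_union_right _ (mem_sdiff.2 ⟨hv, hs⟩)
    exact (card_le_card h5).trans (card_union_le _ _)
  omega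

private theorem psi_nonneg {α : ℝ} {R j : ℕ} (l : ℕ) : 0 ≤ psi α b R j l := by
  unfold psi
  have h1 := ph_pos α b l
  have h2 := ph_pos α b j
  have h3 : 0 ≤ max ((l : ℝ) - R / 4) 0 := le_max_right _ _
  have h4 : 0 ≤ min (ph α b l) (ph α b j) := le_min h1.le h2.le
  positivity

private theorem psi_ge {α : ℝ} {R j : ℕ} (hb : 1 ≤ b) (hα : 0 ≤ α) {l : ℕ} (h : j ≤ l) :
    ph α b j ≤ psi α b R j l := by
  unfold psi
  have h1 : min (ph α b l) (ph α b j) = ph α b j := min_eq_right (ph_le hb hα h)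
  have h2 := ph_pos α b j
  have h3 : 0 ≤ max ((l : ℝ) - R / 4) 0 := le_max_right _ _
  have h4 : 0 ≤ ph α b j * (4 / R * max ((l : ℝ) - R / 4) 0) := by positivity
  rw [h1]
  linarith

private theorem psi_ge_two {α : ℝ} {R j : ℕ} (hb : 1 ≤ b) (hR : 1 ≤ R) (hα : 0 ≤ α) {l : ℕ} (h : j ≤ l)
    (hl : R ≤ 2 * l) : 2 * ph α b j ≤ psi α b R j l := by
  unfold psi
  have hRR : (0 : ℝ) < R := by exact_mod_cast hR
  have h1 : min (ph α b l) (ph α b j) = ph α b j := min_eq_right (ph_le hb hα h)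
  have h2 := ph_pos α b j
  have hlR : (R : ℝ) ≤ 2 * l := by exact_mod_cast hl
  have h3 : (R : ℝ) / 4 ≤ max ((l : ℝ) - R / 4) 0 := le_trans (by linarith) (le_max_left _ _)
  have h4 : 1 ≤ 4 / (R : ℝ) * max ((l : ℝ) - R / 4) 0 := by
    calc (1 : ℝ) = 4 / (R : ℝ) * (R / 4) := by field_simp
      _ ≤ _ := mul_le_mul_of_nonneg_left h3 (by positivity)
  have h5 := mul_le_mul_of_nonneg_left h4 h2.le
  rw [h1]
  linarith

/-- the terms of the removed vertices -/
private theorem threeA_removed {α : ℝ} {R j : ℕ} (hb : 1 ≤ b) (hR : 32 * b ≤ R) (hα : 0 ≤ α)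
    (hV : Valid A B) {u : Fin n} (hu : u ∈ Unf A B)
    {e : Sym2 (Fin n)} (hg : Good A B u e) (hX : X ⊆ free (insert e A) B) (hXc : X.card ≤ b)
    (hK2 : ∀ i, b < cnt A B i → i ≤ ld B u)
    (hc : R ≤ cnt (insert e A) (B ∪ X) j + b) :
    ∑ v ∈ Unf (insert e A) (B ∪ X), psi α b R j (ld B v) + 2 * ph α b j ≤
      ∑ v ∈ Unf A B, psi α b R j (ld B v) := by
  classical
  have he : e ∈ free A B := hg.1
  have hstep := cnt_step hV he hX hXc j
  have hcnt : R ≤ cnt A B j + 3 * b := by omega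
  have hj : j ≤ ld B u := hK2 j (by omega)
  have hnot : ∀ v, v ∈ e → v ∉ Unf (insert e A) (B ∪ X) := fun v hv h => (unf_step hV he hX h).2 hv
  have hsub : Unf (insert e A) (B ∪ X) ⊆ Unf A B := fun v hv => (unf_step hV he hX hv).1
  have hue : u ∈ e := hg.2.1
  have huU : u ∈ U A := hg.2.2.1
  by_cases hcase : ∃ v, v ≠ u ∧ v ∈ e ∧ v ∈ Unf A B ∧ j ≤ ld B v
  · obtain ⟨v, hvu, hve, hvU, hvj⟩ := hcase
    have h1 : insert u {v} ∪ Unf (insert e A) (B ∪ X) ⊆ Unf A B := by
      intro w hw
      rw [mem_union, mem_insert, mem_singleton] at hw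
      rcases hw with (rfl | rfl) | hw
      · exact hu
      · exact hvU
      · exact hsub hw
    have h2 : Disjoint (insert u {v} : Finset (Fin n)) (Unf (insert e A) (B ∪ X)) := by
      rw [disjoint_left]
      intro w hw hw'
      rw [mem_insert, mem_singleton] at hw
      rcases hw with rfl | rfl
      · exact hnot _ hue hw'
      · exact hnot _ hve hw'
    have h3 := sum_le_sum_of_subset_of_nonneg h1 (f := fun v => psi α b R j (ld B v))
      (fun w _ _ => psi_nonneg _)
    rw [sum_union h2, sum_insert (by simpa using hvu.symm), sum_singleton] at h3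
    have h4 := psi_ge (R := R) hb hα hj
    have h5 := psi_ge (R := R) hb hα hvj
    linarith
  · push Not at hcase
    have hall : ∀ w ∈ Unf A B, w ≠ u → j ≤ ld B w → s(u, w) ∈ B := by
      intro w hw hwu hwj
      have hwU : w ∈ U A := by
        unfold Unf at hw
        exact (mem_filter.1 hw).1
      rcases free_or_B (B := B) huU hwu.symm with h | h
      · exfalso
        rcases hg.2.2.2 with ⟨v, hvU, hvu, hev, hmax⟩ | hno
        · have h1 := hmax w hwU h
          have hve : v ∈ e := by rw [hev]; exact Sym2.mem_mk_right u v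
          have hvUnf : v ∈ Unf A B := by
            unfold Unf
            exact mem_filter.2 ⟨hvU, fun hl => not_mem_of_ld_eq hV he hl hve⟩
          have h2 := hcase v hvu hve hvUnf
          omega
        · exact hno w hwU h
      · exact h
    have h1 : ((Unf A B).filter (fun v => j ≤ ld B v)).erase u ⊆
        ((Unf A B).filter (fun v => j ≤ ld B v)).filter (fun w => s(u, w) ∈ B) := by
      intro w hw
      rw [mem_erase, mem_filter] at hw
      exact mem_filter.2 ⟨mem_filter.2 hw.2, hall w hw.2.1 hw.1 hw.2.2⟩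
    have h2 := (card_le_card h1).trans (nbr_card_le _ u)
    have h3 : cnt A B j - 1 ≤ (((Unf A B).filter (fun v => j ≤ ld B v)).erase u).card := by
      unfold cnt
      exact pred_card_le_card_erase
    have h4 : R ≤ 2 * ld B u := by omega
    have h5 := psi_ge_two hb (by omega : 1 ≤ R) hα hj h4
    have h6 : insert u (Unf (insert e A) (B ∪ X)) ⊆ Unf A B := by
      intro w hw
      rw [mem_insert] at hw
      rcases hw with rfl | hw
      · exact hu
      · exact hsub hw
    have h7 := sum_le_sum_of_subset_of_nonneg h6 (f := fun v => psi α b R j (ld B v))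
      (fun w _ _ => psi_nonneg _)
    rw [sum_insert (hnot u hue)] at h7
    linarith

theorem PA_good {α : ℝ} {R j : ℕ} (hb : 1 ≤ b) (hR : 32 * b ≤ R) (hα : 0 ≤ α)
    (hV : Valid A B) {u : Fin n} (hu : u ∈ Unf A B)
    {e : Sym2 (Fin n)} (hg : Good A B u e) (hX : X ⊆ free (insert e A) B) (hXc : X.card ≤ b)
    (hK2 : ∀ i, b < cnt A B i → i ≤ ld B u)
    (hc : R ≤ cnt (insert e A) (B ∪ X) j + b) :
    PA α b R j (insert e A) (B ∪ X) ≤
      PA α b R j A B - (2 * (1 - α) - 8 * b / R) * ph α b j := by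
  have he : e ∈ free A B := hg.1
  have hR1 : 1 ≤ R := by omega
  have hbR : (0 : ℝ) < b := by exact_mod_cast hb
  have hRR : (0 : ℝ) < R := by exact_mod_cast hR1
  have hh := ph_pos α b j
  have h1 := threeA_removed hb hR hα hV hu hg hX hXc hK2 hc
  have h2 : ∑ v ∈ Unf (insert e A) (B ∪ X), psi α b R j (ld (B ∪ X) v) ≤
      ∑ v ∈ Unf (insert e A) (B ∪ X), (psi α b R j (ld B v) + ph α b j * (α / b + 4 / R) * ld X v) :=
    sum_le_sum fun v _ => (psi_mono hb hR1 hα (ld_union_le v)).trans (psi_add_le hb hR1 hα _ _)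
  rw [sum_add_distrib, ← mul_sum] at h2
  have h3 : ∑ v ∈ Unf (insert e A) (B ∪ X), (ld X v : ℝ) ≤ 2 * b := by
    have h4 := sum_ld_le (X := X) (Unf (insert e A) (B ∪ X))
    have h5 : ∑ v ∈ Unf (insert e A) (B ∪ X), ld X v ≤ 2 * b := by omega
    exact_mod_cast h5
  have h4 : ph α b j * (α / b + 4 / R) * ∑ v ∈ Unf (insert e A) (B ∪ X), (ld X v : ℝ) ≤
      ph α b j * (α / b + 4 / R) * (2 * b) := mul_le_mul_of_nonneg_left h3 (by positivity)
  have h5 : ph α b j * (α / b + 4 / R) * (2 * b) = 2 * α * ph α b j + 8 * b / R * ph α b j := by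
    field_simp
    ring
  unfold PA
  linarith

end Pool.Agent.IG19
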