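import Pool.Agent.IG19.ThreeA

/-!
# IG19-ThreeA2: the rank potential, all levels

`PA_diff`: `min (ph l) (ph (i+1)) - min (ph l) (ph i)` is `ph (i+1) - ph i` if `i + 1 ≤ l` and `0` otherwise
(`ph` is monotone).

`PA_step`.  Call `j` good if `R ≤ cnt A' B' j + GG R A' B'` (real numbers); then
`R ≤ cnt A' B' j + b`, and `PA_good` gives
`PA j A' B' ≤ PA j A B - s ph j ≤ Pb - s ph j` (`s ≤ 2(1-α) - 8b/R`).  The property good is inherited by
smaller `j` (`cnt` is antitone).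
By `PA_diff`, if `i + 1` is not good then `PA (i+1) A' B' ≤ PA i A' B'`, and if `i + 1` is good then
`PA i A' B' ≤ PA (i+1) A' B'`.
* `PA_step_le` (`PA j A' B' ≤ Pb` for all `j`): induction on `j`: if `j` is good use `PA_good` (`s ph j ≥ 0`);
  if `j = 0` is not good then `PA 0 A' B' = |Unf A' B'| + GG - R < 0 ≤ Pb` (`min (ph l) 1 = 1`); if `j = i + 1` is not
  good then `PA (i+1) A' B' ≤ PA i A' B'`.
* `PA_step_lt` (`j₀` with `R ≤ cnt A' B' j₀`, so `j₀` is good): for `j ≥ j₀` by induction from `j₀`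
  (`Nat.le_induction`): if `j` is good use `PA_good` and `ph j ≥ ph j₀`; if not, then `j ≠ j₀`,
  `j = i + 1`, `PA (i+1) A' B' ≤ PA i A' B'`.  For `j < j₀` all indices up to `j₀` are good and
  `PA j A' B' ≤ PA j₀ A' B'`.
* `PA_rank_nonneg`: `cnt A B j₀ ≥ R` vertices contribute at least `ph j₀` each to `PA j₀`.
-/

namespace Pool.Agent.IG19

open Finset

variable {n b : ℕ} {A B X : Finset (Sym2 (Fin n))}

private theorem ThreeA2_ph_pos {α : ℝ} (b j : ℕ) : 0 < ph α b j := Real.exp_pos _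

private theorem ThreeA2_ph_mono {α : ℝ} (hα : 0 ≤ α) {i j : ℕ} (h : i ≤ j) :
    ph α b i ≤ ph α b j := by
  unfold ph
  refine Real.exp_le_exp.mpr ?_
  have h1 : (i : ℝ) ≤ j := by exact_mod_cast h
  exact div_le_div_of_nonneg_right (mul_le_mul_of_nonneg_left h1 hα) (Nat.cast_nonneg b)

private theorem ThreeA2_cnt_anti {i j : ℕ} (h : i ≤ j) (A B : Finset (Sym2 (Fin n))) :
    cnt A B j ≤ cnt A B i := by
  unfold cnt
  refine card_le_card fun v hv => ?_
  rw [mem_filter] at hv ⊢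
  exact ⟨hv.1, h.trans hv.2⟩

private theorem ThreeA2_GG_nonneg (R : ℕ) (A B : Finset (Sym2 (Fin n))) : 0 ≤ GG R A B := by
  unfold GG
  exact sum_nonneg fun v _ => mul_nonneg (by positivity) (le_max_right _ _)

private theorem ThreeA2_PA_eq {α : ℝ} {R : ℕ} (j : ℕ) (A B : Finset (Sym2 (Fin n))) :
    PA α b R j A B = ∑ v ∈ Unf A B, min (ph α b (ld B v)) (ph α b j) +
      ph α b j * (GG R A B - R) := by
  unfold PA GG psi
  rw [sum_add_distrib, ← mul_sum]
  ring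

theorem PA_diff {α : ℝ} {R : ℕ} (hb : 1 ≤ b) (hα : 0 ≤ α) (i : ℕ) (A B : Finset (Sym2 (Fin n))) :
    PA α b R (i + 1) A B - PA α b R i A B =
      (ph α b (i + 1) - ph α b i) * ((cnt A B (i + 1) : ℝ) + GG R A B - R) := by
  have hmono : ∀ l, min (ph α b l) (ph α b (i + 1)) - min (ph α b l) (ph α b i) =
      if i + 1 ≤ l then ph α b (i + 1) - ph α b i else 0 := by
    intro l
    split_ifs with h
    · rw [min_eq_right (ThreeA2_ph_mono hα h),
        min_eq_right (ThreeA2_ph_mono hα ((Nat.le_succ i).trans h))]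
    · rw [min_eq_left (ThreeA2_ph_mono hα (by omega)), min_eq_left (ThreeA2_ph_mono hα (by omega)),
        sub_self]
  have h1 : ∑ v ∈ Unf A B, min (ph α b (ld B v)) (ph α b (i + 1)) -
      ∑ v ∈ Unf A B, min (ph α b (ld B v)) (ph α b i) =
      (ph α b (i + 1) - ph α b i) * (cnt A B (i + 1) : ℝ) := by
    rw [← sum_sub_distrib]
    simp only [hmono]
    rw [← sum_filter, sum_const, nsmul_eq_mul, mul_comm]
    rfl
  rw [ThreeA2_PA_eq, ThreeA2_PA_eq]
  linear_combination h1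

private theorem ThreeA2_up {α : ℝ} {R : ℕ} (hb : 1 ≤ b) (hα : 0 ≤ α) {i : ℕ}
    {A B : Finset (Sym2 (Fin n))} (h : (R : ℝ) ≤ cnt A B (i + 1) + GG R A B) :
    PA α b R i A B ≤ PA α b R (i + 1) A B := by
  have h1 := PA_diff (R := R) hb hα i A B
  have h2 : 0 ≤ ph α b (i + 1) - ph α b i :=
    sub_nonneg.mpr (ThreeA2_ph_mono hα (Nat.le_succ i))
  have h3 := mul_nonneg h2 (sub_nonneg.mpr h)
  linarith

private theorem ThreeA2_down {α : ℝ} {R : ℕ} (hb : 1 ≤ b) (hα : 0 ≤ α) {i : ℕ}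
    {A B : Finset (Sym2 (Fin n))} (h : ¬ (R : ℝ) ≤ cnt A B (i + 1) + GG R A B) :
    PA α b R (i + 1) A B ≤ PA α b R i A B := by
  have h1 := PA_diff (R := R) hb hα i A B
  have h2 : 0 ≤ ph α b (i + 1) - ph α b i :=
    sub_nonneg.mpr (ThreeA2_ph_mono hα (Nat.le_succ i))
  have h3 := mul_nonpos_of_nonneg_of_nonpos h2 (sub_nonpos.mpr (not_le.mp h).le)
  linarith

private theorem ThreeA2_good {α s Pb : ℝ} {R : ℕ} (hb : 1 ≤ b) (hR : 32 * b ≤ R) (hα : 0 ≤ α)
    (hs : s ≤ 2 * (1 - α) - 8 * b / R)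
    (hV : Valid A B) {u : Fin n} (hu : u ∈ Unf A B)
    {e : Sym2 (Fin n)} (hg : Good A B u e) (hX : X ⊆ free (insert e A) B) (hXc : X.card ≤ b)
    (hK2 : ∀ i, b < cnt A B i → i ≤ ld B u) (hG : GG R (insert e A) (B ∪ X) ≤ b)
    (hP : ∀ j, PA α b R j A B ≤ Pb) {j : ℕ}
    (hj : (R : ℝ) ≤ cnt (insert e A) (B ∪ X) j + GG R (insert e A) (B ∪ X)) :
    PA α b R j (insert e A) (B ∪ X) ≤ Pb - s * ph α b j := by
  have h1 : R ≤ cnt (insert e A) (B ∪ X) j + b := by
    have h2 : (R : ℝ) ≤ ((cnt (insert e A) (B ∪ X) j + b : ℕ) : ℝ) := by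
      rw [Nat.cast_add]
      linarith
    exact_mod_cast h2
  have h2 := PA_good (α := α) hb hR hα hV hu hg hX hXc hK2 h1
  have h3 := mul_le_mul_of_nonneg_right hs (ThreeA2_ph_pos (α := α) b j).le
  have h4 := hP j
  linarith

theorem PA_rank_nonneg {α : ℝ} {R j₀ : ℕ} (hb : 1 ≤ b) (hα : 0 ≤ α) (h : R ≤ cnt A B j₀) :
    0 ≤ PA α b R j₀ A B := by
  have h1 : (cnt A B j₀ : ℝ) * ph α b j₀ ≤ ∑ v ∈ Unf A B, psi α b R j₀ (ld B v) := by
    have h2 : ∑ v ∈ (Unf A B).filter (fun v => j₀ ≤ ld B v), ph α b j₀ ≤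
        ∑ v ∈ (Unf A B).filter (fun v => j₀ ≤ ld B v), psi α b R j₀ (ld B v) := by
      refine sum_le_sum fun v hv => ?_
      rw [mem_filter] at hv
      unfold psi
      rw [min_eq_right (ThreeA2_ph_mono hα hv.2)]
      have h3 : 0 ≤ ph α b j₀ * (4 / (R : ℝ) * max ((ld B v : ℝ) - R / 4) 0) :=
        mul_nonneg (ThreeA2_ph_pos b j₀).le (mul_nonneg (by positivity) (le_max_right _ _))
      linarith
    rw [sum_const, nsmul_eq_mul] at h2
    refine h2.trans (sum_le_sum_of_subset_of_nonneg (filter_subset _ _) fun v _ _ => ?_)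
    unfold psi
    exact add_nonneg (le_min (ThreeA2_ph_pos _ _).le (ThreeA2_ph_pos _ _).le)
      (mul_nonneg (ThreeA2_ph_pos b j₀).le (mul_nonneg (by positivity) (le_max_right _ _)))
  have h2 : (R : ℝ) * ph α b j₀ ≤ (cnt A B j₀ : ℝ) * ph α b j₀ :=
    mul_le_mul_of_nonneg_right (by exact_mod_cast h) (ThreeA2_ph_pos b j₀).le
  unfold PA
  linarith

theorem PA_step_le {α s Pb : ℝ} {R : ℕ} (hb : 1 ≤ b) (hR : 32 * b ≤ R) (hα : 0 ≤ α)
    (hs0 : 0 ≤ s) (hs : s ≤ 2 * (1 - α) - 8 * b / R) (hPb : 0 ≤ Pb)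
    (hV : Valid A B) {u : Fin n} (hu : u ∈ Unf A B)
    {e : Sym2 (Fin n)} (hg : Good A B u e) (hX : X ⊆ free (insert e A) B) (hXc : X.card ≤ b)
    (hK2 : ∀ i, b < cnt A B i → i ≤ ld B u) (hG : GG R (insert e A) (B ∪ X) ≤ b)
    (hP : ∀ j, PA α b R j A B ≤ Pb) (j : ℕ) :
    PA α b R j (insert e A) (B ∪ X) ≤ Pb := by
  induction j with
  | zero =>
    by_cases hj : (R : ℝ) ≤ cnt (insert e A) (B ∪ X) 0 + GG R (insert e A) (B ∪ X)
    · have h1 := ThreeA2_good hb hR hα hs hV hu hg hX hXc hK2 hG hP hj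
      have h2 := mul_nonneg hs0 (ThreeA2_ph_pos (α := α) b 0).le
      linarith
    · have h0 : ph α b 0 = 1 := by simp [ph]
      have h1 : ∑ v ∈ Unf (insert e A) (B ∪ X), min (ph α b (ld (B ∪ X) v)) (ph α b 0) =
          cnt (insert e A) (B ∪ X) 0 := by
        have h2 : ∀ v ∈ Unf (insert e A) (B ∪ X),
            min (ph α b (ld (B ∪ X) v)) (ph α b 0) = 1 := by
          intro v _
          rw [min_eq_right (ThreeA2_ph_mono hα (Nat.zero_le _)), h0]
        rw [sum_congr rfl h2, sum_const, nsmul_eq_mul, mul_one]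
        unfold cnt
        simp
      rw [ThreeA2_PA_eq, h1, h0]
      push Not at hj
      linarith
  | succ i ih =>
    by_cases hj : (R : ℝ) ≤ cnt (insert e A) (B ∪ X) (i + 1) + GG R (insert e A) (B ∪ X)
    · have h1 := ThreeA2_good hb hR hα hs hV hu hg hX hXc hK2 hG hP hj
      have h2 := mul_nonneg hs0 (ThreeA2_ph_pos (α := α) b (i + 1)).le
      linarith
    · exact (ThreeA2_down hb hα hj).trans ih

theorem PA_step_lt {α s Pb : ℝ} {R : ℕ} (hb : 1 ≤ b) (hR : 32 * b ≤ R) (hα : 0 ≤ α)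
    (hs0 : 0 ≤ s) (hs : s ≤ 2 * (1 - α) - 8 * b / R)
    (hV : Valid A B) {u : Fin n} (hu : u ∈ Unf A B)
    {e : Sym2 (Fin n)} (hg : Good A B u e) (hX : X ⊆ free (insert e A) B) (hXc : X.card ≤ b)
    (hK2 : ∀ i, b < cnt A B i → i ≤ ld B u) (hG : GG R (insert e A) (B ∪ X) ≤ b)
    (hP : ∀ j, PA α b R j A B ≤ Pb) {j₀ : ℕ} (hj₀ : R ≤ cnt (insert e A) (B ∪ X) j₀) (j : ℕ) :
    PA α b R j (insert e A) (B ∪ X) ≤ Pb - s * ph α b j₀ := by
  have hG0 := ThreeA2_GG_nonneg R (insert e A) (B ∪ X)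
  have hbase : PA α b R j₀ (insert e A) (B ∪ X) ≤ Pb - s * ph α b j₀ := by
    refine ThreeA2_good hb hR hα hs hV hu hg hX hXc hK2 hG hP ?_
    have h1 : (R : ℝ) ≤ cnt (insert e A) (B ∪ X) j₀ := by exact_mod_cast hj₀
    linarith
  rcases le_total j₀ j with h | h
  · induction j, h using Nat.le_induction with
    | base => exact hbase
    | succ i hi ih =>
      by_cases hj : (R : ℝ) ≤ cnt (insert e A) (B ∪ X) (i + 1) + GG R (insert e A) (B ∪ X)
      · have h1 := ThreeA2_good hb hR hα hs hV hu hg hX hXc hK2 hG hP hj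
        have h2 := mul_le_mul_of_nonneg_left
          (ThreeA2_ph_mono (b := b) hα (hi.trans (Nat.le_succ i))) hs0
        linarith
      · exact (ThreeA2_down hb hα hj).trans ih
  · obtain ⟨t, rfl⟩ := Nat.exists_eq_add_of_le h
    have hall : ∀ t, ∀ j, R ≤ cnt (insert e A) (B ∪ X) (j + t) →
        PA α b R j (insert e A) (B ∪ X) ≤ PA α b R (j + t) (insert e A) (B ∪ X) := by
      intro t
      induction t with
      | zero => intro j _; exact le_rfl
      | succ t ih =>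
        intro j hj
        have h1 : R ≤ cnt (insert e A) (B ∪ X) (j + 1 + t) := by
          have : j + (t + 1) = j + 1 + t := by ring
          rw [← this]
          exact hj
        have h2 : R ≤ cnt (insert e A) (B ∪ X) (j + 1) :=
          h1.trans (ThreeA2_cnt_anti (Nat.le_add_right _ _) _ _)
        have h3 : (R : ℝ) ≤ cnt (insert e A) (B ∪ X) (j + 1) + GG R (insert e A) (B ∪ X) := by
          have h4 : (R : ℝ) ≤ cnt (insert e A) (B ∪ X) (j + 1) := by exact_mod_cast h2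
          linarith
        have h5 := (ThreeA2_up hb hα h3).trans (ih (j + 1) h1)
        have h6 : j + 1 + t = j + (t + 1) := by ring
        rwa [h6] at h5
    exact (hall t j hj₀).trans hbase

end Pool.Agent.IG19
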