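import Pool.Agent.IG19.ThreeCr
import Pool.Agent.IG19.PotPure
import Pool.Agent.IG19.UOneOwn
import Pool.Agent.IG19.UOneLin
import Pool.Agent.IG19.GameB

/-!
# IG19-ThreeC: the potential with a moving threshold, one round

Adaptation of `pot_step`.  `H'` consists of the vertices of `Unf A' B'` that are in `H` and have
`exp (ld B' v/b) ≥ M'/e`, and those not in `H` with `exp (ld B' v/b) ≥ M'`.
-/

namespace Pool.Agent.IG19

open Finset

variable {n b : ℕ} {A B X : Finset (Sym2 (Fin n))}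

private theorem mem_Unf3 {v : Fin n} : v ∈ Unf A B ↔ v ∈ U A ∧ ld B v ≠ n - 1 := by
  simp [Unf]

private theorem mem_Fsh3 {v : Fin n} : v ∈ Fsh A B ↔ v ∈ U A ∧ ld B v = n - 1 := by
  simp [Fsh]

private theorem wt_nonneg3 (b : ℕ) (ord : Fin n → ℕ) (H : Finset (Fin n))
    (Fr : Finset (Sym2 (Fin n))) (v : Fin n) : 0 ≤ wt b ord H Fr v := (Real.exp_pos _).le

private theorem fsh_card3 {H : Finset (Fin n)} {e : Sym2 (Fin n)}
    (hout : ∀ v ∈ Unf A B, v ∉ H → v ∉ Fsh (insert e A) (B ∪ X)) :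
    (Fsh (insert e A) (B ∪ X)).card ≤ (Fsh A B).card + (Fsh (insert e A) (B ∪ X) ∩ H).card := by
  classical
  have h1 : Fsh (insert e A) (B ∪ X) ⊆ Fsh A B ∪ (Fsh (insert e A) (B ∪ X) ∩ H) := by
    intro v hv
    rw [Finset.mem_union]
    have hvU : v ∈ U A := U_insert_subset (mem_Fsh3.1 hv).1
    by_cases hl : ld B v = n - 1
    · exact Or.inl (mem_Fsh3.2 ⟨hvU, hl⟩)
    · right
      rw [Finset.mem_inter]
      refine ⟨hv, ?_⟩
      by_contra hvH
      exact hout v (mem_Unf3.2 ⟨hvU, hl⟩) hvH hv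
  exact (Finset.card_le_card h1).trans (Finset.card_union_le _ _)

theorem PC_step (hb : 1 ≤ b) {M M' : ℝ} (hM : 0 < M) (hM' : 0 < M')
    (hMM : M - M / (2 * b) ≤ M')
    (hbig : Real.exp 1 * M ≤ Real.exp (((n : ℝ) - 1) / b))
    {H : Finset (Fin n)} {ord : Fin n → ℕ} (hH : H ⊆ Unf A B) (hord : Set.InjOn ord H)
    (hH1 : ∀ v ∈ Unf A B, v ∉ H → Real.exp ((ld B v : ℝ) / b) < M)
    {e : Sym2 (Fin n)} (hV : Valid A B) (he : e ∈ free A B) (hX : X ⊆ free (insert e A) B)
    (hXc : X.card ≤ b)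
    (hu : H = ∅ ∨ ∃ u ∈ H, u ∈ e ∧ ∀ v ∈ H, wt b ord H (free A B) v ≤ wt b ord H (free A B) u)
    (hcount : ((Unf A B).filter
      (fun v => M' / Real.exp 1 < Real.exp ((ld B v : ℝ) / b))).card ≤ 2 * b)
    (hcount' : ((Unf (insert e A) (B ∪ X)).filter
      (fun v => M' / Real.exp 1 ≤ Real.exp ((ld (B ∪ X) v : ℝ) / b))).card ≤ b) :
    ∃ (H' : Finset (Fin n)) (ord' : Fin n → ℕ), H' ⊆ Unf (insert e A) (B ∪ X) ∧
      Set.InjOn ord' H' ∧
      (∀ v ∈ Unf (insert e A) (B ∪ X), v ∉ H' → Real.exp ((ld (B ∪ X) v : ℝ) / b) < M') ∧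
      (∀ v ∈ H', M' / Real.exp 1 ≤ Real.exp ((ld (B ∪ X) v : ℝ) / b)) ∧
      PC b M' ord' H' (insert e A) (B ∪ X) ≤ PC b M ord H A B + kap n b * (2 * M' + M) := by
  classical
  have hV1 : Valid (insert e A) B := hV.insertA he
  have hV2 : Valid (insert e A) (B ∪ X) := hV1.unionB hX
  have hb0 : (0 : ℝ) < b := by exact_mod_cast hb
  have hE : 0 < Real.exp 1 := Real.exp_pos 1
  set A' := insert e A with hA'
  set B' := B ∪ X with hB'
  set φ' : Fin n → ℝ := fun v => Real.exp ((ld B' v : ℝ) / b) with hφ'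
  set H1 : Finset (Fin n) := (Unf A' B').filter
    (fun v => (v ∈ H ∧ M' / Real.exp 1 ≤ φ' v) ∨ (v ∉ H ∧ M' ≤ φ' v)) with hH1d
  have hM'e : M' / Real.exp 1 ≤ M' := by
    rw [div_le_iff₀ hE]
    have : 1 ≤ Real.exp 1 := Real.one_le_exp (by norm_num)
    nlinarith
  have memH1 : ∀ v, v ∈ H1 ↔ v ∈ Unf A' B' ∧ ((v ∈ H ∧ M' / Real.exp 1 ≤ φ' v) ∨
      (v ∉ H ∧ M' ≤ φ' v)) := by
    intro v
    rw [hH1d, Finset.mem_filter]
  have hH1e : ∀ v ∈ H1, M' / Real.exp 1 ≤ φ' v := by
    intro v hv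
    rcases ((memH1 v).1 hv).2 with h | h
    · exact h.2
    · exact hM'e.trans h.2
  have hH1c : H1.card ≤ b := by
    refine le_trans (Finset.card_le_card ?_) hcount'
    intro v hv
    rw [Finset.mem_filter]
    exact ⟨((memH1 v).1 hv).1, hH1e v hv⟩
  have hH1lt : ∀ v ∈ Unf A' B', v ∉ H1 → φ' v < M' := by
    intro v hv hvn
    by_contra hcon
    push Not at hcon
    apply hvn
    rw [memH1]
    refine ⟨hv, ?_⟩
    by_cases hvH : v ∈ H
    · exact Or.inl ⟨hvH, hM'e.trans hcon⟩
    · exact Or.inr ⟨hvH, hcon⟩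
  set w : Fin n → ℝ := fun v => wt b ord H (free A B) v with hw
  -- the new order
  set ord' : Fin n → ℕ := fun v => if v ∈ H then ord v else H.sup ord + 1 + (v : ℕ) with hord'
  have ord'_H : ∀ v ∈ H, ord' v = ord v := by
    intro v hv
    simp [hord', hv]
  have ord'_nH : ∀ v, v ∉ H → ord' v = H.sup ord + 1 + (v : ℕ) := by
    intro v hv
    simp [hord', hv]
  have hlt : ∀ v ∈ H, ∀ v' ∉ H, ord' v < ord' v' := by
    intro v hv v' hv'
    rw [ord'_H v hv, ord'_nH v' hv']
    have := Finset.le_sup (f := ord) hv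
    omega
  have hinj : Set.InjOn ord' H1 := by
    intro v _ v' _ hvv
    by_cases h1 : v ∈ H
    · by_cases h2 : v' ∈ H
      · rw [ord'_H v h1, ord'_H v' h2] at hvv
        exact hord h1 h2 hvv
      · exact absurd hvv (hlt v h1 v' h2).ne
    · by_cases h2 : v' ∈ H
      · exact absurd hvv (hlt v' h2 v h1).ne'
      · rw [ord'_nH v h1, ord'_nH v' h2] at hvv
        exact Fin.ext (by omega)
  refine ⟨H1, ord', Finset.filter_subset _ _, hinj, hH1lt, hH1e, ?_⟩
  set w' : Fin n → ℝ := fun v => wt b ord' H1 (free A' B') v with hw'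
  set y : Fin n → ℕ := fun v => own ord H X v with hy
  set Hs := H1 ∩ H with hHs
  set Hf := Fsh A' B' ∩ H with hHf
  set Hn := H1 \ H with hHn
  have hunion : Hs ∪ Hn = H1 := by
    ext v
    simp only [hHs, hHn, Finset.mem_union, Finset.mem_inter, Finset.mem_sdiff]
    tauto
  have hsf : Disjoint Hs Hf := by
    rw [Finset.disjoint_left]
    intro v hv hv'
    have h1 := (mem_Unf3.1 ((memH1 v).1 (Finset.mem_inter.1 hv).1).1).2
    have h2 := (mem_Fsh3.1 (Finset.mem_inter.1 hv').1).2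
    exact h1 h2
  have hsn : Disjoint Hs Hn := by
    rw [Finset.disjoint_left]
    intro v hv hv'
    exact (Finset.mem_sdiff.1 hv').2 (Finset.mem_inter.1 hv).2
  have hsub : ∀ v ∈ Hs ∪ Hf, v ∈ H ∧ v ∉ e := by
    intro v hv
    rcases Finset.mem_union.1 hv with h | h
    · have h1 := Finset.mem_inter.1 h
      exact ⟨h1.2, (unf_step hV he hX ((memH1 v).1 h1.1).1).2⟩
    · have h1 := Finset.mem_inter.1 h
      exact ⟨h1.2, (mem_U_insert.1 (mem_Fsh3.1 h1.1).1).1⟩
  have hsumy : ∑ v ∈ Hs ∪ Hf, y v ≤ b := by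
    refine le_trans ?_ ((sum_own_le ord H hord X).trans hXc)
    exact Finset.sum_le_sum_of_subset (fun v hv => (hsub v hv).1)
  have hyb : ∀ v ∈ Hs ∪ Hf, y v ≤ b := fun v hv =>
    (Finset.single_le_sum (f := y) (fun _ _ => Nat.zero_le _) hv).trans hsumy
  have hwle : ∀ v ∈ Hs, w' v ≤ w v * Real.exp ((y v : ℝ) / b) := by
    intro v hv
    have h1 := hsub v (Finset.mem_union_left _ hv)
    have h2 := own_step (ord := ord) (ord' := ord') (H := H) (H' := H1) he hX ord'_H
      (fun v hv u _ hu => (hlt v hv u hu).le) h1.1 h1.2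
    simp only [hw', hw, hy, wt]
    rw [← Real.exp_add]
    apply Real.exp_le_exp.2
    have h3 : (own ord H (free A B) v : ℝ) ≤ own ord' H1 (free A' B') v + own ord H X v := by
      exact_mod_cast h2
    rw [← add_div]
    apply div_le_div_of_nonneg_right _ hb0.le
    linarith
  have hfle : ∀ v ∈ Hf, 1 ≤ Real.exp 1 * w v := by
    intro v hv
    have h1 := hsub v (Finset.mem_union_right _ hv)
    have hfin : ∀ e' ∈ free A' B', v ∉ e' := fun e' he' =>
      not_mem_of_ld_eq hV2 he' (mem_Fsh3.1 (Finset.mem_inter.1 hv).1).2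
    have h2 := own_fin (ord := ord) (H := H) he hX h1.2 hfin
    have h3 : own ord H (free A B) v ≤ b := h2.trans (hyb v (Finset.mem_union_right _ hv))
    have h4 : (own ord H (free A B) v : ℝ) / b ≤ 1 := by
      rw [div_le_one hb0]
      exact_mod_cast h3
    simp only [hw, wt]
    rw [← Real.exp_add]
    apply Real.one_le_exp
    rw [neg_div]
    linarith
  -- loads of the vertices outside H
  have hload : ∀ v ∈ Unf A B, v ∉ H → φ' v < Real.exp 1 * M := by
    intro v hv hvH
    have h1 := hH1 v hv hvH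
    have h2 : (ld B' v : ℝ) ≤ ld B v + b := by
      have : ld B' v ≤ ld B v + b :=
        (ld_union_le v).trans (Nat.add_le_add_left ((ld_le_card v).trans hXc) _)
      exact_mod_cast this
    have h3 : φ' v ≤ Real.exp 1 * Real.exp ((ld B v : ℝ) / b) := by
      simp only [hφ']
      rw [← Real.exp_add]
      apply Real.exp_le_exp.2
      rw [div_le_iff₀ hb0, add_mul, div_mul_cancel₀ _ hb0.ne']
      linarith
    have h4 : Real.exp 1 * Real.exp ((ld B v : ℝ) / b) < Real.exp 1 * M :=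
      mul_lt_mul_of_pos_left h1 hE
    linarith
  have hn1 : 1 ≤ n := by
    by_contra hcon
    have h0 : n = 0 := by omega
    subst h0
    rcases he' : e with ⟨p, q⟩
    exact Fin.elim0 p
  have hout : ∀ v ∈ Unf A B, v ∉ H → v ∉ Fsh A' B' := by
    intro v hv hvH hvF
    have h1 := hload v hv hvH
    have h2 := (mem_Fsh3.1 hvF).2
    have h3 : (ld B' v : ℝ) = (n : ℝ) - 1 := by
      rw [h2]
      push_cast [hn1]
      ring
    simp only [hφ', h3] at h1
    linarith
  set q : ℝ := Real.exp 2 * Real.exp (-(n : ℝ) / b) * M with hq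
  have hkq : Real.exp 1 * q = kap n b * (M / 2) := by
    rw [hq, kap]
    have : Real.exp 3 = Real.exp 1 * Real.exp 2 := by
      rw [← Real.exp_add]; norm_num
    rw [this]
    ring
  have hnle : ∀ v ∈ Hn, w' v ≤ q := by
    intro v hv
    obtain ⟨hv1, hv2⟩ := Finset.mem_sdiff.1 hv
    have h1 := (memH1 v).1 hv1
    have h2 := unf_step hV he hX h1.1
    have h3 := hload v h2.1 hv2
    have h5 := own_new (ord := ord') (H := H1) hV2 hv1 (mem_Unf3.1 h1.1).1
    have h6 : (n : ℝ) ≤ own ord' H1 (free A' B') v + ld B' v + H1.card := by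
      exact_mod_cast h5
    have h8 : (H1.card : ℝ) ≤ b := by exact_mod_cast hH1c
    have h9 : w' v ≤ Real.exp 1 * Real.exp (-(n : ℝ) / b) * φ' v := by
      simp only [hw', wt, hφ']
      rw [← Real.exp_add, ← Real.exp_add]
      apply Real.exp_le_exp.2
      have h10 : (1 : ℝ) = b / b := by field_simp
      rw [h10, ← add_div, ← add_div]
      apply div_le_div_of_nonneg_right _ hb0.le
      linarith
    have h11 : Real.exp 1 * Real.exp (-(n : ℝ) / b) * φ' v ≤
        Real.exp 1 * Real.exp (-(n : ℝ) / b) * (Real.exp 1 * M) :=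
      mul_le_mul_of_nonneg_left h3.le (by positivity)
    have h12 : Real.exp 1 * Real.exp (-(n : ℝ) / b) * (Real.exp 1 * M) = q := by
      rw [hq]
      have : Real.exp 2 = Real.exp 1 * Real.exp 1 := by
        rw [← Real.exp_add]; norm_num
      rw [this]
      ring
    linarith
  have hpure := pot_pure hb Hs Hf Hn hsf hsn w w' y hsumy
    (fun v => wt_nonneg3 _ _ _ _ _) (fun v => wt_nonneg3 _ _ _ _ _) hwle hfle q hnle
  rw [hunion, hkq] at hpure
  -- the sum over the surviving and finished heavy vertices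
  have hsumw : ∑ v ∈ Hs ∪ Hf, w v ≤ ∑ v ∈ H, w v - mx H w := by
    rcases hu with hemp | ⟨u, huH, hue, humax⟩
    · have : Hs ∪ Hf = ∅ := by
        rw [Finset.eq_empty_iff_forall_notMem]
        intro v hv
        have := (hsub v hv).1
        rw [hemp] at this
        simp at this
      rw [this, hemp]
      simp [mx_empty]
    · have h1 : Hs ∪ Hf ⊆ H.erase u := by
        intro v hv
        rw [Finset.mem_erase]
        refine ⟨?_, (hsub v hv).1⟩
        rintro rfl
        exact (hsub v hv).2 hue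
      have h2 : ∑ v ∈ Hs ∪ Hf, w v ≤ ∑ v ∈ H.erase u, w v :=
        Finset.sum_le_sum_of_subset_of_nonneg h1 (fun v _ _ => wt_nonneg3 _ _ _ _ _)
      have h3 : mx H w ≤ w u := mx_le (wt_nonneg3 _ _ _ _ _) (fun v hv => humax v hv)
      have h4 := Finset.sum_erase_add H w huH
      linarith
  have hcard := fsh_card3 (H := H) hout
  have hcard' : ((Fsh A' B').card : ℝ) ≤ (Fsh A B).card + Hf.card := by
    exact_mod_cast hcard
  -- the credits
  set D : ℝ := M / (2 * b) with hD
  have hD0 : 0 ≤ D := by positivity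
  have hMD : M - M' ≤ D := by linarith
  have hsubL : Unf A' B' \ H ⊆ Unf A B \ H := by
    intro v hv
    obtain ⟨h1, h2⟩ := Finset.mem_sdiff.1 hv
    exact Finset.mem_sdiff.2 ⟨(unf_step hV he hX h1).1, h2⟩
  have hcr1 : ∑ v ∈ Unf A' B' \ H1, cr b M' (ld B' v) + (Hn.card : ℝ) * M' ≤
      ∑ v ∈ Unf A' B' \ H, cr b M' (ld B' v) := by
    have e1 : ∑ v ∈ Unf A' B' \ H1, cr b M' (ld B' v) =
        ∑ v ∈ (Unf A' B' \ H1) \ H, cr b M' (ld B' v) := by
      symm
      apply Finset.sum_subset Finset.sdiff_subset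
      intro v hv hvn
      obtain ⟨h1, h2⟩ := Finset.mem_sdiff.1 hv
      have hvH : v ∈ H := by
        by_contra hcon
        exact hvn (Finset.mem_sdiff.2 ⟨hv, hcon⟩)
      apply cr_eq_zero hb hM'
      by_contra hcon
      push Not at hcon
      exact h2 ((memH1 v).2 ⟨h1, Or.inl ⟨hvH, hcon.le⟩⟩)
    have e2 : (Unf A' B' \ H1) \ H ∪ Hn = Unf A' B' \ H := by
      ext v
      simp only [hHn, Finset.mem_union, Finset.mem_sdiff]
      constructor
      · rintro (h | h)
        · exact ⟨h.1.1, h.2⟩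
        · exact ⟨((memH1 v).1 h.1).1, h.2⟩
      · intro h
        by_cases hv1 : v ∈ H1
        · exact Or.inr ⟨hv1, h.2⟩
        · exact Or.inl ⟨⟨h.1, hv1⟩, h.2⟩
    have e3 : Disjoint ((Unf A' B' \ H1) \ H) Hn := by
      rw [Finset.disjoint_left]
      intro v hv hv'
      exact (Finset.mem_sdiff.1 (Finset.mem_sdiff.1 hv).1).2 (Finset.mem_sdiff.1 hv').1
    rw [e1, ← e2, Finset.sum_union e3]
    have e4 : (Hn.card : ℝ) * M' ≤ ∑ v ∈ Hn, cr b M' (ld B' v) := by
      rw [← nsmul_eq_mul]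
      apply Finset.card_nsmul_le_sum
      intro v hv
      obtain ⟨hv1, hv2⟩ := Finset.mem_sdiff.1 hv
      apply le_cr hb hM'
      rcases ((memH1 v).1 hv1).2 with h | h
      · exact absurd h.1 hv2
      · exact h.2
    linarith
  have hcr2 : ∑ v ∈ Unf A' B' \ H, cr b M' (ld B' v) ≤
      ∑ v ∈ Unf A B \ H, cr b M (ld B v) + (2 * M' + M) := by
    have e1 : ∀ v ∈ Unf A' B' \ H, cr b M' (ld B' v) ≤
        cr b M (ld B v) + M' * ld X v / b +
          (if M' / Real.exp 1 < Real.exp ((ld B v : ℝ) / b) then D else 0) := by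
      intro v hv
      obtain ⟨h1, h2⟩ := Finset.mem_sdiff.1 (hsubL hv)
      have h3 : ld B' v = ld B v + ld X v := by
        apply ld_union_eq
        rw [Finset.disjoint_left]
        intro e' he' heX
        have := (mem_free.1 (hX heX)).2.2
        exact this he'
      rw [h3]
      exact cr_step hb hM hM' hD0 hMD (hH1 v h1 h2).le (ld X v)
    have e2 := Finset.sum_le_sum e1
    rw [Finset.sum_add_distrib, Finset.sum_add_distrib] at e2
    have e3 : ∑ v ∈ Unf A' B' \ H, cr b M (ld B v) ≤ ∑ v ∈ Unf A B \ H, cr b M (ld B v) :=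
      Finset.sum_le_sum_of_subset_of_nonneg hsubL (fun v _ _ => cr_nonneg hM.le _)
    have e4 : ∑ v ∈ Unf A' B' \ H, M' * (ld X v : ℝ) / b ≤ 2 * M' := by
      have h1 : ∑ v ∈ Unf A' B' \ H, M' * (ld X v : ℝ) / b =
          M' / b * ∑ v ∈ Unf A' B' \ H, (ld X v : ℝ) := by
        rw [Finset.mul_sum]
        apply Finset.sum_congr rfl
        intro v _
        ring
      rw [h1]
      have h2 : ∑ v ∈ Unf A' B' \ H, (ld X v : ℝ) ≤ 2 * b := by
        have h3 := (sum_ld_le (X := X) (Unf A' B' \ H)).trans (Nat.mul_le_mul_left 2 hXc)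
        exact_mod_cast h3
      calc M' / b * ∑ v ∈ Unf A' B' \ H, (ld X v : ℝ) ≤ M' / b * (2 * b) :=
            mul_le_mul_of_nonneg_left h2 (by positivity)
        _ = 2 * M' := by field_simp
    have e5 : ∑ v ∈ Unf A' B' \ H,
        (if M' / Real.exp 1 < Real.exp ((ld B v : ℝ) / b) then D else 0) ≤ M := by
      have h1 : ∑ v ∈ Unf A' B' \ H,
          (if M' / Real.exp 1 < Real.exp ((ld B v : ℝ) / b) then D else 0) ≤
          ∑ v ∈ Unf A B,
          (if M' / Real.exp 1 < Real.exp ((ld B v : ℝ) / b) then D else 0) := by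
        apply Finset.sum_le_sum_of_subset_of_nonneg
        · exact hsubL.trans Finset.sdiff_subset
        · intro v _ _
          split_ifs
          · exact hD0
          · exact le_rfl
      have h1' : ∑ v ∈ Unf A B,
          (if M' / Real.exp 1 < Real.exp ((ld B v : ℝ) / b) then D else 0) =
          (((Unf A B).filter
            (fun v => M' / Real.exp 1 < Real.exp ((ld B v : ℝ) / b))).card : ℝ) * D := by
        rw [← Finset.sum_filter, Finset.sum_const, nsmul_eq_mul]
      have h2 : (((Unf A B).filter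
        (fun v => M' / Real.exp 1 < Real.exp ((ld B v : ℝ) / b))).card : ℝ) ≤ 2 * b := by
        exact_mod_cast hcount
      have h3 : (2 * (b : ℝ)) * D = M := by rw [hD]; field_simp
      have h4 := mul_le_mul_of_nonneg_right h2 hD0
      linarith
    linarith
  have hkap : 0 < kap n b := by unfold kap; positivity
  have hMM2 : M / 2 ≤ M' := by
    have : M / (2 * b) ≤ M / 2 := by
      apply div_le_div_of_nonneg_left hM.le (by norm_num)
      have : (1 : ℝ) ≤ b := by exact_mod_cast hb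
      linarith
    linarith
  have hHnc : (Hn.card : ℝ) * (kap n b * (M / 2)) ≤ (Hn.card : ℝ) * (kap n b * M') :=
    mul_le_mul_of_nonneg_left (mul_le_mul_of_nonneg_left hMM2 hkap.le) (by positivity)
  have hk1 := mul_le_mul_of_nonneg_left hcr1 hkap.le
  have hk2 := mul_le_mul_of_nonneg_left hcr2 hkap.le
  have hmulw := mul_le_mul_of_nonneg_left hsumw hE.le
  unfold PC
  change ((Fsh A' B').card : ℝ) + Real.exp 1 * (∑ v ∈ H1, w' v - mx H1 w') + _ ≤
    ((Fsh A B).card : ℝ) + Real.exp 1 * (∑ v ∈ H, w v - mx H w) + _ + _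
  linarith [hk1, hk2, hmulw, hHnc, hpure, hcard']

end Pool.Agent.IG19
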