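import Pool.Agent.IG19.ThreeDef

/-!
# IG19-ThreeCr: the credit of a light vertex in one round (real numbers only)

`cr b M l = M * max (l/b - log M + 1) 0`.

* `cr_nonneg`: clear.
* `le_cr`: if `M ≤ exp (l/b)` then `l/b - log M + 1 ≥ 1`, so `cr b M l ≥ M`.
* `cr_eq_zero`: if `exp (l/b) ≤ M/exp 1` then `l/b ≤ log M - 1`.
* `cr_step`: `max (a + y) 0 ≤ max a 0 + y` for `y ≥ 0`, so
  `cr b M' (l + x) ≤ M' max (t - log M' + 1) 0 + M' x/b` with `t = l/b ≤ log M`.
  If `t - log M' + 1 ≤ 0` the first term is `0` (and `cr b M l ≥ 0`).  Otherwise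
  `M'/exp 1 < exp (l/b)` (the condition of the `if` holds).
  If `M' ≤ M`: `M' (t - log M' + 1) = M' (t - log M + 1) + M' log (M/M')
  ≤ M max (t - log M + 1) 0 + (M - M')`, by `log y ≤ y - 1`.
  If `M' > M`: put `M' = M exp y`, `y > 0`, `a = log M - t ≥ 0`; then
  `M' (t - log M' + 1) = M exp y (1 - a - y) ≤ M (1 - a exp y) ≤ M (1 - a)`, by `1 - y ≤ exp (-y)`, and
  `M (1 - a) = M (t - log M + 1) ≤ cr b M l`; and `D ≥ 0`.
-/

namespace Pool.Agent.IG19

open Finset

theorem cr_nonneg {b : ℕ} {M : ℝ} (hM : 0 ≤ M) (l : ℕ) : 0 ≤ cr b M l := by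
  exact mul_nonneg hM (le_max_right _ _)

theorem le_cr {b : ℕ} (hb : 1 ≤ b) {M : ℝ} (hM : 0 < M) {l : ℕ}
    (h : M ≤ Real.exp ((l : ℝ) / b)) : M ≤ cr b M l := by
  have _ := hb
  have h1 : Real.log M ≤ (l : ℝ) / b := (Real.log_le_iff_le_exp hM).2 h
  have h2 : 1 ≤ max ((l : ℝ) / b - Real.log M + 1) 0 :=
    le_trans (by linarith) (le_max_left _ _)
  unfold cr
  calc M = M * 1 := (mul_one M).symm
    _ ≤ M * max ((l : ℝ) / b - Real.log M + 1) 0 := mul_le_mul_of_nonneg_left h2 hM.le

theorem cr_eq_zero {b : ℕ} (hb : 1 ≤ b) {M : ℝ} (hM : 0 < M) {l : ℕ}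
    (h : Real.exp ((l : ℝ) / b) ≤ M / Real.exp 1) : cr b M l = 0 := by
  have _ := hb
  have he : (0 : ℝ) < Real.exp 1 := Real.exp_pos 1
  have h1 : (l : ℝ) / b ≤ Real.log (M / Real.exp 1) :=
    (Real.le_log_iff_exp_le (div_pos hM he)).2 h
  rw [Real.log_div hM.ne' he.ne', Real.log_exp] at h1
  unfold cr
  rw [max_eq_right (by linarith), mul_zero]

theorem cr_step {b : ℕ} (hb : 1 ≤ b) {M M' D : ℝ} (hM : 0 < M) (hM' : 0 < M') (hD : 0 ≤ D)
    (hMD : M - M' ≤ D) {l : ℕ} (hl : Real.exp ((l : ℝ) / b) ≤ M) (x : ℕ) :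
    cr b M' (l + x) ≤ cr b M l + M' * x / b +
      (if M' / Real.exp 1 < Real.exp ((l : ℝ) / b) then D else 0) := by
  have _ := hb
  have he : (0 : ℝ) < Real.exp 1 := Real.exp_pos 1
  have ht : (l : ℝ) / b ≤ Real.log M := (Real.le_log_iff_exp_le hM).2 hl
  have hx0 : (0 : ℝ) ≤ (x : ℝ) / b := by positivity
  have hcast : (((l + x : ℕ) : ℝ)) / b = (l : ℝ) / b + (x : ℝ) / b := by
    push_cast
    ring
  have hmain : cr b M' (l + x) ≤ M' * max ((l : ℝ) / b - Real.log M' + 1) 0 + M' * x / b := by
    unfold cr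
    rw [hcast]
    have h1 : max ((l : ℝ) / b + (x : ℝ) / b - Real.log M' + 1) 0 ≤
        max ((l : ℝ) / b - Real.log M' + 1) 0 + (x : ℝ) / b := by
      apply max_le
      · have := le_max_left ((l : ℝ) / b - Real.log M' + 1) 0
        linarith
      · have := le_max_right ((l : ℝ) / b - Real.log M' + 1) 0
        linarith
    have h2 := mul_le_mul_of_nonneg_left h1 hM'.le
    calc M' * max ((l : ℝ) / b + (x : ℝ) / b - Real.log M' + 1) 0
        ≤ M' * (max ((l : ℝ) / b - Real.log M' + 1) 0 + (x : ℝ) / b) := h2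
      _ = M' * max ((l : ℝ) / b - Real.log M' + 1) 0 + M' * x / b := by ring
  have hcr0 : 0 ≤ cr b M l := cr_nonneg hM.le l
  by_cases hc : (l : ℝ) / b - Real.log M' + 1 ≤ 0
  · rw [max_eq_right hc, mul_zero] at hmain
    have hif : (0 : ℝ) ≤ (if M' / Real.exp 1 < Real.exp ((l : ℝ) / b) then D else 0) := by
      split_ifs
      · exact hD
      · exact le_refl _
    linarith
  · push Not at hc
    have hlt : M' / Real.exp 1 < Real.exp ((l : ℝ) / b) := by
      have h1 : Real.log (M' / Real.exp 1) < (l : ℝ) / b := by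
        rw [Real.log_div hM'.ne' he.ne', Real.log_exp]
        linarith
      exact (Real.log_lt_iff_lt_exp (div_pos hM' he)).1 h1
    rw [if_pos hlt]
    rw [max_eq_left hc.le] at hmain
    have hkey : M' * ((l : ℝ) / b - Real.log M' + 1) ≤ cr b M l + D := by
      rcases le_total M' M with hle | hle
      · have hlog : Real.log (M / M') ≤ M / M' - 1 := Real.log_le_sub_one_of_pos (div_pos hM hM')
        rw [Real.log_div hM.ne' hM'.ne'] at hlog
        have h1 : M' * (Real.log M - Real.log M') ≤ M - M' := by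
          have h2 := mul_le_mul_of_nonneg_left hlog hM'.le
          have h3 : M' * (M / M' - 1) = M - M' := by
            field_simp
          linarith
        have h4 : M' * ((l : ℝ) / b - Real.log M + 1) ≤
            M * max ((l : ℝ) / b - Real.log M + 1) 0 :=
          calc M' * ((l : ℝ) / b - Real.log M + 1)
              ≤ M' * max ((l : ℝ) / b - Real.log M + 1) 0 :=
                mul_le_mul_of_nonneg_left (le_max_left _ _) hM'.le
            _ ≤ M * max ((l : ℝ) / b - Real.log M + 1) 0 :=
                mul_le_mul_of_nonneg_right hle (le_max_right _ _)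
        have h5 : cr b M l = M * max ((l : ℝ) / b - Real.log M + 1) 0 := rfl
        rw [h5]
        nlinarith [h1, h4, hMD]
      · have hy : 0 ≤ Real.log M' - Real.log M := by
          have := Real.log_le_log hM hle
          linarith
        set y : ℝ := Real.log M' - Real.log M with hydef
        set a : ℝ := Real.log M - (l : ℝ) / b with hadef
        have ha : 0 ≤ a := by rw [hadef]; linarith
        have hM'e : M' = M * Real.exp y := by
          rw [hydef, Real.exp_sub, Real.exp_log hM, Real.exp_log hM']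
          field_simp
        have hey1 : 1 ≤ Real.exp y := Real.one_le_exp hy
        have hey2 : Real.exp y * (1 - y) ≤ 1 := by
          have h1 : 1 - y ≤ Real.exp (-y) := by
            have := Real.add_one_le_exp (-y)
            linarith
          have h2 := mul_le_mul_of_nonneg_left h1 (Real.exp_pos y).le
          rw [← Real.exp_add] at h2
          simpa using h2
        have h6 : (l : ℝ) / b - Real.log M' + 1 = 1 - a - y := by
          rw [hadef, hydef]
          ring
        have h7 : M' * ((l : ℝ) / b - Real.log M' + 1) ≤ M * (1 - a) := by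
          rw [h6, hM'e]
          have h8 : Real.exp y * (1 - a - y) ≤ 1 - a := by
            nlinarith [mul_le_mul_of_nonneg_right hey1 ha]
          have h9 := mul_le_mul_of_nonneg_left h8 hM.le
          linarith
        have h10 : M * (1 - a) ≤ cr b M l := by
          unfold cr
          apply mul_le_mul_of_nonneg_left _ hM.le
          have : 1 - a = (l : ℝ) / b - Real.log M + 1 := by rw [hadef]; ring
          rw [this]
          exact le_max_left _ _
        linarith
    linarith

end Pool.Agent.IG19
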