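import Pool.Agent.IG19.ThreeDef
import Pool.Agent.IG19.UOneLin

/-!
# IG19-ThreeCrude: the crude linear invariant

* `crude_step`: `F` kills `u` with `ld B w ≤ ld B u + b` for all unfinished `w`.  Let
  `J ⊆ Unf (insert e A) (B ∪ X)`, `|J| = i ≥ 1`; then `J ⊆ Unf A B`, `u ∉ J` (`unf_step`).  Let
  `J⁺ = insert u J ⊆ Unf A B`, `g(i) = 5 b i (1 + log (n/i))`.  From `(i+1)(ld B u + b) ≥ ∑_{J⁺} ld B` we get
  `∑_J ld B = ∑_{J⁺} ld B - ld B u ≤ (i/(i+1)) ∑_{J⁺} ld B + b ≤ (i/(i+1)) g(i+1) + b`, and `S` adds at most `2b`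
  (`ld_union_le`, `sum_ld_le`).  So it is enough that
  `5 b i (1 + log (n/(i+1))) + 3 b ≤ 5 b i (1 + log (n/i))`, i.e. `3 ≤ 5 i log ((i+1)/i)`:
  `log ((i+1)/i) = - log (1 - 1/(i+1)) ≥ 1/(i+1) + 1/(2 (i+1)²)` or simply: for `i = 1`, `5 log 2 ≥ 3`;
  for `i ≥ 2`, `5 i log ((i+1)/i) ≥ 5 i/(i+1) ≥ 10/3 ≥ 3` (`log y ≥ 1 - 1/y`).
* `crude_G`: let `J` be the set of unfinished vertices with load at least `R/4`.  If `|J| ≥ b`, take `b` of
  them: `b R/4 ≤ 5 b b (1 + log (n/b)) = 5 b² L`, but `R/4 ≥ 8 b L`: contradiction.  So `i = |J| < b`, and if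
  `i ≥ 1`: `∑_J ld B ≤ 5 b i (1 + log (n/i)) ≤ 5 b b (1 + log (n/b)) = 5 b² L` (`y (1 + log (n/y))` increases on
  `[1, n]`: `i (1 + log (n/i)) = i (1 + log (n/b)) + i log (b/i)` and `i log (b/i) ≤ b - i`, and
  `log (n/b) ≥ 0`).  Hence `GG ≤ (4/R) 5 b² L ≤ b`.
* `crude_rank`: take `R` vertices of load at least `j`: `R j ≤ 5 b R (1 + log (n/R)) ≤ 5 b R L` as
  `R ≥ b`.
-/

namespace Pool.Agent.IG19

open Finset

variable {n b : ℕ} {A B X : Finset (Sym2 (Fin n))}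

theorem crude_step (hb : 1 ≤ b) (hV : Valid A B) (h : Crude b A B) {u : Fin n}
    (hu : u ∈ Unf A B) (hK : ∀ w ∈ Unf A B, ld B w ≤ ld B u + b) {e : Sym2 (Fin n)}
    (he : e ∈ free A B) (hue : u ∈ e) (hX : X ⊆ free (insert e A) B) (hXc : X.card ≤ b) :
    Crude b (insert e A) (B ∪ X) := by
  intro J hJ hJ1
  have hJS : ∀ v ∈ J, v ∈ Unf A B ∧ v ∉ e := fun v hv => unf_step hV he hX (hJ hv)
  have huJ : u ∉ J := fun hc => (hJS u hc).2 hue
  have hJp : insert u J ⊆ Unf A B := by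
    intro v hv
    rcases mem_insert.1 hv with rfl | hv
    · exact hu
    · exact (hJS v hv).1
  have hcard : (insert u J).card = J.card + 1 := card_insert_of_notMem huJ
  have h1 := h (insert u J) hJp (by omega)
  rw [hcard, sum_insert huJ] at h1
  obtain ⟨i, hi⟩ : ∃ i : ℕ, i = J.card := ⟨_, rfl⟩
  obtain ⟨S, hS⟩ : ∃ S : ℝ, S = ∑ v ∈ J, (ld B v : ℝ) := ⟨_, rfl⟩
  obtain ⟨w, hw⟩ : ∃ w : ℝ, w = (ld B u : ℝ) := ⟨_, rfl⟩
  have hi1 : 1 ≤ i := by omega
  have hiR : (1 : ℝ) ≤ i := by exact_mod_cast hi1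
  have hbR : (1 : ℝ) ≤ b := by exact_mod_cast hb
  have hnpos : 0 < n := u.pos
  have hnR : (0 : ℝ) < n := by exact_mod_cast hnpos
  have hSle : S ≤ i * (w + b) := by
    rw [hS, hi]
    have : ∑ v ∈ J, (ld B v : ℝ) ≤ ∑ _v ∈ J, (w + b) := by
      refine sum_le_sum fun v hv => ?_
      rw [hw]
      exact_mod_cast hK v (hJS v hv).1
    rwa [sum_const, nsmul_eq_mul] at this
  have hX2 : ∑ v ∈ J, (ld (B ∪ X) v : ℝ) ≤ S + 2 * b := by
    have h2 : ∑ v ∈ J, ld (B ∪ X) v ≤ ∑ v ∈ J, ld B v + 2 * X.card := by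
      calc ∑ v ∈ J, ld (B ∪ X) v ≤ ∑ v ∈ J, (ld B v + ld X v) :=
            sum_le_sum (fun v _ => ld_union_le v)
        _ = ∑ v ∈ J, ld B v + ∑ v ∈ J, ld X v := sum_add_distrib
        _ ≤ ∑ v ∈ J, ld B v + 2 * X.card := Nat.add_le_add_left (sum_ld_le J) _
    have h3 : ((∑ v ∈ J, ld (B ∪ X) v : ℕ) : ℝ) ≤ ((∑ v ∈ J, ld B v + 2 * X.card : ℕ) : ℝ) :=
      Nat.cast_le.2 h2
    push_cast at h3
    have h4 : (X.card : ℝ) ≤ b := Nat.cast_le.2 hXc
    rw [hS]
    linarith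
  refine hX2.trans ?_
  rw [← hS, ← hw, ← hi] at h1
  rw [← hi]
  push_cast at h1
  obtain ⟨l1, hl1⟩ : ∃ l1 : ℝ, l1 = Real.log ((n : ℝ) / ((i : ℝ) + 1)) := ⟨_, rfl⟩
  obtain ⟨l0, hl0⟩ : ∃ l0 : ℝ, l0 = Real.log ((n : ℝ) / (i : ℝ)) := ⟨_, rfl⟩
  have hlog : 3 ≤ 5 * i * (l0 - l1) := by
    have h5 : l0 - l1 = Real.log (((i : ℝ) + 1) / i) := by
      rw [hl0, hl1, Real.log_div hnR.ne' (by positivity), Real.log_div hnR.ne' (by positivity),
        Real.log_div (by positivity) (by positivity)]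
      ring
    rw [h5]
    rcases Nat.lt_or_ge i 2 with h6 | h6
    · have h7 : i = 1 := by omega
      rw [h7]
      have := Real.log_two_gt_d9
      norm_num
      linarith
    · have h7 : (2 : ℝ) ≤ i := by exact_mod_cast h6
      have h8 := Real.one_sub_inv_le_log_of_pos (x := ((i : ℝ) + 1) / i) (by positivity)
      rw [inv_div] at h8
      have h9 : (1 : ℝ) - i / (i + 1) = 1 / (i + 1) := by field_simp; ring
      rw [h9] at h8
      have h10 : 5 * (i : ℝ) * (1 / (i + 1)) ≤ 5 * i * Real.log (((i : ℝ) + 1) / i) :=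
        mul_le_mul_of_nonneg_left h8 (by positivity)
      have h11 : 3 ≤ 5 * (i : ℝ) * (1 / (i + 1)) := by
        rw [mul_one_div, le_div_iff₀ (by positivity)]
        linarith
      linarith
  rw [← hl1] at h1
  rw [← hl0]
  have h12 : S * (i + 1) ≤ i * (5 * b * (i + 1) * (1 + l1)) + b * i := by nlinarith
  have h13 : S ≤ 5 * b * i * (1 + l1) + b := by
    have h14 : S * (i + 1) ≤ (5 * b * i * (1 + l1) + b) * (i + 1) := by nlinarith
    exact le_of_mul_le_mul_right h14 (by positivity)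
  have h15 : (b : ℝ) * 3 ≤ b * (5 * i * (l0 - l1)) := mul_le_mul_of_nonneg_left hlog (by positivity)
  nlinarith

theorem crude_G {R : ℕ} (hb : 1 ≤ b) (hbn : b ≤ n)
    (hR : 32 * b * (1 + Real.log ((n : ℝ) / b)) ≤ R) (h : Crude b A B) : GG R A B ≤ b := by
  classical
  have hbR : (1 : ℝ) ≤ b := by exact_mod_cast hb
  have hbnR : (b : ℝ) ≤ n := by exact_mod_cast hbn
  have hnR : (0 : ℝ) < n := by linarith
  obtain ⟨L, hL⟩ : ∃ L : ℝ, L = 1 + Real.log ((n : ℝ) / b) := ⟨_, rfl⟩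
  have hL1 : 1 ≤ L := by
    have := Real.log_nonneg (x := (n : ℝ) / b) (by rw [le_div_iff₀ (by linarith)]; linarith)
    linarith
  rw [← hL] at hR
  have hRpos : (0 : ℝ) < R := by
    have : (0 : ℝ) < 32 * b * L := by positivity
    linarith
  obtain ⟨J, hJ⟩ : ∃ J : Finset (Fin n), J = (Unf A B).filter
      (fun v => (R : ℝ) / 4 ≤ (ld B v : ℝ)) := ⟨_, rfl⟩
  have hJU : J ⊆ Unf A B := by rw [hJ]; exact filter_subset _ _
  have hJl : ∀ v ∈ J, (R : ℝ) / 4 ≤ (ld B v : ℝ) := by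
    intro v hv
    rw [hJ] at hv
    exact (mem_filter.1 hv).2
  have hbL : 0 < (b : ℝ) * b * L := by positivity
  have hJb : J.card < b := by
    by_contra hcon
    push Not at hcon
    obtain ⟨J', hJ', hJc⟩ := exists_subset_card_eq hcon
    have h1 := h J' (hJ'.trans hJU) (by omega)
    have h2 : (J'.card : ℝ) * ((R : ℝ) / 4) ≤ ∑ v ∈ J', (ld B v : ℝ) := by
      have := card_nsmul_le_sum J' (fun v => (ld B v : ℝ)) ((R : ℝ) / 4)
        (fun v hv => hJl v (hJ' hv))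
      simpa [nsmul_eq_mul] using this
    rw [hJc, ← hL] at h1
    rw [hJc] at h2
    have h3 : (b : ℝ) * (8 * b * L) ≤ b * ((R : ℝ) / 4) :=
      mul_le_mul_of_nonneg_left (by linarith) (by linarith)
    nlinarith
  have hGG : GG R A B ≤ 4 / (R : ℝ) * ∑ v ∈ J, (ld B v : ℝ) := by
    unfold GG
    rw [mul_sum, ← sum_filter_add_sum_filter_not (Unf A B) (fun v => (R : ℝ) / 4 ≤ (ld B v : ℝ)),
      ← hJ]
    have h1 : ∑ v ∈ (Unf A B).filter (fun v => ¬ (R : ℝ) / 4 ≤ (ld B v : ℝ)),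
        4 / (R : ℝ) * max ((ld B v : ℝ) - R / 4) 0 = 0 := by
      refine sum_eq_zero fun v hv => ?_
      have := (mem_filter.1 hv).2
      push Not at this
      rw [max_eq_right (by linarith), mul_zero]
    rw [h1, add_zero]
    refine sum_le_sum fun v hv => mul_le_mul_of_nonneg_left ?_ (by positivity)
    have h2 := hJl v hv
    rw [max_eq_left (by linarith)]
    linarith
  refine hGG.trans ?_
  have hsum : ∑ v ∈ J, (ld B v : ℝ) ≤ 5 * b * (b * L) := by
    rcases Nat.eq_zero_or_pos J.card with h0 | h0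
    · rw [card_eq_zero.1 h0, sum_empty]
      positivity
    · have h1 := h J hJU h0
      obtain ⟨i, hi⟩ : ∃ i : ℕ, i = J.card := ⟨_, rfl⟩
      rw [← hi] at h1 h0 hJb
      have hiR : (1 : ℝ) ≤ i := by exact_mod_cast h0
      have hib : (i : ℝ) ≤ b := by exact_mod_cast hJb.le
      have h2 : (i : ℝ) * (1 + Real.log ((n : ℝ) / i)) ≤ b * L := by
        have h3 : Real.log ((n : ℝ) / i) = Real.log ((n : ℝ) / b) + Real.log ((b : ℝ) / i) := by
          rw [← Real.log_mul (by positivity) (by positivity)]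
          congr 1
          field_simp
        have h4 : Real.log ((b : ℝ) / i) ≤ b / i - 1 :=
          Real.log_le_sub_one_of_pos (by positivity)
        have h5 : (i : ℝ) * Real.log ((b : ℝ) / i) ≤ b - i := by
          have h6 := mul_le_mul_of_nonneg_left h4 (by positivity : (0 : ℝ) ≤ i)
          have h7 : (i : ℝ) * (b / i - 1) = b - i := by field_simp
          linarith
        have h8 : (i : ℝ) * (1 + Real.log ((n : ℝ) / i)) =
            i * L + i * Real.log ((b : ℝ) / i) := by rw [h3, hL]; ring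
        rw [h8]
        nlinarith
      have h9 := mul_le_mul_of_nonneg_left h2 (by positivity : (0 : ℝ) ≤ 5 * b)
      refine h1.trans ?_
      rw [← mul_assoc] at h9
      exact h9
  have h1 : 4 / (R : ℝ) * ∑ v ∈ J, (ld B v : ℝ) ≤ 4 / R * (5 * b * (b * L)) :=
    mul_le_mul_of_nonneg_left hsum (by positivity)
  refine h1.trans ?_
  rw [div_mul_eq_mul_div, div_le_iff₀ hRpos]
  have h2 := mul_le_mul_of_nonneg_left hR (by linarith : (0 : ℝ) ≤ b)
  nlinarith

theorem crude_rank {R : ℕ} (hb : 1 ≤ b) (hbn : b ≤ n) (hR : b ≤ R) (h : Crude b A B) {j : ℕ}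
    (hj : R ≤ cnt A B j) : (j : ℝ) ≤ 5 * b * (1 + Real.log ((n : ℝ) / b)) := by
  have hbR : (1 : ℝ) ≤ b := by exact_mod_cast hb
  have hbnR : (b : ℝ) ≤ n := by exact_mod_cast hbn
  have hRR : (b : ℝ) ≤ R := by exact_mod_cast hR
  have hnR : (0 : ℝ) < n := by linarith
  have hRpos : (0 : ℝ) < R := by linarith
  unfold cnt at hj
  obtain ⟨T, hT, hTc⟩ := exists_subset_card_eq hj
  have hTU : T ⊆ Unf A B := hT.trans (filter_subset _ _)
  have h1 := h T hTU (by omega)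
  have h2 : (T.card : ℝ) * (j : ℝ) ≤ ∑ v ∈ T, (ld B v : ℝ) := by
    have := card_nsmul_le_sum T (fun v => (ld B v : ℝ)) (j : ℝ) (fun v hv => by
      exact_mod_cast (mem_filter.1 (hT hv)).2)
    simpa [nsmul_eq_mul] using this
  rw [hTc] at h1 h2
  have h3 : Real.log ((n : ℝ) / R) ≤ Real.log ((n : ℝ) / b) := by
    refine Real.log_le_log (by positivity) ?_
    exact div_le_div_of_nonneg_left hnR.le (by linarith) hRR
  have h4 : (R : ℝ) * j ≤ R * (5 * b * (1 + Real.log ((n : ℝ) / b))) := by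
    refine (h2.trans h1).trans ?_
    have h5 : 5 * (b : ℝ) * R * (1 + Real.log ((n : ℝ) / R)) ≤
        5 * b * R * (1 + Real.log ((n : ℝ) / b)) :=
      mul_le_mul_of_nonneg_left (by linarith) (by positivity)
    refine h5.trans (le_of_eq ?_)
    ring
  exact le_of_mul_le_mul_left h4 hRpos

end Pool.Agent.IG19
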