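import Pool.Agent.IG19.UOneDef

/-!
# IG19-ThreeDef: definitions for the sharper upper bound
-/

namespace Pool.Agent.IG19

open Finset

variable {n : ℕ}

/-- The number of unfinished untouched vertices of load at least `j`. -/
def cnt (A B : Finset (Sym2 (Fin n))) (j : ℕ) : ℕ :=
  ((Unf A B).filter (fun v => j ≤ ld B v)).card

/-- The crude linear invariant. -/
def Crude (b : ℕ) (A B : Finset (Sym2 (Fin n))) : Prop :=
  ∀ J ⊆ Unf A B, 1 ≤ J.card →
    ∑ v ∈ J, (ld B v : ℝ) ≤ 5 * b * J.card * (1 + Real.log ((n : ℝ) / J.card))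

/-- `Z` bounds the sum of `exp (load / 4b)` over any `R` unfinished vertices. -/
def ZB (b R : ℕ) (Z : ℝ) (A B : Finset (Sym2 (Fin n))) : Prop :=
  ∀ T ⊆ Unf A B, T.card ≤ R → ∑ v ∈ T, Real.exp ((ld B v : ℝ) / (4 * b)) ≤ Z

/-- The exponential with the slightly smaller rate `α`. -/
noncomputable def ph (α : ℝ) (b j : ℕ) : ℝ := Real.exp (α * j / b)

/-- The capped exponential, with a linear part for very large loads. -/
noncomputable def psi (α : ℝ) (b R j l : ℕ) : ℝ :=
  min (ph α b l) (ph α b j) + ph α b j * (4 / R * max ((l : ℝ) - R / 4) 0)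

/-- The rank potential at the level `j`. -/
noncomputable def PA (α : ℝ) (b R j : ℕ) (A B : Finset (Sym2 (Fin n))) : ℝ :=
  ∑ v ∈ Unf A B, psi α b R j (ld B v) - R * ph α b j

/-- The normalised excess of the very large loads. -/
noncomputable def GG (R : ℕ) (A B : Finset (Sym2 (Fin n))) : ℝ :=
  ∑ v ∈ Unf A B, 4 / (R : ℝ) * max ((ld B v : ℝ) - R / 4) 0

/-- `exp (l/4b)` for the load `l` of rank `R` (`0` if there are less than `R` vertices). -/
noncomputable def rk4 (b R : ℕ) (A B : Finset (Sym2 (Fin n))) : ℝ :=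
  mx ((range n).filter (fun j => R ≤ cnt A B j)) (fun j : ℕ => Real.exp ((j : ℝ) / (4 * b)))

/-- The credit of a light vertex of load `l` when the threshold is `M`. -/
noncomputable def cr (b : ℕ) (M : ℝ) (l : ℕ) : ℝ := M * max ((l : ℝ) / b - Real.log M + 1) 0

/-- The unit of the credits. -/
noncomputable def kap (n b : ℕ) : ℝ := 2 * Real.exp 3 * Real.exp (-(n : ℝ) / b)

/-- The potential with threshold `M` and set `H` of heavy vertices. -/
noncomputable def PC (b : ℕ) (M : ℝ) (ord : Fin n → ℕ) (H : Finset (Fin n))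
    (A B : Finset (Sym2 (Fin n))) : ℝ :=
  ((Fsh A B).card : ℝ) +
    Real.exp 1 * (∑ v ∈ H, wt b ord H (free A B) v - mx H (wt b ord H (free A B))) +
    kap n b * ∑ v ∈ Unf A B \ H, cr b M (ld B v)

end Pool.Agent.IG19
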