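import Pool.Agent.IG19.ThreeDef
import Pool.Agent.IG19.UOneOwn

/-!
# IG19-ThreeKill: the vertex killed by the first player has nearly maximal load

`F` kills a vertex `u` of `H` of maximal weight if `H` is not empty, and an unfinished vertex of maximal load if
`H` is empty.

* `kill_exists`: choose it (`Finset.exists_max_image`).
* `kill_le`: `ld B w ≤ ld B u + b` for all unfinished `w`.  If `H = ∅` clear.  Let `u ∈ H`.
  If `w ∈ H`: `wt w ≤ wt u` means `own w ≥ own u`; `own w ≤ n - 1 - ld B w` (own edges are free edges at `w`,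
  `freedeg_add_ld`) and `n ≤ own u + ld B u + |H|` (`own_new`), `|H| ≤ b`, so
  `n - b - ld B u ≤ n - 1 - ld B w`.  If `w ∉ H`: `exp (ld B w/b) < M ≤ exp 1 * exp (ld B u/b)`.
* `kill_cnt`: if `b < cnt A B i` then `i ≤ ld B u`.  If `H = ∅`: `u` has maximal load and `cnt A B i > 0`.  If
  `u ∈ H` and `ld B u < i` then all the vertices counted by `cnt A B i` have
  `exp (ld/b) ≥ exp (ld B u/b) ≥ M/e`, so there are at most `b` of them.
-/

namespace Pool.Agent.IG19

open Finset

variable {n b : ℕ} {A B X : Finset (Sym2 (Fin n))}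

/-- The choice of `F`. -/
def Kill (b : ℕ) (ord : Fin n → ℕ) (H : Finset (Fin n)) (A B : Finset (Sym2 (Fin n)))
    (u : Fin n) : Prop :=
  u ∈ Unf A B ∧ ((H = ∅ ∧ ∀ w ∈ Unf A B, ld B w ≤ ld B u) ∨
    (u ∈ H ∧ ∀ v ∈ H, wt b ord H (free A B) v ≤ wt b ord H (free A B) u))

private theorem kill_unf {v : Fin n} (h : v ∈ Unf A B) : v ∈ U A := by
  unfold Unf at h
  exact (Finset.mem_filter.1 h).1

theorem kill_exists (ord : Fin n → ℕ) {H : Finset (Fin n)} (hH : H ⊆ Unf A B)
    (hne : (Unf A B).Nonempty) : ∃ u, Kill b ord H A B u := by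
  rcases H.eq_empty_or_nonempty with h | h
  · obtain ⟨u, hu, hmax⟩ := Finset.exists_max_image (Unf A B) (fun v => ld B v) hne
    exact ⟨u, hu, Or.inl ⟨h, hmax⟩⟩
  · obtain ⟨u, hu, hmax⟩ := Finset.exists_max_image H (fun v => wt b ord H (free A B) v) h
    exact ⟨u, hH hu, Or.inr ⟨hu, hmax⟩⟩

theorem kill_le (hb : 1 ≤ b) {M : ℝ} {H : Finset (Fin n)} {ord : Fin n → ℕ} (hV : Valid A B)
    (hH : H ⊆ Unf A B) (hHc : H.card ≤ b)
    (hH1 : ∀ v ∈ Unf A B, v ∉ H → Real.exp ((ld B v : ℝ) / b) < M)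
    (hH2 : ∀ v ∈ H, M / Real.exp 1 ≤ Real.exp ((ld B v : ℝ) / b))
    {u : Fin n} (hu : Kill b ord H A B u) {w : Fin n} (hw : w ∈ Unf A B) :
    ld B w ≤ ld B u + b := by
  have hb0 : (0 : ℝ) < b := by exact_mod_cast hb
  obtain ⟨huU, ⟨_, hmax⟩ | ⟨huH, hmax⟩⟩ := hu
  · have := hmax w hw
    omega
  · by_cases hwH : w ∈ H
    · have h1 := hmax w hwH
      unfold wt at h1
      rw [Real.exp_le_exp, div_le_div_iff_of_pos_right hb0, neg_le_neg_iff] at h1
      have h2 : own ord H (free A B) u ≤ own ord H (free A B) w := by exact_mod_cast h1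
      have h3 := freedeg_add_ld hV (kill_unf hw)
      have h4 : own ord H (free A B) w ≤ ((free A B).filter (fun e => w ∈ e)).card := by
        unfold own
        refine Finset.card_le_card fun e he => ?_
        rw [Finset.mem_filter] at he ⊢
        exact ⟨he.1, he.2.1⟩
      have h5 := own_new (ord := ord) hV huH (kill_unf huU)
      omega
    · have h1 := hH1 w hw hwH
      have h2 := hH2 u huH
      rw [div_le_iff₀ (Real.exp_pos 1), ← Real.exp_add] at h2
      have h3 := Real.exp_lt_exp.1 (lt_of_lt_of_le h1 h2)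
      have h4 : (ld B w : ℝ) < ld B u + b := by
        have h5 : (ld B u : ℝ) / b + 1 = (ld B u + b) / b := by
          rw [add_div, div_self hb0.ne']
        rw [h5, div_lt_div_iff_of_pos_right hb0] at h3
        exact h3
      have h6 : ld B w < ld B u + b := by exact_mod_cast h4
      exact h6.le

theorem kill_cnt (hb : 1 ≤ b) {M : ℝ} {H : Finset (Fin n)} {ord : Fin n → ℕ}
    (hcount : ((Unf A B).filter
      (fun v => M / Real.exp 1 ≤ Real.exp ((ld B v : ℝ) / b))).card ≤ b)
    (hH2 : ∀ v ∈ H, M / Real.exp 1 ≤ Real.exp ((ld B v : ℝ) / b))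
    {u : Fin n} (hu : Kill b ord H A B u) {i : ℕ} (hi : b < cnt A B i) : i ≤ ld B u := by
  have hb0 : (0 : ℝ) < b := by exact_mod_cast hb
  obtain ⟨huU, ⟨_, hmax⟩ | ⟨huH, _⟩⟩ := hu
  · have h1 : 0 < cnt A B i := by omega
    unfold cnt at h1
    rw [Finset.card_pos] at h1
    obtain ⟨v, hv⟩ := h1
    rw [Finset.mem_filter] at hv
    exact hv.2.trans (hmax v hv.1)
  · by_contra hc
    have h1 : cnt A B i ≤ b := by
      refine le_trans ?_ hcount
      unfold cnt
      refine Finset.card_le_card fun v hv => ?_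
      rw [Finset.mem_filter] at hv ⊢
      refine ⟨hv.1, (hH2 u huH).trans ?_⟩
      rw [Real.exp_le_exp, div_le_div_iff_of_pos_right hb0]
      have h2 : ld B u ≤ ld B v := by omega
      exact_mod_cast h2
    omega

end Pool.Agent.IG19
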