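import Pool.Agent.IG19.ThreeDef
import Pool.Agent.IG19.PotPure

/-!
# IG19-ThreeRk: the rank function

`rk4 b R A B` is the maximum of `exp (j/(4b))` over the `j < n` with `R ≤ cnt A B j` (`0` if there is none).
* `rk4_le`: if `R ≥ 1` and `R ≤ cnt A B j` then some vertex has load at least `j`; loads are at most `n - 1`
  (`Valid`, `ld_le`), so `j < n` and `j` is in the index set (`le_mx`).
* `rk4_cases`: if the index set is empty then `rk4 = 0` (`mx_empty`), otherwise the maximum is attained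
  (`Finset.le_fold_max` with `c = mx`, the values are positive; or take `j` maximal in the index set,
  `exp` is monotone).
* `rk4_start`: at the start all loads are `0`, so `cnt ∅ ∅ j = 0` for `j ≥ 1` (`R ≥ 1`): the index set is
  contained in `{0}`.
* `rk4_of_unf`: if `Unf A B = ∅` all `cnt` are `0 < R`.
-/

namespace Pool.Agent.IG19

open Finset

variable {n b : ℕ} {A B X : Finset (Sym2 (Fin n))}

theorem rk4_nonneg (R : ℕ) (A B : Finset (Sym2 (Fin n))) : 0 ≤ rk4 b R A B :=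
  mx_nonneg _ _

theorem rk4_le {R j : ℕ} (hR : 1 ≤ R) (hV : Valid A B) (hj : R ≤ cnt A B j) :
    Real.exp ((j : ℝ) / (4 * b)) ≤ rk4 b R A B := by
  have h1 : 0 < cnt A B j := lt_of_lt_of_le hR hj
  unfold cnt at h1
  obtain ⟨v, hv⟩ := Finset.card_pos.1 h1
  have h2 : j ≤ ld B v := (Finset.mem_filter.1 hv).2
  have h3 : ld B v ≤ n - 1 := ld_le hV.hB v
  have h4 : (v : ℕ) < n := v.2
  have h5 : j ∈ (range n).filter (fun j => R ≤ cnt A B j) :=
    Finset.mem_filter.2 ⟨Finset.mem_range.2 (by omega), hj⟩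
  exact le_mx (g := fun j : ℕ => Real.exp ((j : ℝ) / (4 * b))) h5

theorem rk4_cases (R : ℕ) (A B : Finset (Sym2 (Fin n))) :
    rk4 b R A B = 0 ∨ ∃ j, R ≤ cnt A B j ∧ rk4 b R A B = Real.exp ((j : ℝ) / (4 * b)) := by
  rcases ((range n).filter (fun j => R ≤ cnt A B j)).eq_empty_or_nonempty with h | h
  · left
    unfold rk4
    rw [h]
    exact mx_empty _
  · right
    obtain ⟨j, hj, hmax⟩ := Finset.exists_max_image _ (fun j : ℕ => Real.exp ((j : ℝ) / (4 * b))) h
    refine ⟨j, (Finset.mem_filter.1 hj).2, le_antisymm ?_ ?_⟩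
    · exact mx_le (Real.exp_pos _).le hmax
    · exact le_mx (g := fun j : ℕ => Real.exp ((j : ℝ) / (4 * b))) hj

theorem rk4_start {R : ℕ} (hR : 1 ≤ R) :
    rk4 b R (∅ : Finset (Sym2 (Fin n))) ∅ ≤ 1 := by
  refine mx_le zero_le_one ?_
  intro j hj
  have h1 : R ≤ cnt (∅ : Finset (Sym2 (Fin n))) ∅ j := (Finset.mem_filter.1 hj).2
  have h2 : 0 < cnt (∅ : Finset (Sym2 (Fin n))) ∅ j := lt_of_lt_of_le hR h1
  unfold cnt at h2
  obtain ⟨v, hv⟩ := Finset.card_pos.1 h2
  have h3 : j ≤ ld (∅ : Finset (Sym2 (Fin n))) v := (Finset.mem_filter.1 hv).2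
  have h4 : ld (∅ : Finset (Sym2 (Fin n))) v = 0 := by simp [ld]
  have h5 : j = 0 := by omega
  subst h5
  simp

theorem rk4_of_unf {R : ℕ} (hR : 1 ≤ R) (h : Unf A B = ∅) : rk4 b R A B = 0 := by
  unfold rk4
  have h1 : (range n).filter (fun j => R ≤ cnt A B j) = ∅ := by
    rw [Finset.filter_eq_empty_iff]
    intro j _
    unfold cnt
    rw [h]
    simp only [Finset.filter_empty, Finset.card_empty]
    omega
  rw [h1]
  exact mx_empty _

end Pool.Agent.IG19
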