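import Pool.Agent.IG19.ThreeDef
import Pool.Agent.IG19.UOneLin

/-!
# IG19-ThreeZ: the sum over the top ranks

* `gain_le`: for numbers `x v ≤ b` with sum at most `2 b` and weights `g v ∈ [0, m]`:
  `∑ g v (exp (x v/(4b)) - 1) ≤ m ∑ (x v/b)(exp (1/4) - 1) ≤ 2 (exp (1/4) - 1) m ≤ 0.5681 m`
  (convexity of `exp`: for `t ∈ [0,1]`, `exp (t/4) - 1 ≤ t (exp (1/4) - 1)`).
* `ZB_step`: write `g v = exp (ld B v/(4b))`, `m` = maximum of `g` over `Unf A B`; by `hK`,
  `g u ≥ exp (-1/4) m ≥ 0.7788 m`.  Let `T ⊆ Unf (insert e A) (B ∪ X)`, `|T| ≤ R`, so `T ⊆ Unf A B`,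
  `u ∉ T` (`unf_step`).  If `|T| < R` let `T⁺ = insert u T`.  If `|T| = R` let `q ∈ T` have minimal load and
  `T⁺ = insert u (T \ {q})`; then `R` vertices have load at least `ld B q`, so `g q ≤ r` by `hr`.
  In both cases `|T⁺| ≤ R`, so `s := ∑_{T⁺} g ≤ Z` and `s ≤ R m`, and `∑_T g ≤ s - g u + r`.
  After the move of `S` (`gain_le` with `x v = ld X v`, `ld_union_le`):
  `∑_T exp (ld (B ∪ X) v/(4b)) ≤ s - 0.7788 m + 0.5681 m + r ≤ s - m/5 + r ≤ (1 - 1/(5R)) s + r
  ≤ (1 - 1/(5R)) Z + r`.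
* `ZB_count`: if `b + 1 ≤ R` vertices had `exp (ld/b) ≥ M₀` where `M₀ = (Z/b)^4 > 0`, then for a set `T` of
  `b + 1` of them the sum would be at least `(b + 1) Z/b > Z` (`exp (ld/(4b)) = (exp (ld/b))^(1/4) ≥ Z/b`, compare
  fourth powers, `Real.exp_nat_mul`).
* `ZB_count2`: the same with `2 b + 1` vertices: `(2b + 1) Z'/b ≥ (2b + 1) Z/(2b) > Z`.
-/

namespace Pool.Agent.IG19

open Finset

variable {n b : ℕ} {A B X : Finset (Sym2 (Fin n))}

private theorem exp_quarter_le : Real.exp (1 / 4) ≤ 1285 / 1000 := by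
  have h1 : Real.exp (1 / 4) ^ 4 = Real.exp 1 := by
    rw [← Real.exp_nat_mul]; norm_num
  have h2 := Real.exp_one_lt_d9
  by_contra hcon
  have h3 : (1285 / 1000 : ℝ) < Real.exp (1 / 4) := not_le.1 hcon
  have h4 : (1285 / 1000 : ℝ) ^ 4 < Real.exp (1 / 4) ^ 4 := by
    gcongr
  rw [h1] at h4
  norm_num at h4
  linarith

private theorem exp_neg_quarter_ge : (778 / 1000 : ℝ) ≤ Real.exp (-(1 / 4)) := by
  rw [Real.exp_neg]
  have h1 := exp_quarter_le
  have h2 := Real.exp_pos (1 / 4)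
  rw [le_inv_comm₀ (by norm_num) h2]
  refine h1.trans ?_
  norm_num

private theorem exp_conv {t : ℝ} (h0 : 0 ≤ t) (h1 : t ≤ 1) :
    Real.exp (t / 4) ≤ 1 + t * (285 / 1000) := by
  have hc := convexOn_exp.2 (Set.mem_univ (0 : ℝ)) (Set.mem_univ (1 / 4 : ℝ))
    (sub_nonneg.2 h1) h0 (by ring)
  simp only [smul_eq_mul, mul_zero, zero_add, Real.exp_zero, mul_one] at hc
  have h2 : t * (1 / 4) = t / 4 := by ring
  rw [h2] at hc
  have h3 := exp_quarter_le
  have h4 : t * Real.exp (1 / 4) ≤ t * (1285 / 1000) := mul_le_mul_of_nonneg_left h3 h0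
  nlinarith

theorem gain_le {α : Type*} (hb : 1 ≤ b) (T : Finset α) (g : α → ℝ) (x : α → ℕ) {m : ℝ}
    (hg : ∀ v ∈ T, 0 ≤ g v) (hgm : ∀ v ∈ T, g v ≤ m) (hm : 0 ≤ m) (hx : ∀ v ∈ T, x v ≤ b)
    (hsum : ∑ v ∈ T, x v ≤ 2 * b) :
    ∑ v ∈ T, g v * Real.exp ((x v : ℝ) / (4 * b)) ≤ ∑ v ∈ T, g v + 57 / 100 * m := by
  have hb0 : (0 : ℝ) < b := by exact_mod_cast hb
  have h1 : ∀ v ∈ T, g v * Real.exp ((x v : ℝ) / (4 * b)) ≤
      g v + m * (285 / 1000) / b * (x v : ℝ) := by
    intro v hv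
    have hxv : (x v : ℝ) ≤ b := by exact_mod_cast hx v hv
    have ht0 : 0 ≤ (x v : ℝ) / b := by positivity
    have ht1 : (x v : ℝ) / b ≤ 1 := by
      rw [div_le_one hb0]; exact hxv
    have h2 := exp_conv ht0 ht1
    have h3 : (x v : ℝ) / b / 4 = (x v : ℝ) / (4 * b) := by
      field_simp
    rw [h3] at h2
    have h4 : g v * Real.exp ((x v : ℝ) / (4 * b)) ≤ g v * (1 + (x v : ℝ) / b * (285 / 1000)) :=
      mul_le_mul_of_nonneg_left h2 (hg v hv)
    have h5 : g v * ((x v : ℝ) / b * (285 / 1000)) ≤ m * ((x v : ℝ) / b * (285 / 1000)) :=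
      mul_le_mul_of_nonneg_right (hgm v hv) (by positivity)
    have h6 : m * ((x v : ℝ) / b * (285 / 1000)) = m * (285 / 1000) / b * (x v : ℝ) := by
      ring
    linarith
  have h7 := Finset.sum_le_sum h1
  rw [Finset.sum_add_distrib, ← Finset.mul_sum] at h7
  have h8 : ∑ v ∈ T, (x v : ℝ) ≤ 2 * b := by exact_mod_cast hsum
  have h9 : m * (285 / 1000) / b * ∑ v ∈ T, (x v : ℝ) ≤ m * (285 / 1000) / b * (2 * b) :=
    mul_le_mul_of_nonneg_left h8 (by positivity)
  have h10 : m * (285 / 1000) / b * (2 * b) = 57 / 100 * m := by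
    field_simp
    ring
  linarith

theorem ZB_step {R : ℕ} {Z r : ℝ} (hb : 1 ≤ b) (hR : 1 ≤ R) (hV : Valid A B) (h : ZB b R Z A B)
    {u : Fin n} (hu : u ∈ Unf A B) (hK : ∀ w ∈ Unf A B, ld B w ≤ ld B u + b)
    {e : Sym2 (Fin n)} (he : e ∈ free A B) (hue : u ∈ e) (hX : X ⊆ free (insert e A) B)
    (hXc : X.card ≤ b) (hr0 : 0 ≤ r)
    (hr : ∀ j : ℕ, R ≤ cnt A B j → Real.exp ((j : ℝ) / (4 * b)) ≤ r) :
    ZB b R ((1 - 1 / (5 * R)) * Z + r) (insert e A) (B ∪ X) := by
  intro T hT hTc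
  have hb0 : (0 : ℝ) < b := by exact_mod_cast hb
  have hR1 : (1 : ℝ) ≤ R := by exact_mod_cast hR
  have hTU : T ⊆ Unf A B := fun v hv => (unf_step hV he hX (hT hv)).1
  have huT : u ∉ T := fun hv => (unf_step hV he hX (hT hv)).2 hue
  set g : Fin n → ℝ := fun v => Real.exp ((ld B v : ℝ) / (4 * b)) with hgdef
  have hgpos : ∀ v, 0 < g v := fun v => Real.exp_pos _
  set m : ℝ := Real.exp (1 / 4) * g u with hm
  have hm0 : 0 < m := by positivity
  have hgm : ∀ w ∈ Unf A B, g w ≤ m := by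
    intro w hw
    have h1 := hK w hw
    rw [hm, hgdef]
    simp only
    rw [← Real.exp_add]
    apply Real.exp_le_exp.2
    have h2 : (ld B w : ℝ) ≤ ld B u + b := by exact_mod_cast h1
    rw [div_add_div _ _ (by norm_num) (by positivity), div_le_div_iff₀ (by positivity) (by positivity)]
    nlinarith
  have hgu : 778 / 1000 * m ≤ g u := by
    have h1 := exp_quarter_le
    have h2 : Real.exp (1 / 4) * g u ≤ 1285 / 1000 * g u :=
      mul_le_mul_of_nonneg_right h1 (hgpos u).le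
    rw [hm]
    nlinarith [hgpos u]
  -- the exchange
  obtain ⟨s, hs1, hs2, hs3⟩ : ∃ s : ℝ, s ≤ Z ∧ s ≤ R * m ∧ ∑ v ∈ T, g v ≤ s - g u + r := by
    rcases Nat.lt_or_ge T.card R with hlt | hge
    · refine ⟨∑ v ∈ insert u T, g v, ?_, ?_, ?_⟩
      · apply h
        · intro v hv
          rcases mem_insert.1 hv with rfl | hv
          · exact hu
          · exact hTU hv
        · rw [card_insert_of_notMem huT]; exact hlt
      · have h1 : ∑ v ∈ insert u T, g v ≤ ∑ v ∈ insert u T, m := by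
          apply Finset.sum_le_sum
          intro v hv
          rcases mem_insert.1 hv with rfl | hv
          · exact hgm _ hu
          · exact hgm _ (hTU hv)
        rw [Finset.sum_const, nsmul_eq_mul] at h1
        have h2 : ((insert u T).card : ℝ) ≤ R := by
          rw [card_insert_of_notMem huT]; exact_mod_cast hlt
        have h3 : ((insert u T).card : ℝ) * m ≤ R * m := mul_le_mul_of_nonneg_right h2 hm0.le
        linarith
      · rw [Finset.sum_insert huT]; linarith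
    · have hTR : T.card = R := le_antisymm hTc hge
      have hne : T.Nonempty := by
        rw [← Finset.card_pos]; omega
      obtain ⟨q, hq, hqm⟩ := Finset.exists_min_image T (ld B) hne
      have hcnt : R ≤ cnt A B (ld B q) := by
        unfold cnt
        rw [← hTR]
        apply card_le_card
        intro v hv
        exact mem_filter.2 ⟨hTU hv, hqm v hv⟩
      have hgq : g q ≤ r := hr _ hcnt
      have huE : u ∉ T.erase q := fun hv => huT (mem_of_mem_erase hv)
      have hcard : (insert u (T.erase q)).card = R := by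
        rw [card_insert_of_notMem huE, card_erase_of_mem hq, hTR]; omega
      have hsub : ∀ v ∈ insert u (T.erase q), v ∈ Unf A B := by
        intro v hv
        rcases mem_insert.1 hv with rfl | hv
        · exact hu
        · exact hTU (mem_of_mem_erase hv)
      refine ⟨∑ v ∈ insert u (T.erase q), g v, ?_, ?_, ?_⟩
      · exact h _ hsub hcard.le
      · have h1 : ∑ v ∈ insert u (T.erase q), g v ≤ ∑ v ∈ insert u (T.erase q), m :=
          Finset.sum_le_sum (fun v hv => hgm _ (hsub v hv))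
        rw [Finset.sum_const, nsmul_eq_mul, hcard] at h1
        exact h1
      · rw [Finset.sum_insert huE]
        have h1 := Finset.add_sum_erase T g hq
        linarith
  have hstep : ∑ v ∈ T, Real.exp ((ld (B ∪ X) v : ℝ) / (4 * b)) ≤
      ∑ v ∈ T, g v * Real.exp ((ld X v : ℝ) / (4 * b)) := by
    apply Finset.sum_le_sum
    intro v _
    rw [hgdef]
    simp only
    rw [← Real.exp_add]
    apply Real.exp_le_exp.2
    have h1 := ld_union_le (B := B) (X := X) v
    have h2 : (ld (B ∪ X) v : ℝ) ≤ ld B v + ld X v := by exact_mod_cast h1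
    rw [← add_div]
    exact div_le_div_of_nonneg_right h2 (by positivity)
  have hgain := gain_le hb T g (fun v => ld X v) (m := m) (fun v _ => (hgpos v).le)
    (fun v hv => hgm v (hTU hv)) hm0.le (fun v _ => (ld_le_card v).trans hXc)
    ((sum_ld_le T).trans (by omega))
  have hfin : s ≤ Z := hs1
  have hRm : s / (5 * R) ≤ m / 5 := by
    rw [div_le_div_iff₀ (by positivity) (by norm_num)]
    nlinarith
  have h1R : 1 / (5 * (R : ℝ)) ≤ 1 := by
    rw [div_le_one (by positivity)]; linarith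
  have hlast : (1 - 1 / (5 * (R : ℝ))) * s ≤ (1 - 1 / (5 * (R : ℝ))) * Z :=
    mul_le_mul_of_nonneg_left hfin (by linarith)
  have hexp : (1 - 1 / (5 * (R : ℝ))) * s = s - s / (5 * R) := by ring
  have hgain' : ∑ v ∈ T, g v * Real.exp ((ld X v : ℝ) / (4 * b)) ≤
      ∑ v ∈ T, g v + 57 / 100 * m := hgain
  linarith

private theorem exp_four (l : ℕ) (hb : 1 ≤ b) :
    Real.exp ((l : ℝ) / (4 * b)) ^ 4 = Real.exp ((l : ℝ) / b) := by
  have hb0 : (0 : ℝ) < b := by exact_mod_cast hb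
  rw [← Real.exp_nat_mul]
  congr 1
  push_cast
  field_simp

theorem ZB_count {R : ℕ} {Z : ℝ} (hb : 1 ≤ b) (hR : b + 1 ≤ R) (hZ : 0 < Z)
    (h : ZB b R Z A B) :
    ((Unf A B).filter (fun v => (Z / b) ^ 4 ≤ Real.exp ((ld B v : ℝ) / b))).card ≤ b := by
  by_contra hcon
  have hb0 : (0 : ℝ) < b := by exact_mod_cast hb
  obtain ⟨T, hT, hTc⟩ := exists_subset_card_eq (not_le.1 hcon : b + 1 ≤ _)
  have h1 := h T (fun v hv => (mem_filter.1 (hT hv)).1) (by omega)
  have h2 : ∀ v ∈ T, Z / b ≤ Real.exp ((ld B v : ℝ) / (4 * b)) := by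
    intro v hv
    have h3 := (mem_filter.1 (hT hv)).2
    rw [← exp_four _ hb] at h3
    exact le_of_pow_le_pow_left₀ (by norm_num) (Real.exp_pos _).le h3
  have h4 := Finset.sum_le_sum h2
  rw [Finset.sum_const, nsmul_eq_mul, hTc] at h4
  have h5 : ((b + 1 : ℕ) : ℝ) * (Z / b) = Z + Z / b := by
    push_cast
    field_simp
  rw [h5] at h4
  have h6 : 0 < Z / b := by positivity
  linarith

theorem ZB_count2 {R : ℕ} {Z Z' : ℝ} (hb : 1 ≤ b) (hR : 2 * b + 1 ≤ R) (hZ : 0 < Z)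
    (hZZ : Z / 2 ≤ Z') (h : ZB b R Z A B) :
    ((Unf A B).filter (fun v => (Z' / b) ^ 4 < Real.exp ((ld B v : ℝ) / b))).card ≤ 2 * b := by
  by_contra hcon
  have hb0 : (0 : ℝ) < b := by exact_mod_cast hb
  obtain ⟨T, hT, hTc⟩ := exists_subset_card_eq (not_le.1 hcon : 2 * b + 1 ≤ _)
  have h1 := h T (fun v hv => (mem_filter.1 (hT hv)).1) (by omega)
  have h2 : ∀ v ∈ T, Z / (2 * b) ≤ Real.exp ((ld B v : ℝ) / (4 * b)) := by
    intro v hv
    have h3 := (mem_filter.1 (hT hv)).2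
    rw [← exp_four _ hb] at h3
    have h7 := le_of_pow_le_pow_left₀ (by norm_num) (Real.exp_pos _).le h3.le
    refine le_trans ?_ h7
    rw [← div_div]
    exact div_le_div_of_nonneg_right hZZ hb0.le
  have h4 := Finset.sum_le_sum h2
  rw [Finset.sum_const, nsmul_eq_mul, hTc] at h4
  have h5 : ((2 * b + 1 : ℕ) : ℝ) * (Z / (2 * b)) = Z + Z / (2 * b) := by
    push_cast
    field_simp
  rw [h5] at h4
  have h6 : 0 < Z / (2 * b) := by positivity
  linarith

end Pool.Agent.IG19
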