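import Pool.Agent.IG19.ThreeC
import Pool.Agent.IG19.ThreeKill
import Pool.Agent.IG19.ThreeRk
import Pool.Agent.IG19.ThreeA2
import Pool.Agent.IG19.ThreeZ
import Pool.Agent.IG19.ThreeCrude
import Pool.Agent.IG19.GameA

/-!
# IG19-ThreeMain: the sharper upper bound with parameters

The invariant `Inv3` carries a bound `Z` for the sum over the top ranks, a bound `Pb` for the rank
potential, and the set `H` of heavy vertices with its age order; the threshold is `M = e (Z/b)^4`.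
-/

namespace Pool.Agent.IG19

open Finset

variable {n b : ℕ} {A B X : Finset (Sym2 (Fin n))}

/-- The invariant of the first player. -/
private def Inv3 (b R : ℕ) (α L a2 a3 Q0 : ℝ) (A B : Finset (Sym2 (Fin n))) : Prop :=
  Valid A B ∧ Crude b A B ∧ ∃ (Z Pb : ℝ) (H : Finset (Fin n)) (ord : Fin n → ℕ),
    0 < Z ∧ Z ≤ 5 * R * Real.exp (5 * L / 4) ∧ ZB b R Z A B ∧ 0 ≤ Pb ∧
    (∀ j, PA α b R j A B ≤ Pb) ∧ H ⊆ Unf A B ∧ Set.InjOn ord H ∧
    (∀ v ∈ Unf A B, v ∉ H → Real.exp ((ld B v : ℝ) / b) < Real.exp 1 * (Z / b) ^ 4) ∧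
    (∀ v ∈ H, (Z / b) ^ 4 ≤ Real.exp ((ld B v : ℝ) / b)) ∧
    PC b (Real.exp 1 * (Z / b) ^ 4) ord H A B +
      kap n b * (15 * R * (Real.exp 1 * (Z / b) ^ 4) + a2 * (rk4 b R A B) ^ 4 + a3 * Pb) ≤ Q0

private theorem kap_pos (n b : ℕ) : 0 < kap n b := by unfold kap; positivity

private theorem inv3_end {R : ℕ} {α L a2 a3 Q0 : ℝ} (ha2 : 0 ≤ a2) (ha3 : 0 ≤ a3)
    (h : Inv3 b R α L a2 a3 Q0 A B) (hf : free A B = ∅) : ((U A).card : ℝ) ≤ Q0 := by
  obtain ⟨hV, -, Z, Pb, H, ord, hZ, -, -, hPb, -, hH, -, -, -, hQ⟩ := h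
  have hUF : U A ⊆ Fsh A B := by
    intro v hv
    unfold Fsh
    rw [Finset.mem_filter]
    exact ⟨hv, ld_eq_of_free_empty hV hf hv⟩
  have h1 : ((U A).card : ℝ) ≤ (Fsh A B).card := by exact_mod_cast Finset.card_le_card hUF
  have hk := kap_pos n b
  have h2 : 0 ≤ ∑ v ∈ H, wt b ord H (free A B) v - mx H (wt b ord H (free A B)) := by
    have := mx_le_sum (H := H) (g := wt b ord H (free A B)) (fun v _ => (Real.exp_pos _).le)
    linarith
  have hM : 0 < Real.exp 1 * (Z / b) ^ 4 ∨ True := Or.inr trivial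
  have hM0 : 0 ≤ Real.exp 1 * (Z / b) ^ 4 := by positivity
  have h3 : 0 ≤ ∑ v ∈ Unf A B \ H, cr b (Real.exp 1 * (Z / b) ^ 4) (ld B v) :=
    Finset.sum_nonneg (fun v _ => cr_nonneg hM0 _)
  have h4 : 0 ≤ 15 * R * (Real.exp 1 * (Z / b) ^ 4) + a2 * (rk4 b R A B) ^ 4 + a3 * Pb := by
    positivity
  have h5 := mul_nonneg hk.le h3
  have h6 := mul_nonneg hk.le h4
  have h7 := mul_nonneg (Real.exp_pos 1).le h2
  unfold PC at hQ
  linarith

private theorem inv3_step_empty {R : ℕ} {α L a2 a3 Q0 : ℝ} (hR1 : 1 ≤ R)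
    (ha2 : 0 ≤ a2) (h : Inv3 b R α L a2 a3 Q0 A B) (hU : Unf A B = ∅)
    {e : Sym2 (Fin n)} (he : e ∈ free A B) (hX : X ⊆ free (insert e A) B) :
    Inv3 b R α L a2 a3 Q0 (insert e A) (B ∪ X) := by
  classical
  obtain ⟨hV, -, Z, Pb, H, ord, hZ, hZle, -, hPb, -, hH, -, -, -, hQ⟩ := h
  have hV1 : Valid (insert e A) B := hV.insertA he
  have hV2 : Valid (insert e A) (B ∪ X) := hV1.unionB hX
  have hU' : Unf (insert e A) (B ∪ X) = ∅ := by
    rw [Finset.eq_empty_iff_forall_notMem]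
    intro v hv
    have := (unf_step hV he hX hv).1
    rw [hU] at this
    simp at this
  have hHe : H = ∅ := by
    rw [hU] at hH
    exact Finset.subset_empty.1 hH
  subst hHe
  refine ⟨hV2, ?_, Z, Pb, ∅, ord, hZ, hZle, ?_, hPb, ?_, by simp, by simp, ?_, by simp, ?_⟩
  · intro J hJ hJ1
    rw [hU'] at hJ
    rw [Finset.subset_empty.1 hJ] at hJ1
    simp at hJ1
  · intro T hT _
    rw [hU'] at hT
    rw [Finset.subset_empty.1 hT]
    simpa using hZ.le
  · intro j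
    unfold PA
    rw [hU']
    have : 0 ≤ (R : ℝ) * ph α b j := mul_nonneg (by positivity) (Real.exp_pos _).le
    simp only [Finset.sum_empty]
    linarith
  · intro v hv
    rw [hU'] at hv
    simp at hv
  · have h1 : rk4 b R (insert e A) (B ∪ X) = 0 := rk4_of_unf hR1 hU'
    have h2 : (Fsh (insert e A) (B ∪ X)).card ≤ (Fsh A B).card := by
      apply Finset.card_le_card
      intro v hv
      have hv1 := Finset.mem_filter.1 hv
      have hvU : v ∈ U A := U_insert_subset hv1.1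
      by_contra hcon
      have : v ∈ Unf A B := by
        unfold Unf
        rw [Finset.mem_filter]
        refine ⟨hvU, fun hl => hcon ?_⟩
        unfold Fsh
        rw [Finset.mem_filter]
        exact ⟨hvU, hl⟩
      rw [hU] at this
      simp at this
    have h2' : ((Fsh (insert e A) (B ∪ X)).card : ℝ) ≤ (Fsh A B).card := by exact_mod_cast h2
    have hk := kap_pos n b
    have h3 : 0 ≤ kap n b * (a2 * (rk4 b R A B) ^ 4) := by
      have := rk4_nonneg (b := b) R A B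
      positivity
    unfold PC at hQ ⊢
    rw [h1, hU']
    rw [hU] at hQ
    simp only [Finset.sum_empty, Finset.empty_sdiff, mx_empty] at hQ ⊢
    have e0 : kap n b * (15 * R * (Real.exp 1 * (Z / b) ^ 4) + a2 * (0 : ℝ) ^ 4 + a3 * Pb) =
        kap n b * (15 * R * (Real.exp 1 * (Z / b) ^ 4) + a3 * Pb) := by ring
    rw [e0]
    linarith

private theorem pow4_convex {ρ x y : ℝ} (hρ0 : 0 ≤ ρ) (hρ1 : ρ ≤ 1) (hx : 0 ≤ x) (hy : 0 ≤ y) :
    ((1 - ρ) * x + ρ * y) ^ 4 ≤ (1 - ρ) * x ^ 4 + ρ * y ^ 4 := by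
  have h2 : ((1 - ρ) * x + ρ * y) ^ 2 ≤ (1 - ρ) * x ^ 2 + ρ * y ^ 2 := by
    have : 0 ≤ (1 - ρ) * ρ * (x - y) ^ 2 :=
      mul_nonneg (mul_nonneg (by linarith) hρ0) (sq_nonneg _)
    nlinarith
  have h3 : ((1 - ρ) * x ^ 2 + ρ * y ^ 2) ^ 2 ≤ (1 - ρ) * (x ^ 2) ^ 2 + ρ * (y ^ 2) ^ 2 := by
    have : 0 ≤ (1 - ρ) * ρ * (x ^ 2 - y ^ 2) ^ 2 :=
      mul_nonneg (mul_nonneg (by linarith) hρ0) (sq_nonneg _)
    nlinarith
  calc ((1 - ρ) * x + ρ * y) ^ 4 = (((1 - ρ) * x + ρ * y) ^ 2) ^ 2 := by ring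
    _ ≤ ((1 - ρ) * x ^ 2 + ρ * y ^ 2) ^ 2 := by
        apply pow_le_pow_left₀ (by positivity) h2
    _ ≤ (1 - ρ) * (x ^ 2) ^ 2 + ρ * (y ^ 2) ^ 2 := h3
    _ = _ := by ring

private theorem inv3_step {R : ℕ} {α L a2 a3 Q0 : ℝ} (hb : 1 ≤ b) (hbn : b ≤ n)
    (hL : L = 1 + Real.log ((n : ℝ) / b)) (hL1 : 1 ≤ L) (hRb : 32 * b ≤ R)
    (hR : 32 * b * L ≤ R) (hα : α = 1 - 1 / (4 * L))
    (ha2 : a2 = 5 * (Real.exp 1 * (5 * R / b) ^ 4)) (ha3 : a3 = 4 * L * Real.exp (5 / 4) * a2)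
    (hbig : Real.exp 1 * (Real.exp 1 * (5 * R / b) ^ 4 * Real.exp (5 * L)) ≤
      Real.exp (((n : ℝ) - 1) / b))
    (h : Inv3 b R α L a2 a3 Q0 A B) (hne : (Unf A B).Nonempty) :
    ∃ e ∈ free A B, ∀ X, X ⊆ free (insert e A) B → X.card ≤ b →
      Inv3 b R α L a2 a3 Q0 (insert e A) (B ∪ X) := by
  obtain ⟨hV, hC, Z, Pb, H, ord, hZ, hZle, hZB, hPb, hPA, hH, hord, hH1, hH2, hQ⟩ := h
  have hb0 : (0 : ℝ) < b := by exact_mod_cast hb
  have hR1 : 1 ≤ R := by omega
  have hR0 : (0 : ℝ) < R := by exact_mod_cast hR1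
  have hE : 0 < Real.exp 1 := Real.exp_pos 1
  have hL0 : 0 < L := by linarith
  set M : ℝ := Real.exp 1 * (Z / b) ^ 4 with hMd
  have hM0 : 0 < M := by positivity
  have hMe : M / Real.exp 1 = (Z / b) ^ 4 := by
    rw [hMd]; field_simp
  have hcount0 := ZB_count (b := b) hb (by omega : b + 1 ≤ R) hZ hZB
  have hHc : H.card ≤ b := by
    refine le_trans (Finset.card_le_card ?_) hcount0
    intro v hv
    rw [Finset.mem_filter]
    exact ⟨hH hv, hH2 v hv⟩
  obtain ⟨u, hu⟩ := kill_exists (b := b) ord hH hne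
  have huU : u ∈ Unf A B := hu.1
  have hH2M : ∀ v ∈ H, M / Real.exp 1 ≤ Real.exp ((ld B v : ℝ) / b) := by
    intro v hv
    rw [hMe]
    exact hH2 v hv
  have hK : ∀ w ∈ Unf A B, ld B w ≤ ld B u + b := fun w hw =>
    kill_le hb hV hH hHc hH1 hH2M hu hw
  have hK2 : ∀ i, b < cnt A B i → i ≤ ld B u := by
    intro i hi
    refine kill_cnt (M := M) hb ?_ hH2M hu hi
    simpa only [hMe] using hcount0
  have huU' := Finset.mem_filter.1 huU
  obtain ⟨e, hg⟩ := exists_good hV huU'.1 huU'.2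
  have he : e ∈ free A B := hg.1
  have hue : u ∈ e := hg.2.1
  refine ⟨e, he, fun X hX hXc => ?_⟩
  have hV1 : Valid (insert e A) B := hV.insertA he
  have hV2 : Valid (insert e A) (B ∪ X) := hV1.unionB hX
  have hC' : Crude b (insert e A) (B ∪ X) := crude_step hb hV hC huU hK he hue hX hXc
  have hG' : GG R (insert e A) (B ∪ X) ≤ b := crude_G hb hbn (by rw [← hL]; exact hR) hC'
  -- the rank function
  set r : ℝ := rk4 b R A B with hrd
  have hr0 : 0 ≤ r := rk4_nonneg R A B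
  have hr : ∀ j : ℕ, R ≤ cnt A B j → Real.exp ((j : ℝ) / (4 * b)) ≤ r := fun j hj =>
    rk4_le hR1 hV hj
  have hjle : ∀ j : ℕ, (j : ℝ) ≤ 5 * b * L → (j : ℝ) / (4 * b) ≤ 5 * L / 4 := by
    intro j hj
    rw [div_le_div_iff₀ (by positivity) (by norm_num)]
    linarith
  have hrle : r ≤ Real.exp (5 * L / 4) := by
    rcases rk4_cases (b := b) R A B with h0 | ⟨j, hj, hj'⟩
    · rw [hrd, h0]
      positivity
    · rw [hrd, hj']
      apply Real.exp_le_exp.2
      apply hjle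
      rw [hL]
      exact crude_rank hb hbn (by omega) hC hj
  set ρ : ℝ := 1 / (5 * R) with hρ
  have hρR : R * ρ = 1 / 5 := by rw [hρ]; field_simp
  have hρ0 : 0 < ρ := by positivity
  have hρ1 : ρ * 160 ≤ 1 := by
    rw [hρ, div_mul_eq_mul_div, div_le_one (by positivity)]
    have : (32 : ℝ) ≤ R := by exact_mod_cast (by omega : 32 ≤ R)
    linarith
  set Z' : ℝ := (1 - 1 / (5 * R)) * Z + r with hZ'd
  have hZ'e : Z' = (1 - ρ) * Z + r := rfl
  have hZZ : (1 - ρ) * Z ≤ Z' := by linarith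
  have hZ'0 : 0 < Z' := by
    have : 0 < (1 - ρ) * Z := mul_pos (by linarith) hZ
    linarith
  have hZ'2 : Z / 2 ≤ Z' := by
    have : Z / 2 ≤ (1 - ρ) * Z := by
      have h1 := mul_le_mul_of_nonneg_right hρ1 hZ.le
      linarith
    linarith
  have hZ'le : Z' ≤ 5 * R * Real.exp (5 * L / 4) := by
    have h1 : (1 - ρ) * Z ≤ (1 - ρ) * (5 * R * Real.exp (5 * L / 4)) :=
      mul_le_mul_of_nonneg_left hZle (by linarith)
    have h2 : ρ * (5 * R * Real.exp (5 * L / 4)) = Real.exp (5 * L / 4) := by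
      calc ρ * (5 * R * Real.exp (5 * L / 4)) = 5 * (R * ρ) * Real.exp (5 * L / 4) := by ring
        _ = _ := by rw [hρR]; ring
    linarith
  have hZB' : ZB b R Z' (insert e A) (B ∪ X) :=
    ZB_step hb hR1 hV hZB huU hK he hue hX hXc hr0 hr
  set M' : ℝ := Real.exp 1 * (Z' / b) ^ 4 with hM'd
  have hM'0 : 0 < M' := by positivity
  have hM'e : M' / Real.exp 1 = (Z' / b) ^ 4 := by
    rw [hM'd]; field_simp
  have hMM : M - M / (2 * b) ≤ M' := by
    have h1 : (1 - ρ) ^ 4 * M ≤ M' := by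
      have h2 : ((1 - ρ) * (Z / b)) ^ 4 ≤ (Z' / b) ^ 4 := by
        apply pow_le_pow_left₀ (mul_nonneg (by linarith) (by positivity))
        rw [← mul_div_assoc]
        exact div_le_div_of_nonneg_right hZZ hb0.le
      have h3 : (1 - ρ) ^ 4 * M = Real.exp 1 * ((1 - ρ) * (Z / b)) ^ 4 := by
        rw [hMd, mul_pow]; ring
      rw [h3, hM'd]
      exact mul_le_mul_of_nonneg_left h2 hE.le
    have h4 : 1 - 4 * ρ ≤ (1 - ρ) ^ 4 := by
      have := one_add_mul_le_pow (a := -ρ) (by linarith) 4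
      have e1 : (1 : ℝ) + (4 : ℕ) * (-ρ) = 1 - 4 * ρ := by push_cast; ring
      rw [e1] at this
      have e2 : (1 : ℝ) + -ρ = 1 - ρ := by ring
      rwa [e2] at this
    have h5 : 4 * ρ ≤ 1 / (2 * b) := by
      rw [hρ, le_div_iff₀ (by positivity)]
      have : (32 : ℝ) * b ≤ R := by exact_mod_cast hRb
      rw [mul_one_div, div_mul_eq_mul_div, div_le_one (by positivity)]
      linarith
    have h6 : M / (2 * b) = 1 / (2 * b) * M := by ring
    rw [h6]
    have h4' := mul_le_mul_of_nonneg_right h4 hM0.le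
    have h5' := mul_le_mul_of_nonneg_right h5 hM0.le
    linarith
  have hcount2 := ZB_count2 (b := b) hb (by omega : 2 * b + 1 ≤ R) hZ hZ'2 hZB
  have hcount' := ZB_count (b := b) hb (by omega : b + 1 ≤ R) hZ'0 hZB'
  have hbigM : Real.exp 1 * M ≤ Real.exp (((n : ℝ) - 1) / b) := by
    refine le_trans (mul_le_mul_of_nonneg_left ?_ hE.le) hbig
    rw [hMd, mul_assoc]
    apply mul_le_mul_of_nonneg_left _ hE.le
    have h1 : Z / b ≤ 5 * R / b * Real.exp (5 * L / 4) := by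
      rw [div_mul_eq_mul_div]
      exact div_le_div_of_nonneg_right hZle hb0.le
    have h2 := pow_le_pow_left₀ (by positivity) h1 4
    rw [mul_pow] at h2
    have h3 : Real.exp (5 * L / 4) ^ 4 = Real.exp (5 * L) := by
      rw [← Real.exp_nat_mul]
      congr 1
      push_cast
      ring
    rwa [h3] at h2
  have hukill : H = ∅ ∨ ∃ u ∈ H, u ∈ e ∧ ∀ v ∈ H,
      wt b ord H (free A B) v ≤ wt b ord H (free A B) u := by
    rcases hu.2 with h1 | h1
    · exact Or.inl h1.1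
    · exact Or.inr ⟨u, h1.1, hue, h1.2⟩
  obtain ⟨H', ord', hH', hord', hH1', hH2', hPC⟩ := PC_step (M := M) (M' := M') hb hM0 hM'0 hMM
    hbigM hH hord hH1 hV he hX hXc hukill (by simpa only [hM'e] using hcount2)
    (by simpa only [hM'e] using hcount')
  -- the recursion of M
  have ha20 : 0 ≤ a2 := by rw [ha2]; positivity
  have hM'le : M' ≤ (1 - ρ) * M + ρ * (a2 * r ^ 4 / 5) := by
    have h1 := pow4_convex (ρ := ρ) (x := Z / b) (y := 5 * R / b * r) hρ0.le (by linarith)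
      (by positivity) (by positivity)
    have h2 : (1 - ρ) * (Z / b) + ρ * (5 * R / b * r) = Z' / b := by
      have : ρ * (5 * R / b * r) = 5 * (R * ρ) * r / b := by ring
      rw [this, hρR, hZ'e]
      ring
    rw [h2] at h1
    have h3 := mul_le_mul_of_nonneg_left h1 hE.le
    have h4 : Real.exp 1 * ((1 - ρ) * (Z / b) ^ 4 + ρ * (5 * R / b * r) ^ 4) =
        (1 - ρ) * M + ρ * (a2 * r ^ 4 / 5) := by
      rw [hMd, ha2, mul_pow]
      ring
    rw [h4] at h3
    exact h3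
  have hrec : 15 * R * M' + 2 * M' + M ≤ 15 * R * M + a2 * r ^ 4 := by
    have hr4 : 0 ≤ a2 * r ^ 4 := by positivity
    have h1 : 15 * R * M' ≤ 15 * R * ((1 - ρ) * M + ρ * (a2 * r ^ 4 / 5)) :=
      mul_le_mul_of_nonneg_left hM'le (by positivity)
    have h2 : 15 * R * ((1 - ρ) * M + ρ * (a2 * r ^ 4 / 5)) =
        15 * R * M - 15 * (R * ρ) * M + 15 * (R * ρ) * (a2 * r ^ 4 / 5) := by ring
    rw [h2, hρR] at h1
    have h3 : ρ * (a2 * r ^ 4 / 5) ≤ a2 * r ^ 4 / 5 :=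
      mul_le_of_le_one_left (by positivity) (by linarith)
    have h4 : 0 ≤ ρ * M := by positivity
    linarith
  -- the rank potential
  set s : ℝ := 1 / (4 * L) with hsd
  have hs0 : 0 ≤ s := by positivity
  have hα0 : 0 ≤ α := by
    rw [hα]
    have : 1 / (4 * L) ≤ 1 := by
      rw [div_le_one (by positivity)]
      linarith
    linarith
  have hs : s ≤ 2 * (1 - α) - 8 * b / R := by
    rw [hα, hsd]
    have h1 : 8 * (b : ℝ) / R ≤ 1 / (4 * L) := by
      rw [div_le_div_iff₀ hR0 (by positivity)]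
      linarith
    linarith
  have hbase : ∀ Pb' : ℝ, 0 ≤ Pb' → (∀ j, PA α b R j (insert e A) (B ∪ X) ≤ Pb') →
      a2 * (rk4 b R (insert e A) (B ∪ X)) ^ 4 + a3 * Pb' ≤ a3 * Pb →
      Inv3 b R α L a2 a3 Q0 (insert e A) (B ∪ X) := by
    intro Pb' hPb' hPA' hle
    refine ⟨hV2, hC', Z', Pb', H', ord', hZ'0, hZ'le, hZB', hPb', hPA', hH', hord', hH1', ?_, ?_⟩
    · intro v hv
      have := hH2' v hv
      rwa [hM'e] at this
    · have hk := kap_pos n b
      have h1 : 15 * R * M' + a2 * (rk4 b R (insert e A) (B ∪ X)) ^ 4 + a3 * Pb' +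
          (2 * M' + M) ≤ 15 * R * M + a2 * r ^ 4 + a3 * Pb := by linarith
      have h2 := mul_le_mul_of_nonneg_left h1 hk.le
      rw [mul_add] at h2
      linarith
  rcases rk4_cases (b := b) R (insert e A) (B ∪ X) with h0 | ⟨j₀, hj₀, hj₀'⟩
  · apply hbase Pb hPb
    · exact PA_step_le hb hRb hα0 hs0 hs hPb hV huU hg hX hXc hK2 hG' hPA
    · rw [h0]
      simp
  · have hlt := PA_step_lt hb hRb hα0 hs0 hs hV huU hg hX hXc hK2 hG' hPA hj₀
    apply hbase (Pb - s * ph α b j₀)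
    · exact (PA_rank_nonneg hb hα0 hj₀).trans (hlt j₀)
    · exact hlt
    · rw [hj₀']
      have h1 : Real.exp ((j₀ : ℝ) / (4 * b)) ^ 4 = Real.exp ((j₀ : ℝ) / b) := by
        rw [← Real.exp_nat_mul]
        congr 1
        push_cast
        field_simp
      rw [h1]
      have hj5 : (j₀ : ℝ) ≤ 5 * b * L := by
        rw [hL]
        exact crude_rank hb hbn (by omega) hC' hj₀
      have h2 : Real.exp ((j₀ : ℝ) / b) ≤ Real.exp (5 / 4) * ph α b j₀ := by
        unfold ph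
        rw [← Real.exp_add]
        apply Real.exp_le_exp.2
        rw [hα]
        have h3 : (j₀ : ℝ) / b / (4 * L) ≤ 5 / 4 := by
          rw [div_div, div_le_div_iff₀ (by positivity) (by norm_num)]
          linarith
        have h4 : (1 - 1 / (4 * L)) * (j₀ : ℝ) / b = (j₀ : ℝ) / b - (j₀ : ℝ) / b / (4 * L) := by
          field_simp
        rw [h4]
        linarith
      have h5 : a3 * (s * ph α b j₀) = a2 * (Real.exp (5 / 4) * ph α b j₀) := by
        rw [ha3, hsd]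
        field_simp
      have h6 := mul_le_mul_of_nonneg_left h2 ha20
      rw [mul_sub, h5]
      linarith

private theorem unf_empty (hn : 2 ≤ n) : Unf (∅ : Finset (Sym2 (Fin n))) ∅ = univ := by
  ext v
  unfold Unf
  rw [Finset.mem_filter, U_empty]
  simp only [ld_empty, Finset.mem_univ, true_and, iff_true]
  omega

private theorem fsh_empty (hn : 2 ≤ n) : Fsh (∅ : Finset (Sym2 (Fin n))) ∅ = ∅ := by
  rw [Finset.eq_empty_iff_forall_notMem]
  intro v hv
  have := (Finset.mem_filter.1 hv).2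
  rw [ld_empty] at this
  omega

private theorem inv3_start {R : ℕ} {α L a2 a3 : ℝ} (hn : 2 ≤ n) (hb : 1 ≤ b) (hbn : b ≤ n)
    (hL1 : 1 ≤ L) (hRb : 32 * b ≤ R) (ha2 : 0 ≤ a2) (hα : 0 ≤ α) :
    Inv3 b R α L a2 a3 (kap n b * (15 * R * (Real.exp 1 * ((R : ℝ) / b) ^ 4) + a2 + a3 * n))
      (∅ : Finset (Sym2 (Fin n))) ∅ := by
  have hb0 : (0 : ℝ) < b := by exact_mod_cast hb
  have hR1 : 1 ≤ R := by omega
  have hR0 : (0 : ℝ) < R := by exact_mod_cast hR1
  have hn0 : (0 : ℝ) < n := by exact_mod_cast (by omega : 0 < n)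
  have hRb' : (b : ℝ) ≤ R := by exact_mod_cast (by omega : b ≤ R)
  have hrat : 1 ≤ (R : ℝ) / b := by rwa [one_le_div hb0]
  have hrat4 : 1 ≤ ((R : ℝ) / b) ^ 4 := one_le_pow₀ hrat
  have hE : 0 < Real.exp 1 := Real.exp_pos 1
  have hE1 : 1 < Real.exp 1 := Real.one_lt_exp_iff.2 (by norm_num)
  have hM1 : 1 < Real.exp 1 * ((R : ℝ) / b) ^ 4 := by nlinarith
  refine ⟨valid_empty, ?_, R, n, ∅, fun _ => 0, hR0, ?_, ?_, hn0.le, ?_, by simp, by simp, ?_,
    by simp, ?_⟩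
  · intro J _ hJ1
    simp only [ld_empty, Nat.cast_zero, Finset.sum_const_zero]
    have hJn : J.card ≤ n := by simpa using Finset.card_le_univ J
    have hJ0 : (0 : ℝ) < J.card := by exact_mod_cast hJ1
    have h1 : 0 ≤ Real.log ((n : ℝ) / J.card) := by
      apply Real.log_nonneg
      rw [one_le_div hJ0]
      exact_mod_cast hJn
    positivity
  · have : 1 ≤ Real.exp (5 * L / 4) := Real.one_le_exp (by linarith)
    nlinarith
  · intro T _ hT
    simp only [ld_empty, Nat.cast_zero, zero_div, Real.exp_zero, Finset.sum_const, nsmul_eq_mul,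
      mul_one]
    exact_mod_cast hT
  · intro j
    unfold PA
    rw [unf_empty hn]
    have h1 : psi α b R j 0 ≤ 1 := by
      unfold psi
      have h2 : max (((0 : ℕ) : ℝ) - R / 4) 0 = 0 := by
        apply max_eq_right
        push_cast
        linarith
      rw [h2, mul_zero, mul_zero, add_zero]
      refine (min_le_left _ _).trans ?_
      unfold ph
      simp
    have h3 : ∑ v ∈ (univ : Finset (Fin n)), psi α b R j (ld ∅ v) ≤ n := by
      calc ∑ v ∈ (univ : Finset (Fin n)), psi α b R j (ld ∅ v) ≤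
            ∑ v ∈ (univ : Finset (Fin n)), (1 : ℝ) := by
              apply Finset.sum_le_sum
              intro v _
              rw [ld_empty]
              exact h1
        _ = n := by simp
    have h4 : 0 ≤ (R : ℝ) * ph α b j := mul_nonneg hR0.le (Real.exp_pos _).le
    linarith
  · intro v _ _
    rw [ld_empty]
    simp only [Nat.cast_zero, zero_div, Real.exp_zero]
    exact hM1
  · have hk := kap_pos n b
    have h1 : cr b (Real.exp 1 * ((R : ℝ) / b) ^ 4) 0 = 0 := by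
      apply cr_eq_zero hb (by linarith)
      simp only [Nat.cast_zero, zero_div, Real.exp_zero]
      rw [mul_div_assoc, mul_comm, div_mul_cancel₀ _ hE.ne']
      exact hrat4
    have h2 := rk4_start (n := n) (b := b) hR1
    have h3 := rk4_nonneg (b := b) R (∅ : Finset (Sym2 (Fin n))) ∅
    have h4 : (rk4 b R (∅ : Finset (Sym2 (Fin n))) ∅) ^ 4 ≤ 1 := pow_le_one₀ h3 h2
    unfold PC
    rw [fsh_empty hn, unf_empty hn]
    have h5 : ∑ v ∈ (univ : Finset (Fin n)) \ ∅,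
        cr b (Real.exp 1 * ((R : ℝ) / b) ^ 4) (ld ∅ v) = 0 := by
      apply Finset.sum_eq_zero
      intro v _
      rw [ld_empty]
      exact h1
    rw [h5]
    simp only [Finset.card_empty, Nat.cast_zero, Finset.sum_empty, mx_empty, sub_zero, mul_zero,
      add_zero, zero_add]
    apply mul_le_mul_of_nonneg_left _ hk.le
    have h6 : a2 * (rk4 b R (∅ : Finset (Sym2 (Fin n))) ∅) ^ 4 ≤ a2 * 1 :=
      mul_le_mul_of_nonneg_left h4 ha2
    linarith

theorem three_main {R : ℕ} {L : ℝ} (hn : 2 ≤ n) (hb : 1 ≤ b) (hbn : b ≤ n)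
    (hL : L = 1 + Real.log ((n : ℝ) / b)) (hR : 32 * b * L ≤ R)
    (hbig : Real.exp 1 * (Real.exp 1 * (5 * R / b) ^ 4 * Real.exp (5 * L)) ≤
      Real.exp (((n : ℝ) - 1) / b)) :
    (f n b : ℝ) ≤ kap n b * (15 * R * (Real.exp 1 * ((R : ℝ) / b) ^ 4) +
      5 * Real.exp 1 * (5 * R / b) ^ 4 * (1 + 4 * L * Real.exp (5 / 4) * n)) := by
  have hb0 : (0 : ℝ) < b := by exact_mod_cast hb
  have hL1 : 1 ≤ L := by
    rw [hL]
    have : 0 ≤ Real.log ((n : ℝ) / b) := by
      apply Real.log_nonneg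
      rw [one_le_div hb0]
      exact_mod_cast hbn
    linarith
  have hRb : 32 * b ≤ R := by
    have : (32 : ℝ) * b ≤ R := by
      refine le_trans ?_ hR
      have : (0 : ℝ) ≤ 32 * b := by positivity
      nlinarith
    exact_mod_cast this
  have hα0 : (0 : ℝ) ≤ 1 - 1 / (4 * L) := by
    have : 1 / (4 * L) ≤ 1 := by
      rw [div_le_one (by positivity)]
      linarith
    linarith
  set a2 : ℝ := 5 * (Real.exp 1 * (5 * R / b) ^ 4) with ha2
  set a3 : ℝ := 4 * L * Real.exp (5 / 4) * a2 with ha3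
  have ha20 : 0 ≤ a2 := by rw [ha2]; positivity
  have ha30 : 0 ≤ a3 := by rw [ha3]; positivity
  set Q0 : ℝ := kap n b * (15 * R * (Real.exp 1 * ((R : ℝ) / b) ^ 4) + a2 + a3 * n) with hQ0
  have hQe : kap n b * (15 * R * (Real.exp 1 * ((R : ℝ) / b) ^ 4) +
      5 * Real.exp 1 * (5 * R / b) ^ 4 * (1 + 4 * L * Real.exp (5 / 4) * n)) = Q0 := by
    rw [hQ0, ha3, ha2]
    ring
  rw [hQe]
  have hstart := inv3_start (R := R) (α := 1 - 1 / (4 * L)) (L := L) (a2 := a2) (a3 := a3)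
    hn hb hbn hL1 hRb ha20 hα0
  have hQ0n : 0 ≤ Q0 := by
    have := kap_pos n b
    rw [hQ0]
    positivity
  have hng : ¬ Guar n b (⌊Q0⌋₊ + 1) true ∅ ∅ := by
    refine not_guar (Inv3 b R (1 - 1 / (4 * L)) L a2 a3 Q0) ?_ ?_ hstart
    · intro A B h hf
      have h1 := inv3_end ha20 ha30 h hf
      have h2 : (U A).card ≤ ⌊Q0⌋₊ := Nat.le_floor h1
      omega
    · intro A B h hf
      rcases (Unf A B).eq_empty_or_nonempty with hU | hU
      · obtain ⟨e, he⟩ := Finset.nonempty_iff_ne_empty.2 hf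
        exact ⟨e, he, fun X hX _ => inv3_step_empty (by omega) ha20 h hU he hX⟩
      · obtain ⟨e, he, hstep⟩ := inv3_step hb hbn hL hL1 hRb hR rfl ha2 ha3 hbig h hU
        exact ⟨e, he, fun X hX hc => hstep X hX (hc.le.trans (min_le_left _ _))⟩
  have h1 := f_lt hng
  have h2 : f n b ≤ ⌊Q0⌋₊ := by omega
  calc (f n b : ℝ) ≤ (⌊Q0⌋₊ : ℝ) := by exact_mod_cast h2
    _ ≤ Q0 := Nat.floor_le hQ0n

end Pool.Agent.IG19
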