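import Pool.Agent.IG19.PotStep
import Pool.Agent.IG19.GameA

/-!
# IG19-UOne: the upper bound from the potential

`f_le_of_beta`: put `c = β b ≥ b ≥ 1` (`base`), `P₀ = 2 b n price/c ≥ 0`, `k = ⌊P₀⌋₊ + 1`; show
`¬ Guar n b k true ∅ ∅` by `not_guar` (then `f n b < k` by `f_lt`, so `f n b ≤ ⌊P₀⌋₊ ≤ P₀`).
Invariant: `Valid A B ∧ Lin b β A B ∧ ∃ ord, Set.InjOn ord (Hv c A B) ∧ Pot b c ord A B ≤ P₀`.

* At the end (`free A B = ∅`) every `v ∈ U A` is in `Fsh A B` (`ld_eq_of_free_empty`); the other two terms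
  of `Pot` are nonnegative (`mx_le_sum`; `price > 0`), so `(U A).card ≤ P₀ < k`.
* Move of `F` (`free A B ≠ ∅`): if `Unf A B = ∅` take any free edge; `Lin` holds trivially afterwards
  (`unf_step`).  Otherwise let `u` be a vertex of `Hv c A B` of maximal weight
  `wt b ord (Hv c A B) (free A B) u` if `Hv c A B` is nonempty (then `u ∈ Unf A B` and
  `β b = c ≤ ld B u`), and a vertex of `Unf A B` of maximal load otherwise; take `e` from
  `exists_good`, (`u ∈ e` is part of `Good`).  `lin_step` gives `Lin`, `heavy_card` gives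
  `|Hv c A' B'| ≤ b`, `pot_step` gives the potential.  `|X| ≤ b` from `X.card = min b _`.
* Start: all loads are `0 < c`, so `Hv c ∅ ∅ = ∅` and `Fsh ∅ ∅ = ∅` (`n - 1 ≠ 0`), `|Unf ∅ ∅| ≤ n`,
  and `Lin` holds as `β i ≥ 0` for `1 ≤ i ≤ n` (`nonneg`).
-/

namespace Pool.Agent.IG19

open Finset

variable {n b : ℕ} {A B X : Finset (Sym2 (Fin n))}

private theorem uone_price_pos (n b : ℕ) (c : ℝ) : 0 < price n b c := by
  unfold price
  positivity

private theorem uone_end {c : ℝ} (hc : 0 < c) {ord : Fin n → ℕ} (hV : Valid A B)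
    (hf : free A B = ∅) : ((U A).card : ℝ) ≤ Pot b c ord A B := by
  have h1 : U A ⊆ Fsh A B := by
    intro v hv
    unfold Fsh
    exact mem_filter.2 ⟨hv, ld_eq_of_free_empty hV hf hv⟩
  have h2 : ((U A).card : ℝ) ≤ ((Fsh A B).card : ℝ) := Nat.cast_le.2 (card_le_card h1)
  have h3 : mx (Hv c A B) (wt b ord (Hv c A B) (free A B)) ≤
      ∑ v ∈ Hv c A B, wt b ord (Hv c A B) (free A B) v :=
    mx_le_sum fun v _ => (Real.exp_pos _).le
  have h4 : 0 ≤ Real.exp 1 * (∑ v ∈ Hv c A B, wt b ord (Hv c A B) (free A B) v -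
      mx (Hv c A B) (wt b ord (Hv c A B) (free A B))) :=
    mul_nonneg (Real.exp_pos _).le (by linarith)
  have h5 : 0 ≤ price n b c / c *
      (∑ v ∈ Lg c A B, (ld B v : ℝ) + 2 * b * ((Unf A B).card : ℝ)) := by
    have := uone_price_pos n b c
    positivity
  unfold Pot
  linarith

private theorem uone_start {c : ℝ} (hn : 2 ≤ n) (hc : 0 < c) :
    Hv c (∅ : Finset (Sym2 (Fin n))) ∅ = ∅ ∧
      Pot b c (fun _ => 0) (∅ : Finset (Sym2 (Fin n))) ∅ ≤ 2 * b * n * (price n b c / c) := by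
  have h1 : Hv c (∅ : Finset (Sym2 (Fin n))) ∅ = ∅ := by
    rw [Finset.eq_empty_iff_forall_notMem]
    intro v hv
    unfold Hv at hv
    have h := (mem_filter.1 hv).2
    rw [ld_empty, Nat.cast_zero] at h
    linarith
  have h2 : Fsh (∅ : Finset (Sym2 (Fin n))) ∅ = ∅ := by
    rw [Finset.eq_empty_iff_forall_notMem]
    intro v hv
    unfold Fsh at hv
    have h := (mem_filter.1 hv).2
    rw [ld_empty] at h
    omega
  refine ⟨h1, ?_⟩
  have h3 : ((Unf (∅ : Finset (Sym2 (Fin n))) ∅).card : ℝ) ≤ n := by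
    have h : (Unf (∅ : Finset (Sym2 (Fin n))) ∅).card ≤ n := by
      simpa using card_le_univ (Unf (∅ : Finset (Sym2 (Fin n))) ∅)
    exact_mod_cast h
  have hp : 0 ≤ price n b c / c := (div_pos (uone_price_pos n b c) hc).le
  have h4 : 2 * (b : ℝ) * ((Unf (∅ : Finset (Sym2 (Fin n))) ∅).card : ℝ) ≤ 2 * b * n :=
    mul_le_mul_of_nonneg_left h3 (by positivity)
  have h5 := mul_le_mul_of_nonneg_left h4 hp
  unfold Pot
  rw [h1, h2]
  simp only [ld_empty, Nat.cast_zero, sum_const_zero, card_empty, sum_empty, mx_empty, sub_zero,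
    mul_zero, zero_add]
  linarith

theorem f_le_of_beta {β : ℕ → ℝ} {N : ℕ} (hn : 2 ≤ n) (hb : 1 ≤ b) (hbn : b ≤ n)
    (hβ : BetaProp n b β N) (h1 : β b ≤ (n : ℝ) - 1) :
    (f n b : ℝ) ≤ 2 * b * n * (price n b (β b) / β b) := by
  classical
  have hb0 : (1 : ℝ) ≤ b := by exact_mod_cast hb
  have hc : 0 < β b := by have := hβ.base; linarith
  set P₀ : ℝ := 2 * b * n * (price n b (β b) / β b) with hP₀
  have hP₀0 : 0 ≤ P₀ := by
    have := (div_pos (uone_price_pos n b (β b)) hc).le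
    positivity
  have key : ¬ Guar n b (⌊P₀⌋₊ + 1) true (∅ : Finset (Sym2 (Fin n))) ∅ := by
    refine not_guar (k := ⌊P₀⌋₊ + 1) (fun A B => Valid A B ∧ Lin b β A B ∧
      ∃ ord : Fin n → ℕ, Set.InjOn ord (Hv (β b) A B) ∧ Pot b (β b) ord A B ≤ P₀) ?_ ?_ ?_
    · rintro A B ⟨hV, _, ord, _, hP⟩ hf
      have h := (uone_end (b := b) (ord := ord) hc hV hf).trans hP
      have h2 := Nat.le_floor h
      omega
    · rintro A B ⟨hV, hlin, ord, hord, hP⟩ hf
      have hvalid : ∀ e ∈ free A B, ∀ X, X ⊆ free (insert e A) B →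
          Valid (insert e A) (B ∪ X) := fun e he X hX => (hV.insertA he).unionB hX
      rcases (Unf A B).eq_empty_or_nonempty with hU | hU
      · obtain ⟨e, he⟩ := nonempty_iff_ne_empty.2 hf
        refine ⟨e, he, fun X hX hXc => ?_⟩
        have hXb : X.card ≤ b := by rw [hXc]; exact min_le_left _ _
        have hU' : Unf (insert e A) (B ∪ X) = ∅ := by
          rw [Finset.eq_empty_iff_forall_notMem]
          intro v hv
          have := (unf_step hV he hX hv).1
          rw [hU] at this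
          simp at this
        have hlin' : Lin b β (insert e A) (B ∪ X) := by
          intro J hJ hJb
          rw [hU'] at hJ
          rw [subset_empty.1 hJ, card_empty] at hJb
          omega
        have hH' := heavy_card hβ hlin'
        obtain ⟨ord', ho1, ho2⟩ := pot_step hb hc h1 hord hV he hX hXb hH' (Or.inl hU)
        exact ⟨hvalid e he X hX, hlin', ord', ho1, ho2.trans hP⟩
      · have hex : ∃ u ∈ Unf A B,
            ((∀ w ∈ Unf A B, ld B w ≤ ld B u) ∨ β b ≤ (ld B u : ℝ)) ∧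
            (Hv (β b) A B = ∅ ∨ (u ∈ Hv (β b) A B ∧ ∀ v ∈ Hv (β b) A B,
              wt b ord (Hv (β b) A B) (free A B) v ≤
                wt b ord (Hv (β b) A B) (free A B) u)) := by
          rcases (Hv (β b) A B).eq_empty_or_nonempty with hH | hH
          · obtain ⟨u, hu, hmax⟩ := exists_max_image (Unf A B) (fun v => ld B v) hU
            exact ⟨u, hu, Or.inl hmax, Or.inl hH⟩
          · obtain ⟨u, hu, hmax⟩ := exists_max_image (Hv (β b) A B)
              (fun v => wt b ord (Hv (β b) A B) (free A B) v) hH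
            have hu' := hu
            unfold Hv at hu'
            obtain ⟨hu1, hu2⟩ := mem_filter.1 hu'
            exact ⟨u, hu1, Or.inr hu2, Or.inr ⟨hu, hmax⟩⟩
        obtain ⟨u, hu, hmax, hHu⟩ := hex
        have hu' := hu
        unfold Unf at hu'
        obtain ⟨huU, huld⟩ := mem_filter.1 hu'
        obtain ⟨e, hg⟩ := exists_good hV huU huld
        refine ⟨e, hg.1, fun X hX hXc => ?_⟩
        have hXb : X.card ≤ b := by rw [hXc]; exact min_le_left _ _
        have hlin' := lin_step hb hβ hV hlin hu hmax hg hX hXb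
        have hH' := heavy_card hβ hlin'
        obtain ⟨ord', ho1, ho2⟩ := pot_step hb hc h1 hord hV hg.1 hX hXb hH'
          (Or.inr ⟨u, hu, hg.2.1, hHu⟩)
        exact ⟨hvalid e hg.1 X hX, hlin', ord', ho1, ho2.trans hP⟩
    · obtain ⟨hH, hPs⟩ := uone_start (b := b) hn hc
      refine ⟨valid_empty, ?_, fun _ => 0, ?_, hPs⟩
      · intro J _ hJb
        simp only [ld_empty, Nat.cast_zero, sum_const_zero]
        have hJn : J.card ≤ n := by simpa using card_le_univ J
        exact mul_nonneg (Nat.cast_nonneg _) (hβ.nonneg _ (by omega) hJn)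
      · rw [hH]
        simp
  have h2 := f_lt key
  have h3 : f n b ≤ ⌊P₀⌋₊ := by omega
  exact (Nat.cast_le.2 h3).trans (Nat.floor_le hP₀0)

end Pool.Agent.IG19
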