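import Pool.Agent.IG19.BasicA
import Pool.Agent.IG19.BasicB
import Pool.Agent.IG19.BetaDef

/-!
# IG19-UOneDef: definitions for the potential of the first player
-/

namespace Pool.Agent.IG19

open Finset

variable {n : ℕ}

open Classical in
/-- The heavy vertices: untouched, unfinished, load at least `c`. -/
noncomputable def Hv (c : ℝ) (A B : Finset (Sym2 (Fin n))) : Finset (Fin n) :=
  (Unf A B).filter (fun v => c ≤ (ld B v : ℝ))

open Classical in
/-- The light vertices: untouched, unfinished, load less than `c`. -/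
noncomputable def Lg (c : ℝ) (A B : Finset (Sym2 (Fin n))) : Finset (Fin n) :=
  (Unf A B).filter (fun v => ¬ c ≤ (ld B v : ℝ))

/-- The edges of `Fr` at `v` on which `v` is the oldest vertex of `H` (`ord` is the age order, small
values are old). -/
def own (ord : Fin n → ℕ) (H : Finset (Fin n)) (Fr : Finset (Sym2 (Fin n))) (v : Fin n) : ℕ :=
  (Fr.filter (fun e => v ∈ e ∧ ∀ u ∈ H, u ∈ e → ord v ≤ ord u)).card

/-- The weight of a heavy vertex. -/
noncomputable def wt (b : ℕ) (ord : Fin n → ℕ) (H : Finset (Fin n)) (Fr : Finset (Sym2 (Fin n)))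
    (v : Fin n) : ℝ := Real.exp (-(own ord H Fr v : ℝ) / b)

/-- The maximum of `g` on `H` (`0` if `H` is empty), for nonnegative `g`. -/
noncomputable def mx {α : Type*} (H : Finset α) (g : α → ℝ) : ℝ := H.fold max 0 g

/-- The price of a vertex that becomes heavy. -/
noncomputable def price (n b : ℕ) (c : ℝ) : ℝ :=
  Real.exp 3 * Real.exp (-(((n : ℝ) - 1) - c) / b)

/-- The potential. -/
noncomputable def Pot (b : ℕ) (c : ℝ) (ord : Fin n → ℕ) (A B : Finset (Sym2 (Fin n))) : ℝ :=
  ((Fsh A B).card : ℝ) +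
    Real.exp 1 * (∑ v ∈ Hv c A B, wt b ord (Hv c A B) (free A B) v -
      mx (Hv c A B) (wt b ord (Hv c A B) (free A B))) +
    price n b c / c * (∑ v ∈ Lg c A B, (ld B v : ℝ) + 2 * b * ((Unf A B).card : ℝ))

/-- The linear invariant of the unfinished untouched vertices. -/
def Lin (b : ℕ) (β : ℕ → ℝ) (A B : Finset (Sym2 (Fin n))) : Prop :=
  ∀ J ⊆ Unf A B, b ≤ J.card → ∑ v ∈ J, (ld B v : ℝ) ≤ (J.card : ℝ) * β J.card

end Pool.Agent.IG19
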