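import Pool.Agent.IG19.Core
import Pool.Agent.IG19.GameA

/-!
# IG19-UTwo: F wins (no isolated vertex) if beta(1) < n - 1

`F` always kills an untouched vertex `u` of maximal load by the rule `Good`.
Invariant at the turns of `F`: the position is legal and for every nonempty `J ⊆ U A`, `i = |J|`:
* `i < b`: `inc B J ≤ i β(i)`;
* `i ≥ b`: `∑_J ld B ≤ i β(i)`.

`inc_step` (the case `i < b` after one round).  Let `J ⊆ U (insert e A)`, `1 ≤ |J| = i < b`, so `u ∉ J`.
Let `J⁺ = insert u J`.  `inc B J⁺ ≤ (i+1) β(i+1)`: for `i + 1 < b` by the invariant, for `i + 1 = b` by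
`inc_le_sum` and the invariant.  `inc B J + ld B u ≤ inc B J⁺ + i` (`inc_insert`), and
`(i+1) ld B u ≥ ∑_{J⁺} ld B ≥ inc B J⁺` as `u` has maximal load.  So
`inc B J ≤ inc B J⁺ i/(i+1) + i ≤ i β(i+1) + i` and `inc (B ∪ X) J ≤ inc B J + b ≤ i β(i)`
(`inc_union_le`, `BetaProp.small`).

`zero_of_beta`: `not_guar` with `k = 1` and this invariant.  Every `v ∈ U A` has `ld B v ≤ β 1 < n - 1`
(apply the invariant to `{v}`, `inc_singleton`, also if `b = 1`).  So if no edge is free then `U A = ∅`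
(`ld_eq_of_free_empty`).  If some edge is free: if `U A = ∅` take any free edge; else take `u` of maximal
load, `exists_good`; the case `i ≥ b` of the new invariant is `core` with `S = U A` and
`∑_J ld (B ∪ X) ≤ ∑_J ld B + 2 |X|` (`ld_union_le`, `sum_ld_le`), `|X| ≤ b`.
Initially all loads are `0` and `β(i) ≥ 0` for `1 ≤ i ≤ n` (`nonneg`).
-/

namespace Pool.Agent.IG19

open Finset

variable {n b : ℕ} {A B X : Finset (Sym2 (Fin n))}

theorem inc_step {β : ℕ → ℝ} {N : ℕ} (hβ : BetaProp n b β N)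
    (h1 : ∀ J ⊆ U A, 1 ≤ J.card → J.card < b → (inc B J : ℝ) ≤ (J.card : ℝ) * β J.card)
    (h2 : ∀ J ⊆ U A, b ≤ J.card → ∑ v ∈ J, (ld B v : ℝ) ≤ (J.card : ℝ) * β J.card)
    {u : Fin n} (hu : u ∈ U A) (hmax : ∀ w ∈ U A, ld B w ≤ ld B u)
    {e : Sym2 (Fin n)} (hue : u ∈ e) (hX : X.card ≤ b) {J : Finset (Fin n)}
    (hJ : J ⊆ U (insert e A)) (hJ1 : 1 ≤ J.card) (hJb : J.card < b) :
    (inc (B ∪ X) J : ℝ) ≤ (J.card : ℝ) * β J.card := by
  have huJ : u ∉ J := fun h => (mem_U_insert.1 (hJ h)).1 hue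
  have hJA : J ⊆ U A := hJ.trans U_insert_subset
  have hJpA : insert u J ⊆ U A := insert_subset hu hJA
  have hcard : (insert u J).card = J.card + 1 := card_insert_of_notMem huJ
  have hsum : inc B (insert u J) ≤ ∑ v ∈ insert u J, ld B v := inc_le_sum _
  have hp : (inc B (insert u J) : ℝ) ≤ ((J.card : ℝ) + 1) * β (J.card + 1) := by
    rcases Nat.lt_or_ge (J.card + 1) b with hlt | hge
    · have := h1 (insert u J) hJpA (by omega) (by omega)
      rw [hcard] at this
      push_cast at this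
      exact this
    · have := h2 (insert u J) hJpA (by omega)
      rw [hcard] at this
      push_cast at this
      refine le_trans ?_ this
      exact_mod_cast hsum
  have hmx : inc B (insert u J) ≤ (J.card + 1) * ld B u := by
    refine hsum.trans ?_
    have := Finset.sum_le_card_nsmul (insert u J) (fun v => ld B v) (ld B u)
      fun w hw => hmax w (hJpA hw)
    rwa [hcard, smul_eq_mul] at this
  have hins := inc_insert (B := B) huJ
  have hun := inc_union_le (B := B) (X := X) J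
  have hsm := hβ.small J.card hJ1 hJb
  have hmxR : (inc B (insert u J) : ℝ) ≤ ((J.card : ℝ) + 1) * (ld B u : ℝ) := by
    exact_mod_cast hmx
  have hinsR : (inc B J : ℝ) + (ld B u : ℝ) ≤ (inc B (insert u J) : ℝ) + (J.card : ℝ) := by
    exact_mod_cast hins
  have hunR : (inc (B ∪ X) J : ℝ) ≤ (inc B J : ℝ) + (X.card : ℝ) := by exact_mod_cast hun
  have hXR : (X.card : ℝ) ≤ b := by exact_mod_cast hX
  have hi : (0 : ℝ) ≤ (J.card : ℝ) := Nat.cast_nonneg _
  set i : ℝ := (J.card : ℝ) with hidef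
  set P : ℝ := (inc B (insert u J) : ℝ)
  -- `P * i ≤ i * ((i + 1) * β)` and `P ≤ (i + 1) * ld`
  have h3 : (i + 1) * (inc B J : ℝ) ≤ (i + 1) * (i * β (J.card + 1) + i) := by
    nlinarith [mul_le_mul_of_nonneg_left hp hi]
  have h4 : (inc B J : ℝ) ≤ i * β (J.card + 1) + i :=
    le_of_mul_le_mul_left h3 (by linarith)
  linarith

theorem zero_of_beta {β : ℕ → ℝ} {N : ℕ} (hn : 2 ≤ n) (hb : 1 ≤ b) (hbn : b ≤ n)
    (hβ : BetaProp n b β N) (h1 : β 1 < (n : ℝ) - 1) : f n b = 0 := by
  have hn1 : ((n - 1 : ℕ) : ℝ) = (n : ℝ) - 1 := by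
    rw [Nat.cast_sub (by omega)]
    simp
  have hld : ∀ A B : Finset (Sym2 (Fin n)),
      (∀ J ⊆ U A, 1 ≤ J.card → J.card < b → (inc B J : ℝ) ≤ (J.card : ℝ) * β J.card) →
      (∀ J ⊆ U A, b ≤ J.card → ∑ v ∈ J, (ld B v : ℝ) ≤ (J.card : ℝ) * β J.card) →
      ∀ v ∈ U A, ld B v ≠ n - 1 := by
    intro A B i1 i2 v hv he
    have hsub : ({v} : Finset (Fin n)) ⊆ U A := singleton_subset_iff.2 hv
    have hle : (ld B v : ℝ) ≤ β 1 := by
      rcases Nat.lt_or_ge 1 b with hlt | hge
      · have := i1 {v} hsub (by simp) (by simpa using hlt)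
        simpa [inc_singleton] using this
      · have := i2 {v} hsub (by simpa using hge)
        simpa using this
    rw [he, hn1] at hle
    linarith
  have key : ¬ Guar n b 1 true ∅ ∅ := by
    refine not_guar (k := 1) (fun A B => Valid A B ∧
      (∀ J ⊆ U A, 1 ≤ J.card → J.card < b → (inc B J : ℝ) ≤ (J.card : ℝ) * β J.card) ∧
      (∀ J ⊆ U A, b ≤ J.card → ∑ v ∈ J, (ld B v : ℝ) ≤ (J.card : ℝ) * β J.card))
      ?_ ?_ ?_
    · rintro A B ⟨hV, i1, i2⟩ hf
      rcases Nat.lt_or_ge (U A).card 1 with h | h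
      · exact h
      · exfalso
        obtain ⟨v, hv⟩ := card_pos.1 h
        exact hld A B i1 i2 v hv (ld_eq_of_free_empty hV hf hv)
    · rintro A B ⟨hV, i1, i2⟩ hf
      have hvalid : ∀ e ∈ free A B, ∀ X, X ⊆ free (insert e A) B →
          Valid (insert e A) (B ∪ X) := fun e he X hX => (hV.insertA he).unionB hX
      rcases (U A).eq_empty_or_nonempty with hU | hU
      · obtain ⟨e, he⟩ := nonempty_iff_ne_empty.2 hf
        refine ⟨e, he, fun X hX hc => ⟨hvalid e he X hX, ?_, ?_⟩⟩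
        · intro J hJ hJ1 _
          have : J = ∅ := subset_empty.1 (hU ▸ hJ.trans U_insert_subset)
          rw [this, card_empty] at hJ1
          omega
        · intro J hJ hJb
          have : J = ∅ := subset_empty.1 (hU ▸ hJ.trans U_insert_subset)
          rw [this, card_empty] at hJb
          omega
      · obtain ⟨u, hu, hmax⟩ := exists_max_image (U A) (fun v => ld B v) hU
        obtain ⟨e, hg⟩ := exists_good hV hu (hld A B i1 i2 u hu)
        refine ⟨e, hg.1, fun X hX hc => ⟨hvalid e hg.1 X hX, ?_, ?_⟩⟩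
        · intro J hJ hJ1 hJb
          exact inc_step hβ i1 i2 hu hmax hg.2.1 (by rw [hc]; exact min_le_left _ _) hJ hJ1 hJb
        · intro J hJ hJb
          have hJA : J ⊆ U A := hJ.trans U_insert_subset
          have hc1 := core hb hβ hV (S := U A) subset_rfl (fun _ _ v hv _ => hv) i2 hu
            (Or.inl hmax) hg hJA (fun v hv => (mem_U_insert.1 (hJ hv)).1) hJb
          have hle : ∑ v ∈ J, ld (B ∪ X) v ≤ ∑ v ∈ J, ld B v + 2 * X.card := by
            calc ∑ v ∈ J, ld (B ∪ X) v ≤ ∑ v ∈ J, (ld B v + ld X v) :=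
                  sum_le_sum fun v _ => ld_union_le v
              _ = ∑ v ∈ J, ld B v + ∑ v ∈ J, ld X v := sum_add_distrib
              _ ≤ _ := Nat.add_le_add_left (sum_ld_le J) _
          have hXb : X.card ≤ b := by rw [hc]; exact min_le_left _ _
          have hleR : ∑ v ∈ J, (ld (B ∪ X) v : ℝ) ≤ ∑ v ∈ J, (ld B v : ℝ) + 2 * b := by
            have h5 : ∑ v ∈ J, ld (B ∪ X) v ≤ ∑ v ∈ J, ld B v + 2 * b := by omega
            exact_mod_cast h5
          linarith
    · have hnn : ∀ J : Finset (Fin n), 1 ≤ J.card → (0 : ℝ) ≤ (J.card : ℝ) * β J.card := by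
        intro J hJ
        have hJn : J.card ≤ n := by simpa using card_le_univ J
        exact mul_nonneg (Nat.cast_nonneg _) (hβ.nonneg _ hJ hJn)
      refine ⟨valid_empty, ?_, ?_⟩
      · intro J _ hJ _
        have : inc (∅ : Finset (Sym2 (Fin n))) J = 0 := by simp [inc]
        rw [this, Nat.cast_zero]
        exact hnn J hJ
      · intro J _ hJ
        simp only [ld_empty, Nat.cast_zero, sum_const_zero]
        exact hnn J (by omega)
  have := f_lt key
  omega

end Pool.Agent.IG19
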